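import Pool.Agent.Work.MP_274aea_ag_D34.PrimeB

set_option autoImplicit false

open MvPolynomial Matrix Pool.Agent.GM16

namespace Pool.Agent.GM34

/-- The table of the certificate: seventy digits in base eight for each variable. -/
def cert2_T : Par ⊕ Aux → ℤ :=
  Sum.elim (fun s => if s = s0 then 0x1c2827136e440940a8da0842886848ca30991a2417122134e0690 else 0)
    (mkA (fun i => (!![0x351089211166150968a29a90345c6906dc41c8e220c302118720,
      0x199010844c36502208cc6d46649222120234132d850a6d2201093,
      0x221104648485046cc4c942165469b5100d109191a65b8d065c911,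
      0x182445237189148942088826e47234586080d450a70365c1048c0,
      0x1c8230448d18890dc1012233198634924da50c44b284643848662,
      0x1049291446232251a9126cc6930828614c444131309025a8e0009,
      0x14e088409c68991c5100095116dc2d370b2e151b28b3019218c3,
      0;
      0x22d131c24421a5190482530e36d93209128e04a0492299699660,
      0xa48301450a10390305890c29141c2c150381210928204181a481,
      0x1a062004020800800000000018008040008902,
      0x389c85190181365410091a08a49484825b2886c86db8d44d4508,
      0xc32429b0c04614a34da84148944a8c23230204c4120908318282,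
      0x30d12496822d340171a71861845b25291a4034c9881823318919,
      0x1c0e04ca4c26816c90c28a28c32014090817186c38584c40d1523,
      0;
      0xa9106186830124dc20a0d98408914e224b6804480e388205a65b,
      0x1c80050c6010222642d92c00cc4c405221a8612a04444d1894814,
      0x1c60a05445871101989020889464c2ca7087196a38542d02626a0,
      0xb4e05108040d140801b5093023008e27104584544a22594512a4,
      0x20442a111c0991210500100038486d03238946cb0d124b204081,
      0x5248dc8236028e010348b0004116a008085265089a28c314099,
      0x202534621102c08c806289900c7234428c87133202515241130c2,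
      0;
      0x2624208c14c091065b8026cb90c20a6c42e382131b0d4851313,
      0xc70b6828629225218a22216422606138440892928c22c920c853,
      0x389c85190181364a50491c08289464c25b2886d06cb9114e4488,
      0x23624002008400001000000008018103020842,
      0x30e02c991b25885a1036928d171b09b00232051c8c041a0a1721,
      0x2904002008200200000000008018100020842,
      0xc00a9099124e402182310b50a1088e325a2c44d9102890313488,
      0;
      0x112142e25049115216900990da84b8d84a46e44ca2616ca25b00b,
      0x181100db6196e00036cc6100e292010262108070c6d2403488701,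
      0x228869b49892461c0534595198494924812a42c164828841a913,
      0x1969264c6a311b2c826090161a4d98198c060c118881721490261,
      0x1401485305b4611092616426d36e010104a604619400621503808,
      0x128db08162205b22101a8db40825971102009809c8db4a065b711,
      0x969260181468c28b8624a20c291082141a71271b2c80506e421b,
      0] : Matrix (Fin 5) (Fin 8) ℤ) i.1 i.2)
      !![0x401,
      0x1941901c8119224180044201184d18c131191190b51a0480514c1,
      0x389c8519018136642c491908a29484c25b2886d06e38d14d4909;
      0x1941901c8119224180044201184d18c131191190b51a0480524e0,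
      0x1470189a8441204494046583110800404c1853480901111918293,
      0x66248191b21262371c29184424840349c8c42d28094800c0924;
      0x1941901c8119224180044201184d18c131191190b51a0480520e0,
      0x210446d481c0116818ca01028364310b40b30a25a0d285a2634a0,
      0x929264845020988812424486029b21b50c71b24352044071b403]
      ![0xc4cc01846380a8c96cc8cc0832e26642cb0e4641292891102510,
      0x389c8519018136504ca91808a09484c25b2886e06c38d14dc6cb,
      0x98005240cb91480c4c145a2620c109c68428408c8d08e26e171b,
      0x389c8519018136642c491908a29484c25b2886d06e38d44d4909]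
      0x1920b004000800000000000010008000000401
      !![0xc4538dc88c6242616418012c410c1122cc4634936d9853041891,
      0x209c9244c389a61245945141891211b25360268c2e430a848492,
      0x20a100891c29328391320b04b45b2646c889481c324612320622,
      0x1881464b69470c50860a61b7135099202406038096c1523001112,
      0x22d131c24421a5188832500e30d93219128e048848229c6914a2,
      0x8d16c30538dc49a4592449130124d86028ca8d94610240426c4,
      0x1c4008034932944d46c09108596a30c42939108d9259909623653,
      0x22d131c24431a5118844540e30d93219128e048448a29c6910a1,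
      0x20001000000000000000000020000000000000;
      0x88d109a2443088c948845c6a20444844d92d28e14cc48164c51b,
      0x1810109880a2a48d330348b0cb4934825040c921170a252208109,
      0x2085808a04c12170886311c89102065810b69c80b6c0511092052,
      0xc49c0516dc0230da0028640e149a30a2c44e064031a69b64265a,
      0x246239238944090894982c010b30110168820a4d86916222914cc,
      0x1208388161971b8626482c28500894c00644c04425012a32c2618,
      0x280049b0586994644820538531106cb5035030d37238e10646a3,
      0x114238a32888d90648c06090142c264065068b31c2994d8883200,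
      0x220190e061c8224801192182199032644226d20d94908e48d34a0;
      0x2212489181190202329a6026610d031440a12351820801b8a48e2,
      0x261424800a21c4416e32db32464870890c8c18d310b50b0e26a1,
      0,
      0,
      0,
      0,
      0,
      0,
      0])

/-- The vector number `j` of the certificate. -/
def cert2_w (i : Par ⊕ Aux) (j : ℕ) : ℤ := cert2_T i / 8 ^ j % 8

/-- The numbering of the equations. -/
def cert2_ix : Eq2 → ℕ :=
  Sum.elim (fun a => a.val) <| Sum.elim (fun a => 3 + a.val) <|
    Sum.elim (fun a => 9 + 9 * a.1.val + a.2.val) <| Sum.elim (fun a => 36 + a.val)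
      fun a => 45 + a.val

/-- All vectors of the certificate in one vector. -/
def cert2_V (i : Par ⊕ Aux) : ℤ := ∑ j ∈ Finset.range 70, (2 ^ 64) ^ j * cert2_w i j

/-- The packed values of the derivative, with an offset that makes all digits positive. -/
def cert2_E (k : Eq2) : ℤ :=
  (F2 (dn x2 cert2_V) k).snd + ∑ j ∈ Finset.range 70, (2 ^ 64) ^ j * (5 * 2 ^ 60)

theorem cert2_chk : ∀ k k' : Eq2, cert2_E k / (2 ^ 64) ^ cert2_ix k' % 2 ^ 64 % 5 =
    if k = k' then 1 else 0 := by
  decide +kernel

theorem cert2_ix_lt : ∀ k : Eq2, cert2_ix k < 70 := by decide +kernel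

theorem cert2_x2 : ∀ i : Par ⊕ Aux, |(x2 i : ℤ)| ≤ 3 := by decide +kernel

/-- The ring that carries all directions at once. -/
abbrev cert2_R := TrivSqZeroExt ℤ (ℕ → ℤ)

/-- The witness with all directions. -/
def cert2_X (i : Par ⊕ Aux) : cert2_R := TrivSqZeroExt.inl (x2 i) + TrivSqZeroExt.inr (cert2_w i)

/-- A combination of the directions. -/
def cert2_hom {S : Type*} [CommRing S] (t : ℕ → S) : cert2_R →+* DualNumber S where
  toFun x := TrivSqZeroExt.inl (x.fst : S) +
    TrivSqZeroExt.inr (∑ j ∈ Finset.range 70, t j * (x.snd j : S))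
  map_one' := by ext <;> simp
  map_zero' := by ext <;> simp
  map_add' x y := by ext <;> simp [mul_add, Finset.sum_add_distrib]
  map_mul' x y := by
    ext
    · simp
    · simp only [TrivSqZeroExt.snd_mul, TrivSqZeroExt.snd_add, TrivSqZeroExt.fst_add,
        TrivSqZeroExt.fst_inl, TrivSqZeroExt.fst_inr, TrivSqZeroExt.snd_inl,
        TrivSqZeroExt.snd_inr, add_zero, zero_add, smul_eq_mul, op_smul_eq_smul, Pi.add_apply,
        Pi.smul_apply, Finset.mul_sum, ← Finset.sum_add_distrib, Int.cast_add, Int.cast_mul]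
      exact Finset.sum_congr rfl fun j _ => by ring

theorem cert2_lin {S : Type*} [CommRing S] (t : ℕ → S) (k : Eq2) :
    (F2 (dn x2 fun i => ∑ j ∈ Finset.range 70, t j * (cert2_w i j : S)) k).snd =
      ∑ j ∈ Finset.range 70, t j * ((F2 cert2_X k).snd j : S) := by
  have e : cert2_hom t ∘ cert2_X =
      dn x2 fun i => ∑ j ∈ Finset.range 70, t j * (cert2_w i j : S) := by
    funext i
    have h := congrFun (map_x2 (Int.castRingHom S)) i
    ext
    · simpa [cert2_hom, cert2_X, dn] using h
    · simp [cert2_hom, cert2_X, dn]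
  rw [← e, ← map_F2]
  simp [cert2_hom]

/-- A bound for the value and for the direction `j`. -/
def cert2_L (j : ℕ) (c : ℤ) (x : cert2_R) : Prop := |x.fst| + |x.snd j| ≤ c

section Bound

variable {j : ℕ} {a b : ℤ} {x y : cert2_R}

theorem cert2_mono (h : cert2_L j a x) (hab : a ≤ b) : cert2_L j b x := le_trans h hab

theorem cert2_zero (h : 0 ≤ a) : cert2_L j a 0 := by simpa [cert2_L] using h

theorem cert2_one (h : 1 ≤ a) : cert2_L j a 1 := by simpa [cert2_L] using h

theorem cert2_neg (h : cert2_L j a x) : cert2_L j a (-x) := by simpa [cert2_L] using h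

theorem cert2_add (h : cert2_L j a x) (k : cert2_L j b y) : cert2_L j (a + b) (x + y) := by
  simp only [cert2_L, TrivSqZeroExt.fst_add, TrivSqZeroExt.snd_add, Pi.add_apply] at h k ⊢
  have h1 := abs_add_le x.fst y.fst
  have h2 := abs_add_le (x.snd j) (y.snd j)
  linarith

theorem cert2_sub (h : cert2_L j a x) (k : cert2_L j b y) : cert2_L j (a + b) (x - y) := by
  rw [sub_eq_add_neg]
  exact cert2_add h (cert2_neg k)

theorem cert2_mul (h : cert2_L j a x) (k : cert2_L j b y) : cert2_L j (a * b) (x * y) := by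
  simp only [cert2_L, TrivSqZeroExt.fst_mul, TrivSqZeroExt.snd_mul, Pi.add_apply, Pi.smul_apply,
    op_smul_eq_smul, smul_eq_mul] at h k ⊢
  have h1 := abs_add_le (x.fst * y.snd j) (y.fst * x.snd j)
  rw [abs_mul, abs_mul] at h1
  rw [abs_mul]
  have h2 := mul_le_mul h k (by positivity) (le_trans (by positivity) h)
  have h3 : 0 ≤ |x.snd j| * |y.snd j| := by positivity
  nlinarith

theorem cert2_sum {n : ℕ} {f : Fin n → cert2_R} (h : ∀ i, cert2_L j a (f i)) :
    cert2_L j (n * a) (∑ i, f i) := by
  induction n with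
  | zero => simp [cert2_L]
  | succ n ih =>
    rw [Fin.sum_univ_succ]
    refine cert2_mono (cert2_add (h 0) (ih fun i => h i.succ)) (le_of_eq ?_)
    push_cast
    ring

theorem cert2_mm {ι κ : Type*} {n : ℕ} {A : Matrix ι (Fin n) cert2_R}
    {B : Matrix (Fin n) κ cert2_R} (h : ∀ r s, cert2_L j a (A r s))
    (k : ∀ r s, cert2_L j b (B r s)) (r : ι) (s : κ) : cert2_L j (n * (a * b)) ((A * B) r s) :=
  cert2_sum fun i => cert2_mul (h r i) (k i s)

theorem cert2_vm {κ : Type*} {n : ℕ} {A : Fin n → cert2_R}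
    {B : Matrix (Fin n) κ cert2_R} (h : ∀ s, cert2_L j a (A s))
    (k : ∀ r s, cert2_L j b (B r s)) (s : κ) : cert2_L j (n * (a * b)) ((A ᵥ* B) s) :=
  cert2_sum fun i => cert2_mul (h i) (k i s)

end Bound

section Entries

variable {R : Type*} [CommRing R] {P : R → Prop}

theorem cert2_Gl (h0 : P 0) (h1 : P 1) {l : Fin 4 → R} (hl : ∀ i, P (l i)) (hn : ∀ i, P (-l i)) :
    ∀ r s, P (Gl l r s) := by
  simp [Gl, Fin.forall_fin_succ, h0, h1, hl, hn]

theorem cert2_P0 (h0 : P 0) (h1 : P 1) (hn : P (-1)) (r s : Fin 10) : P (P0 r s) := by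
  simp only [P0, of_apply]
  split_ifs <;> assumption

theorem cert2_jm (h0 : P 0) (h1 : P 1) {J : M3 R} (hl : ∀ r s, P (J r s))
    (hn : ∀ r s, P (-J r s)) : ∀ r s, P (jm J r s) := by
  simp [jm, Fin.forall_fin_succ, h0, h1, hl, hn]

theorem cert2_io {ι : Type*} (h0 : P 0) {g : Matrix (Fin 3) ι R} {d : Matrix (Fin 4) ι R}
    (hl : ∀ r s, P (g r s)) (hn : ∀ r s, P (-g r s)) (hd : ∀ r s, P (d r s)) :
    ∀ r s, P (io g d r s) := by
  simp [io, Fin.forall_fin_succ, h0, hl, hn, hd]

omit [CommRing R] in
theorem cert2_Dr {ι : Type*} {A : Matrix (Fin 10) ι R} (hl : ∀ r s, P (A r s)) :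
    ∀ r s, P (Dr A r s) := by
  simp [Dr, Fin.forall_fin_succ, hl]

omit [CommRing R] in
theorem cert2_Xr {ι : Type*} {A : Matrix (Fin 10) ι R} (hl : ∀ r s, P (A r s)) :
    ∀ r s, P (Xr A r s) := by
  simp [Xr, Fin.forall_fin_succ, hl]

theorem cert2_Yr {ι : Type*} {A : Matrix (Fin 10) ι R} (hl : ∀ r s, P (A r s))
    (hn : ∀ r s, P (-A r s)) : ∀ r s, P (Yr A r s) := by
  simp [Yr, Fin.forall_fin_succ, hl, hn]

end Entries

theorem cert2_cub {j : ℕ} {a b : Fin 8 → cert2_R} (ha : ∀ i, cert2_L j 10 (a i))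
    (hb : ∀ i, cert2_L j 10 (b i)) : ∀ s, cert2_L j 1200 (cub a b s) := by
  have h := fun r s => cert2_mul (ha r) (hb s)
  simp only [cub, Fin.forall_fin_succ, cons_val_zero, cons_val_succ, IsEmpty.forall_iff, and_true]
  refine ⟨?_, ?_, ?_, ?_, ?_, ?_, ?_, ?_, ?_⟩ <;>
    exact cert2_mono (by
      repeat' with_reducible
        first | exact h _ _ | apply cert2_add | apply cert2_sub | apply cert2_neg)
      (by norm_num)

theorem cert2_bd (j : ℕ) {x : Par ⊕ Aux → cert2_R} (hx : ∀ i, cert2_L j 10 (x i)) (k : Eq2) :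
    cert2_L j (2 ^ 60) (F2 x k) := by
  have hG' : ∀ r s, cert2_L j 10 (Gl (aL (x ∘ Sum.inr)) r s) :=
    cert2_Gl (cert2_zero (by norm_num)) (cert2_one (by norm_num)) (fun _ => hx _)
      fun _ => cert2_neg (hx _)
  have hh : ∀ s, cert2_L j _ (hG (aL (x ∘ Sum.inr)) (hv (x ∘ Sum.inl)) s) :=
    cert2_vm (fun _ => hx _) hG'
  have hq : ∀ r s, cert2_L j _
      (qG (aL (x ∘ Sum.inr)) (aC (x ∘ Sum.inr)) (qm (x ∘ Sum.inl)) r s) := fun r s =>
    cert2_add (cert2_mm (cert2_mm (fun r s => hG' s r) (B := qm (x ∘ Sum.inl)) fun _ _ => hx _)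
      hG' r s) (cert2_mul (hx _) (cert2_P0 (P := cert2_L j 1) (cert2_zero (by norm_num))
        (cert2_one le_rfl) (cert2_neg (cert2_one le_rfl)) r s))
  have hP : ∀ r s, cert2_L j 1200 (Phi (aM (x ∘ Sum.inr)) r s) := fun r =>
    cert2_cub (fun _ => hx _) fun _ => hx _
  have hJ : ∀ r s, cert2_L j 10 (aJ (x ∘ Sum.inr) r s) := fun _ _ => hx _
  have hY : ∀ r s, cert2_L j 1200 (aY (x ∘ Sum.inr) r s) := fun _ _ =>
    cert2_mono (hx _) (by norm_num)
  unfold F2
  generalize hG (aL (x ∘ Sum.inr)) (hv (x ∘ Sum.inl)) = h at hh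
  generalize qG (aL (x ∘ Sum.inr)) (aC (x ∘ Sum.inr)) (qm (x ∘ Sum.inl)) = q at hq
  generalize Phi (aM (x ∘ Sum.inr)) = p at hP
  generalize aJ (x ∘ Sum.inr) = J at hJ
  generalize aY (x ∘ Sum.inr) = Y at hY
  have hj : ∀ r s, cert2_L j 10 (jm J r s) :=
    cert2_jm (cert2_zero (by norm_num)) (cert2_one (by norm_num)) hJ fun _ _ => cert2_neg (hJ _ _)
  have hW : ∀ r s, cert2_L j 1200 (io Y (-Dr p) r s) :=
    cert2_io (cert2_zero (by norm_num)) hY (fun _ _ => cert2_neg (hY _ _))
      fun r s => cert2_neg (cert2_Dr hP r s)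
  have hA : ∀ r s, cert2_L j _ (((jm J)ᵀ * (q + qᵀ)) r s) :=
    cert2_mm (fun r s => hj s r) fun r s => cert2_add (hq r s) (hq s r)
  have hX := cert2_Xr hP
  rcases k with k | k | k | k | k
  · exact cert2_mono (cert2_vm hh hj k) (by norm_num)
  · exact cert2_mono (cert2_mm hA hj _ _) (by norm_num)
  · exact cert2_mono (cert2_sub (cert2_mm hA hW k.1 k.2) (cert2_add
      (cert2_Yr hP (fun _ _ => cert2_neg (hP _ _)) k.1 k.2)
      (cert2_mm (A := Jᵀ) (fun r s => hJ s r) hX k.1 k.2))) (by norm_num)
  · exact cert2_mono (cert2_vm hh hW k) (by norm_num)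
  · have hS : ∀ r s, cert2_L j (2 ^ 50)
        (((Xr p)ᵀ * Y - (io Y (-Dr p))ᵀ * q * io Y (-Dr p)) r s) := fun r s =>
      cert2_mono (cert2_sub (cert2_mm (A := (Xr p)ᵀ) (fun r s => hX s r) hY r s)
        (cert2_mm (cert2_mm (A := (io Y (-Dr p))ᵀ) (fun r s => hW s r) hq) hW r s)) (by norm_num)
    refine cert2_mono (cert2_sum fun r => cert2_sum (a := 2 ^ 50) fun s => ?_) (by norm_num)
    split_ifs
    · exact hS r s
    · exact cert2_zero (by norm_num)

theorem cert2_N (k : Eq2) (j : ℕ) : |(F2 cert2_X k).snd j| ≤ 2 ^ 60 := by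
  have h := cert2_bd j (x := cert2_X) (fun i => by
    have h1 := cert2_x2 i
    have h2 : 0 ≤ cert2_w i j := Int.emod_nonneg _ (by norm_num)
    have h3 : cert2_w i j < 8 := Int.emod_lt_of_pos _ (by norm_num)
    simp only [cert2_L, cert2_X, TrivSqZeroExt.fst_add, TrivSqZeroExt.snd_add,
      TrivSqZeroExt.fst_inl, TrivSqZeroExt.fst_inr, TrivSqZeroExt.snd_inl, TrivSqZeroExt.snd_inr,
      add_zero, zero_add, abs_of_nonneg h2]
    omega) k
  exact le_trans (le_add_of_nonneg_left (abs_nonneg _)) h

theorem cert2_digit {B : ℤ} (hB : 0 < B) (j : ℕ) : ∀ (m : ℕ) (d : ℕ → ℤ),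
    (∀ i, 0 ≤ d i ∧ d i < B) → j < m → (∑ i ∈ Finset.range m, B ^ i * d i) / B ^ j % B = d j := by
  have e : ∀ (m : ℕ) (d : ℕ → ℤ), ∑ i ∈ Finset.range (m + 1), B ^ i * d i =
      d 0 + B * ∑ i ∈ Finset.range m, B ^ i * d (i + 1) := fun m d => by
    rw [Finset.sum_range_succ', Finset.mul_sum, pow_zero, one_mul, add_comm]
    exact congrArg _ (Finset.sum_congr rfl fun i _ => by ring)
  induction j with
  | zero =>
    rintro (_ | m) d hd hm
    · omega
    · rw [e, pow_zero, Int.ediv_one, Int.add_mul_emod_self_left,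
        Int.emod_eq_of_lt (hd 0).1 (hd 0).2]
  | succ j ih =>
    rintro (_ | m) d hd hm
    · omega
    · rw [e, pow_succ', ← Int.ediv_ediv_of_nonneg hB.le, Int.add_mul_ediv_left _ _ hB.ne',
        Int.ediv_eq_zero_of_lt (hd 0).1 (hd 0).2, zero_add]
      exact ih m (fun i => d (i + 1)) (fun i => hd _) (by omega)

theorem cert2_mod (k k' : Eq2) :
    (F2 cert2_X k).snd (cert2_ix k') % 5 = if k = k' then 1 else 0 := by
  have e : cert2_E k = ∑ j ∈ Finset.range 70,
      (2 ^ 64 : ℤ) ^ j * ((F2 cert2_X k).snd j + 5 * 2 ^ 60) := by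
    have h := cert2_lin (fun j => (2 ^ 64 : ℤ) ^ j) k
    simp only [Int.cast_id] at h
    rw [cert2_E, show cert2_V = fun i => ∑ j ∈ Finset.range 70, (2 ^ 64) ^ j * cert2_w i j from
      rfl, h, ← Finset.sum_add_distrib]
    exact Finset.sum_congr rfl fun j _ => (mul_add _ _ _).symm
  have h := cert2_chk k k'
  rw [e, cert2_digit (by norm_num) _ 70 (fun j => (F2 cert2_X k).snd j + 5 * 2 ^ 60)
    (fun j => by have := abs_le.1 (cert2_N k j); constructor <;> omega) (cert2_ix_lt k'),
    Int.add_mul_emod_self_left] at h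
  exact h

/-- The matrix of the derivative on the seventy vectors. -/
def cert2_M : Matrix Eq2 Eq2 ℤ := Matrix.of fun k k' => (F2 cert2_X k).snd (cert2_ix k')

theorem cert2_det : cert2_M.det ≠ 0 := by
  intro h
  have e : (Int.castRingHom (ZMod 5)).mapMatrix cert2_M = 1 := by
    ext k k'
    have h1 := cert2_mod k k'
    rw [RingHom.mapMatrix_apply, map_apply, one_apply, eq_intCast, ← ZMod.intCast_mod]
    refine (congrArg (Int.cast : ℤ → ZMod 5) h1).trans ?_
    split_ifs <;> simp
  have h2 := (Int.castRingHom (ZMod 5)).map_det cert2_M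
  rw [e, h, det_one, map_zero] at h2
  exact absurd h2 (by decide)

/-- The derivative of the large system in the auxiliary variables and the coordinate `s0` has rank
seventy. -/
theorem cert2 (r : Eq2 → ℂ) : ∃ v : Par ⊕ Aux → ℂ, (∀ s, s ≠ s0 → v (Sum.inl s) = 0) ∧
    ∀ k, (F2 (dn x2 v) k).snd = r k := by
  have hd : ((Int.castRingHom ℂ).mapMatrix cert2_M).det ≠ 0 := by
    rw [← RingHom.map_det, eq_intCast]
    exact_mod_cast cert2_det
  obtain ⟨y, hy⟩ := (mulVec_surjective_iff_isUnit.2
    ((isUnit_iff_isUnit_det _).2 (isUnit_iff_ne_zero.2 hd))) r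
  refine ⟨fun i => ∑ j ∈ Finset.range 70,
    (∑ k', if j = cert2_ix k' then y k' else 0) * (cert2_w i j : ℂ), fun s hs => ?_, fun k => ?_⟩
  · refine Finset.sum_eq_zero fun j _ => ?_
    have : cert2_w (Sum.inl s) j = 0 := by simp [cert2_w, cert2_T, hs]
    rw [this, Int.cast_zero, mul_zero]
  · rw [cert2_lin, ← hy]
    simp only [Finset.sum_mul, ite_mul, zero_mul, mulVec, dotProduct]
    rw [Finset.sum_comm]
    refine Finset.sum_congr rfl fun k' _ => ?_
    rw [Finset.sum_ite_eq', if_pos (Finset.mem_range.2 (cert2_ix_lt k')), mul_comm]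
    rfl

end Pool.Agent.GM34
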