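import Pool.Agent.Work.MP_274aea_ag_D34.Num

set_option autoImplicit false

open MvPolynomial Matrix Pool.Agent.GM16

namespace Pool.Agent.GM34

/-! Numerical facts about the witness. Prove them over `ℤ` by `decide +kernel` (in stages, with
explicit intermediate vectors) and move to `ℂ` by the naturality lemmas for `Int.castRingHom ℂ`. -/

/-- The quadric of the section at the witness. -/
def num2_q : M10 ℤ :=
  !![0, -1, 1, 0, 0, 0, 1, -1, 0, 0; 0, 0, 0, 0, 0, 0, 0, 0, 0, 0; 0, 0, 0, 0, 0, 0, 0, 0, 0, 0;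
    0, 0, 0, 0, 0, 0, 0, 0, 0, 0; 0, 0, 0, 0, 0, 0, 0, 0, 0, 0; 0, -1, 1, 0, 0, 0, 1, -1, 0, 0;
    1, 0, 0, 1, -1, 1, 0, -1, 0, 0; 0, 1, -1, 0, 0, 0, -1, 1, 0, 0; 0, 0, 0, 0, 0, 0, 0, 0, 0, 0;
    0, 0, 0, 0, 0, 0, 0, 0, 0, 0]

theorem num2_rb : (B0 : Matrix (Fin 9) (Fin 10) ℤ)ᵀ * (R0 : Matrix (Fin 9) (Fin 9) ℤ) =
    Matrix.of fun i j => if j = 8 then (B0 : Matrix (Fin 9) (Fin 10) ℤ) 0 i else
      if j = 4 then -(B0 : Matrix (Fin 9) (Fin 10) ℤ) 3 i else 0 := by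
  decide +kernel

theorem num2_q_eq : (B0 : Matrix (Fin 9) (Fin 10) ℤ)ᵀ * (R0 : Matrix (Fin 9) (Fin 9) ℤ) *
    (B0 : Matrix (Fin 9) (Fin 10) ℤ) = num2_q := by
  rw [num2_rb]
  decide +kernel

theorem num2_secQ : secQ (m0 : Mi → ℂ) = num2_q.map (Int.castRingHom ℂ) := by
  rw [secQ, Psi, num_B, adjugate_one, Matrix.one_mul, ← num2_q_eq, Matrix.map_mul, Matrix.map_mul,
    transpose_map, map_B0, map_R0]

theorem num2_Phi : Phi (m0 : Mi → ℤ) =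
    !![0, 0, 1, 0, 0, 0, -1, 0, 0; 1, 0, 0, 0, 0, -1, 1, 0, -1; 0, 0, 0, 1, 0, -1, 0, 0, 0;
      -1, 0, -1, 0, 1, 0, 0, 1, 0; 0, 0, -1, 0, 0, 0, 0, 1, 0; 0, 0, -1, 0, 0, 0, 0, 0, 0;
      0, 0, 0, -1, 0, 0, 0, 0, 0; -1, 0, 0, 0, 0, 0, -1, 0, 0; -1, -1, -1, -1, 1, 0, 0, 0, 1;
      -1, 0, -1, -1, 0, 0, 0, 0, 0] := by
  decide +kernel

theorem num2_am : am (m0 : Mi → ℤ) y0 = ![1, 1, 1, -2, 0, 0, 1, 0] := by
  decide +kernel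

theorem num2_z0 : Zv (![1, 1, 1, -2, 0, 0, 1, 0] : Fin 8 → ℤ) ![1, 0, 0] =
    ![-5, -1, 2, -2, -2, 4, 4, 0, 0] := by
  decide +kernel

theorem num2_z1 : Zv (![1, 1, 1, -2, 0, 0, 1, 0] : Fin 8 → ℤ)
    (Nm ![1, 1, 1, -2, 0, 0, 1, 0] *ᵥ ![1, 0, 0]) = ![-5, -5, 10, 2, -2, -4, 4, 4, 0] := by
  decide +kernel

theorem num2_p0 : Phi (m0 : Mi → ℤ) *ᵥ ![-5, -1, 2, -2, -2, 4, 4, 0, 0] =
    ![-2, -5, -6, 1, -2, -2, 2, 1, 4, 5] := by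
  rw [num2_Phi]
  decide +kernel

theorem num2_p1 : Phi (m0 : Mi → ℤ) *ᵥ ![-5, -5, 10, 2, -2, -4, 4, 4, 0] =
    ![6, 3, 6, -3, -6, -10, -2, 1, -4, -7] := by
  rw [num2_Phi]
  decide +kernel

theorem num2_lP : lamq (P0 : M10 ℤ) ![-2, -5, -6, 1, -2, -2, 2, 1, 4, 5]
    ![6, 3, 6, -3, -6, -10, -2, 1, -4, -7] = ![0, 16, 0] := by
  decide +kernel

theorem num2_lQ : lamq num2_q ![-2, -5, -6, 1, -2, -2, 2, 1, 4, 5]
    ![6, 3, 6, -3, -6, -10, -2, 1, -4, -7] = ![-4, 0, 4] := by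
  decide +kernel

theorem num2_e : evec (m0 : Mi → ℤ) num2_q ![1, 1, 1, -2, 0, 0, 1, 0] = ![64, 0, 64] := by
  rw [evec, num2_z0, num2_z1, num2_p0, num2_p1, num2_lP, num2_lQ, cross_apply]
  decide +kernel

theorem num2_C : Cm (![1, 1, 1, -2, 0, 0, 1, 0] : Fin 8 → ℤ) ![64, 0, 64] *ᵥ ![1, 0, 0] =
    ![4096, 16384, 8192] := by
  decide +kernel

theorem num2_z : zst (m0 : Mi → ℤ) num2_q y0 =
    ![-28672, 36864, -73728, -57344, -8192, 114688, 16384, -32768, -16384] := by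
  rw [zst, num2_am, num2_e, num2_C]
  decide +kernel

theorem num2_p : pst (m0 : Mi → ℤ) num2_q y0 0 = -90112 := by
  rw [pst, num2_z, num2_Phi]
  decide +kernel

theorem num2_r : ratc (m0 : Mi → ℤ) num2_q y0 ≠ 0 := by
  rw [ratc, num2_z, num2_am, det_fin_three]
  decide +kernel

theorem num2_g : gpr (H0 : Fin 10 → ℤ) num2_q ≠ 0 := by
  decide +kernel

theorem num_cond1 : cond1 (m0 : Mi → ℂ) (secH m0) (secQ m0) y0 ≠ 0 := by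
  have h := map_cond1 (Int.castRingHom ℂ) m0 H0 num2_q y0
  rw [map_m0, map_H0, map_y0] at h
  rw [num_secH, num2_secQ, ← h, eq_intCast, Int.cast_ne_zero, cond1, num2_p]
  exact mul_ne_zero num2_g (mul_ne_zero num2_r (by decide))

end Pool.Agent.GM34
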