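import Pool.Agent.Work.MP_274aea_ag_D34.Stmt

-- merged part: Pool.Agent.Work.MP_274aea_ag_D34.Gen
section
-- merged part: Pool.Agent.Work.MP_274aea_ag_D34.Defs
section
set_option autoImplicit false

open MvPolynomial Matrix Pool.Agent.GM16

namespace Pool.Agent.GM34

/-- Enumeration of the ten pairs. -/
def ee : Fin 10 → Idx :=
  ![⟨(0, 1), by decide⟩, ⟨(0, 2), by decide⟩, ⟨(0, 3), by decide⟩, ⟨(0, 4), by decide⟩,
    ⟨(1, 2), by decide⟩, ⟨(1, 3), by decide⟩, ⟨(1, 4), by decide⟩, ⟨(2, 3), by decide⟩,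
    ⟨(2, 4), by decide⟩, ⟨(3, 4), by decide⟩]

/-- The inverse enumeration. -/
def ei (s : Idx) : Fin 10 :=
  (!![0, 0, 1, 2, 3; 0, 0, 4, 5, 6; 0, 0, 0, 7, 8; 0, 0, 0, 0, 9; 0, 0, 0, 0, 0] :
    Matrix (Fin 5) (Fin 5) (Fin 10)) s.1.1 s.1.2

/-- Exponents of `x 1` and `x 2` in the nine monomials. -/
def ex : Fin 9 → ℕ × ℕ := ![(1, 0), (0, 1), (2, 0), (1, 1), (0, 2), (3, 0), (2, 1), (1, 2), (0, 3)]

/-- Exponents of the 25 sextic monomials that are double at `(1,0,0)`. -/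
def mus : Fin 25 → ℕ × ℕ :=
  ![(0, 2), (0, 3), (0, 4), (0, 5), (0, 6), (1, 1), (1, 2), (1, 3), (1, 4), (1, 5), (2, 0), (2, 1),
    (2, 2), (2, 3), (2, 4), (3, 0), (3, 1), (3, 2), (3, 3), (4, 0), (4, 1), (4, 2), (5, 0), (5, 1),
    (6, 0)]

/-- A preferred pair with the same sum of exponents. -/
def pref : Fin 9 → Fin 9 → Fin 9 × Fin 9 :=
  ![![(0, 0), (0, 1), (0, 2), (0, 3), (0, 4), (0, 5), (0, 6), (0, 7), (0, 8)],
    ![(0, 1), (1, 1), (0, 3), (0, 4), (1, 4), (0, 6), (0, 7), (0, 8), (1, 8)],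
    ![(0, 2), (0, 3), (0, 5), (0, 6), (0, 7), (2, 5), (2, 6), (2, 7), (2, 8)],
    ![(0, 3), (0, 4), (0, 6), (0, 7), (0, 8), (2, 6), (2, 7), (2, 8), (3, 8)],
    ![(0, 4), (1, 4), (0, 7), (0, 8), (1, 8), (2, 7), (2, 8), (3, 8), (4, 8)],
    ![(0, 5), (0, 6), (2, 5), (2, 6), (2, 7), (5, 5), (5, 6), (5, 7), (5, 8)],
    ![(0, 6), (0, 7), (2, 6), (2, 7), (2, 8), (5, 6), (5, 7), (5, 8), (6, 8)],
    ![(0, 7), (0, 8), (2, 7), (2, 8), (3, 8), (5, 7), (5, 8), (6, 8), (7, 8)],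
    ![(0, 8), (1, 8), (2, 8), (3, 8), (4, 8), (5, 8), (6, 8), (7, 8), (8, 8)]]

/-- The six pairs `i ≤ j` in `Fin 3`. -/
def sy : Fin 6 → Fin 3 × Fin 3 := ![(0, 0), (0, 1), (0, 2), (1, 1), (1, 2), (2, 2)]

abbrev M3 (R : Type*) := Matrix (Fin 3) (Fin 3) R

abbrev M10 (R : Type*) := Matrix (Fin 10) (Fin 10) R

/-- Auxiliary variables of the large system: `m`, `J`, `lam`, `c`, `Y`. -/
abbrev Aux := Mi ⊕ (Fin 3 × Fin 3) ⊕ Fin 4 ⊕ Unit ⊕ (Fin 3 × Fin 9)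

/-- Equations of the large system. -/
abbrev Eq2 := Fin 3 ⊕ Fin 6 ⊕ (Fin 3 × Fin 9) ⊕ Fin 9 ⊕ Fin 25

/-- Auxiliary variables of the small system: `J`, `c`. -/
abbrev Aux1 := (Fin 3 × Fin 3) ⊕ Unit

abbrev Eq1 := Fin 3 ⊕ Fin 6

/-- The coordinate that is left out. -/
def s0 : Par := Sum.inr (ee 0, ee 0)

section Ring

variable {R : Type*} [CommRing R]

def hv (t : Par → R) (i : Fin 10) : R := t (Sum.inl (ee i))

def qm (t : Par → R) : M10 R := Matrix.of fun i j => t (Sum.inr (ee i, ee j))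

def mkP (h : Fin 10 → R) (q : M10 R) : Par → R :=
  Sum.elim (fun s => h (ei s)) fun s => q (ei s.1) (ei s.2)

/-- Pluecker coordinates. -/
def pw (u v : Fin 5 → R) : Fin 10 → R :=
  ![u 0 * v 1 - u 1 * v 0, u 0 * v 2 - u 2 * v 0, u 0 * v 3 - u 3 * v 0, u 0 * v 4 - u 4 * v 0,
    u 1 * v 2 - u 2 * v 1, u 1 * v 3 - u 3 * v 1, u 1 * v 4 - u 4 * v 1, u 2 * v 3 - u 3 * v 2,
    u 2 * v 4 - u 4 * v 2, u 3 * v 4 - u 4 * v 3]

/-- A bilinear form. -/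
def bq {n : ℕ} (q : Matrix (Fin n) (Fin n) R) (p p' : Fin n → R) : R := p ⬝ᵥ q *ᵥ p'

/-- Its polar form. -/
def bs {n : ℕ} (q : Matrix (Fin n) (Fin n) R) (p p' : Fin n → R) : R := bq q p p' + bq q p' p

/-- The five Pluecker quadrics; number `k` omits the index `k`. -/
def plk (p : Fin 10 → R) : Fin 5 → R :=
  ![p 4 * p 9 - p 5 * p 8 + p 6 * p 7, p 1 * p 9 - p 2 * p 8 + p 3 * p 7,
    p 0 * p 9 - p 2 * p 6 + p 3 * p 5, p 0 * p 8 - p 1 * p 6 + p 3 * p 4,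
    p 0 * p 7 - p 1 * p 5 + p 2 * p 4]

/-- A matrix of the Pluecker quadric number zero. -/
def P0 : M10 R := Matrix.of fun i j =>
  if i = 4 ∧ j = 9 then 1 else if i = 5 ∧ j = 8 then -1 else if i = 6 ∧ j = 7 then 1 else 0

def mr (m : Mi → R) (k : Fin 5) (j : Fin 8) : R := m (k, j)

/-- Coefficients of `det (x, A x, B x)`. -/
def cub (a b : Fin 8 → R) : Fin 9 → R :=
  ![a 3 * b 6 - a 6 * b 3,
    a 0 * b 3 - a 3 * b 0 + a 3 * b 7 - a 7 * b 3,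
    -(a 0 * b 6) + a 4 * b 6 + a 6 * b 0 - a 6 * b 4,
    a 0 * b 4 - a 0 * b 7 + a 1 * b 3 - a 3 * b 1 - a 4 * b 0 + a 4 * b 7 + a 5 * b 6 - a 6 * b 5 +
      a 7 * b 0 - a 7 * b 4,
    a 0 * b 5 + a 2 * b 3 - a 3 * b 2 - a 5 * b 0 + a 5 * b 7 - a 7 * b 5,
    -(a 1 * b 6) + a 6 * b 1,
    a 1 * b 4 - a 1 * b 7 - a 2 * b 6 - a 4 * b 1 + a 6 * b 2 + a 7 * b 1,
    a 1 * b 5 + a 2 * b 4 - a 2 * b 7 - a 4 * b 2 - a 5 * b 1 + a 7 * b 2,
    a 2 * b 5 - a 5 * b 2]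

/-- The ten cubics in terms of the nine monomials. -/
def Phi (m : Mi → R) : Matrix (Fin 10) (Fin 9) R :=
  Matrix.of fun i => cub (mr m (ee i).1.1) (mr m (ee i).1.2)

/-- The entries of `M_k` modulo scalars. -/
def Nu (m : Mi → R) : Matrix (Fin 7) (Fin 5) R := Matrix.of fun j k =>
  ![m (k, 0) - m (k, 7), m (k, 1), m (k, 2), m (k, 3), m (k, 4) - m (k, 7), m (k, 5), m (k, 6)] j

/-- Coefficients of the restriction of a quadric to the surface. -/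
def e2 (S : Matrix (Fin 9) (Fin 9) R) (k : Fin 25) : R :=
  ∑ a, ∑ b, if ex a + ex b = mus k then S a b else 0

/-- The equations saying that `h` and `q` vanish on the surface. -/
def OctN (m : Mi → R) (h : Fin 10 → R) (q : M10 R) : Prop :=
  h ᵥ* Phi m = 0 ∧ ∀ k, e2 ((Phi m)ᵀ * q * Phi m) k = 0

/-- The general quadric through the standard surface. -/
def bm (c : Fin 9 × Fin 9 → R) : Matrix (Fin 9) (Fin 9) R := Matrix.of fun a b =>
  c (a, b) - ∑ a', ∑ b', if pref a' b' = (a, b) then c (a', b') else 0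

/-! The residual point -/

def am (m : Mi → R) (y : Fin 5 → R) (j : Fin 8) : R := ∑ k, y k * m (k, j)

def Nm (a : Fin 8 → R) : M3 R := !![a 0 - a 7, a 1, a 2; a 3, a 4 - a 7, a 5; 0, a 6, 0]

def s1 (a : Fin 8 → R) : R := a 0 - a 7 + (a 4 - a 7)

def s2 (a : Fin 8 → R) : R := (a 0 - a 7) * (a 4 - a 7) - a 1 * a 3 - a 5 * a 6

def s3 (a : Fin 8 → R) : R := a 6 * (a 2 * a 3 - (a 0 - a 7) * a 5)

def disc (a : Fin 8 → R) : R :=
  s1 a ^ 2 * s2 a ^ 2 - 4 * s2 a ^ 3 - 4 * s1 a ^ 3 * s3 a - 27 * s3 a ^ 2 +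
    18 * s1 a * s2 a * s3 a

def Zaux (a : Fin 8 → R) (σ0 σ1 σ2 σ3 : Fin 3 → R) : Fin 9 → R :=
  ![σ3 0 - (a 4 - a 7) * σ2 0 - a 6 * a 5 * σ1 0,
    a 6 * (σ2 0 - (a 4 - a 7) * σ1 0 - a 6 * a 5 * σ0 0), a 3 * σ2 0, a 6 * a 3 * σ1 0,
    a 6 ^ 2 * a 3 * σ0 0, a 3 * σ2 1, a 6 * a 3 * σ1 1, a 6 ^ 2 * a 3 * σ0 1, a 6 ^ 2 * a 3 * σ0 2]

/-- The plane spanned by the three eigenvectors, parametrised by a vector. -/
def Zv (a : Fin 8 → R) (σ : Fin 3 → R) : Fin 9 → R :=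
  Zaux a σ (Nm a *ᵥ σ) (Nm a *ᵥ Nm a *ᵥ σ) (Nm a *ᵥ Nm a *ᵥ Nm a *ᵥ σ)

def lamq (q : M10 R) (p0 p1 : Fin 10 → R) : Fin 3 → R := ![bq q p0 p0, bs q p0 p1, bq q p1 p1]

def Cm (a : Fin 8 → R) (e : Fin 3 → R) : M3 R :=
  (e 0 • 1 + e 1 • Nm a) * (e 0 • 1 + e 1 • Nm a) +
    (e 0 • 1 + e 1 • Nm a) * (e 1 • 1 + e 2 • Nm a) * (s1 a • 1 - Nm a) +
    (e 1 • 1 + e 2 • Nm a) * (e 1 • 1 + e 2 • Nm a) * (Nm a * Nm a - s1 a • Nm a + s2 a • 1)

def evec (m : Mi → R) (q : M10 R) (a : Fin 8 → R) : Fin 3 → R :=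
  lamq P0 (Phi m *ᵥ Zv a ![1, 0, 0]) (Phi m *ᵥ Zv a (Nm a *ᵥ ![1, 0, 0])) ⨯₃
    lamq q (Phi m *ᵥ Zv a ![1, 0, 0]) (Phi m *ᵥ Zv a (Nm a *ᵥ ![1, 0, 0]))

def zst (m : Mi → R) (q : M10 R) (y : Fin 5 → R) : Fin 9 → R :=
  Zv (am m y) (Cm (am m y) (evec m q (am m y)) *ᵥ ![1, 0, 0])

/-- The residual point of the three secant conic. -/
def pst (m : Mi → R) (q : M10 R) (y : Fin 5 → R) : Fin 10 → R := Phi m *ᵥ zst m q y

def Sa (z : Fin 9 → R) : M3 R := !![z 0, z 2, z 3; z 2, z 5, z 6; z 3, z 6, z 7]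

def Sb (z : Fin 9 → R) : M3 R := !![z 1, z 3, z 4; z 3, z 6, z 7; z 4, z 7, z 8]

def ratc (m : Mi → R) (q : M10 R) (y : Fin 5 → R) : R :=
  disc (am m y) * am m y 3 * am m y 6 * (Sb (zst m q y)).det

/-! The open condition for a prime ideal -/

def kv (h : Fin 10 → R) : Fin 5 → R := ![0, 0, h 9, -h 8, h 7]

def kap0 (h : Fin 10 → R) : R := h 1 * h 9 - h 2 * h 8 + h 3 * h 7

def kap1 (h : Fin 10 → R) : R := h 4 * h 9 - h 5 * h 8 + h 6 * h 7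

def wv (h : Fin 10 → R) (w3 w4 : R) : Fin 5 → R := ![kap1 h, -kap0 h, 0, w3, w4]

def vv (v3 v4 : R) : Fin 5 → R := ![0, 1, 0, v3, v4]

def pa (h : Fin 10 → R) (w : Fin 5 → R) : Fin 10 → R := kap1 h • pw w (kv h)

def pb (h : Fin 10 → R) (w v : Fin 5 → R) : Fin 10 → R :=
  kap1 h • pw w v + (h ⬝ᵥ pw w v) • pw (kv h) v

/-- Coefficients of `T ^ 0, T ^ 1, T ^ 2` in `f (x0 + T x1) (y0 + T y1)`. -/
def co3 (f : (Fin 10 → R) → (Fin 10 → R) → R) (x0 x1 y0 y1 : Fin 10 → R) : Fin 3 → R :=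
  ![f x0 y0, f x0 y1 + f x1 y0, f x1 y1]

def cA (h : Fin 10 → R) (q : M10 R) (w4 : R) : Fin 3 → R :=
  co3 (bq q) (pa h (wv h 0 w4)) (pa h ![0, 0, 0, 1, 0]) (pa h (wv h 0 w4)) (pa h ![0, 0, 0, 1, 0])

def cB (h : Fin 10 → R) (q : M10 R) (w4 v3 v4 : R) : Fin 3 → R :=
  co3 (bs q) (pb h (wv h 0 w4) (vv v3 v4)) (pb h ![0, 0, 0, 1, 0] (vv v3 v4)) (pa h (wv h 0 w4))
    (pa h ![0, 0, 0, 1, 0])

def cC (h : Fin 10 → R) (q : M10 R) (w4 v3 v4 : R) : Fin 3 → R :=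
  co3 (bq q) (pb h (wv h 0 w4) (vv v3 v4)) (pb h ![0, 0, 0, 1, 0] (vv v3 v4))
    (pb h (wv h 0 w4) (vv v3 v4)) (pb h ![0, 0, 0, 1, 0] (vv v3 v4))

/-- Resultant of two quadratics. -/
def res2 (A B : Fin 3 → R) : R :=
  (A 2 * B 0 - A 0 * B 2) ^ 2 - (A 2 * B 1 - A 1 * B 2) * (A 1 * B 0 - A 0 * B 1)

/-- Vanishes when the quartic `B ^ 2 - 4 A C` is a square. -/
def nsq (A B C : Fin 3 → R) : R :=
  (B 0 ^ 2 - 4 * A 0 * C 0) * (2 * B 1 * B 2 - 4 * (A 1 * C 2 + A 2 * C 1)) ^ 2 -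
    (B 2 ^ 2 - 4 * A 2 * C 2) * (2 * B 0 * B 1 - 4 * (A 0 * C 1 + A 1 * C 0)) ^ 2

def gpr (h : Fin 10 → R) (q : M10 R) : R :=
  h 9 * kap1 h * cA h q 0 2 * res2 (cA h q 0) (cB h q 0 0 0) *
    nsq (cA h q 0) (cB h q 0 0 0) (cC h q 0 0 0)

/-! The Legendre transform along a plane -/

/-- The plane is the graph of `J`. -/
def jm (J : M3 R) : Matrix (Fin 10) (Fin 3) R :=
  Matrix.of ![0, 0, 0, 0, ![1, 0, 0], ![0, 1, 0], ![0, 0, 1], J 2, -J 1, J 0]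

def io {ι : Type*} (g : Matrix (Fin 3) ι R) (d : Matrix (Fin 4) ι R) : Matrix (Fin 10) ι R :=
  Matrix.of ![d 0, d 1, d 2, d 3, 0, 0, 0, g 2, -g 1, g 0]

def Dr {ι : Type*} (A : Matrix (Fin 10) ι R) : Matrix (Fin 4) ι R := Matrix.of ![A 0, A 1, A 2, A 3]

def Xr {ι : Type*} (A : Matrix (Fin 10) ι R) : Matrix (Fin 3) ι R := Matrix.of ![A 4, A 5, A 6]

def Yr {ι : Type*} (A : Matrix (Fin 10) ι R) : Matrix (Fin 3) ι R := Matrix.of ![A 9, -A 8, A 7]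

def LL (J : M3 R) (q : M10 R) : M3 R := (jm J)ᵀ * (q + qᵀ) * io (1 : M3 R) 0

def MM (J : M3 R) (q : M10 R) : Matrix (Fin 3) (Fin 4) R := (jm J)ᵀ * (q + qᵀ) * io 0 (1 : Matrix (Fin 4) (Fin 4) R)

def Gm (J N : M3 R) (q : M10 R) : Matrix (Fin 3) (Fin 10) R :=
  N * (Yr (1 : M10 R) + Jᵀ * Xr (1 : M10 R) + MM J q * Dr (1 : M10 R) :
    Matrix (Fin 3) (Fin 10) R)

def EE (J N : M3 R) (q : M10 R) : M10 R := io (Gm J N q) (-Dr (1 : M10 R))

def legH (J N : M3 R) (h : Fin 10 → R) (q : M10 R) : Fin 10 → R := h ᵥ* EE J N q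

def legQ (J N : M3 R) (q : M10 R) : M10 R :=
  (Xr (1 : M10 R))ᵀ * Gm J N q - (EE J N q)ᵀ * q * EE J N q

/-- The plane lies in the hyperplane and in the quadric. -/
def HasPlane (J : M3 R) (h : Fin 10 → R) (q : M10 R) : Prop :=
  h ᵥ* jm J = 0 ∧ (jm J)ᵀ * (q + qᵀ) * jm J = 0

/-- The second exterior power of `e i ↦ e i + l (i - 1) • e 0`. -/
def Gl (l : Fin 4 → R) : M10 R :=
  !![1, 0, 0, 0, -l 1, -l 2, -l 3, 0, 0, 0;
    0, 1, 0, 0, l 0, 0, 0, -l 2, -l 3, 0;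
    0, 0, 1, 0, 0, l 0, 0, l 1, 0, -l 3;
    0, 0, 0, 1, 0, 0, l 0, 0, l 1, l 2;
    0, 0, 0, 0, 1, 0, 0, 0, 0, 0;
    0, 0, 0, 0, 0, 1, 0, 0, 0, 0;
    0, 0, 0, 0, 0, 0, 1, 0, 0, 0;
    0, 0, 0, 0, 0, 0, 0, 1, 0, 0;
    0, 0, 0, 0, 0, 0, 0, 0, 1, 0;
    0, 0, 0, 0, 0, 0, 0, 0, 0, 1]

def hG (l : Fin 4 → R) (h : Fin 10 → R) : Fin 10 → R := h ᵥ* Gl l

def qG (l : Fin 4 → R) (c : R) (q : M10 R) : M10 R := (Gl l)ᵀ * q * Gl l + c • P0

def Sm (J : M3 R) (p : Fin 10 → R) : M3 R :=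
  p 0 • J - !![0, -p 3, p 2; p 3, 0, -p 1; -p 2, p 1, 0]

/-- The birational map from the Legendre transform back to the fourfold with the plane. -/
def trf (J N : M3 R) (q : M10 R) (p : Fin 10 → R) : Fin 10 → R :=
  jm J *ᵥ (-p 0 • (Sm J p).adjugate *ᵥ Gm J N q *ᵥ p) + (Sm J p).det • EE J N q *ᵥ p

def F1 (h : Fin 10 → R) (q : M10 R) (J : M3 R) : Eq1 → R :=
  Sum.elim (h ᵥ* jm J) fun k => ((jm J)ᵀ * (q + qᵀ) * jm J) (sy k).1 (sy k).2

def F2core (h : Fin 10 → R) (q : M10 R) (P : Matrix (Fin 10) (Fin 9) R) (J : M3 R)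
    (Y : Matrix (Fin 3) (Fin 9) R) : Eq2 → R :=
  Sum.elim (h ᵥ* jm J) <| Sum.elim (fun k => ((jm J)ᵀ * (q + qᵀ) * jm J) (sy k).1 (sy k).2) <|
    Sum.elim (fun k => ((jm J)ᵀ * (q + qᵀ) * io Y (-Dr P) - (Yr P + Jᵀ * Xr P)) k.1 k.2) <|
      Sum.elim (h ᵥ* io Y (-Dr P)) (e2 ((Xr P)ᵀ * Y - (io Y (-Dr P))ᵀ * q * io Y (-Dr P)))

def aM (w : Aux → R) (i : Mi) : R := w (Sum.inl i)

def aJ (w : Aux → R) : M3 R := Matrix.of fun i j => w (Sum.inr (Sum.inl (i, j)))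

def aL (w : Aux → R) (i : Fin 4) : R := w (Sum.inr (Sum.inr (Sum.inl i)))

def aC (w : Aux → R) : R := w (Sum.inr (Sum.inr (Sum.inr (Sum.inl ()))))

def aY (w : Aux → R) : Matrix (Fin 3) (Fin 9) R :=
  Matrix.of fun i j => w (Sum.inr (Sum.inr (Sum.inr (Sum.inr (i, j)))))

def mkA (m : Mi → R) (J : M3 R) (l : Fin 4 → R) (c : R) (Y : Matrix (Fin 3) (Fin 9) R) : Aux → R :=
  Sum.elim m <| Sum.elim (fun k => J k.1 k.2) <| Sum.elim l <| Sum.elim (fun _ => c)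
    fun k => Y k.1 k.2

/-- The large system. -/
def F2 (x : Par ⊕ Aux → R) : Eq2 → R :=
  F2core (hG (aL (x ∘ Sum.inr)) (hv (x ∘ Sum.inl)))
    (qG (aL (x ∘ Sum.inr)) (aC (x ∘ Sum.inr)) (qm (x ∘ Sum.inl))) (Phi (aM (x ∘ Sum.inr)))
    (aJ (x ∘ Sum.inr)) (aY (x ∘ Sum.inr))

def bJ (x : Par ⊕ Aux1 → R) : M3 R := Matrix.of fun i j => x (Sum.inr (Sum.inl (i, j)))

def bC (x : Par ⊕ Aux1 → R) : R := x (Sum.inr (Sum.inr ()))

/-- The small system. -/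
def F1x (x : Par ⊕ Aux1 → R) : Eq1 → R :=
  F1 (hv (x ∘ Sum.inl)) (qm (x ∘ Sum.inl) + bC x • P0) (bJ x)

/-! The witness -/

def m0 (i : Mi) : R := (!![0, 1, 0, 0, 0, 1, 1, 0; 0, 0, 0, 0, -1, 0, 0, 0; 0, 0, 1, -1, 0, 0, 1, 0; 0, 0, 0, 0, 0, 0, 1, 0; -1, 0, 0, 1, 0, 1, 0, 0] : Matrix (Fin 5) (Fin 8) R) i.1 i.2

def B0 : Matrix (Fin 9) (Fin 10) R :=
  !![1, 0, 0, 0, 0, 1, 0, -1, 0, 0; 0, -1, 1, 1, -1, 1, 2, -1, -1, 0; 0, 0, 0, 0, 0, -1, 0, 0, 0, 0; 0, 0, 0, 0, 0, 0, -1, 0, 0, 0; 1, 0, 0, 1, -1, 1, 0, -1, 0, 0; 0, 0, -1, 0, 0, 0, -1, 0, 0, 0; -1, 0, 0, 0, 0, -1, 0, 0, 0, 0; 0, 0, 0, 0, 1, -1, 0, 0, 0, 0; 0, -1, 1, 0, 0, 0, 1, -1, 0, 0]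

def La0 : Matrix (Fin 5) (Fin 7) R :=
  !![0, 0, -1, -1, 0, 1, 0; 0, 0, 0, 0, -1, 0, 0; 0, 0, 1, 0, 0, 0, 0; 0, 0, 0, 1, 0, -1, 1; 0, 0, 1, 1, 0, 0, 0]

def y0 : Fin 5 → R := ![1, 0, 1, -1, -1]

def H0 : Fin 10 → R := ![1, 0, 0, 0, 0, 0, -1, -1, 0, 1]

def R0 : Matrix (Fin 9) (Fin 9) R := Matrix.of fun a b =>
  if a = 0 ∧ b = 8 then 1 else if a = 3 ∧ b = 4 then -1 else 0

def Q0 : M10 R :=
  !![1, 0, -1, 1, 2, -2, -1, -1, 0, 0; -1, 0, 0, 0, 0, -1, -1, 0, 0, 0; 1, 1, -1, 0, 0, 1, 0, 1, 0, 0; 1, 0, 0, 0, 0, 1, 1, 0, 0, 0; -1, 0, 0, 0, 0, -1, -1, 0, 0, 0; 1, 1, -2, 1, 1, -1, 0, 1, 0, -1; 1, 1, -1, 0, 1, 0, 0, 1, 0, 0; -2, 0, 1, -1, -1, 0, 0, 1, 0, 0; -1, 0, 0, 0, 0, -1, -1, 0, 0, 0; 0, 0, 0, 0, 0, 0, 0, 0, 0, 0]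

def Jh0 : M3 R := !![0, 0, 1; 0, 1, 0; 0, 0, 0]

def Nh0 : M3 R := !![0, -1, 1; 1, 0, 1; -1, 0, 0]

def L0 : M3 R := !![0, 0, -1; -1, 1, 1; 0, 1, 1]

def h2 : Fin 10 → R := ![0, 0, 0, -1, 1, -1, 0, 1, 1, 1]

def q2 : M10 R :=
  !![2, 0, 0, 0, 0, 0, 0, 0, 0, 0; 1, 0, 0, 0, 0, 0, 0, 0, 0, 0; -3, -1, 1, 0, 0, 0, 0, 0, 0, -1; 0, 0, 0, 0, 0, 0, 0, 0, 0, 0; 1, 0, 0, -1, 1, -1, 0, 1, 1, 0; 1, 0, -1, 1, 1, 0, 0, 1, 0, 1; -1, 0, 0, 0, 0, 0, 0, 0, 0, -1; 1, 0, 0, 0, 0, 0, 0, 0, 0, 0; 0, 0, 0, 0, 0, 0, 0, 0, 0, 0; 2, 0, -1, 1, 0, 0, 0, 0, 0, -1]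

def Y0 : Matrix (Fin 3) (Fin 9) R := !![1, 0, 1, 0, 0, 0, 0, 0, 0; -1, 1, 1, 0, 1, 1, -1, 2, -1; -1, 1, 1, 0, 0, 1, -1, 1, -1]

/-- The witness of the large system. -/
def x2 : Par ⊕ Aux → R := Sum.elim (mkP h2 q2) (mkA m0 (-Jh0ᵀ) 0 0 Y0)

/-- The witness of the small system. -/
def x1 : Par ⊕ Aux1 → R := Sum.elim (mkP H0 Q0) (Sum.elim (fun k => Jh0 k.1 k.2) fun _ => 0)

/-- A multiple of a left inverse of `Phi m`. -/
def Psi (m : Mi → R) : Matrix (Fin 9) (Fin 10) R :=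
  ((B0 : Matrix (Fin 9) (Fin 10) R) * Phi m).adjugate * (B0 : Matrix (Fin 9) (Fin 10) R)

/-- A section of the bundle of hyperplanes through the surface. -/
def secH (m : Mi → R) : Fin 10 → R :=
  (((B0 : Matrix (Fin 9) (Fin 10) R) * Phi m).det • (1 : M10 R) - Phi m * Psi m : M10 R) 9

/-- A section of the bundle of quadrics through the surface. -/
def secQ (m : Mi → R) : M10 R := (Psi m)ᵀ * (R0 : Matrix (Fin 9) (Fin 9) R) * Psi m

def condM (m : Mi → R) : R :=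
  ((B0 : Matrix (Fin 9) (Fin 10) R) * Phi m).det * ((La0 : Matrix (Fin 5) (Fin 7) R) * Nu m).det

def cond1 (m : Mi → R) (h : Fin 10 → R) (q : M10 R) (y : Fin 5 → R) : R :=
  gpr h q * (ratc m q y * pst m q y 0)

def cond2 (m : Mi → R) (J N : M3 R) (l : Fin 4 → R) (q : M10 R) (y : Fin 5 → R) : R :=
  ratc m (legQ J N q) y * (Sm J (pst m (legQ J N q) y)).det *
    (Gl l *ᵥ trf J N q (pst m (legQ J N q) y)) 0

/-- All open conditions of the large system; `N` will be the inverse of `LL`. -/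
def cond3 (x : Par ⊕ Aux → R) (N : M3 R) : R :=
  condM (aM (x ∘ Sum.inr)) * gpr (hv (x ∘ Sum.inl)) (qm (x ∘ Sum.inl)) *
    cond2 (aM (x ∘ Sum.inr)) (aJ (x ∘ Sum.inr)) N (aL (x ∘ Sum.inr))
      (qG (aL (x ∘ Sum.inr)) (aC (x ∘ Sum.inr)) (qm (x ∘ Sum.inl))) y0

def xiN (a : Fin 6 → Fin 6 → Fin 6 → R) : Fin 10 → R :=
  ![a 2 3 4, -a 1 3 4, a 1 2 4, -a 1 2 3, a 0 3 4, -a 0 2 4, a 0 2 3, a 0 1 4, -a 0 1 3, a 0 1 2]

def wN (a : Fin 6 → Fin 6 → Fin 6 → R) : Fin 10 → R :=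
  ![a 5 0 1, a 5 0 2, a 5 0 3, a 5 0 4, a 5 1 2, a 5 1 3, a 5 1 4, a 5 2 3, a 5 2 4, a 5 3 4]

/-- The decomposable trivector `u ∧ v ∧ w`. -/
def w3 (u v w : Fin 6 → R) (i j k : Fin 6) : R :=
  u i * (v j * w k - v k * w j) - u j * (v i * w k - v k * w i) + u k * (v i * w j - v j * w i)

end Ring

def SmoothN (h : Fin 10 → ℂ) (q : M10 ℂ) : Prop :=
  ∀ u v : Fin 5 → ℂ, LinearIndependent ℂ ![u, v] → h ⬝ᵥ pw u v = 0 → bq q (pw u v) (pw u v) = 0 →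
    ∀ a b : ℂ, (∀ u' v' : Fin 5 → ℂ,
      a * h ⬝ᵥ (pw u' v + pw u v') + b * bs q (pw u v) (pw u' v + pw u v') = 0) → a = 0 ∧ b = 0

/-- The big cell. -/
def pch {R : Type*} [CommRing R] (x : Fin 6 → R) : Fin 10 → R :=
  pw ![1, 0, x 0, x 1, x 2] ![0, 1, x 3, x 4, x 5]

noncomputable def JN (h : Fin 10 → ℂ) (q : M10 ℂ) : Ideal (MvPolynomial (Fin 6) ℂ) :=
  Ideal.span {(fun i => C (h i)) ⬝ᵥ pch X, bq (q.map C) (pch X) (pch X)}

abbrev Om := FractionRing (MvPolynomial (Fin 4) ℂ)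

def RatN (h : Fin 10 → ℂ) (q : M10 ℂ) : Prop :=
  (JN h q).IsPrime ∧ Nonempty (FractionRing (MvPolynomial (Fin 6) ℂ ⧸ JN h q) ≃ₐ[ℂ] Om)

/-- The projective point `p` generates the field. -/
def Gen {K : Type*} [Field K] [Algebra ℂ K] (p : Fin 10 → K) : Prop :=
  ∀ F : Subfield K, (∀ c, algebraMap ℂ K c ∈ F) → ∀ ρ : K, ρ ≠ 0 → (∀ i, ρ * p i ∈ F) → F = ⊤

/-- A point of the fourfold over a field `K` that generates `K`. -/
def GenPt {K : Type*} [Field K] [Algebra ℂ K] (h : Fin 10 → ℂ) (q : M10 ℂ) (p : Fin 10 → K) :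
    Prop :=
  plk p = 0 ∧ (fun i => algebraMap ℂ K (h i)) ⬝ᵥ p = 0 ∧ bq (q.map (algebraMap ℂ K)) p p = 0 ∧ Gen p

/-- The generic element of the affine chart of the linear system. -/
noncomputable def yO : Fin 5 → Om := fun k =>
  algebraMap (MvPolynomial (Fin 4) ℂ) Om (![1, X 0, X 1, X 2, X 3] k)

def InLagN (h : Fin 10 → ℂ) (q : M10 ℂ) (a : Fin 6 → Fin 6 → Fin 6 → ℂ) : Prop :=
  (∀ i j k, a j i k = -a i j k ∧ a i k j = -a i j k) ∧ h ⬝ᵥ wN a = 0 ∧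
    ∃ μ : ℂ, xiN a = (q + qᵀ) *ᵥ wN a + μ • h

def PartnerN (h : Fin 10 → ℂ) (q : M10 ℂ) (h' : Fin 10 → ℂ) (q' : M10 ℂ) : Prop :=
  ∃ g : Matrix (Fin 6) (Fin 6) ℂ, g.det ≠ 0 ∧ ∀ a, InLagN h q a ↔ InLagN h' q' (act g a)

def NoDec (h : Fin 10 → ℂ) (q : M10 ℂ) : Prop :=
  ∀ u v w : Fin 6 → ℂ, InLagN h q (w3 u v w) → w3 u v w = 0

/-- Binomial relations. -/
def Rel {K : Type*} [CommRing K] (z : Fin 9 → K) : Prop :=
  ∀ a b c d, ex a + ex b = ex c + ex d → z a * z b = z c * z d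

/-- Linearised binomial relations. -/
def LRel {K : Type*} [CommRing K] (z ζ : Fin 9 → K) : Prop :=
  ∀ a b c d, ex a + ex b = ex c + ex d → z a * ζ b + z b * ζ a = z c * ζ d + z d * ζ c

/-- The point `x + ε v` over the dual numbers. -/
def dn {ι R : Type*} [CommRing R] (x v : ι → R) (i : ι) : DualNumber R :=
  TrivSqZeroExt.inl (x i) + TrivSqZeroExt.inr (v i)

end Pool.Agent.GM34
end

-- merged part: Pool.Agent.Work.MP_274aea_ag_D34.Gen
section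
set_option autoImplicit false

open MvPolynomial Matrix Pool.Agent.GM16

namespace Pool.Agent.GM34

theorem field_lift {A Ω : Type} [CommRing A] [IsDomain A] [Algebra ℂ A] [Field Ω] [Algebra ℂ Ω]
    (φ : A →ₐ[ℂ] Ω) (hinj : Function.Injective φ)
    (hgen : ∀ F : Subfield Ω, (∀ a, φ a ∈ F) → F = ⊤) :
    Nonempty (FractionRing A ≃ₐ[ℂ] Ω) := by
  let ψ : FractionRing A →ₐ[ℂ] Ω := IsFractionRing.liftAlgHom (K := FractionRing A) hinj
  refine ⟨AlgEquiv.ofBijective ψ ⟨ψ.toRingHom.injective, fun y => ?_⟩⟩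
  have h := hgen ψ.toRingHom.fieldRange fun a =>
    ⟨algebraMap A (FractionRing A) a, by simp [ψ]⟩
  have hy : y ∈ ψ.toRingHom.fieldRange := h ▸ Subfield.mem_top y
  exact hy

theorem field_alg {A Ω : Type} [CommRing A] [Algebra ℂ A] [Field Ω] [Algebra ℂ Ω]
    (φ : A →ₐ[ℂ] Ω) (hgen : ∀ F : Subfield Ω, (∀ a, φ a ∈ F) → F = ⊤) :
    Algebra.IsAlgebraic (Algebra.adjoin ℂ (Set.range φ)) Ω := by
  refine ⟨fun x => ?_⟩
  have h := hgen (Subfield.closure (Set.range φ)) fun a => Subfield.subset_closure ⟨a, rfl⟩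
  have hx : x ∈ Subfield.closure (Set.range φ) := h ▸ Subfield.mem_top x
  obtain ⟨y, hy, z, hz, rfl⟩ := Subfield.mem_closure_iff.1 hx
  have hle : Subring.closure (Set.range φ) ≤ (Algebra.adjoin ℂ (Set.range φ)).toSubring :=
    Subring.closure_le.2 Algebra.subset_adjoin
  have h1 : IsAlgebraic (Algebra.adjoin ℂ (Set.range φ)) y :=
    isAlgebraic_algebraMap (⟨y, hle hy⟩ : Algebra.adjoin ℂ (Set.range φ))
  have h2 : IsAlgebraic (Algebra.adjoin ℂ (Set.range φ)) z :=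
    isAlgebraic_algebraMap (⟨z, hle hz⟩ : Algebra.adjoin ℂ (Set.range φ))
  rw [div_eq_mul_inv]
  exact h1.mul h2.inv

theorem field_inj {A Ω : Type} [CommRing A] [IsDomain A] [Algebra ℂ A] [Field Ω] [Algebra ℂ Ω]
    (φ : A →ₐ[ℂ] Ω) (hfin : Algebra.trdeg ℂ A < Cardinal.aleph0)
    (htr : Algebra.trdeg ℂ A ≤ Algebra.trdeg ℂ Ω)
    (hgen : ∀ F : Subfield Ω, (∀ a, φ a ∈ F) → F = ⊤) : Function.Injective φ := by
  have := field_alg φ hgen
  obtain ⟨t, hts, ht⟩ := exists_isTranscendenceBasis_subset (R := ℂ) (Set.range φ)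
  choose a ha using fun x : t => hts x.2
  have hcomp : φ ∘ a = ((↑) : t → Ω) := funext ha
  have hind : AlgebraicIndependent ℂ (φ ∘ a) := hcomp ▸ ht.1
  have hia : AlgebraicIndependent ℂ a := AlgebraicIndependent.of_comp φ hind
  have hb : IsTranscendenceBasis ℂ a :=
    hia.isTranscendenceBasis_of_trdeg_le hfin (htr.trans ht.cardinalMk_eq_trdeg.ge)
  rw [injective_iff_map_eq_zero]
  intro c hc
  by_contra hne
  have halg : IsAlgebraic (Algebra.adjoin ℂ (Set.range a)) c := hb.isAlgebraic.isAlgebraic c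
  have hbot := Ideal.comap_ne_bot_of_algebraic_mem (I := RingHom.ker φ.toRingHom) hne hc halg
  apply hbot
  rw [eq_bot_iff]
  rintro ⟨b, hb'⟩ hk
  rw [Algebra.adjoin_range_eq_range_aeval] at hb'
  obtain ⟨p, rfl⟩ := hb'
  have h0 : MvPolynomial.aeval (φ ∘ a) p = 0 := by
    have : φ (MvPolynomial.aeval a p) = 0 := hk
    rwa [MvPolynomial.comp_aeval_apply] at this
  have hp : p = 0 := (algebraicIndependent_iff.1 hind) p h0
  subst hp
  exact (Submodule.mem_bot _).2 (Subtype.ext (map_zero _))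

theorem frac_equiv {A Ω : Type} [CommRing A] [IsDomain A] [Algebra ℂ A] [Field Ω] [Algebra ℂ Ω]
    (φ : A →ₐ[ℂ] Ω) (htr : Algebra.trdeg ℂ A ≤ 4)
    (e : Ω ≃ₐ[ℂ] FractionRing (MvPolynomial (Fin 4) ℂ))
    (hgen : ∀ F : Subfield Ω, (∀ a, φ a ∈ F) → F = ⊤) :
    Nonempty (FractionRing A ≃ₐ[ℂ] FractionRing (MvPolynomial (Fin 4) ℂ)) := by
  have h4 : (4 : Cardinal) ≤ Algebra.trdeg ℂ Ω := by
    rw [e.trdeg_eq]
    have h := trdeg_le_of_injective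
      (IsScalarTower.toAlgHom ℂ (MvPolynomial (Fin 4) ℂ) (FractionRing (MvPolynomial (Fin 4) ℂ)))
      (IsFractionRing.injective _ _)
    simpa using h
  have hfin : Algebra.trdeg ℂ A < Cardinal.aleph0 :=
    htr.trans_lt (Cardinal.natCast_lt_aleph0 (n := 4))
  obtain ⟨f⟩ := field_lift φ (field_inj φ hfin (htr.trans h4) hgen) hgen
  exact ⟨f.trans e⟩

theorem generic_or {τ σ ι : Type} (f : ι → MvPolynomial (τ ⊕ σ) ℂ) :
    (∃ g : MvPolynomial τ ℂ, g ≠ 0 ∧ ∀ (θ : τ → ℂ) (w : σ → ℂ),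
      (∀ i, eval (Sum.elim θ w) (f i) = 0) → eval θ g = 0) ∨
    ∃ (K : Type) (_ : Field K) (_ : Algebra ℂ K) (φ : MvPolynomial (τ ⊕ σ) ℂ →ₐ[ℂ] K),
      AlgebraicIndependent ℂ (fun s => φ (X (Sum.inl s))) ∧ ∀ i, φ (f i) = 0 := by
  by_cases h : ∃ g : MvPolynomial τ ℂ, g ≠ 0 ∧
      rename Sum.inl g ∈ Ideal.span (Set.range f)
  · obtain ⟨g, h0, hg⟩ := h
    refine Or.inl ⟨g, h0, fun θ w hw => ?_⟩
    have h1 : Ideal.span (Set.range f) ≤ RingHom.ker (eval (Sum.elim θ w)) :=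
      Ideal.span_le.2 (by rintro _ ⟨i, rfl⟩; exact hw i)
    have h2 : eval (Sum.elim θ w) (rename Sum.inl g) = 0 := h1 hg
    rwa [eval_rename] at h2
  · obtain ⟨P, hP, h1, h2⟩ := (Ideal.span (Set.range f)).exists_le_prime_disjoint
      ((nonZeroDivisors (MvPolynomial τ ℂ)).map
        (rename Sum.inl : MvPolynomial τ ℂ →ₐ[ℂ] MvPolynomial (τ ⊕ σ) ℂ))
      (Set.disjoint_left.2 (by
        rintro _ hx ⟨g, hg, rfl⟩
        exact h ⟨g, nonZeroDivisors.ne_zero hg, hx⟩))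
    let φ : MvPolynomial (τ ⊕ σ) ℂ →ₐ[ℂ] FractionRing (MvPolynomial (τ ⊕ σ) ℂ ⧸ P) :=
      (IsScalarTower.toAlgHom ℂ _ _).comp (Ideal.Quotient.mkₐ ℂ P)
    have k : ∀ x, φ x = 0 ↔ x ∈ P := fun x => by
      change algebraMap _ (FractionRing (MvPolynomial (τ ⊕ σ) ℂ ⧸ P)) (Ideal.Quotient.mk P x) = 0 ↔ _
      rw [map_eq_zero_iff _ (IsFractionRing.injective _ _), Ideal.Quotient.eq_zero_iff_mem]
    refine Or.inr ⟨_, inferInstance, inferInstance, φ, algebraicIndependent_iff.2 fun g hg => ?_,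
      fun i => (k _).2 (h1 (Ideal.subset_span ⟨i, rfl⟩))⟩
    by_contra h0
    have e : φ (rename Sum.inl g) = aeval (fun s => φ (X (Sum.inl s))) g := by
      have : φ.comp (rename Sum.inl) = aeval fun s => φ (X (Sum.inl s)) :=
        algHom_ext fun s => by simp
      exact DFunLike.congr_fun this g
    exact Set.disjoint_left.1 h2 ((k _).1 (e.trans hg)) ⟨g, mem_nonZeroDivisors_of_ne_zero h0, rfl⟩

theorem prime_main {D : Type} [CommRing D] [Algebra ℂ D] [IsDomain D] {J : Ideal (MvPolynomial (Fin 6) ℂ)} {P : Polynomial D}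
    (hP : Prime P) (hd : P.degree ≠ 0) (Φ : MvPolynomial (Fin 6) ℂ →ₐ[ℂ] Polynomial D)
    (h : ∀ p, p ∈ J ↔ P ∣ Φ p) :
    J.IsPrime ∧ Algebra.trdeg ℂ (MvPolynomial (Fin 6) ℂ ⧸ J) ≤ Algebra.trdeg ℂ D := by
  have := AdjoinRoot.isDomain_of_prime hP
  let α : MvPolynomial (Fin 6) ℂ →ₐ[ℂ] AdjoinRoot P :=
    (Ideal.Quotient.mkₐ ℂ (Ideal.span {P})).comp Φ
  have hJ : J = RingHom.ker α := Ideal.ext fun p =>
    (h p).trans (AdjoinRoot.mk_eq_zero (f := P)).symm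
  rw [hJ]
  refine ⟨RingHom.ker_isPrime α, (trdeg_le_of_injective _ (Ideal.kerLiftAlg_injective α)).trans ?_⟩
  have : FaithfulSMul D (AdjoinRoot P) :=
    (faithfulSMul_iff_algebraMap_injective _ _).2 (AdjoinRoot.of.injective_of_degree_ne_zero hd)
  have : Algebra.IsAlgebraic D (AdjoinRoot P) := ⟨fun z => by
    obtain ⟨q, rfl⟩ := AdjoinRoot.mk_surjective z
    induction q using Polynomial.induction_on' with
    | add p q hp hq => rw [map_add]; exact hp.add hq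
    | monomial n a =>
      rw [← Polynomial.C_mul_X_pow_eq_monomial, map_mul, map_pow]
      exact (isAlgebraic_algebraMap a).mul ((AdjoinRoot.isAlgebraic_root hP.ne_zero).pow n)⟩
  rw [← trdeg_add_eq ℂ D, trdeg_eq_zero (R := D), add_zero]

end Pool.Agent.GM34
end

-- merged part: Pool.Agent.Work.MP_274aea_ag_D34.Tau
section
set_option autoImplicit false

open MvPolynomial Matrix Pool.Agent.GM16

namespace Pool.Agent.GM34

theorem tau_pw {K : Type*} [Field K] (u v : Fin 5 → K) (s : Fin 10) :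
    pw u v s = u (ee s).1.1 * v (ee s).1.2 - u (ee s).1.2 * v (ee s).1.1 := by
  fin_cases s <;> rfl

theorem tau_ext {K : Type*} [Field K] {F : Fin 5 → Fin 5 → K} (h1 : ∀ i j, F j i = -F i j)
    (h2 : ∀ i, F i i = 0) (h3 : ∀ s, F (ee s).1.1 (ee s).1.2 = 0) (i j : Fin 5) : F i j = 0 := by
  have k : ∀ i j : Fin 5, i < j → F i j = 0 := fun i j h => by
    obtain ⟨s, rfl, rfl⟩ := (by decide : ∀ i j : Fin 5, i < j →
      ∃ s, (ee s).1.1 = i ∧ (ee s).1.2 = j) i j h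
    exact h3 s
  rcases lt_trichotomy i j with h | rfl | h
  · exact k i j h
  · exact h2 i
  · rw [h1, k j i h, neg_zero]

theorem tau_ne {K : Type*} [Field K] {u v : Fin 5 → K} (h : pw u v ≠ 0) :
    ∃ i j, u i * v j - u j * v i ≠ 0 := by
  obtain ⟨s, hs⟩ := Function.ne_iff.1 h
  exact ⟨_, _, tau_pw u v s ▸ hs⟩

theorem tau_eq {K : Type*} [Field K] {u v u' v' : Fin 5 → K} {ε : K}
    (e : pw u' v + pw u v' = ε • pw u v) (i j : Fin 5) :
    u' i * v j - u' j * v i + (u i * v' j - u j * v' i) - ε * (u i * v j - u j * v i) = 0 := by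
  refine tau_ext (F := fun i j => u' i * v j - u' j * v i + (u i * v' j - u j * v' i) -
    ε * (u i * v j - u j * v i)) (fun _ _ => by ring) (fun _ => by ring) (fun s => ?_) i j
  have := congrFun e s
  rw [Pi.add_apply, Pi.smul_apply, tau_pw, tau_pw, tau_pw, smul_eq_mul] at this
  exact sub_eq_zero.2 this

theorem tau_kap {K : Type*} [Field K] {h : Fin 10 → K} {w : Fin 5 → K}
    (hw : ∀ a, h ⬝ᵥ pw a w = 0) (k : Fin 5) :
    kap1 h * w k = w 0 * ![plk h 0, -plk h 1, plk h 2, -plk h 3, plk h 4] k := by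
  have e1 := hw ![0, 1, 0, 0, 0]
  have e2 := hw ![0, 0, 1, 0, 0]
  have e3 := hw ![0, 0, 0, 1, 0]
  have e4 := hw ![0, 0, 0, 0, 1]
  simp [pw, dotProduct, Fin.sum_univ_succ] at e1 e2 e3 e4
  fin_cases k <;> simp [kap1, plk]
  · ring
  · linear_combination -h 9 * e2 + h 8 * e3 - h 7 * e4
  · linear_combination h 9 * e1 - h 6 * e3 + h 5 * e4
  · linear_combination -h 8 * e1 + h 6 * e2 - h 4 * e4
  · linear_combination h 7 * e1 - h 5 * e2 + h 4 * e3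

/-- The kernel of `(u', v') ↦ u' ∧ v + u ∧ v'` is cut out by three more linear forms. -/
theorem ker_tau {K : Type*} [Field K] {u v : Fin 5 → K} (h : pw u v ≠ 0) :
    ∃ i j : Fin 5, ∀ u' v' : Fin 5 → K, pw u' v + pw u v' = 0 → u' i = 0 → u' j = 0 →
      v' i * v j - v' j * v i = 0 → u' = 0 ∧ v' = 0 := by
  obtain ⟨i, j, hD⟩ := tau_ne h
  refine ⟨i, j, fun u' v' e h1 h2 h3 => ?_⟩
  have E := tau_eq (ε := 0) (e.trans (zero_smul K _).symm)
  have a1 : v' i = 0 := mul_left_cancel₀ hD (by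
    linear_combination u i * h3 + v i * E i j - v i * v j * h1 + v i * v i * h2)
  have a2 : v' j = 0 := mul_left_cancel₀ hD (by
    linear_combination u j * h3 + v j * E i j - v j * v j * h1 + v j * v i * h2)
  refine ⟨funext fun k => mul_left_cancel₀ hD ?_, funext fun k => mul_left_cancel₀ hD ?_⟩
  · have b1 := E k i
    have b2 := E k j
    rw [h1, a1] at b1
    rw [h2, a2] at b2
    rw [Pi.zero_apply]
    linear_combination u i * b2 - u j * b1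
  · have b1 := E k i
    have b2 := E k j
    rw [h1, a1] at b1
    rw [h2, a2] at b2
    rw [Pi.zero_apply]
    linear_combination v i * b2 - v j * b1

/-- If `u' ∧ v + u ∧ v'` is a multiple of `u ∧ v` then `u'` and `v'` lie in the span of `u, v`. -/
theorem span_tau {K : Type*} [Field K] {u v u' v' : Fin 5 → K} (h : pw u v ≠ 0) {ε : K}
    (e : pw u' v + pw u v' = ε • pw u v) :
    ∃ a b c d : K, u' = a • u + b • v ∧ v' = c • u + d • v := by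
  obtain ⟨i, j, hD⟩ := tau_ne h
  have E := tau_eq e
  refine ⟨(u' i * v j - u' j * v i) / (u i * v j - u j * v i),
    (u i * u' j - u j * u' i) / (u i * v j - u j * v i),
    (v' i * v j - v' j * v i) / (u i * v j - u j * v i),
    (u i * v' j - u j * v' i) / (u i * v j - u j * v i), funext fun k => ?_, funext fun k => ?_⟩ <;>
    rw [Pi.add_apply, Pi.smul_apply, Pi.smul_apply, smul_eq_mul, smul_eq_mul, div_mul_eq_mul_div,
      div_mul_eq_mul_div, ← add_div, eq_div_iff hD]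
  · linear_combination -u k * E i j + u j * E i k - u i * E j k
  · linear_combination -v k * E i j + v j * E i k - v i * E j k

/-- If `kap1 h ≠ 0` the skew form `h` has rank four. -/
theorem pfaff {K : Type*} [Field K] {h : Fin 10 → K} (hk : kap1 h ≠ 0) {u v : Fin 5 → K}
    (hs : ∀ u' v' : Fin 5 → K, h ⬝ᵥ (pw u' v + pw u v') = 0) : pw u v = 0 := by
  have h1 : ∀ a, h ⬝ᵥ pw a v = 0 := fun a => (congrArg _ (_root_.funext fun s => by
    simp only [Pi.add_apply, tau_pw, Pi.zero_apply]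
    ring)).trans (hs a 0)
  have h2 : ∀ a, h ⬝ᵥ pw a u = 0 := fun a => (congrArg _ (_root_.funext fun s => by
    simp only [Pi.add_apply, tau_pw, Pi.zero_apply, Pi.neg_apply]
    ring)).trans (hs 0 (-a))
  refine funext fun s => mul_left_cancel₀ (mul_ne_zero hk hk) ?_
  rw [tau_pw, Pi.zero_apply]
  have a1 := tau_kap h1 (ee s).1.1
  have a2 := tau_kap h1 (ee s).1.2
  have b1 := tau_kap h2 (ee s).1.1
  have b2 := tau_kap h2 (ee s).1.2
  generalize ![plk h 0, -plk h 1, plk h 2, -plk h 3, plk h 4] = κ at a1 a2 b1 b2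
  linear_combination (kap1 h * v (ee s).1.2) * b1 + (u 0 * κ (ee s).1.1) * a2 -
    (kap1 h * v (ee s).1.1) * b2 - (u 0 * κ (ee s).1.2) * a1

theorem pw_ne {K : Type*} [Field K] {u v : Fin 5 → K} :
    LinearIndependent K ![u, v] ↔ pw u v ≠ 0 := by
  rw [LinearIndependent.pair_iff]
  refine ⟨fun H e => ?_, fun h s t e => ?_⟩
  · have E := tau_ext (F := fun i j => u i * v j - u j * v i) (fun _ _ => by ring)
      (fun _ => by ring) fun s => (tau_pw u v s).symm.trans (congrFun e s)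
    have a : u = 0 := funext fun i => neg_eq_zero.1 (H (v i) (-u i) (funext fun k => by
      simp only [Pi.add_apply, Pi.smul_apply, smul_eq_mul, Pi.zero_apply]
      linear_combination E k i)).2
    exact one_ne_zero (H 1 0 (by rw [a, smul_zero, zero_smul, add_zero])).1
  · obtain ⟨i, j, hD⟩ := tau_ne h
    have a := congrFun e i
    have b := congrFun e j
    simp only [Pi.add_apply, Pi.smul_apply, smul_eq_mul, Pi.zero_apply] at a b
    exact ⟨mul_left_cancel₀ hD (by linear_combination v j * a - v i * b),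
      mul_left_cancel₀ hD (by linear_combination u i * b - u j * a)⟩

end Pool.Agent.GM34
end

-- merged part: Pool.Agent.Work.MP_274aea_ag_D34.Toric
section
set_option autoImplicit false

open MvPolynomial Matrix Pool.Agent.GM16

namespace Pool.Agent.GM34

theorem toric_step {K : Type*} [Field K] {z ζ : Fin 9 → K} (h : LRel z ζ) {v : Fin 9}
    (hv : z v ≠ 0) (h0 : ζ v = 0) (k : Fin 9) {c d : Fin 9} (hc : ζ c = 0) (hd : ζ d = 0)
    (e : ex v + ex k = ex c + ex d) : ζ k = 0 := by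
  have := h v k c d e
  rw [h0, hc, hd, mul_zero, mul_zero, mul_zero, add_zero, add_zero] at this
  exact (mul_eq_zero.1 this).resolve_left hv

theorem toric_zero {K : Type*} [Field K] {ζ : Fin 9 → K} (h0 : ζ 0 = 0) (h1 : ζ 1 = 0)
    (h2 : ζ 2 = 0) (h3 : ζ 3 = 0) (h4 : ζ 4 = 0) (h5 : ζ 5 = 0) (h6 : ζ 6 = 0) (h7 : ζ 7 = 0)
    (h8 : ζ 8 = 0) : ζ = 0 := by
  funext i
  fin_cases i
  exacts [h0, h1, h2, h3, h4, h5, h6, h7, h8]

/-- Vertices `0, 1, 5, 8`. If they all vanish then everything vanishes (squares of middle points).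
Neighbours: `v = 5`: `6, 2`; `v = 8`: `7, 4`; `v = 0`: `1, 2`; `v = 1`: `0, 4`. The remaining six
coordinates are solved one after the other from `ex v + ex k = ex c + ex d` with `c, d` known:
for `v = 5`: `k = 0 (2,2), 3 (2,6), 7 (6,6), 8 (6,7), 4 (2,7), 1 (2,3)`;
for `v = 0`: `k = 5 (2,2), 3 (1,2), 4 (1,3), 6 (2,3), 7 (3,3), 8 (3,4)`; the other two are symmetric. -/
theorem toric {K : Type*} [Field K] {z : Fin 9 → K} (h0 : z ≠ 0) (hz : Rel z) :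
    ∃ v n1 n2 : Fin 9, z v ≠ 0 ∧
      ∀ ζ : Fin 9 → K, LRel z ζ → ζ v = 0 → ζ n1 = 0 → ζ n2 = 0 → ζ = 0 := by
  by_cases z5 : z 5 ≠ 0
  · refine ⟨5, 6, 2, z5, fun ζ h h5 h6 h2 => ?_⟩
    have h0 := toric_step h z5 h5 0 h2 h2 (by decide)
    have h3 := toric_step h z5 h5 3 h2 h6 (by decide)
    have h7 := toric_step h z5 h5 7 h6 h6 (by decide)
    have h8 := toric_step h z5 h5 8 h6 h7 (by decide)
    have h4 := toric_step h z5 h5 4 h2 h7 (by decide)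
    have h1 := toric_step h z5 h5 1 h2 h3 (by decide)
    exact toric_zero h0 h1 h2 h3 h4 h5 h6 h7 h8
  by_cases z8 : z 8 ≠ 0
  · refine ⟨8, 7, 4, z8, fun ζ h h8 h7 h4 => ?_⟩
    have h1 := toric_step h z8 h8 1 h4 h4 (by decide)
    have h3 := toric_step h z8 h8 3 h4 h7 (by decide)
    have h6 := toric_step h z8 h8 6 h7 h7 (by decide)
    have h5 := toric_step h z8 h8 5 h7 h6 (by decide)
    have h2 := toric_step h z8 h8 2 h4 h6 (by decide)
    have h0 := toric_step h z8 h8 0 h4 h3 (by decide)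
    exact toric_zero h0 h1 h2 h3 h4 h5 h6 h7 h8
  by_cases z0 : z 0 ≠ 0
  · refine ⟨0, 1, 2, z0, fun ζ h h0 h1 h2 => ?_⟩
    have h5 := toric_step h z0 h0 5 h2 h2 (by decide)
    have h3 := toric_step h z0 h0 3 h1 h2 (by decide)
    have h4 := toric_step h z0 h0 4 h1 h3 (by decide)
    have h6 := toric_step h z0 h0 6 h2 h3 (by decide)
    have h7 := toric_step h z0 h0 7 h3 h3 (by decide)
    have h8 := toric_step h z0 h0 8 h3 h4 (by decide)
    exact toric_zero h0 h1 h2 h3 h4 h5 h6 h7 h8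
  by_cases z1 : z 1 ≠ 0
  · refine ⟨1, 0, 4, z1, fun ζ h h1 h0 h4 => ?_⟩
    have h8 := toric_step h z1 h1 8 h4 h4 (by decide)
    have h3 := toric_step h z1 h1 3 h0 h4 (by decide)
    have h2 := toric_step h z1 h1 2 h0 h3 (by decide)
    have h7 := toric_step h z1 h1 7 h4 h3 (by decide)
    have h6 := toric_step h z1 h1 6 h3 h3 (by decide)
    have h5 := toric_step h z1 h1 5 h3 h2 (by decide)
    exact toric_zero h0 h1 h2 h3 h4 h5 h6 h7 h8
  rw [not_not] at z0 z1 z5 z8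
  have sq : ∀ a c d, ex a + ex a = ex c + ex d → z c = 0 → z a = 0 := fun a c d e hc =>
    mul_self_eq_zero.1 (by rw [hz a a c d e, hc, zero_mul])
  have z2 := sq 2 0 5 (by decide) z0
  exact absurd (toric_zero z0 z1 z2 (sq 3 2 4 (by decide) z2) (sq 4 1 8 (by decide) z1) z5
    (sq 6 5 7 (by decide) z5) (sq 7 8 6 (by decide) z8) z8) h0

end Pool.Agent.GM34
end
end

-- merged part: Pool.Agent.Work.MP_274aea_ag_D34.PrimeA
section
set_option autoImplicit false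

open MvPolynomial Matrix Pool.Agent.GM16

namespace Pool.Agent.GM34

/-- A quadratic polynomial with given coefficients. -/
noncomputable def qd {S : Type*} [CommRing S] (A : Fin 3 → S) : Polynomial S :=
  Polynomial.C (A 2) * Polynomial.X ^ 2 + Polynomial.C (A 1) * Polynomial.X + Polynomial.C (A 0)

theorem primea_co {R : Type*} [CommRing R] {p4 p3 p2 p1 p0 : R}
    (h : Polynomial.C p4 * Polynomial.X ^ 4 + Polynomial.C p3 * Polynomial.X ^ 3 +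
      Polynomial.C p2 * Polynomial.X ^ 2 + Polynomial.C p1 * Polynomial.X + Polynomial.C p0 = 0) :
    p4 = 0 ∧ p3 = 0 ∧ p2 = 0 ∧ p1 = 0 ∧ p0 = 0 := by
  refine ⟨?_, ?_, ?_, ?_, ?_⟩
  · simpa [Polynomial.coeff_X, Polynomial.coeff_C] using congrArg (Polynomial.coeff · 4) h
  · simpa [Polynomial.coeff_X, Polynomial.coeff_C] using congrArg (Polynomial.coeff · 3) h
  · simpa [Polynomial.coeff_X, Polynomial.coeff_C] using congrArg (Polynomial.coeff · 2) h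
  · simpa [Polynomial.coeff_X, Polynomial.coeff_C] using congrArg (Polynomial.coeff · 1) h
  · simpa [Polynomial.coeff_X, Polynomial.coeff_C] using congrArg (Polynomial.coeff · 0) h

theorem primea_map {S : Type*} [CommRing S] [Algebra ℂ S] (A : Fin 3 → S) (ev : S →ₐ[ℂ] ℂ) :
    (qd A).map (ev : S →+* ℂ) = qd (ev ∘ A) := by
  simp [qd, Polynomial.map_add, Polynomial.map_mul, Polynomial.map_pow]

theorem primea_res {A B : Fin 3 → ℂ} {z : ℂ} (hA : (qd A).IsRoot z) (hB : (qd B).IsRoot z) :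
    res2 A B = 0 := by
  simp only [qd, Polynomial.IsRoot.def, Polynomial.eval_add, Polynomial.eval_mul,
    Polynomial.eval_C, Polynomial.eval_pow, Polynomial.eval_X] at hA hB
  rw [res2, show A 0 = -(A 2 * z ^ 2 + A 1 * z) by linear_combination hA,
    show B 0 = -(B 2 * z ^ 2 + B 1 * z) by linear_combination hB]
  ring

theorem primea_nsq {A B C' : Fin 3 → ℂ} {d : Polynomial ℂ}
    (h : d ^ 2 = qd B ^ 2 - 4 * qd A * qd C') : nsq A B C' = 0 := by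
  have h1 : (qd B ^ 2 - 4 * qd A * qd C').natDegree ≤ 4 := by
    unfold qd
    compute_degree
  rw [← h, Polynomial.natDegree_pow] at h1
  have h2 := Polynomial.eq_quadratic_of_degree_le_two
    (Polynomial.degree_le_of_natDegree_le (n := 2) (show d.natDegree ≤ 2 by omega))
  generalize d.coeff 2 = d2 at h2
  generalize d.coeff 1 = d1 at h2
  generalize d.coeff 0 = d0 at h2
  subst h2
  obtain ⟨e4, e3, -, e1, e0⟩ := primea_co (p4 := B 2 ^ 2 - 4 * A 2 * C' 2 - d2 ^ 2)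
    (p3 := 2 * B 1 * B 2 - 4 * (A 1 * C' 2 + A 2 * C' 1) - 2 * d1 * d2)
    (p2 := 2 * B 0 * B 2 + B 1 ^ 2 - 4 * (A 0 * C' 2 + A 1 * C' 1 + A 2 * C' 0) -
      (2 * d0 * d2 + d1 ^ 2))
    (p1 := 2 * B 0 * B 1 - 4 * (A 0 * C' 1 + A 1 * C' 0) - 2 * d0 * d1)
    (p0 := B 0 ^ 2 - 4 * A 0 * C' 0 - d0 ^ 2) (by
      simp only [qd] at h
      simp only [map_sub, map_add, map_mul, map_pow, map_ofNat]
      linear_combination -h)
  rw [nsq, sub_eq_zero.1 e4, sub_eq_zero.1 e3, sub_eq_zero.1 e1, sub_eq_zero.1 e0]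
  ring

theorem primea_unit {S : Type*} [CommRing S] [IsDomain S] [Algebra ℂ S] {A B : Fin 3 → S}
    (ev : S →ₐ[ℂ] ℂ) (hA : IsUnit (A 2)) (hr : res2 (ev ∘ A) (ev ∘ B) ≠ 0) {f : Polynomial S}
    (h1 : f ∣ qd A) (h2 : f ∣ qd B) : IsUnit f := by
  have hl : IsUnit f.leadingCoeff := by
    obtain ⟨k, hk⟩ := h1
    have := congrArg Polynomial.leadingCoeff hk
    rw [qd, Polynomial.leadingCoeff_quadratic hA.ne_zero, Polynomial.leadingCoeff_mul] at this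
    exact isUnit_of_mul_isUnit_left (this ▸ hA)
  rcases Nat.eq_zero_or_pos f.natDegree with h | h
  · rw [Polynomial.leadingCoeff, h] at hl
    rw [Polynomial.eq_C_of_natDegree_eq_zero h]
    exact Polynomial.isUnit_C.2 hl
  · obtain ⟨z, hz⟩ := Complex.exists_root (f := f.map (ev : S →+* ℂ)) (by
      rw [Polynomial.degree_map_eq_of_leadingCoeff_ne_zero _ (hl.map (ev : S →+* ℂ)).ne_zero]
      exact Polynomial.natDegree_pos_iff_degree_pos.1 h)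
    refine absurd (primea_res (z := z) ?_ ?_) hr
    · rw [← primea_map]
      exact hz.dvd (Polynomial.map_dvd _ h1)
    · rw [← primea_map]
      exact hz.dvd (Polynomial.map_dvd _ h2)

/-- Suppose `P = f * g`. If `f` has degree zero, `f = C f0` divides `qd A` and `qd B`; the leading
coefficient of `f0` is a unit because `A 2` is; if `f0` has positive degree its image under `ev` has
a complex root, a common root of the images of `qd A` and `qd B`, so `res2` vanishes. If both have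
degree one then `qd B ^ 2 - 4 * qd A * qd C` is a square; map by `ev`; the square root has degree
at most two; compare coefficients to get `nsq = 0`. -/
theorem irr_quad {S : Type*} [CommRing S] [IsDomain S] [Algebra ℂ S] (A B C' : Fin 3 → S)
    (ev : S →ₐ[ℂ] ℂ) (a : ℂ) (hA : A 2 = algebraMap ℂ S a) (ha : a ≠ 0)
    (hr : res2 (ev ∘ A) (ev ∘ B) ≠ 0) (hn : nsq (ev ∘ A) (ev ∘ B) (ev ∘ C') ≠ 0) :
    Irreducible (Polynomial.C (qd A) * Polynomial.X ^ 2 + Polynomial.C (qd B) * Polynomial.X +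
      Polynomial.C (qd C')) := by
  have hu : IsUnit (A 2) := hA ▸ (Ne.isUnit ha).map (algebraMap ℂ S)
  have h0 : qd A ≠ 0 := fun h => by
    have := congrArg Polynomial.leadingCoeff h
    rw [qd, Polynomial.leadingCoeff_quadratic hu.ne_zero, Polynomial.leadingCoeff_zero] at this
    exact hu.ne_zero this
  have hd := Polynomial.natDegree_quadratic (b := qd B) (c := qd C') h0
  have key : ∀ f g : Polynomial (Polynomial S), Polynomial.C (qd A) * Polynomial.X ^ 2 +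
      Polynomial.C (qd B) * Polynomial.X + Polynomial.C (qd C') = f * g → f.natDegree = 0 →
      IsUnit f := fun f g h k => by
    rw [Polynomial.eq_C_of_natDegree_eq_zero k] at h ⊢
    refine Polynomial.isUnit_C.2 (primea_unit ev hu hr ⟨g.coeff 2, ?_⟩ ⟨g.coeff 1, ?_⟩)
    · simpa [Polynomial.coeff_X, Polynomial.coeff_C] using congrArg (Polynomial.coeff · 2) h
    · simpa [Polynomial.coeff_X, Polynomial.coeff_C] using congrArg (Polynomial.coeff · 1) h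
  refine ⟨fun h => ?_, fun f g h => ?_⟩
  · rw [Polynomial.natDegree_eq_zero_of_isUnit h] at hd
    exact absurd hd (by norm_num)
  · have hf : f ≠ 0 := by
      rintro rfl
      rw [h, zero_mul, Polynomial.natDegree_zero] at hd
      exact absurd hd (by norm_num)
    have hg : g ≠ 0 := by
      rintro rfl
      rw [h, mul_zero, Polynomial.natDegree_zero] at hd
      exact absurd hd (by norm_num)
    rw [h, Polynomial.natDegree_mul hf hg] at hd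
    by_cases k1 : f.natDegree = 0
    · exact Or.inl (key f g h k1)
    by_cases k2 : g.natDegree = 0
    · exact Or.inr (key g f (h.trans (mul_comm _ _)) k2)
    have e1 := Polynomial.eq_X_add_C_of_natDegree_le_one (show f.natDegree ≤ 1 by omega)
    have e2 := Polynomial.eq_X_add_C_of_natDegree_le_one (show g.natDegree ≤ 1 by omega)
    generalize f.coeff 1 = f1 at e1
    generalize f.coeff 0 = f0 at e1
    generalize g.coeff 1 = g1 at e2
    generalize g.coeff 0 = g0 at e2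
    rw [e1, e2] at h
    obtain ⟨-, -, c2, c1, c0⟩ := primea_co (p4 := 0) (p3 := 0) (p2 := qd A - f1 * g1)
      (p1 := qd B - (f1 * g0 + f0 * g1)) (p0 := qd C' - f0 * g0) (by
        simp only [map_sub, map_add, map_mul, map_zero]
        linear_combination h)
    refine absurd (primea_nsq (d := (f1 * g0 - f0 * g1).map (ev : S →+* ℂ)) ?_) hn
    rw [← primea_map, ← primea_map, ← primea_map, sub_eq_zero.1 c2, sub_eq_zero.1 c1,
      sub_eq_zero.1 c0]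
    simp only [Polynomial.map_sub, Polynomial.map_add, Polynomial.map_mul]
    ring

end Pool.Agent.GM34
end
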