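import Pool.Agent.Work.MP_274aea_ag_D34.PrimeB
import Pool.Agent.Work.MP_274aea_ag_D34.PrimeA
import Pool.Agent.Work.MP_274aea_ag_D34.Num2

-- merged part: Pool.Agent.Work.MP_274aea_ag_D34.RatA
section
set_option autoImplicit false

open MvPolynomial Matrix Pool.Agent.GM16

namespace Pool.Agent.GM34

/-- The eigenvector of `Nm a` for the eigenvalue `r`. -/
def xe {R : Type*} [CommRing R] (a : Fin 8 → R) (r : R) : Fin 3 → R :=
  ![(r - (a 4 - a 7)) * r - a 5 * a 6, a 3 * r, a 3 * a 6]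

section Ring

variable {R : Type*} [CommRing R]

theorem rata_eig {a : Fin 8 → R} {r : R} (h : r ^ 3 - s1 a * r ^ 2 + s2 a * r - s3 a = 0) :
    Nm a *ᵥ xe a r = r • xe a r := by
  simp only [s1, s2, s3] at h
  ext i
  fin_cases i <;> simp [Nm, xe, mulVec, dotProduct, Fin.sum_univ_three]
  · linear_combination -h
  · ring
  · ring

theorem rata_Zv_add (a : Fin 8 → R) (σ τ : Fin 3 → R) : Zv a (σ + τ) = Zv a σ + Zv a τ := by
  simp only [Zv, mulVec_add]
  ext i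
  fin_cases i <;> simp [Zaux] <;> ring

theorem rata_Zv_smul (a : Fin 8 → R) (c : R) (σ : Fin 3 → R) : Zv a (c • σ) = c • Zv a σ := by
  simp only [Zv, mulVec_smul]
  ext i
  fin_cases i <;> simp [Zaux] <;> ring

theorem rata_Zv_xe {a : Fin 8 → R} {r : R} (h : Nm a *ᵥ xe a r = r • xe a r) :
    a 3 • Zv a (xe a r) = cubics (xe a r) := by
  simp only [Zv, mulVec_smul, h]
  ext i
  fin_cases i <;> simp [Zaux, cubics, xe] <;> ring

theorem rata_Cm {a : Fin 8 → R} {r : R} {u : Fin 3 → R} (h : Nm a *ᵥ u = r • u) (e : Fin 3 → R) :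
    Cm a e *ᵥ u = ((e 0 + e 1 * r) ^ 2 + (e 0 + e 1 * r) * (e 1 + e 2 * r) * (s1 a - r) +
      (e 1 + e 2 * r) ^ 2 * (r ^ 2 - s1 a * r + s2 a)) • u := by
  simp only [Cm, add_mulVec, sub_mulVec, ← mulVec_mulVec, smul_mulVec, one_mulVec, mulVec_add,
    mulVec_sub, mulVec_smul, h]
  module

theorem rata_quad {n : ℕ} (q : Matrix (Fin n) (Fin n) R) (p0 p1 p2 : Fin n → R) (r0 r1 r2 : R)
    (e : Fin 3 → R) (d0 d1 d2 : R) (h0 : bq q p0 p0 = 0) (h1 : bq q p1 p1 = 0)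
    (h2 : bq q p2 p2 = 0) (e0 : d0 = e 0 + e 1 * (r1 + r2) + e 2 * (r1 * r2))
    (e1 : d1 = e 0 + e 1 * (r0 + r2) + e 2 * (r0 * r2))
    (e2 : d2 = e 0 + e 1 * (r0 + r1) + e 2 * (r0 * r1))
    (he : e 0 * bq q (p0 + p1 + p2) (p0 + p1 + p2) +
      e 1 * bs q (p0 + p1 + p2) (r0 • p0 + r1 • p1 + r2 • p2) +
      e 2 * bq q (r0 • p0 + r1 • p1 + r2 • p2) (r0 • p0 + r1 • p1 + r2 • p2) = 0) :
    bq q ((d1 * d2) • p0 + (d0 * d2) • p1 + (d0 * d1) • p2)
      ((d1 * d2) • p0 + (d0 * d2) • p1 + (d0 * d1) • p2) = 0 := by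
  simp only [bs, bq, mulVec_add, mulVec_smul, add_dotProduct, dotProduct_add, smul_dotProduct,
    dotProduct_smul, smul_eq_mul] at *
  simp only [h0, h1, h2] at he ⊢
  linear_combination (d0 * d1 * d2) * he +
    d0 * d1 * d2 * (p1 ⬝ᵥ q *ᵥ p2 + p2 ⬝ᵥ q *ᵥ p1) * e0 +
    d0 * d1 * d2 * (p0 ⬝ᵥ q *ᵥ p2 + p2 ⬝ᵥ q *ᵥ p0) * e1 +
    d0 * d1 * d2 * (p0 ⬝ᵥ q *ᵥ p1 + p1 ⬝ᵥ q *ᵥ p0) * e2

theorem rata_bq_smul {n : ℕ} (q : Matrix (Fin n) (Fin n) R) (c : R) (p : Fin n → R) :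
    bq q (c • p) (c • p) = c ^ 2 * bq q p p := by
  simp only [bq, mulVec_smul, smul_dotProduct, dotProduct_smul, smul_eq_mul]
  ring

/-- The contraction of a bivector with `y`, components one to four. -/
def rata_L (y : Fin 5 → R) (p : Fin 10 → R) : Fin 4 → R :=
  ![y 0 * p 0 - y 2 * p 4 - y 3 * p 5 - y 4 * p 6, y 0 * p 1 + y 1 * p 4 - y 3 * p 7 - y 4 * p 8,
    y 0 * p 2 + y 1 * p 5 + y 2 * p 7 - y 4 * p 9, y 0 * p 3 + y 1 * p 6 + y 2 * p 8 + y 3 * p 9]

theorem rata_L_add (y : Fin 5 → R) (p p' : Fin 10 → R) :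
    rata_L y (p + p') = rata_L y p + rata_L y p' := by
  ext i
  fin_cases i <;> simp [rata_L] <;> ring

theorem rata_L_smul (y : Fin 5 → R) (c : R) (p : Fin 10 → R) :
    rata_L y (c • p) = c • rata_L y p := by
  ext i
  fin_cases i <;> simp [rata_L] <;> ring

theorem rata_L_det (y : Fin 5 → R) (x : Fin 3 → R) (v : Fin 5 → Fin 3 → R) (t : R)
    (h : ∀ i, y 0 * v 0 i + y 1 * v 1 i + y 2 * v 2 i + y 3 * v 3 i + y 4 * v 4 i = t * x i) :
    rata_L y (fun i => x ⬝ᵥ v (ee i).1.1 ⨯₃ v (ee i).1.2) = 0 := by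
  ext i
  fin_cases i <;> simp [rata_L, ee, cross_apply, dotProduct, Fin.sum_univ_three]
  · linear_combination (v 1 1 * x 2 - v 1 2 * x 1) * h 0 + (v 1 2 * x 0 - v 1 0 * x 2) * h 1 +
      (v 1 0 * x 1 - v 1 1 * x 0) * h 2
  · linear_combination (v 2 1 * x 2 - v 2 2 * x 1) * h 0 + (v 2 2 * x 0 - v 2 0 * x 2) * h 1 +
      (v 2 0 * x 1 - v 2 1 * x 0) * h 2
  · linear_combination (v 3 1 * x 2 - v 3 2 * x 1) * h 0 + (v 3 2 * x 0 - v 3 0 * x 2) * h 1 +
      (v 3 0 * x 1 - v 3 1 * x 0) * h 2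
  · linear_combination (v 4 1 * x 2 - v 4 2 * x 1) * h 0 + (v 4 2 * x 0 - v 4 0 * x 2) * h 1 +
      (v 4 0 * x 1 - v 4 1 * x 0) * h 2

theorem rata_L_cub (m : Mi → R) (y : Fin 5 → R) {x : Fin 3 → R} {r : R}
    (h : Nm (am m y) *ᵥ x = r • x) : rata_L y (Phi m *ᵥ cubics x) = 0 := by
  rw [Phi_cubics]
  refine rata_L_det y x (fun k => mat m k *ᵥ x) (r + am m y 7) fun i => ?_
  have hi := congrFun h i
  fin_cases i <;>
    simp [Nm, am, mat, mulVec, dotProduct, Fin.sum_univ_three, Fin.sum_univ_five] at hi ⊢ <;>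
    linear_combination hi

theorem rata_plk {y : Fin 5 → R} {p : Fin 10 → R} (hy : y 0 = 1) (hL : rata_L y p = 0)
    (h0 : plk p 0 = 0) : plk p = 0 := by
  have l0 := congrFun hL 0
  have l1 := congrFun hL 1
  have l2 := congrFun hL 2
  have l3 := congrFun hL 3
  simp [rata_L, hy] at l0 l1 l2 l3
  simp [plk] at h0
  ext i
  fin_cases i <;> simp [plk]
  · exact h0
  · linear_combination p 9 * l1 - p 8 * l2 + p 7 * l3 - y 1 * h0
  · linear_combination p 9 * l0 - p 6 * l2 + p 5 * l3 + y 2 * h0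
  · linear_combination p 8 * l0 - p 6 * l1 + p 4 * l3 - y 3 * h0
  · linear_combination p 7 * l0 - p 5 * l1 + p 4 * l2 + y 4 * h0

end Ring

theorem rata_roots {L : Type*} [Field L] [IsAlgClosed L] (s t u : L) :
    ∃ r0 r1 r2 : L, s = r0 + r1 + r2 ∧ t = r0 * r1 + r0 * r2 + r1 * r2 ∧ u = r0 * r1 * r2 := by
  have ha : (⟨1, -s, t, -u⟩ : Cubic L).a ≠ 0 := one_ne_zero
  obtain ⟨x, y, z, h⟩ :=
    (Cubic.splits_iff_roots_eq_three (φ := RingHom.id L) ha).1 (IsAlgClosed.splits _)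
  have hb := Cubic.b_eq_three_roots ha h
  have hc := Cubic.c_eq_three_roots ha h
  have hd := Cubic.d_eq_three_roots ha h
  simp only [RingHom.id_apply] at hb hc hd
  exact ⟨x, y, z, by linear_combination -hb, by linear_combination hc, by linear_combination -hd⟩

theorem rata_pt {L : Type*} [Field L] {m : Mi → L} {h : Fin 10 → L} {q : M10 L} {y : Fin 5 → L}
    (ho : OctN m h q) (h3 : am m y 3 ≠ 0) {r : L}
    (hr : Nm (am m y) *ᵥ xe (am m y) r = r • xe (am m y) r) (w : L) :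
    bq P0 (Phi m *ᵥ Zv (am m y) (w • xe (am m y) r)) (Phi m *ᵥ Zv (am m y) (w • xe (am m y) r)) = 0 ∧
    bq q (Phi m *ᵥ Zv (am m y) (w • xe (am m y) r)) (Phi m *ᵥ Zv (am m y) (w • xe (am m y) r)) = 0 ∧
    rata_L y (Phi m *ᵥ Zv (am m y) (w • xe (am m y) r)) = 0 := by
  have e : Phi m *ᵥ Zv (am m y) (w • xe (am m y) r) =
      (w * (am m y 3)⁻¹) • Phi m *ᵥ cubics (xe (am m y) r) := by
    rw [rata_Zv_smul, ← rata_Zv_xe hr, mulVec_smul, mulVec_smul, smul_smul,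
      inv_mul_cancel_right₀ h3]
  rw [e, rata_bq_smul, rata_bq_smul, rata_L_smul, rata_L_cub m y hr, bq_P0, plk_cubics, ← bq_mul,
    e2_cubics _ ho.2]
  simp

theorem rata_closed {L : Type*} [Field L] [IsAlgClosed L] {m : Mi → L} {h : Fin 10 → L}
    {q : M10 L} {y : Fin 5 → L} (ho : OctN m h q) (hy : y 0 = 1) (hd : disc (am m y) ≠ 0)
    (h3 : am m y 3 ≠ 0) : plk (pst m q y) = 0 ∧ bq q (pst m q y) (pst m q y) = 0 := by
  obtain ⟨r0, r1, r2, e1, e2, e3⟩ := rata_roots (s1 (am m y)) (s2 (am m y)) (s3 (am m y))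
  have hΔ : (r0 - r1) * (r0 - r2) * (r1 - r2) ≠ 0 := fun k => hd (by
    rw [disc, e1, e2, e3]
    linear_combination (r0 - r1) * (r0 - r2) * (r1 - r2) * k)
  obtain ⟨ι, hι⟩ : ∃ ι, ι * ((r0 - r1) * (r0 - r2) * (r1 - r2)) = 1 := ⟨_, inv_mul_cancel₀ hΔ⟩
  have g0 : Nm (am m y) *ᵥ xe (am m y) r0 = r0 • xe (am m y) r0 :=
    rata_eig (by rw [e1, e2, e3]; ring)
  have g1 : Nm (am m y) *ᵥ xe (am m y) r1 = r1 • xe (am m y) r1 :=
    rata_eig (by rw [e1, e2, e3]; ring)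
  have g2 : Nm (am m y) *ᵥ xe (am m y) r2 = r2 • xe (am m y) r2 :=
    rata_eig (by rw [e1, e2, e3]; ring)
  have t0 := rata_pt ho h3 g0 (ι * (r1 - r2))
  have t1 := rata_pt ho h3 g1 (ι * (r2 - r0))
  have t2 := rata_pt ho h3 g2 (ι * (r0 - r1))
  have hs : (![1, 0, 0] : Fin 3 → L) = (ι * (r1 - r2)) • xe (am m y) r0 +
      (ι * (r2 - r0)) • xe (am m y) r1 + (ι * (r0 - r1)) • xe (am m y) r2 := by
    ext i
    fin_cases i <;> simp [xe]
    · linear_combination -hι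
    · ring
    · ring
  have n0 : Nm (am m y) *ᵥ ((ι * (r1 - r2)) • xe (am m y) r0) =
      r0 • ((ι * (r1 - r2)) • xe (am m y) r0) := by rw [mulVec_smul, g0, smul_comm]
  have n1 : Nm (am m y) *ᵥ ((ι * (r2 - r0)) • xe (am m y) r1) =
      r1 • ((ι * (r2 - r0)) • xe (am m y) r1) := by rw [mulVec_smul, g1, smul_comm]
  have n2 : Nm (am m y) *ᵥ ((ι * (r0 - r1)) • xe (am m y) r2) =
      r2 • ((ι * (r0 - r1)) • xe (am m y) r2) := by rw [mulVec_smul, g2, smul_comm]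
  generalize (ι * (r1 - r2)) • xe (am m y) r0 = u0 at t0 hs n0
  generalize (ι * (r2 - r0)) • xe (am m y) r1 = u1 at t1 hs n1
  generalize (ι * (r0 - r1)) • xe (am m y) r2 = u2 at t2 hs n2
  obtain ⟨e, he⟩ : ∃ e, e = evec m q (am m y) := ⟨_, rfl⟩
  obtain ⟨d0, k0⟩ : ∃ d0, d0 = e 0 + e 1 * (r1 + r2) + e 2 * (r1 * r2) := ⟨_, rfl⟩
  obtain ⟨d1, k1⟩ : ∃ d1, d1 = e 0 + e 1 * (r0 + r2) + e 2 * (r0 * r2) := ⟨_, rfl⟩
  obtain ⟨d2, k2⟩ : ∃ d2, d2 = e 0 + e 1 * (r0 + r1) + e 2 * (r0 * r1) := ⟨_, rfl⟩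
  have c0 : Cm (am m y) e *ᵥ u0 = (d1 * d2) • u0 := by
    rw [rata_Cm n0, e1, e2, k1, k2]
    exact congrArg (· • u0) (by ring)
  have c1 : Cm (am m y) e *ᵥ u1 = (d0 * d2) • u1 := by
    rw [rata_Cm n1, e1, e2, k0, k2]
    exact congrArg (· • u1) (by ring)
  have c2 : Cm (am m y) e *ᵥ u2 = (d0 * d1) • u2 := by
    rw [rata_Cm n2, e1, e2, k0, k1]
    exact congrArg (· • u2) (by ring)
  have hp : pst m q y = (d1 * d2) • Phi m *ᵥ Zv (am m y) u0 + (d0 * d2) • Phi m *ᵥ Zv (am m y) u1 +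
      (d0 * d1) • Phi m *ᵥ Zv (am m y) u2 := by
    rw [pst, zst, ← he, hs]
    simp only [mulVec_add, c0, c1, c2, rata_Zv_add, rata_Zv_smul, mulVec_smul]
  rw [evec, hs] at he
  simp only [mulVec_add, n0, n1, n2, rata_Zv_add, rata_Zv_smul, mulVec_smul] at he
  rw [hp]
  generalize Phi m *ᵥ Zv (am m y) u0 = p0 at t0 he ⊢
  generalize Phi m *ᵥ Zv (am m y) u1 = p1 at t1 he ⊢
  generalize Phi m *ᵥ Zv (am m y) u2 = p2 at t2 he ⊢
  refine ⟨rata_plk hy ?_ ?_, rata_quad q p0 p1 p2 r0 r1 r2 e d0 d1 d2 t0.2.1 t1.2.1 t2.2.1 k0 k1 k2 ?_⟩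
  · simp only [rata_L_add, rata_L_smul, t0.2.2, t1.2.2, t2.2.2, smul_zero, add_zero]
  · rw [← bq_P0]
    refine rata_quad P0 p0 p1 p2 r0 r1 r2 e d0 d1 d2 t0.1 t1.1 t2.1 k0 k1 k2 ?_
    rw [he]
    simp [lamq, cross_apply]
    ring
  · rw [he]
    simp [lamq, cross_apply]
    ring

/-- Pass to the algebraic closure `L` of `K` (all terms are natural, see `Maps`). Put `a = am m y`.
The cubic `r ^ 3 - s1 a * r ^ 2 + s2 a * r - s3 a` has discriminant `disc a`, so three distinct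
roots `r i` (`Cubic.discr_ne_zero_iff_roots_ne`, `Cubic.b_eq_three_roots` and so on). With
`x i = xe a (r i)`: `Nm a *ᵥ x i = r i • x i`, `a 3 • Zv a (x i) = cubics (x i)`,
`![1,0,0] = ∑ w i • x i` with `w i = 1 / ∏ (r i - r j)`, `Zv a` is linear,
`Cm a e *ᵥ x i = (d j * d k) • x i` with `d i = e 0 + e 1 * (r j + r k) + e 2 * (r j * r k)`.
For a form `f` with `bq f (π i) (π i) = 0`, `π i = Phi m *ᵥ Zv a (x i)`, and
`β k = w i * w j * bs f (π i) (π j)` one gets `lamq f p0 p1 = (∑ β k, ∑ β k (r i + r j), ∑ β k r i r j)`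
and `bq f pst pst = d 0 * d 1 * d 2 * (e ⬝ᵥ lamq f p0 p1)`, which vanishes for `f = q` and `f = P0`
because `e` is the cross product. The other Pluecker relations: `∑ k, y k * π (k, l) = 0` for the
skew matrix of each `π i` (as `∑ y k • mat m k` has the eigenvector `x i`, see `Phi_cubics`), hence
for `pst`; then `y 0 * plk p j = ± y j * plk p 0` modulo these linear relations. -/
theorem pst_on {K : Type*} [Field K] {m : Mi → K} {h : Fin 10 → K} {q : M10 K} {y : Fin 5 → K}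
    (ho : OctN m h q) (hy : y 0 = 1) (hd : disc (am m y) ≠ 0) (h3 : am m y 3 ≠ 0) :
    plk (pst m q y) = 0 ∧ h ⬝ᵥ pst m q y = 0 ∧ bq q (pst m q y) (pst m q y) = 0 := by
  have hf := (algebraMap K (AlgebraicClosure K)).injective
  generalize algebraMap K (AlgebraicClosure K) = f at hf
  have key := rata_closed (y := f ∘ y) (map_OctN f ho) (by simp [hy])
    (by rw [← map_am, ← map_disc]; exact (map_ne_zero f).2 hd)
    (by rw [← map_am]; exact (map_ne_zero f).2 h3)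
  rw [← map_pst, ← map_plk, ← map_bq] at key
  refine ⟨funext fun i => hf ?_, ?_, hf ?_⟩
  · rw [Pi.zero_apply, map_zero]
    exact congrFun key.1 i
  · rw [pst, dotProduct_mulVec, ho.1, zero_dotProduct]
  · rw [map_zero]
    exact key.2

end Pool.Agent.GM34
end

-- merged part: Pool.Agent.Work.MP_274aea_ag_D34.Main1
section
-- merged part: Pool.Agent.Work.MP_274aea_ag_D34.RatB
section
set_option autoImplicit false

open MvPolynomial Matrix Pool.Agent.GM16

namespace Pool.Agent.GM34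

theorem Sa_Sb {R : Type*} [CommRing R] (a : Fin 8 → R) (σ : Fin 3 → R) :
    a 6 • Sa (Zv a σ) = Nm a * Sb (Zv a σ) := by
  ext i j
  fin_cases i <;> fin_cases j <;>
    simp [Sa, Sb, Zv, Zaux, Nm, Matrix.mul_apply, mulVec, dotProduct, Fin.sum_univ_three] <;> ring

theorem ratb_left {K ι κ : Type*} [Field K] [Algebra ℂ K] [Fintype ι] [DecidableEq ι] [Fintype κ]
    {F : Subfield K} (hF : ∀ c, algebraMap ℂ K c ∈ F) {B : Matrix ι κ ℂ} {P : Matrix κ ι ℂ}
    (h : B * P = 1) {ρ : K} {z : ι → K} (hz : ∀ j, ρ * (P.map (algebraMap ℂ K) *ᵥ z) j ∈ F)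
    (i : ι) : ρ * z i ∈ F := by
  have e : z = B.map (algebraMap ℂ K) *ᵥ P.map (algebraMap ℂ K) *ᵥ z := by
    rw [mulVec_mulVec, ← Matrix.map_mul, h, Matrix.map_one _ (map_zero _) (map_one _), one_mulVec]
  rw [e]
  generalize P.map (algebraMap ℂ K) *ᵥ z = w at hz
  rw [mulVec, dotProduct, Finset.mul_sum]
  refine F.sum_mem fun j _ => ?_
  rw [mul_left_comm]
  exact F.mul_mem (hF _) (hz j)

theorem ratb_core {K : Type*} [Field K] {F : Subfield K} {c ρ : K} {N : M3 K} {z : Fin 9 → K}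
    (hρ : ρ ≠ 0) (hz : ∀ i, ρ * z i ∈ F) (hc : c ≠ 0) (hd : (Sb z).det ≠ 0)
    (e : c • Sa z = N * Sb z) (i j : Fin 3) : c⁻¹ * N i j ∈ F := by
  obtain ⟨w, hw⟩ : ∃ w : Fin 9 → F, ∀ i, (w i : K) = ρ * z i := ⟨fun i => ⟨_, hz i⟩, fun _ => rfl⟩
  have ea : (Sa w).map F.subtype = ρ • Sa z := by
    ext i j
    fin_cases i <;> fin_cases j <;> exact hw _
  have eb : (Sb w).map F.subtype = ρ • Sb z := by
    ext i j
    fin_cases i <;> fin_cases j <;> exact hw _
  have h1 : F.subtype (Sb w).det ≠ 0 := by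
    rw [RingHom.map_det, RingHom.mapMatrix_apply, eb, det_smul]
    exact mul_ne_zero (pow_ne_zero _ hρ) hd
  have h2 : c • (Sa w * (Sb w).adjugate).map F.subtype = F.subtype (Sb w).det • N := by
    rw [Matrix.map_mul, ← smul_mul_assoc, ea, smul_comm, e, ← mul_smul_comm, ← eb, mul_assoc,
      ← Matrix.map_mul, mul_adjugate, Matrix.map_smul' _ _ _ (map_mul _),
      Matrix.map_one _ (map_zero _) (map_one _), mul_smul_comm, mul_one]
  have h3 : c * F.subtype ((Sa w * (Sb w).adjugate) i j) = F.subtype (Sb w).det * N i j :=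
    congrFun (congrFun h2 i) j
  have h4 : c⁻¹ * N i j =
      (F.subtype (Sb w).det)⁻¹ * F.subtype ((Sa w * (Sb w).adjugate) i j) := by
    field_simp
    exact (mul_comm _ _).trans h3.symm
  rw [h4]
  exact F.mul_mem (F.inv_mem (SetLike.coe_mem _)) (SetLike.coe_mem _)

theorem ratb_Nu {R : Type*} [CommRing R] (m : Mi → R) (y : Fin 5 → R) :
    Nu m *ᵥ y = ![Nm (am m y) 0 0, Nm (am m y) 0 1, Nm (am m y) 0 2, Nm (am m y) 1 0,
      Nm (am m y) 1 1, Nm (am m y) 1 2, Nm (am m y) 2 1] := by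
  ext j
  fin_cases j <;> simp [Nu, Nm, am, mulVec, dotProduct, Fin.sum_univ_five] <;> ring

theorem ratb_top {F : Subfield Om} (hF : ∀ c, algebraMap ℂ Om c ∈ F)
    (hX : ∀ i, algebraMap (MvPolynomial (Fin 4) ℂ) Om (X i) ∈ F) : F = ⊤ := by
  have h : ∀ p, algebraMap (MvPolynomial (Fin 4) ℂ) Om p ∈ F := fun p => by
    induction p using MvPolynomial.induction_on with
    | C c => exact hF c
    | add p q hp hq => exact map_add (algebraMap _ Om) p q ▸ F.add_mem hp hq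
    | mul_X p i hp => exact map_mul (algebraMap _ Om) p (X i) ▸ F.mul_mem hp (hX i)
  refine top_le_iff.1 fun x _ => ?_
  obtain ⟨p, q, -, rfl⟩ := IsFractionRing.div_surjective (A := MvPolynomial (Fin 4) ℂ) x
  exact F.div_mem (h p) (h q)

/-- If `ρ • pst` has entries in `F` then so has `ρ • zst = B *ᵥ (ρ • pst)`. By `Sa_Sb` the matrix
`(a 6)⁻¹ • Nm a = Sa z * (Sb z)⁻¹` has entries in `F`, for `z = ρ • zst`. The seven entries of
`Nm a` form the vector `Nu m *ᵥ y`, so `(a 6)⁻¹ • y = La *ᵥ _` has entries in `F`; `y 0 = 1` gives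
`(a 6)⁻¹ ∈ F`, so all `X i` lie in `F`, and these generate the fraction field. -/
theorem pst_gen {m : Mi → ℂ} (q : M10 Om) {B : Matrix (Fin 9) (Fin 10) ℂ} (hB : B * Phi m = 1)
    {La : Matrix (Fin 5) (Fin 7) ℂ} (hL : La * Nu m = 1)
    (h6 : am (algebraMap ℂ Om ∘ m) yO 6 ≠ 0)
    (hd : (Sb (zst (algebraMap ℂ Om ∘ m) q yO)).det ≠ 0) :
    Gen (pst (algebraMap ℂ Om ∘ m) q yO) := by
  intro F hF ρ hρ hp
  have h1 : ∀ i, ρ * zst (algebraMap ℂ Om ∘ m) q yO i ∈ F :=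
    ratb_left hF hB fun j => by
      rw [map_Phi]
      exact hp j
  have h2 := ratb_core hρ h1 h6 hd (Sa_Sb _ _)
  have h3 : ∀ k, (am (algebraMap ℂ Om ∘ m) yO 6)⁻¹ * yO k ∈ F :=
    ratb_left hF hL fun j => by
      rw [map_Nu, ratb_Nu]
      fin_cases j <;> exact h2 _ _
  have h4 : (am (algebraMap ℂ Om ∘ m) yO 6)⁻¹ ∈ F := by
    have := h3 0
    rwa [show yO 0 = 1 from map_one _, mul_one] at this
  have h5 : ∀ k, yO k ∈ F := fun k => by
    have := F.mul_mem (F.inv_mem h4) (h3 k)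
    rwa [inv_mul_cancel_left₀ (inv_ne_zero h6)] at this
  refine ratb_top hF fun i => ?_
  fin_cases i
  exacts [h5 1, h5 2, h5 3, h5 4]

end Pool.Agent.GM34
end

-- merged part: Pool.Agent.Work.MP_274aea_ag_D34.Chart
section
set_option autoImplicit false

open MvPolynomial Matrix Pool.Agent.GM16

namespace Pool.Agent.GM34

theorem chart_pch {K : Type} [Field K] {p : Fin 10 → K} (hp : plk p = 0) (h0 : p 0 ≠ 0) :
    pch ![-p 4 / p 0, -p 5 / p 0, -p 6 / p 0, p 1 / p 0, p 2 / p 0, p 3 / p 0] = (p 0)⁻¹ • p := by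
  have h2 : p 0 * p 9 - p 2 * p 6 + p 3 * p 5 = 0 := congrFun hp 2
  have h3 : p 0 * p 8 - p 1 * p 6 + p 3 * p 4 = 0 := congrFun hp 3
  have h4 : p 0 * p 7 - p 1 * p 5 + p 2 * p 4 = 0 := congrFun hp 4
  funext i
  fin_cases i <;> simp [pch, pw] <;> field_simp
  · linear_combination -h4
  · linear_combination -h3
  · linear_combination -h2

theorem chart_map {K : Type} [Field K] [Algebra ℂ K] (Y : Fin 6 → K) (i : Fin 10) :
    aeval Y (pch (X : Fin 6 → MvPolynomial (Fin 6) ℂ) i) = pch Y i := by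
  fin_cases i <;> simp [pch, pw]

/-- Put `Y = (-p 4, -p 5, -p 6, p 1, p 2, p 3) / p 0`. The Pluecker relations number 2, 3, 4 give
`pch Y = (p 0)⁻¹ • p`. So `aeval Y` kills `JN h q`; apply `frac_equiv` to the induced map, with
`ρ = (p 0)⁻¹` in `Gen`. -/
theorem chart_rat {h : Fin 10 → ℂ} {q : M10 ℂ} (hp : (JN h q).IsPrime)
    (htr : Algebra.trdeg ℂ (MvPolynomial (Fin 6) ℂ ⧸ JN h q) ≤ 4) {p : Fin 10 → Om}
    (hg : GenPt h q p) (h0 : p 0 ≠ 0) : RatN h q := by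
  obtain ⟨g1, g2, g3, g4⟩ := hg
  have e := chart_pch g1 h0
  generalize (![-p 4 / p 0, -p 5 / p 0, -p 6 / p 0, p 1 / p 0, p 2 / p 0, p 3 / p 0] :
    Fin 6 → Om) = Y at e
  have hk : ∀ a ∈ JN h q, (aeval Y : MvPolynomial (Fin 6) ℂ →ₐ[ℂ] Om) a = 0 := by
    have : JN h q ≤ RingHom.ker (aeval Y : MvPolynomial (Fin 6) ℂ →ₐ[ℂ] Om) := by
      refine Ideal.span_le.2 ?_
      rintro _ (rfl | rfl)
      · have k : (fun i => algebraMap ℂ Om (h i)) ⬝ᵥ pch Y = 0 := by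
          rw [e, dotProduct_smul, g2, smul_zero]
        simpa only [SetLike.mem_coe, RingHom.mem_ker, dotProduct, map_sum, map_mul, aeval_C,
          chart_map] using k
      · have k : bq (q.map (algebraMap ℂ Om)) (pch Y) (pch Y) = 0 := by
          rw [bq] at g3
          rw [e, bq, mulVec_smul, dotProduct_smul, smul_dotProduct, g3, smul_zero, smul_zero]
        simpa only [SetLike.mem_coe, RingHom.mem_ker, bq, dotProduct, mulVec, map_sum, map_mul,
          Matrix.map_apply, aeval_C, chart_map] using k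
    exact fun a ha => this ha
  refine ⟨hp, frac_equiv (Ideal.Quotient.liftₐ (JN h q) (aeval Y) hk) htr AlgEquiv.refl
    fun F hF => ?_⟩
  have hF' : ∀ a : MvPolynomial (Fin 6) ℂ, aeval Y a ∈ F := fun a =>
    hF (Ideal.Quotient.mk _ a)
  refine g4 F (fun c => ?_) (p 0)⁻¹ (inv_ne_zero h0) fun i => ?_
  · simpa only [aeval_C] using hF' (C c)
  · have := hF' (pch X i)
    rwa [chart_map, e] at this

end Pool.Agent.GM34
end

-- merged part: Pool.Agent.Work.MP_274aea_ag_D34.Good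
section
set_option autoImplicit false

open MvPolynomial Matrix Pool.Agent.GM16

namespace Pool.Agent.GM34

theorem good_left {n k : ℕ} {B : Matrix (Fin k) (Fin n) ℂ} {P : Matrix (Fin n) (Fin k) ℂ}
    (h : (B * P).det ≠ 0) : ∃ B' : Matrix (Fin k) (Fin n) ℂ, B' * P = 1 :=
  ⟨(B * P)⁻¹ * B, by rw [Matrix.mul_assoc, nonsing_inv_mul _ (Ne.isUnit h)]⟩

theorem good_B {m : Mi → ℂ} (h : condM m ≠ 0) :
    ∃ B : Matrix (Fin 9) (Fin 10) ℂ, B * Phi m = 1 := good_left (left_ne_zero_of_mul h)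

theorem good_La {m : Mi → ℂ} (h : condM m ≠ 0) :
    ∃ B : Matrix (Fin 5) (Fin 7) ℂ, B * Nu m = 1 := good_left (right_ne_zero_of_mul h)

abbrev P4 := MvPolynomial (Fin 4) ℂ

noncomputable def yP : Fin 5 → P4 := ![1, X 0, X 1, X 2, X 3]

noncomputable def evP : P4 →+* ℂ := eval fun i => (y0 : Fin 5 → ℂ) i.succ

theorem good_ev_y : evP ∘ yP = y0 := by
  funext i
  fin_cases i <;> simp [evP, yP, y0]

theorem good_al_y : algebraMap P4 Om ∘ yP = yO := rfl

theorem good_ev_v {ι : Type*} (x : ι → ℂ) : evP ∘ ((C : ℂ →+* P4) ∘ x) = x := by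
  funext i
  simp [evP]

theorem good_al_v {ι : Type*} (x : ι → ℂ) :
    algebraMap P4 Om ∘ ((C : ℂ →+* P4) ∘ x) = algebraMap ℂ Om ∘ x := rfl

theorem good_ev_m {ι κ : Type*} (A : Matrix ι κ ℂ) : (A.map (C : ℂ →+* P4)).map evP = A := by
  ext i j
  simp [evP]

theorem good_al_m {ι κ : Type*} (A : Matrix ι κ ℂ) :
    (A.map (C : ℂ →+* P4)).map (algebraMap P4 Om) = A.map (algebraMap ℂ Om) := rfl

theorem good_ne {p : P4} (h : evP p ≠ 0) : algebraMap P4 Om p ≠ 0 := fun e =>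
  h (by rw [(map_eq_zero_iff _ (IsFractionRing.injective P4 Om)).1 e, map_zero])

theorem good_pt {m : Mi → ℂ} {h : Fin 10 → ℂ} {q : M10 ℂ} (hm : condM m ≠ 0) (ho : OctN m h q)
    (hr : ratc (algebraMap ℂ Om ∘ m) (q.map (algebraMap ℂ Om)) yO ≠ 0) :
    GenPt h q (pst (algebraMap ℂ Om ∘ m) (q.map (algebraMap ℂ Om)) yO) := by
  obtain ⟨B, hB⟩ := good_B hm
  obtain ⟨La, hL⟩ := good_La hm
  simp only [ratc, ne_eq, mul_eq_zero, not_or] at hr
  obtain ⟨⟨⟨h1, h2⟩, h3⟩, h4⟩ := hr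
  obtain ⟨a, b, c⟩ := pst_on (map_OctN (algebraMap ℂ Om) ho) (y := yO) (map_one _) h1 h2
  exact ⟨a, b, c, pst_gen _ hB hL h3 h4⟩

theorem good_rat {h : Fin 10 → ℂ} {q : M10 ℂ} (hg : gpr h q ≠ 0) {p : Fin 10 → Om}
    (hp : GenPt h q p) (h0 : p 0 ≠ 0) : RatN h q :=
  chart_rat (prime_of hg).1 (prime_of hg).2 hp h0

theorem rat1 {m : Mi → ℂ} {h : Fin 10 → ℂ} {q : M10 ℂ} (hm : condM m ≠ 0) (ho : OctN m h q)
    (hc : cond1 m h q y0 ≠ 0) : RatN h q := by
  have h1 : evP (cond1 (C ∘ m) (C ∘ h) (q.map C) yP) ≠ 0 := by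
    rwa [map_cond1, good_ev_v, good_ev_v, good_ev_m, good_ev_y]
  have h2 := good_ne h1
  rw [map_cond1, good_al_v, good_al_v, good_al_m, good_al_y] at h2
  have h3 := right_ne_zero_of_mul h2
  exact good_rat (left_ne_zero_of_mul hc) (good_pt hm ho (left_ne_zero_of_mul h3))
    (right_ne_zero_of_mul h3)

theorem rat2 {m : Mi → ℂ} {h : Fin 10 → ℂ} {q : M10 ℂ} {J N : M3 ℂ} {l : Fin 4 → ℂ} {c : ℂ}
    (hm : condM m ≠ 0) (hp : HasPlane J (hG l h) (qG l c q)) (hN : LL J (qG l c q) * N = 1)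
    (ho : OctN m (legH J N (hG l h) (qG l c q)) (legQ J N (qG l c q))) (hg : gpr h q ≠ 0)
    (hc : cond2 m J N l (qG l c q) y0 ≠ 0) : RatN h q := by
  generalize hq : qG l c q = q' at hp hN ho hc
  have h1 : evP (cond2 (C ∘ m) (J.map C) (N.map C) (C ∘ l) (q'.map C) yP) ≠ 0 := by
    rwa [map_cond2, good_ev_v, good_ev_v, good_ev_m, good_ev_m, good_ev_m, good_ev_y]
  have h2 := good_ne h1
  rw [map_cond2, good_al_v, good_al_v, good_al_m, good_al_m, good_al_m, good_al_y, cond2,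
    ← map_legQ] at h2
  have h3 := left_ne_zero_of_mul h2
  have h4 := trf_gen hp hN (good_pt hm ho (left_ne_zero_of_mul h3)) (right_ne_zero_of_mul h3)
  subst hq
  exact good_rat hg (gl_gen h4) (right_ne_zero_of_mul h2)

theorem kap1_ne {h : Fin 10 → ℂ} {q : M10 ℂ} (hg : gpr h q ≠ 0) : kap1 h ≠ 0 := fun e =>
  hg (by simp [gpr, e])

end Pool.Agent.GM34
end

-- merged part: Pool.Agent.Work.MP_274aea_ag_D34.SmOpen
section
set_option autoImplicit false

open MvPolynomial Matrix Pool.Agent.GM16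

namespace Pool.Agent.GM34

theorem smopen_poly (Φ : Matrix (Fin 10) (Fin 9) ℂ) (d : Fin 9 × Fin 9 → ℂ) (w0 : Fin 10 → ℂ)
    (g' : MvPolynomial (Fin 9 × Fin 9) ℂ) : ∃ g : MvPolynomial Par ℂ, ∀ t, eval t g =
      eval ((fun s : Fin 9 × Fin 9 => (Φᵀ * qm t * Φ) s.1 s.2) + d) g' * (hv t ⬝ᵥ w0) := by
  obtain ⟨Φ', hΦ⟩ : ∃ Φ' : Matrix (Fin 10) (Fin 9) (MvPolynomial Par ℂ), ∀ t,
      Φ'.map (eval t) = Φ := ⟨Φ.map C, fun t => by
    ext i j
    simp⟩
  refine ⟨bind₁ (fun s : Fin 9 × Fin 9 =>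
    (Φ'ᵀ * (qm X : M10 (MvPolynomial Par ℂ)) * Φ') s.1 s.2 + C (d s)) g' *
    (hv X ⬝ᵥ fun i => C (w0 i)), fun t => ?_⟩
  have e0 : (eval t) ∘ (X : Par → MvPolynomial Par ℂ) = t := funext fun s => eval_X s
  have e2 : (Φ'ᵀ * (qm X : M10 (MvPolynomial Par ℂ)) * Φ').map (eval t) = Φᵀ * qm t * Φ := by
    rw [Matrix.map_mul, Matrix.map_mul, transpose_map, map_qm, e0, hΦ]
  have e3 : eval t (hv X ⬝ᵥ fun i => C (w0 i)) = hv t ⬝ᵥ w0 := by
    simp [dotProduct, hv]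
  rw [map_mul, e3]
  refine congrArg (· * (hv t ⬝ᵥ w0)) ((aeval_bind₁ t _ g').trans ?_)
  refine congrArg (fun f => aeval f g') (funext fun s => ?_)
  rw [map_add, aeval_C, Pi.add_apply, ← e2]
  rfl

theorem smopen_mul {n k : ℕ} (q : Matrix (Fin n) (Fin n) ℂ) (P : Matrix (Fin n) (Fin k) ℂ)
    (z z' : Fin k → ℂ) : bs (Pᵀ * q * P) z z' = bs q (P *ᵥ z) (P *ᵥ z') := by
  rw [bs, bs, bq_mul, bq_mul]

theorem smopen_bs {n : ℕ} (q : Matrix (Fin n) (Fin n) ℂ) (p x y : Fin n → ℂ) (c : ℂ) :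
    bs q p (x + c • y) = bs q p x + c * bs q p y := by
  simp only [bs, bq, mulVec_add, mulVec_smul, dotProduct_add, dotProduct_smul, add_dotProduct,
    smul_dotProduct, smul_eq_mul]
  ring

/-- Let `g'` come from `generic_smooth` for `h1`, `eval c1 g' ≠ 0`, `d = c1 - entries of bm c1`, so
`bm d = 0` (`bm_sub`, `bm_self`, `e2_bm`). Take `g t = g' (entries of Φᵀ * qm t * Φ + d) * (hv t ⬝ᵥ w0)`
and the point `mkP h1 (Ψᵀ * bm c1 * Ψ)`. For `t` in the family `hv t = (hv t ⬝ᵥ w0) • h1`, and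
`w = Φ Ψ w + (h1 ⬝ᵥ w) • w0`; the case `b = 0` is `pfaff`. -/
theorem smooth_open {m : Mi → ℂ} {B : Matrix (Fin 9) (Fin 10) ℂ} (hB : B * Phi m = 1)
    {h1 : Fin 10 → ℂ} (hΦ : h1 ᵥ* Phi m = 0) (hk : kap1 h1 ≠ 0) :
    ∃ g : MvPolynomial Par ℂ, (∃ t, OctN m (hv t) (qm t) ∧ eval t g ≠ 0) ∧
      ∀ t, OctN m (hv t) (qm t) → eval t g ≠ 0 → SmoothN (hv t) (qm t) := by
  have h0 : h1 ≠ 0 := fun e => hk (by simp [e, kap1])
  obtain ⟨Ψ, w0, k1, k2⟩ := exists_split hB hΦ h0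
  obtain ⟨g', g0, hg⟩ := generic_smooth k2
  obtain ⟨c1, hc1⟩ : ∃ c1, eval c1 g' ≠ 0 := by
    by_contra e
    exact g0 (MvPolynomial.funext fun c => by simpa using not_exists.1 e c)
  have hd : bm (c1 - fun s : Fin 9 × Fin 9 => bm c1 s.1 s.2) = 0 := by
    rw [bm_sub, bm_self _ (e2_bm c1), sub_self]
  obtain ⟨g, eg⟩ := smopen_poly (Phi m) (c1 - fun s : Fin 9 × Fin 9 => bm c1 s.1 s.2) w0 g'
  have l1 : ∀ h : Fin 10 → ℂ, h ᵥ* Phi m = 0 → h = (h ⬝ᵥ w0) • h1 := fun h e => by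
    have := congrArg (h ᵥ* ·) k2
    simp only [vecMul_add, ← vecMul_vecMul, e, zero_vecMul, zero_add, vecMul_one,
      vecMul_vecMulVec] at this
    exact this.symm
  have l2 : ∀ w : Fin 10 → ℂ, w = Phi m *ᵥ (Ψ *ᵥ w) + (h1 ⬝ᵥ w) • w0 := fun w => by
    have := congrArg (· *ᵥ w) k2
    simp only [add_mulVec, ← mulVec_mulVec, one_mulVec, vecMulVec_mulVec, op_smul_eq_smul] at this
    exact this.symm
  refine ⟨g, ⟨mkP h1 (Ψᵀ * bm c1 * Ψ), ?_⟩, fun t ht hne => ?_⟩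
  · have e : (Phi m)ᵀ * (Ψᵀ * bm c1 * Ψ) * Phi m = bm c1 := by
      rw [← Matrix.mul_assoc, ← Matrix.mul_assoc, ← transpose_mul, Matrix.mul_assoc, k1,
        transpose_one, Matrix.one_mul, Matrix.mul_one]
    rw [eg, hv_mkP, qm_mkP, e, add_sub_cancel]
    refine ⟨⟨hΦ, fun k => by rw [e]; exact e2_bm c1 k⟩, mul_ne_zero hc1 fun e' => h0 ?_⟩
    rw [l1 h1 hΦ, e', zero_smul]
  · rw [eg] at hne
    obtain ⟨n1, n2⟩ := mul_ne_zero_iff.1 hne
    have hT : bm ((fun s : Fin 9 × Fin 9 => ((Phi m)ᵀ * qm t * Phi m) s.1 s.2) +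
        (c1 - fun s : Fin 9 × Fin 9 => bm c1 s.1 s.2)) = (Phi m)ᵀ * qm t * Phi m := by
      rw [bm_add, hd, add_zero, bm_self _ ht.2]
    have hl : ∀ w, hv t ⬝ᵥ w = (hv t ⬝ᵥ w0) * (h1 ⬝ᵥ w) := fun w => by
      rw [← smul_eq_mul, ← smul_dotProduct, ← l1 _ ht.1]
    intro u v huv a1 a2 a b hab
    have p0 := pw_ne.1 huv
    have p1 : h1 ⬝ᵥ pw u v = 0 := (mul_eq_zero.1 ((hl _).symm.trans a1)).resolve_left n2
    have p2 : Phi m *ᵥ (Ψ *ᵥ pw u v) = pw u v := by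
      have := l2 (pw u v)
      rw [p1, zero_smul, add_zero] at this
      exact this.symm
    by_cases hb : b = 0
    · refine ⟨by_contra fun ha => p0 (pfaff hk fun u' v' => ?_), hb⟩
      have := hab u' v'
      rw [hb, zero_mul, add_zero, hl] at this
      exact (mul_eq_zero.1 ((mul_eq_zero.1 this).resolve_left ha)).resolve_left n2
    · refine absurd (fun u' v' => ?_) (hg _ n1 u v (a * (hv t ⬝ᵥ w0) / b + bs (qm t) (pw u v) w0)
        p0 p1 (by rw [hT, bq_mul, p2, a2]))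
      have e := hab u' v'
      have e' := smopen_bs (qm t) (pw u v) (Phi m *ᵥ (Ψ *ᵥ (pw u' v + pw u v'))) w0
        (h1 ⬝ᵥ (pw u' v + pw u v'))
      rw [← l2] at e'
      rw [hl, e'] at e
      rw [hT, smopen_mul, p2]
      field_simp
      linear_combination e

end Pool.Agent.GM34
end

-- merged part: Pool.Agent.Work.MP_274aea_ag_D34.IFT
section
set_option autoImplicit false

open MvPolynomial Matrix Pool.Agent.GM16

namespace Pool.Agent.GM34

theorem ift_fst {ι : Type} (x v : ι → ℂ) (p : MvPolynomial ι ℂ) :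
    (aeval (dn x v) p).fst = eval x p := by
  induction p using MvPolynomial.induction_on with
  | C a => simp [TrivSqZeroExt.algebraMap_eq_inl]
  | add p q hp hq => simp [hp, hq]
  | mul_X p i hp => simp [hp, dn]

theorem ift_step {ι : Type} (x v : ι → ℂ) (p : MvPolynomial ι ℂ) (i : ι) :
    (aeval (dn x v) (p * X i)).snd = eval x p * v i + x i * (aeval (dn x v) p).snd := by
  rw [map_mul, aeval_X, TrivSqZeroExt.snd_mul, ift_fst]
  simp [dn, mul_comm]

theorem ift_cont {ι : Type} (v : ι → ℂ) (p : MvPolynomial ι ℂ) :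
    Continuous fun x : ι → ℂ => (aeval (dn x v) p).snd := by
  induction p using MvPolynomial.induction_on with
  | C a =>
    simp only [aeval_C]
    exact continuous_const
  | add p q hp hq =>
    simp only [map_add, TrivSqZeroExt.snd_add]
    exact hp.add hq
  | mul_X p i hp =>
    simp only [ift_step]
    exact ((MvPolynomial.continuous_eval p).mul continuous_const).add ((continuous_apply i).mul hp)

theorem ift_deriv {ι : Type} [Fintype ι] (x : ι → ℂ) (p : MvPolynomial ι ℂ) :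
    ∃ L : (ι → ℂ) →L[ℂ] ℂ, HasStrictFDerivAt (fun z => eval z p) L x ∧
      ∀ v, L v = (aeval (dn x v) p).snd := by
  induction p using MvPolynomial.induction_on with
  | C a =>
    refine ⟨0, ?_, fun v => ?_⟩
    · simp only [eval_C]
      exact hasStrictFDerivAt_const a x
    · simp [TrivSqZeroExt.algebraMap_eq_inl]
  | add p q hp hq =>
    obtain ⟨L, h1, h2⟩ := hp
    obtain ⟨L', h1', h2'⟩ := hq
    refine ⟨L + L', ?_, fun v => ?_⟩
    · simp only [map_add]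
      exact h1.add h1'
    · simp [h2, h2']
  | mul_X p i hp =>
    obtain ⟨L, h1, h2⟩ := hp
    refine ⟨eval x p • ContinuousLinearMap.proj i + x i • L, ?_, fun v => ?_⟩
    · simp only [map_mul, eval_X]
      exact h1.mul (hasStrictFDerivAt_apply i x)
    · rw [ift_step]
      simp [h2]

/-- First: `x ↦ eval x p` has at every point a strict derivative `L x` with
`L x v = (aeval (dn x v) p).snd`, and `(aeval (dn x v) p).fst = eval x p` (induction on `p`);
`x ↦ (aeval (dn x v) p).snd` is continuous. Let `G z = (fun k => eval z (F k), fun i : Sᶜ => z i)`.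
From `hs` choose `v k` for the unit vectors; the determinant of the matrix
`(aeval (dn x (v k)) (F k')).snd` is continuous in `x` and equals one at `x0`, so `hs` holds at all
`x` near `x0`; there the derivative of `G` is onto, and `HasStrictFDerivAt.map_nhds_eq_of_surj`
gives `G '' U ∈ 𝓝 (G x)`; pull back by the continuous map
`y ↦ (fun k => eval x (F k), fun i => y i)`. -/
theorem ift {ι κ : Type} [Fintype ι] [Fintype κ] (F : κ → MvPolynomial ι ℂ) (S : Set ι)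
    (x0 : ι → ℂ) (hs : ∀ r : κ → ℂ, ∃ v : ι → ℂ, (∀ i, i ∉ S → v i = 0) ∧
      ∀ k, (aeval (dn x0 v) (F k)).snd = r k) :
    ∀ᶠ x in nhds x0, ∀ U ∈ nhds x, ∀ᶠ y in nhds x, ∃ z ∈ U, (∀ i, i ∉ S → z i = y i) ∧
      ∀ k, eval z (F k) = eval x (F k) := by
  classical
  choose v hv0 hv using fun k => hs (Pi.single k 1)
  let A : (ι → ℂ) → Matrix κ κ ℂ := fun x => Matrix.of fun k k' => (aeval (dn x (v k)) (F k')).snd
  have hA : Continuous fun x => (A x).det :=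
    Continuous.matrix_det (continuous_matrix fun k k' => ift_cont (v k) (F k'))
  have hA0 : (A x0).det ≠ 0 := by
    have : A x0 = 1 := by
      ext k k'
      simp only [A, Matrix.of_apply, hv, Matrix.one_apply, Pi.single_apply, eq_comm]
    rw [this, Matrix.det_one]
    exact one_ne_zero
  filter_upwards [hA.continuousAt.eventually_ne hA0] with x hx U hU
  choose L hL hL' using fun k => ift_deriv x (F k)
  let G : (ι → ℂ) → (κ → ℂ) × ({i // i ∉ S} → ℂ) := fun z => (fun k => eval z (F k), fun i => z i)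
  let D : (ι → ℂ) →L[ℂ] (κ → ℂ) × ({i // i ∉ S} → ℂ) := (ContinuousLinearMap.pi L).prod
    (ContinuousLinearMap.pi fun i : {i // i ∉ S} => ContinuousLinearMap.proj i.1)
  have hG : HasStrictFDerivAt G D x :=
    (hasStrictFDerivAt_pi.2 hL).prodMk
      (hasStrictFDerivAt_pi.2 fun i : {i // i ∉ S} => hasStrictFDerivAt_apply i.1 x)
  have hD : D.range = ⊤ := by
    rw [LinearMap.range_eq_top]
    rintro ⟨r, w⟩
    let w' : ι → ℂ := fun i => if h : i ∉ S then w ⟨i, h⟩ else 0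
    let c : κ → ℂ := (fun k => r k - L k w') ᵥ* (A x)⁻¹
    have hc : c ᵥ* A x = fun k => r k - L k w' := by
      simp only [c]
      rw [Matrix.vecMul_vecMul, Matrix.nonsing_inv_mul _ (isUnit_iff_ne_zero.2 hx),
        Matrix.vecMul_one]
    refine ⟨∑ k, c k • v k + w', Prod.ext (funext fun k' => ?_) (funext fun i => ?_)⟩
    · have h1 := congrFun hc k'
      simp only [Matrix.vecMul, dotProduct, A, Matrix.of_apply, ← hL'] at h1
      change L k' (∑ k, c k • v k + w') = r k'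
      simp only [map_add, map_sum, map_smul, smul_eq_mul]
      rw [h1]
      ring
    · change (∑ k, c k • v k + w') i.1 = w i
      simp [Finset.sum_apply, hv0 _ _ i.2, w', i.2]
  have h1 : G '' U ∈ nhds (G x) := by
    rw [← hG.map_nhds_eq_of_surj hD]
    exact Filter.image_mem_map hU
  have h2 : Continuous fun y : ι → ℂ =>
      ((fun k => eval x (F k), fun i => y i) : (κ → ℂ) × ({i // i ∉ S} → ℂ)) :=
    continuous_const.prodMk (continuous_pi fun i => continuous_apply i.1)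
  filter_upwards [h2.continuousAt.preimage_mem_nhds h1] with y hy
  obtain ⟨z, hz, e⟩ := hy
  exact ⟨z, hz, fun i hi => congrFun (congrArg Prod.snd e) ⟨i, hi⟩,
    fun k => congrFun (congrArg Prod.fst e) k⟩

theorem line_finite {ι : Type} (f : MvPolynomial ι ℂ) (t t' : ι → ℂ) (hf : eval t' f ≠ 0) :
    Set.Finite {a : ℂ | eval (t + a • (t' - t)) f = 0} := by
  let P : Polynomial ℂ := aeval (fun i => Polynomial.C (t i) + Polynomial.X * Polynomial.C (t' i - t i)) f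
  have hP : ∀ a : ℂ, P.eval a = eval (t + a • (t' - t)) f := by
    intro a
    simp only [P]
    clear P hf
    induction f using MvPolynomial.induction_on with
    | C c => simp
    | add p q hp hq => simp only [map_add, Polynomial.eval_add, hp, hq]
    | mul_X p i hp =>
      simp only [map_mul, Polynomial.eval_mul, hp, aeval_X, eval_X]
      simp
  have h0 : P ≠ 0 := by
    intro h
    have := hP 1
    rw [h, one_smul, add_sub_cancel, Polynomial.eval_zero] at this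
    exact hf this.symm
  refine (Polynomial.finite_setOfPred_isRoot h0).subset fun a ha => ?_
  exact (hP a).trans ha

theorem line_near {ι : Type} (f : MvPolynomial ι ℂ) (t t' : ι → ℂ) (hf : eval t' f ≠ 0)
    {V : Set ℂ} (hV : V ∈ nhds (0 : ℂ)) : ∃ a ∈ V, eval (t + a • (t' - t)) f ≠ 0 := by
  obtain ⟨a, ha, ha'⟩ := ((infinite_of_mem_nhds _ hV).sdiff (line_finite f t t' hf)).nonempty
  exact ⟨a, ha, ha'⟩

theorem line_both {ι : Type} (f g : MvPolynomial ι ℂ) (t t' : ι → ℂ) (hf : eval t f ≠ 0)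
    (hg : eval t' g ≠ 0) : ∃ a : ℂ, eval (t + a • (t' - t)) (f * g) ≠ 0 := by
  have h1 : Continuous fun a : ℂ => eval (t + a • (t' - t)) f :=
    (MvPolynomial.continuous_eval f).comp (by fun_prop)
  have h2 : ∀ᶠ a in nhds (0 : ℂ), eval (t + a • (t' - t)) f ≠ 0 :=
    h1.continuousAt.eventually_ne (by simpa using hf)
  obtain ⟨a, ha, ha'⟩ := line_near g t t' hg h2
  exact ⟨a, by rw [map_mul]; exact mul_ne_zero ha ha'⟩

theorem dense_ne {ι : Type} (f : MvPolynomial ι ℂ) (hf : f ≠ 0) (x : ι → ℂ) {U : Set (ι → ℂ)}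
    (hU : U ∈ nhds x) : ∃ y ∈ U, eval y f ≠ 0 := by
  obtain ⟨t, ht⟩ : ∃ t, eval t f ≠ 0 := by
    by_contra h
    push Not at h
    exact hf (MvPolynomial.funext fun t => by rw [h t, map_zero])
  have h1 : Continuous fun a : ℂ => x + a • (t - x) := by fun_prop
  have h2 : (fun a : ℂ => x + a • (t - x)) ⁻¹' U ∈ nhds (0 : ℂ) :=
    h1.continuousAt.preimage_mem_nhds (by simpa using hU)
  obtain ⟨a, ha, ha'⟩ := line_near f x t ht h2
  exact ⟨_, ha, ha'⟩

end Pool.Agent.GM34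
end

-- merged part: Pool.Agent.Work.MP_274aea_ag_D34.Main1
section
set_option autoImplicit false

open MvPolynomial Matrix Pool.Agent.GM16

namespace Pool.Agent.GM34

theorem main1_psi {R : Type*} [CommRing R] (m : Mi → R) :
    Psi m * Phi m = ((B0 : Matrix (Fin 9) (Fin 10) R) * Phi m).det • (1 : Matrix _ _ R) := by
  rw [Psi, Matrix.mul_assoc, adjugate_mul]

theorem sec_oct {R : Type*} [CommRing R] (m : Mi → R) : OctN m (secH m) (secQ m) := by
  refine ⟨?_, fun k => ?_⟩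
  · have h : (((B0 : Matrix (Fin 9) (Fin 10) R) * Phi m).det • (1 : M10 R) - Phi m * Psi m) *
        Phi m = 0 := by
      rw [Matrix.sub_mul, Matrix.mul_assoc, main1_psi, Matrix.smul_mul, Matrix.mul_smul,
        Matrix.one_mul, Matrix.mul_one, sub_self]
    exact congrFun h 9
  · have h : (Phi m)ᵀ * secQ m * Phi m =
        (Psi m * Phi m)ᵀ * (R0 : Matrix (Fin 9) (Fin 9) R) * (Psi m * Phi m) := by
      simp only [secQ, transpose_mul, Matrix.mul_assoc]
    rw [h, main1_psi]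
    generalize ((B0 : Matrix (Fin 9) (Fin 10) R) * Phi m).det = d
    have h0 := num_R0 (R := R) k
    rw [transpose_smul, transpose_one, Matrix.smul_mul, Matrix.one_mul, Matrix.mul_smul,
      Matrix.mul_one, smul_smul]
    have h1 : e2 ((d * d) • (R0 : Matrix (Fin 9) (Fin 9) R)) k = d * d * e2 R0 k := by
      simp only [e2, Finset.mul_sum, mul_ite, mul_zero, Matrix.smul_apply, smul_eq_mul]
    rw [h1, h0, mul_zero]

theorem main1 : ∃ g0 : MvPolynomial Mi ℂ, g0 ≠ 0 ∧ ∀ m, eval m g0 ≠ 0 → Anticanonical m ∧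
    ∃ g : MvPolynomial Par ℂ, (∃ t, ContainsOctic m t ∧ eval t g ≠ 0) ∧
      ∀ t, ContainsOctic m t → eval t g ≠ 0 → IsSmoothGM t ∧ RationalChart t := by
  have e0 : ∀ m : Mi → ℂ, eval m (condM X * cond1 X (secH X) (secQ X) y0) =
      condM m * cond1 m (secH m) (secQ m) y0 := fun m => by
    have hX : eval m ∘ (X : Mi → MvPolynomial Mi ℂ) = m := funext fun i => eval_X i
    rw [map_mul, map_condM, map_cond1, map_secH, map_secQ, map_y0, hX]
  refine ⟨condM X * cond1 X (secH X) (secQ X) y0, fun e => ?_, fun m hm => ?_⟩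
  · have h := e0 m0
    rw [e, map_zero] at h
    exact mul_ne_zero num_condM num_cond1 h.symm
  rw [e0] at hm
  have hM := left_ne_zero_of_mul hm
  have hc := right_ne_zero_of_mul hm
  obtain ⟨B, hB⟩ := good_B hM
  obtain ⟨g, ⟨t1, ht1, hg1⟩, hg⟩ := smooth_open hB (sec_oct m).1 (kap1_ne (left_ne_zero_of_mul hc))
  have e1 : ∀ t : Par → ℂ, eval t (cond1 (C ∘ m) (hv X) (qm X) y0) =
      cond1 m (hv t) (qm t) y0 := fun t => by
    have hX : eval t ∘ (X : Par → MvPolynomial Par ℂ) = t := funext fun i => eval_X i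
    have hC : eval t ∘ ((C : ℂ →+* MvPolynomial Par ℂ) ∘ m) = m := funext fun i => eval_C _
    rw [map_cond1, map_hv, map_qm, map_y0, hX, hC]
  refine ⟨anti_of hB, g * cond1 (C ∘ m) (hv X) (qm X) y0, ?_, fun t ht h => ?_⟩
  · obtain ⟨a, ha⟩ := line_both g (cond1 (C ∘ m) (hv X) (qm X) y0) t1 (mkP (secH m) (secQ m)) hg1
      (by rwa [e1, hv_mkP, qm_mkP])
    refine ⟨_, (oct_iff _ _).2 (octN_line ht1 ?_ a), ha⟩
    rw [hv_mkP, qm_mkP]
    exact sec_oct m
  · rw [map_mul, e1] at h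
    rw [oct_iff] at ht
    exact ⟨(smooth_iff t).2 (hg t ht (left_ne_zero_of_mul h)),
      chart_of (rat1 hM ht (right_ne_zero_of_mul h))⟩

end Pool.Agent.GM34
end
end
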