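import Pool.Agent.Work.MP_274aea_ag_D34.PrimeB

set_option autoImplicit false

open MvPolynomial Matrix Pool.Agent.GM16

namespace Pool.Agent.GM34

/-! Numerical facts about the witness. Prove them over `ℤ` by `decide +kernel` (in stages, with
explicit intermediate vectors) and move to `ℂ` by the naturality lemmas for `Int.castRingHom ℂ`. -/

/-- The value of `Phi m0`. -/
def num_P : Matrix (Fin 10) (Fin 9) ℤ :=
  !![0, 0, 1, 0, 0, 0, -1, 0, 0;
    1, 0, 0, 0, 0, -1, 1, 0, -1;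
    0, 0, 0, 1, 0, -1, 0, 0, 0;
    -1, 0, -1, 0, 1, 0, 0, 1, 0;
    0, 0, -1, 0, 0, 0, 0, 1, 0;
    0, 0, -1, 0, 0, 0, 0, 0, 0;
    0, 0, 0, -1, 0, 0, 0, 0, 0;
    -1, 0, 0, 0, 0, 0, -1, 0, 0;
    -1, -1, -1, -1, 1, 0, 0, 0, 1;
    -1, 0, -1, -1, 0, 0, 0, 0, 0]

theorem num_Phi : Phi (m0 : Mi → ℤ) = num_P := by decide +kernel

theorem num_B : (B0 : Matrix (Fin 9) (Fin 10) ℂ) * Phi (m0 : Mi → ℂ) = 1 := by
  have h : (B0 : Matrix (Fin 9) (Fin 10) ℤ) * num_P = 1 := by decide +kernel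
  have k := congrArg (fun M => M.map (Int.castRingHom ℂ)) h
  simpa only [← num_Phi, Matrix.map_mul, map_B0, map_Phi, map_m0,
    Matrix.map_one _ (map_zero _) (map_one _)] using k

theorem num_La : (La0 : Matrix (Fin 5) (Fin 7) ℂ) * Nu (m0 : Mi → ℂ) = 1 := by
  have h : (La0 : Matrix (Fin 5) (Fin 7) ℤ) * Nu (m0 : Mi → ℤ) = 1 := by decide +kernel
  have k := congrArg (fun M => M.map (Int.castRingHom ℂ)) h
  simpa only [Matrix.map_mul, map_La0, map_Nu, map_m0,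
    Matrix.map_one _ (map_zero _) (map_one _)] using k

theorem num_R0 {R : Type*} [CommRing R] (k : Fin 25) : e2 (R0 : Matrix (Fin 9) (Fin 9) R) k = 0 := by
  have h : ∀ k, e2 (R0 : Matrix (Fin 9) (Fin 9) ℤ) k = 0 := by decide +kernel
  rw [← map_R0 (Int.castRingHom R), ← map_e2, h, map_zero]

theorem num_secH : secH (m0 : Mi → ℂ) = H0 := by
  have h : ((1 : M10 ℤ) - num_P * (B0 : Matrix (Fin 9) (Fin 10) ℤ) : M10 ℤ) 9 = H0 := by
    decide +kernel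
  have k : (((1 : M10 ℤ) - num_P * (B0 : Matrix (Fin 9) (Fin 10) ℤ) : M10 ℤ).map
      (Int.castRingHom ℂ)) 9 = H0 := by
    rw [← map_H0 (Int.castRingHom ℂ), ← h]
    rfl
  rw [secH, Psi, num_B, det_one, adjugate_one, Matrix.one_mul, one_smul]
  simpa only [← num_Phi, Matrix.map_sub _ (map_sub _), Matrix.map_mul, map_B0, map_Phi, map_m0,
    Matrix.map_one _ (map_zero _) (map_one _)] using k

theorem num_condM : condM (m0 : Mi → ℂ) ≠ 0 := by
  rw [condM, num_B, num_La, det_one, det_one, mul_one]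
  exact one_ne_zero

theorem num_kap : kap1 (H0 : Fin 10 → ℂ) ≠ 0 := by
  simp [kap1, H0]

theorem num_oct : OctN (m0 : Mi → ℂ) H0 Q0 := by
  have h : OctN (m0 : Mi → ℤ) H0 Q0 := by
    rw [OctN, num_Phi]
    refine ⟨by decide +kernel, ?_⟩
    have e : num_Pᵀ * (Q0 : M10 ℤ) =
        !![1, 0, -1, 1, 1, -1, -1, -1, 0, 0;
          1, 0, 0, 0, 0, 1, 1, 0, 0, 0;
          1, -1, 1, 0, 1, 0, 0, -2, 0, 1;
          1, 0, 0, 0, -1, 2, 1, 0, 0, 0;
          0, 0, 0, 0, 0, 0, 0, 0, 0, 0;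
          0, -1, 1, 0, 0, 0, 1, -1, 0, 0;
          0, 0, 0, 0, -1, 1, 0, 0, 0, 0;
          0, 0, 0, 0, 0, 0, 0, 0, 0, 0;
          0, 0, 0, 0, 0, 0, 0, 0, 0, 0] := by decide +kernel
    rw [e]
    decide +kernel
  simpa only [map_m0, map_H0, map_Q0] using map_OctN (Int.castRingHom ℂ) h

theorem num_plane : HasPlane (Jh0 : M3 ℂ) H0 Q0 := by
  have h : HasPlane (Jh0 : M3 ℤ) H0 Q0 := ⟨by decide +kernel, by decide +kernel⟩
  simpa only [map_Jh0, map_H0, map_Q0] using map_HasPlane (Int.castRingHom ℂ) h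

theorem num_LL : LL (Jh0 : M3 ℂ) Q0 = L0 := by
  have h : LL (Jh0 : M3 ℤ) Q0 = L0 := by decide +kernel
  have k := congrArg (fun M => M.map (Int.castRingHom ℂ)) h
  simpa only [map_LL, map_Jh0, map_Q0, map_L0] using k

theorem num_inv : (L0 : M3 ℂ) * Nh0 = 1 := by
  have h : (L0 : M3 ℤ) * Nh0 = 1 := by decide +kernel
  have k := congrArg (fun M => M.map (Int.castRingHom ℂ)) h
  simpa only [Matrix.map_mul, map_L0, map_Nh0, Matrix.map_one _ (map_zero _) (map_one _)] using k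

/-- The value of `Gm Jh0 Nh0 Q0`. -/
def num_G : Matrix (Fin 3) (Fin 10) ℤ :=
  !![0, 0, 0, -1, 1, -1, 0, 1, 1, 0;
    1, 0, -1, 1, 1, 0, 0, 1, 0, 1;
    -1, 0, 0, 0, 0, 0, 0, 0, 0, -1]

theorem num_Gm : Gm (Jh0 : M3 ℤ) Nh0 Q0 = num_G := by decide +kernel

theorem num_legH : legH (Jh0 : M3 ℂ) Nh0 H0 Q0 = h2 := by
  have h : legH (Jh0 : M3 ℤ) Nh0 H0 Q0 = h2 := by
    rw [legH, EE, num_Gm]
    decide +kernel
  have k := congrArg (fun v => (Int.castRingHom ℂ) ∘ v) h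
  simpa only [map_legH, map_Jh0, map_Nh0, map_H0, map_Q0, map_h2] using k

theorem num_legQ : legQ (Jh0 : M3 ℂ) Nh0 Q0 = q2 := by
  have h : legQ (Jh0 : M3 ℤ) Nh0 Q0 = q2 := by
    rw [legQ, EE, num_Gm]
    decide +kernel
  have k := congrArg (fun M => M.map (Int.castRingHom ℂ)) h
  simpa only [map_legQ, map_Jh0, map_Nh0, map_Q0, map_q2] using k

theorem num_Y : Gm (-(Jh0 : M3 ℂ)ᵀ) L0 q2 * Phi (m0 : Mi → ℂ) = Y0 := by
  have h : Gm (-(Jh0 : M3 ℤ)ᵀ) L0 q2 * Phi (m0 : Mi → ℤ) = Y0 := by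
    rw [num_Phi]
    decide +kernel
  have k := congrArg (fun M => M.map (Int.castRingHom ℂ)) h
  have e : (-(Jh0 : M3 ℤ)ᵀ).map (Int.castRingHom ℂ) = -(Jh0 : M3 ℂ)ᵀ := by
    rw [← map_Jh0 (Int.castRingHom ℂ)]
    ext i j
    exact map_neg (Int.castRingHom ℂ) _
  simpa only [Matrix.map_mul, map_Gm, e, map_L0, map_q2, map_Phi, map_m0, map_Y0] using k

end Pool.Agent.GM34
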