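import Pool.Agent.Work.MP_274aea_ag_D34.PrimeA

set_option autoImplicit false

open MvPolynomial Matrix Pool.Agent.GM16

namespace Pool.Agent.GM34

variable {R : Type*} [CommRing R]

theorem pref_ex (a b : Fin 9) : ex (pref a b).1 + ex (pref a b).2 = ex a + ex b := by
  revert a b
  decide +kernel

theorem pref_eq (a b c d : Fin 9) (h : ex a + ex b = ex c + ex d) : pref a b = pref c d := by
  revert a b c d
  decide +kernel

theorem octb_mus : ∀ a b : Fin 9, ∃ k, ex a + ex b = mus k := by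
  decide +kernel

theorem octb_pair (c : Fin 9 × Fin 9 → R) (f : Fin 9 → Fin 9 → R) : ∑ a, ∑ b, bm c a b * f a b =
    ∑ s : Fin 9 × Fin 9, c s * (f s.1 s.2 - f (pref s.1 s.2).1 (pref s.1 s.2).2) := by
  rw [← Fintype.sum_prod_type']
  simp only [bm, Matrix.of_apply, ← Fintype.sum_prod_type', sub_mul, mul_sub, Finset.sum_mul,
    Finset.sum_sub_distrib, ite_mul, zero_mul, Prod.mk.eta]
  rw [sub_right_inj, Fintype.sum_prod_type_right]
  simp only [Finset.sum_ite_eq, Finset.mem_univ, if_true]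

theorem bq_bm (c : Fin 9 × Fin 9 → R) (z z' : Fin 9 → R) : bq (bm c) z z' =
    ∑ s : Fin 9 × Fin 9, c s * (z s.1 * z' s.2 - z (pref s.1 s.2).1 * z' (pref s.1 s.2).2) := by
  rw [← octb_pair c fun a b => z a * z' b]
  simp only [bq, dotProduct, Matrix.mulVec, Finset.mul_sum, mul_left_comm]

theorem e2_bm (c : Fin 9 × Fin 9 → R) (k : Fin 25) : e2 (bm c) k = 0 := by
  have := octb_pair c fun a b => if ex a + ex b = mus k then 1 else 0
  simpa only [e2, pref_ex, sub_self, mul_zero, Finset.sum_const_zero, mul_ite, mul_one] using this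

/-- For a pair `(a, b)` the set of pairs with `pref a' b' = (a, b)` is empty or is the fibre of
some `mus k`. -/
theorem bm_self (T : Matrix (Fin 9) (Fin 9) R) (h : ∀ k, e2 T k = 0) :
    bm (fun s => T s.1 s.2) = T := by
  ext a b
  rw [bm, Matrix.of_apply, sub_eq_self]
  by_cases e : ∃ a' b', pref a' b' = (a, b)
  · obtain ⟨c, d, e⟩ := e
    obtain ⟨k, hk⟩ := octb_mus c d
    refine Eq.trans ?_ (h k)
    rw [e2, ← hk, ← e]
    refine Finset.sum_congr rfl fun a' _ => Finset.sum_congr rfl fun b' _ =>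
      if_congr ⟨fun j => ?_, pref_eq _ _ _ _⟩ rfl rfl
    rw [← pref_ex, j, pref_ex]
  · exact Finset.sum_eq_zero fun a' _ => Finset.sum_eq_zero fun b' _ => if_neg fun j => e ⟨_, _, j⟩

theorem bm_add (c d : Fin 9 × Fin 9 → R) : bm (c + d) = bm c + bm d := by
  ext a b
  simp only [bm, Matrix.of_apply, Matrix.add_apply, Pi.add_apply, ite_add_zero,
    Finset.sum_add_distrib]
  ring

theorem bm_sub (c d : Fin 9 × Fin 9 → R) : bm (c - d) = bm c - bm d := by
  rw [eq_sub_iff_add_eq, ← bm_add, sub_add_cancel]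

theorem octb_cub (x : Fin 3 → R) (a : Fin 9) :
    cubics x a = x 0 ^ (3 - (ex a).1 - (ex a).2) * x 1 ^ (ex a).1 * x 2 ^ (ex a).2 := by
  fin_cases a <;> simp [cubics, ex]

theorem octb_deg : ∀ a b : Fin 9, 6 - (ex a + ex b).1 - (ex a + ex b).2 =
    3 - (ex a).1 - (ex a).2 + (3 - (ex b).1 - (ex b).2) := by
  decide +kernel

theorem octb_mul (x : Fin 3 → R) (a b : Fin 9) : cubics x a * cubics x b =
    x 0 ^ (6 - (ex a + ex b).1 - (ex a + ex b).2) * x 1 ^ (ex a + ex b).1 *
      x 2 ^ (ex a + ex b).2 := by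
  rw [octb_deg, octb_cub, octb_cub, Prod.fst_add, Prod.snd_add, pow_add, pow_add, pow_add]
  ring

theorem e2_cubics (T : Matrix (Fin 9) (Fin 9) R) (h : ∀ k, e2 T k = 0) (x : Fin 3 → R) :
    bq T (cubics x) (cubics x) = 0 := by
  rw [← bm_self T h, bq_bm]
  exact Finset.sum_eq_zero fun s _ => by rw [octb_mul, octb_mul, pref_ex, sub_self, mul_zero]

end Pool.Agent.GM34
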