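import Pool.Agent.Work.MP_274aea_ag_D34.PrimeA
import Pool.Agent.Work.MP_274aea_ag_D34.OctB

-- merged part: Pool.Agent.Work.MP_274aea_ag_D34.Oct
section
-- merged part: Pool.Agent.Work.MP_274aea_ag_D34.OctA
section
set_option autoImplicit false

open MvPolynomial Matrix Pool.Agent.GM16

namespace Pool.Agent.GM34

variable {R : Type*} [CommRing R]

theorem octa_cub (m : Mi → R) (k l : Fin 5) (x : Fin 3 → R) :
    cub (mr m k) (mr m l) ⬝ᵥ cubics x = x ⬝ᵥ (mat m k *ᵥ x) ⨯₃ (mat m l *ᵥ x) := by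
  simp [cub, cubics, mr, mat, dotProduct, Fin.sum_univ_succ, cross_apply]
  ring

theorem octa_pw (u v : Fin 5 → R) (i : Fin 10) :
    pw u v i = u (ee i).1.1 * v (ee i).1.2 - u (ee i).1.2 * v (ee i).1.1 := by
  fin_cases i <;> rfl

theorem octa_plk (w : Fin 5 → Fin 3 → R) (x : Fin 3 → R) :
    plk (fun i => x ⬝ᵥ w (ee i).1.1 ⨯₃ w (ee i).1.2) = 0 := by
  funext k
  fin_cases k <;> simp [plk, ee, dotProduct, Fin.sum_univ_succ, cross_apply] <;> ring

theorem octa_mon (x : Fin 3 → R) (a : Fin 9) :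
    cubics x a = x 0 ^ (3 - (ex a).1 - (ex a).2) * x 1 ^ (ex a).1 * x 2 ^ (ex a).2 := by
  fin_cases a <;> simp [cubics, ex]

theorem Phi_cubics (m : Mi → R) (x : Fin 3 → R) : Phi m *ᵥ cubics x =
    fun i => x ⬝ᵥ (mat m (ee i).1.1 *ᵥ x) ⨯₃ (mat m (ee i).1.2 *ᵥ x) := by
  funext i
  exact octa_cub m _ _ x

theorem pw_oct (m : Mi → R) (y y' : Fin 3 → R) :
    pw (fun k => y ⬝ᵥ mat m k *ᵥ (y ⨯₃ y')) (fun k => y' ⬝ᵥ mat m k *ᵥ (y ⨯₃ y')) =
      Phi m *ᵥ cubics (y ⨯₃ y') := by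
  rw [Phi_cubics]
  funext i
  rw [octa_pw, cross_dot_cross]

/-- Prove the identity first for five arbitrary vectors in place of `mat m k *ᵥ x`. -/
theorem plk_cubics (m : Mi → R) (x : Fin 3 → R) : plk (Phi m *ᵥ cubics x) = 0 := by
  rw [Phi_cubics]
  exact octa_plk (fun k => mat m k *ᵥ x) x

theorem plk_pw (u v : Fin 5 → R) : plk (pw u v) = 0 := by
  funext k
  fin_cases k <;> simp [plk, pw] <;> ring

theorem octa_bq (p p' : Fin 10 → R) :
    bq P0 p p' = p 4 * p' 9 - p 5 * p' 8 + p 6 * p' 7 := by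
  simp [bq, P0, dotProduct, mulVec, Fin.sum_univ_succ]
  ring

theorem bq_P0 (p : Fin 10 → R) : bq P0 p p = plk p 0 := by
  rw [octa_bq]
  rfl

theorem bs_P0 (p p' : Fin 10 → R) : bs P0 p p' = p 4 * p' 9 - p 5 * p' 8 + p 6 * p' 7 +
    (p' 4 * p 9 - p' 5 * p 8 + p' 6 * p 7) := by
  rw [bs, octa_bq, octa_bq]

theorem rel_cubics (x : Fin 3 → R) : Rel (cubics x) := by
  intro a b c d h
  have k : ∀ a : Fin 9, (ex a).1 + (ex a).2 ≤ 3 := by decide
  have h1 : (ex a).1 + (ex b).1 = (ex c).1 + (ex d).1 := congrArg Prod.fst h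
  have h2 : (ex a).2 + (ex b).2 = (ex c).2 + (ex d).2 := congrArg Prod.snd h
  have h0 : 3 - (ex a).1 - (ex a).2 + (3 - (ex b).1 - (ex b).2) =
      3 - (ex c).1 - (ex c).2 + (3 - (ex d).1 - (ex d).2) := by
    have := k a
    have := k b
    have := k c
    have := k d
    omega
  simp only [octa_mon]
  rw [mul_mul_mul_comm, mul_mul_mul_comm (x 0 ^ _), ← pow_add, ← pow_add, ← pow_add, h0, h1, h2,
    pow_add, pow_add, pow_add]
  ring

theorem bq_mul {n k : ℕ} (q : Matrix (Fin n) (Fin n) R) (P : Matrix (Fin n) (Fin k) R)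
    (z z' : Fin k → R) : bq (Pᵀ * q * P) z z' = bq q (P *ᵥ z) (P *ᵥ z') := by
  rw [bq, bq, ← mulVec_mulVec, ← mulVec_mulVec, dotProduct_mulVec, vecMul_transpose]

theorem octN_line {m : Mi → R} {t t' : Par → R} (h : OctN m (hv t) (qm t))
    (h' : OctN m (hv t') (qm t')) (a : R) :
    OctN m (hv (t + a • (t' - t))) (qm (t + a • (t' - t))) := by
  have e1 : hv (t + a • (t' - t)) = hv t + a • (hv t' - hv t) := rfl
  have e3 : qm (t + a • (t' - t)) = qm t + a • (qm t' - qm t) := rfl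
  have e4 : ∀ (S S' : Matrix (Fin 9) (Fin 9) R) (k : Fin 25),
      e2 (S + a • (S' - S)) k = e2 S k + a * (e2 S' k - e2 S k) := fun S S' k => by
    simp only [e2, ← Finset.sum_sub_distrib, Finset.mul_sum, ← Finset.sum_add_distrib]
    refine Finset.sum_congr rfl fun i _ => Finset.sum_congr rfl fun j _ => ?_
    split_ifs <;> simp
  refine ⟨?_, fun k => ?_⟩
  · rw [e1, add_vecMul, smul_vecMul, sub_vecMul, h.1, h'.1]
    simp
  · rw [e3, Matrix.mul_add, Matrix.add_mul, Matrix.mul_smul, Matrix.smul_mul, Matrix.mul_sub,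
      Matrix.sub_mul, e4, h.2, h'.2]
    simp

end Pool.Agent.GM34
end

-- merged part: Pool.Agent.Work.MP_274aea_ag_D34.Oct
section
set_option autoImplicit false

open MvPolynomial Matrix Pool.Agent.GM16

namespace Pool.Agent.GM34

theorem cross_surj (x : Fin 3 → ℂ) : ∃ y y' : Fin 3 → ℂ, y ⨯₃ y' = x := by
  by_cases h : x 0 = 0
  · refine ⟨![1, 0, 0], ![0, x 2, -x 1], ?_⟩
    ext i
    fin_cases i <;> simp [cross_apply, h]
  · refine ⟨![-x 1, x 0, 0], ![-x 2 / x 0, 0, 1], ?_⟩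
    ext i
    fin_cases i <;> simp [cross_apply]
    field_simp

theorem oct_ind {ι : Type} [Fintype ι] (e : ι → ℕ × ℕ) (c : ι → ℂ)
    (h : ∀ s t : ℂ, ∑ i, c i * (s ^ (e i).1 * t ^ (e i).2) = 0) (μ : ℕ × ℕ) :
    ∑ i, (if e i = μ then c i else 0) = 0 := by
  classical
  obtain ⟨d, hd⟩ : ∃ d : ℕ × ℕ → (Fin 2 →₀ ℕ),
      ∀ a, d a = Finsupp.single 0 a.1 + Finsupp.single 1 a.2 := ⟨_, fun _ => rfl⟩
  have hinj : ∀ a b, d a = d b ↔ a = b := by
    intro a b
    refine ⟨fun hab => ?_, fun hab => hab ▸ rfl⟩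
    have h0 := DFunLike.congr_fun hab 0
    have h1 := DFunLike.congr_fun hab 1
    rw [hd, hd] at h0 h1
    simp at h0 h1
    exact Prod.ext h0 h1
  have hP : (∑ i, monomial (d (e i)) (c i) : MvPolynomial (Fin 2) ℂ) = 0 := by
    refine MvPolynomial.funext fun x => ?_
    rw [map_zero, ← h (x 0) (x 1), map_sum]
    refine Finset.sum_congr rfl fun i _ => ?_
    rw [eval_monomial, hd, Finsupp.prod_add_index' (by simp) (by simp [pow_add])]
    simp
  have hc := congrArg (coeff (d μ)) hP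
  rw [coeff_sum, coeff_zero] at hc
  refine Eq.trans (Finset.sum_congr rfl fun i _ => ?_) hc
  rw [coeff_monomial]
  simp only [hinj]

theorem oct_cub (s t : ℂ) (a : Fin 9) : cubics ![1, s, t] a = s ^ (ex a).1 * t ^ (ex a).2 := by
  fin_cases a <;> simp [cubics, ex]

theorem oct_ex : ∀ a b : Fin 9, ex a = ex b ↔ a = b := by decide

/-- Distinct monomials are linearly independent; use `MvPolynomial.funext` and coefficients. -/
theorem cubics_lin (c : Fin 9 → ℂ) (h : ∀ x : Fin 3 → ℂ, c ⬝ᵥ cubics x = 0) : c = 0 := by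
  funext a
  have h1 := oct_ind ex c (fun s t => by
    rw [← h ![1, s, t], dotProduct]
    exact Finset.sum_congr rfl fun i _ => by rw [oct_cub]) (ex a)
  simpa [oct_ex] using h1

theorem cubics_e2 (T : Matrix (Fin 9) (Fin 9) ℂ)
    (h : ∀ x : Fin 3 → ℂ, bq T (cubics x) (cubics x) = 0) (k : Fin 25) : e2 T k = 0 := by
  have h1 := oct_ind (fun p : Fin 9 × Fin 9 => ex p.1 + ex p.2) (fun p => T p.1 p.2) (fun s t => by
    rw [← h ![1, s, t], Fintype.sum_prod_type, bq, dotProduct]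
    refine Finset.sum_congr rfl fun a _ => ?_
    rw [mulVec, dotProduct, Finset.mul_sum]
    refine Finset.sum_congr rfl fun b _ => ?_
    rw [oct_cub, oct_cub, Prod.fst_add, Prod.snd_add, pow_add, pow_add]
    ring) (mus k)
  rw [Fintype.sum_prod_type] at h1
  exact h1

theorem oct_e2_add (S S' : Matrix (Fin 9) (Fin 9) ℂ) (k : Fin 25) :
    e2 (S + S') k = e2 S k + e2 S' k := by
  rw [e2, e2, e2, ← Finset.sum_add_distrib]
  refine Finset.sum_congr rfl fun a _ => ?_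
  rw [← Finset.sum_add_distrib]
  refine Finset.sum_congr rfl fun b _ => ?_
  split_ifs <;> simp

theorem oct_e2_smul (c : ℂ) (S : Matrix (Fin 9) (Fin 9) ℂ) (k : Fin 25) :
    e2 (c • S) k = c * e2 S k := by
  rw [e2, e2, Finset.mul_sum]
  refine Finset.sum_congr rfl fun a _ => ?_
  rw [Finset.mul_sum]
  refine Finset.sum_congr rfl fun b _ => ?_
  split_ifs <;> simp

theorem oct_e2_T (S : Matrix (Fin 9) (Fin 9) ℂ) (k : Fin 25) : e2 Sᵀ k = e2 S k := by
  rw [e2, e2, Finset.sum_comm]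
  refine Finset.sum_congr rfl fun a _ => Finset.sum_congr rfl fun b _ => ?_
  rw [add_comm, transpose_apply]

theorem oct_e2_sym (P : Matrix (Fin 10) (Fin 9) ℂ) (q : M10 ℂ) (k : Fin 25) :
    e2 (Pᵀ * (q + qᵀ) * P) k = 2 * e2 (Pᵀ * q * P) k := by
  have e : Pᵀ * qᵀ * P = (Pᵀ * q * P)ᵀ := by
    rw [transpose_mul, transpose_mul, transpose_transpose, Matrix.mul_assoc]
  rw [Matrix.mul_add, Matrix.add_mul, oct_e2_add, e, oct_e2_T]
  ring

theorem oct_bs (q : M10 ℂ) (p p' : Fin 10 → ℂ) : bs q p p' = bq (q + qᵀ) p p' := by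
  rw [bs, bq, bq, bq, add_mulVec, dotProduct_add, mulVec_transpose, dotProduct_mulVec p' q p,
    dotProduct_comm (p' ᵥ* q) p]

theorem oct_bq (q q' : M10 ℂ) (c : ℂ) (p p' : Fin 10 → ℂ) :
    bq (q + c • q') p p' = bq q p p' + c * bq q' p p' := by
  rw [bq, bq, bq, add_mulVec, dotProduct_add, smul_mulVec, dotProduct_smul, smul_eq_mul]

theorem oct_tan (u v u' v' : Fin 5 → ℂ) : bs P0 (pw u v) (pw u' v + pw u v') = 0 := by
  rw [bs_P0]
  simp [pw]
  ring

theorem octN_congr {m : Mi → ℂ} {h : Fin 10 → ℂ} {q q' : M10 ℂ} (e : q + qᵀ = q' + q'ᵀ)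
    (ho : OctN m h q) : OctN m h q' := by
  refine ⟨ho.1, fun k => ?_⟩
  have h1 := oct_e2_sym (Phi m) q k
  rw [e, oct_e2_sym, ho.2 k] at h1
  linear_combination h1 / 2

theorem octN_P0 {m : Mi → ℂ} {h : Fin 10 → ℂ} {q : M10 ℂ} (ho : OctN m h q) (c : ℂ) :
    OctN m h (q + c • P0) := by
  refine ⟨ho.1, fun k => ?_⟩
  have h1 : e2 ((Phi m)ᵀ * (P0 : M10 ℂ) * Phi m) k = 0 := cubics_e2 _ (fun x => by
    rw [bq_mul, bq_P0, plk_cubics]
    rfl) k
  rw [Matrix.mul_add, Matrix.add_mul, Matrix.mul_smul, Matrix.smul_mul, oct_e2_add, oct_e2_smul,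
    ho.2 k, h1]
  simp

theorem smoothN_congr {h : Fin 10 → ℂ} {q q' : M10 ℂ} (e : q + qᵀ = q' + q'ᵀ)
    (hs : SmoothN h q) : SmoothN h q' := by
  have e1 : ∀ p p', bs q p p' = bs q' p p' := fun p p' => by rw [oct_bs, oct_bs, e]
  intro u v hl h1 h2 a b h3
  refine hs u v hl h1 ?_ a b fun u' v' => ?_
  · have h4 := e1 (pw u v) (pw u v)
    rw [bs, bs, h2] at h4
    linear_combination h4 / 2
  · rw [e1]
    exact h3 u' v'

theorem smoothN_P0 {h : Fin 10 → ℂ} {q : M10 ℂ} (hs : SmoothN h q) (c : ℂ) :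
    SmoothN h (q + c • P0) := by
  intro u v hl h1 h2 a b h3
  refine hs u v hl h1 ?_ a b fun u' v' => ?_
  · rw [oct_bq, bq_P0, plk_pw] at h2
    simpa using h2
  · have h4 := h3 u' v'
    have h5 := oct_tan u v u' v'
    rw [bs, oct_bq, oct_bq] at h4
    rw [bs] at h5 ⊢
    linear_combination h4 - b * c * h5

end Pool.Agent.GM34
end

-- merged part: Pool.Agent.Work.MP_274aea_ag_D34.Bridge
section
set_option autoImplicit false

open MvPolynomial Matrix Pool.Agent.GM16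

namespace Pool.Agent.GM34

/-! Translation between the index set `Idx` and `Fin 10`. -/

theorem ei_ee (i : Fin 10) : ei (ee i) = i := by
  revert i
  decide

theorem ee_ei (s : Idx) : ee (ei s) = s := by
  revert s
  decide

theorem sum_idx {M : Type*} [AddCommMonoid M] (f : Idx → M) : ∑ s, f s = ∑ i, f (ee i) := by
  exact (Equiv.sum_comp (⟨ee, ei, ei_ee, ee_ei⟩ : Fin 10 ≃ Idx) f).symm

section Ring

variable {R : Type*} [CommRing R]

theorem hv_mkP (h : Fin 10 → R) (q : M10 R) : hv (mkP h q) = h := by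
  exact funext fun i => congrArg h (ei_ee i)

theorem qm_mkP (h : Fin 10 → R) (q : M10 R) : qm (mkP h q) = q := by
  exact Matrix.ext fun i j => congrArg₂ q (ei_ee i) (ei_ee j)

theorem mkP_self (t : Par → R) : mkP (hv t) (qm t) = t := by
  funext s
  rcases s with s | s <;> simp [mkP, hv, qm, ee_ei]

theorem bridge_pl (u v : Fin 5 → R) :
    (fun s : Idx => u s.1.1 * v s.1.2 - u s.1.2 * v s.1.1) ∘ ee = pw u v := by
  funext i
  fin_cases i <;> rfl

theorem bridge_H (h p : Idx → R) : ∑ s, h s * p s = (h ∘ ee) ⬝ᵥ (p ∘ ee) := sum_idx _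

theorem bridge_Q (q : Idx → Idx → R) (p p' : Idx → R) : ∑ s, ∑ s', q s s' * p s * p' s' =
    bq (Matrix.of fun i j => q (ee i) (ee j)) (p ∘ ee) (p' ∘ ee) := by
  simp only [sum_idx, bq, dotProduct, mulVec, Finset.mul_sum, of_apply, Function.comp_apply]
  exact Finset.sum_congr rfl fun i _ => Finset.sum_congr rfl fun j _ => by ring

theorem bridge_ext {x y : Fin 10 → R} (h : ∀ u v, x ⬝ᵥ pw u v = y ⬝ᵥ pw u v) : x = y := by
  funext i
  have e : pw (Pi.single (ee i).1.1 (1 : R)) (Pi.single (ee i).1.2 1) = Pi.single i 1 := by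
    rw [← bridge_pl]
    funext j
    have h1 : ((ee j).1.1 = (ee i).1.1 ∧ (ee j).1.2 = (ee i).1.2 ↔ j = i) ∧
        ¬((ee j).1.2 = (ee i).1.1 ∧ (ee j).1.1 = (ee i).1.2) := by
      revert i j
      decide
    simp only [Function.comp_apply, Pi.single_apply, ite_zero_mul_ite_zero, h1.1, h1.2, mul_one,
      if_false, sub_zero]
  have := h (Pi.single (ee i).1.1 1) (Pi.single (ee i).1.2 1)
  rwa [e, dotProduct_single, dotProduct_single, mul_one, mul_one] at this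

end Ring

theorem pl_ee (u v : Fin 5 → ℂ) : pl u v ∘ ee = pw u v := by
  exact bridge_pl u v

theorem Hf_eq (t : Par → ℂ) (p : Idx → ℂ) : Hf t p = hv t ⬝ᵥ (p ∘ ee) := by
  exact bridge_H _ p

theorem Qf_eq (t : Par → ℂ) (p p' : Idx → ℂ) : Qf t p p' = bq (qm t) (p ∘ ee) (p' ∘ ee) := by
  exact bridge_Q (fun s s' => t (Sum.inr (s, s'))) p p'

theorem smooth_iff (t : Par → ℂ) : IsSmoothGM t ↔ SmoothN (hv t) (qm t) := by
  simp only [IsSmoothGM, SmoothN, Hf_eq, Qf_eq, Pi.add_comp, pl_ee, bs]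

theorem bridge_oct (m : Mi → ℂ) (y y' : Fin 3 → ℂ) :
    octic m y y' ∘ ee = Phi m *ᵥ cubics (y ⨯₃ y') := (pl_ee _ _).trans (pw_oct m y y')

theorem oct_iff (m : Mi → ℂ) (t : Par → ℂ) : ContainsOctic m t ↔ OctN m (hv t) (qm t) := by
  simp only [ContainsOctic, Hf_eq, Qf_eq, bridge_oct, dotProduct_mulVec, ← bq_mul]
  refine ⟨fun h => ⟨cubics_lin _ fun x => ?_, cubics_e2 _ fun x => ?_⟩,
    fun h y y' => ⟨by rw [h.1, zero_dotProduct], e2_cubics _ h.2 _⟩⟩
  · obtain ⟨y, y', rfl⟩ := cross_surj x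
    exact (h y y').1
  · obtain ⟨y, y', rfl⟩ := cross_surj x
    exact (h y y').2

theorem anti_of {m : Mi → ℂ} {B : Matrix (Fin 9) (Fin 10) ℂ} (h : B * Phi m = 1) :
    Anticanonical m := by
  refine ⟨Matrix.of fun a s => B a (ei s), fun y y' => ?_⟩
  rw [← one_mulVec (cubics _), ← h, ← mulVec_mulVec, ← bridge_oct]
  funext a
  simp only [mulVec, dotProduct, sum_idx, of_apply, ei_ee, Function.comp_apply]

theorem chart_of {t : Par → ℂ} (h : RatN (hv t) (qm t)) : RationalChart t := by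
  rintro A rfl J rfl
  rw [bridge_H, bridge_Q, bridge_pl]
  exact h

theorem lag_iff (t : Par → ℂ) (a : Fin 6 → Fin 6 → Fin 6 → ℂ) :
    InLag t a ↔ InLagN (hv t) (qm t) a := by
  have e : wpart a ∘ ee = wN a := by
    funext i
    fin_cases i <;> rfl
  have e1 : ∀ u v, xiWedge a u v = xiN a ⬝ᵥ pw u v := fun u v => by
    simp only [xiWedge, xiN, pw, cons_dotProduct_cons, dotProduct_of_isEmpty]
    ring
  have e2 : ∀ (μ : ℂ) (p : Fin 10 → ℂ), bq (qm t) (wN a) p + bq (qm t) p (wN a) + μ * hv t ⬝ᵥ p =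
      ((qm t + (qm t)ᵀ) *ᵥ wN a + μ • hv t) ⬝ᵥ p := fun μ p => by
    rw [add_dotProduct, add_mulVec, add_dotProduct, smul_dotProduct, mulVec_transpose, bq, bq,
      dotProduct_mulVec, dotProduct_comm p, add_comm (_ ᵥ* _ ⬝ᵥ _), smul_eq_mul]
  simp only [InLag, InLagN, Hf_eq, Qf_eq, e, e1, e2, pl_ee]
  exact and_congr_right fun _ => and_congr_right fun _ => exists_congr fun μ =>
    ⟨bridge_ext, fun h _ _ => by rw [h]⟩

theorem partner_of {t t' : Par → ℂ} (h : PartnerN (hv t) (qm t) (hv t') (qm t')) :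
    Partner t t' := by
  simpa only [Partner, PartnerN, lag_iff] using h

end Pool.Agent.GM34
end
end

-- merged part: Pool.Agent.Work.MP_274aea_ag_D34.Maps
section
-- merged part: Pool.Agent.Work.MP_274aea_ag_D34.Maps
section
set_option autoImplicit false

open MvPolynomial Matrix Pool.Agent.GM16

namespace Pool.Agent.GM34

/-! Naturality of the definitions under ring homomorphisms, part one. -/

variable {R S : Type*} [CommRing R] [CommRing S] (f : R →+* S)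

theorem maps_mulVec {a b : Type*} [Fintype b] (M : Matrix a b R) (v : b → R) :
    f ∘ (M *ᵥ v) = M.map f *ᵥ (f ∘ v) :=
  funext fun i => f.map_mulVec M v i

theorem maps_vecMul {a b : Type*} [Fintype a] (M : Matrix a b R) (v : a → R) :
    f ∘ (v ᵥ* M) = (f ∘ v) ᵥ* M.map f :=
  funext fun i => f.map_vecMul M v i

theorem maps_smul {a : Type*} (c : R) (v : a → R) : f ∘ (c • v) = f c • (f ∘ v) :=
  funext fun i => map_mul f c (v i)

theorem maps_add {a : Type*} (u v : a → R) : f ∘ (u + v) = f ∘ u + f ∘ v :=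
  funext fun i => map_add f (u i) (v i)

theorem maps_e0 : f ∘ ![1, 0, 0] = ![1, 0, 0] := by
  ext i
  fin_cases i <;> simp

theorem map_pw (u v : Fin 5 → R) :
    f ∘ pw u v = pw (f ∘ u) (f ∘ v) := by
  ext i
  fin_cases i <;> simp [pw]

theorem map_bq {n : ℕ} (q : Matrix (Fin n) (Fin n) R) (p p' : Fin n → R) :
    f (bq q p p') = bq (q.map f) (f ∘ p) (f ∘ p') := by
  rw [bq, bq, RingHom.map_dotProduct, maps_mulVec]

theorem map_bs {n : ℕ} (q : Matrix (Fin n) (Fin n) R) (p p' : Fin n → R) :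
    f (bs q p p') = bs (q.map f) (f ∘ p) (f ∘ p') := by
  rw [bs, bs, map_add, map_bq, map_bq]

theorem map_plk (p : Fin 10 → R) :
    f ∘ plk p = plk (f ∘ p) := by
  ext i
  fin_cases i <;> simp [plk]

theorem map_P0  :
    (P0 : M10 R).map f = P0 := by
  ext i j
  simp only [P0, map_apply, of_apply, apply_ite f, map_one, map_neg, map_zero]

theorem map_hv (t : Par → R) :
    f ∘ hv t = hv (f ∘ t) := by
  rfl

theorem map_qm (t : Par → R) :
    (qm t).map f = qm (f ∘ t) := by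
  rfl

theorem map_mkP (h : Fin 10 → R) (q : M10 R) :
    f ∘ mkP h q = mkP (f ∘ h) (q.map f) := by
  ext s
  cases s <;> rfl

theorem map_mat (m : Mi → R) (k : Fin 5) :
    (mat m k).map f = mat (f ∘ m) k := by
  ext i j
  fin_cases i <;> fin_cases j <;> simp [mat]

theorem map_cubics (x : Fin 3 → R) :
    f ∘ cubics x = cubics (f ∘ x) := by
  ext i
  fin_cases i <;> simp [cubics]

theorem maps_cub (a b : Fin 8 → R) : f ∘ cub a b = cub (f ∘ a) (f ∘ b) := by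
  ext i
  fin_cases i <;> simp [cub]

theorem map_Phi (m : Mi → R) :
    (Phi m).map f = Phi (f ∘ m) := by
  ext i j
  exact congrFun (maps_cub f _ _) j

theorem map_Nu (m : Mi → R) :
    (Nu m).map f = Nu (f ∘ m) := by
  ext i j
  fin_cases i <;> simp [Nu]

theorem map_e2 (T : Matrix (Fin 9) (Fin 9) R) (k : Fin 25) :
    f (e2 T k) = e2 (T.map f) k := by
  simp only [e2, map_sum, apply_ite f, map_zero, map_apply]

theorem map_OctN {m : Mi → R} {h : Fin 10 → R} {q : M10 R} (ho : OctN m h q) :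
    OctN (f ∘ m) (f ∘ h) (q.map f) := by
  refine ⟨?_, fun k => ?_⟩
  · rw [← map_Phi, ← maps_vecMul, ho.1]
    exact funext fun _ => map_zero f
  · rw [← map_Phi, ← transpose_map, ← Matrix.map_mul, ← Matrix.map_mul, ← map_e2, ho.2 k, map_zero]

theorem map_bm (c : Fin 9 × Fin 9 → R) :
    (bm c).map f = bm (f ∘ c) := by
  ext a b
  simp only [bm, map_apply, of_apply, map_sub, map_sum, apply_ite f, map_zero, Function.comp_apply]

theorem map_am (m : Mi → R) (y : Fin 5 → R) :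
    f ∘ am m y = am (f ∘ m) (f ∘ y) := by
  ext j
  simp only [am, map_sum, map_mul, Function.comp_apply]

theorem map_Nm (a : Fin 8 → R) :
    (Nm a).map f = Nm (f ∘ a) := by
  ext i j
  fin_cases i <;> fin_cases j <;> simp [Nm]

theorem maps_s1 (a : Fin 8 → R) : f (s1 a) = s1 (f ∘ a) := by
  simp [s1]

theorem maps_s2 (a : Fin 8 → R) : f (s2 a) = s2 (f ∘ a) := by
  simp [s2]

theorem maps_s3 (a : Fin 8 → R) : f (s3 a) = s3 (f ∘ a) := by
  simp [s3]

theorem map_disc (a : Fin 8 → R) :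
    f (disc a) = disc (f ∘ a) := by
  simp only [disc, map_add, map_sub, map_mul, map_pow, map_ofNat, maps_s1, maps_s2, maps_s3]

theorem maps_Zaux (a : Fin 8 → R) (σ0 σ1 σ2 σ3 : Fin 3 → R) :
    f ∘ Zaux a σ0 σ1 σ2 σ3 = Zaux (f ∘ a) (f ∘ σ0) (f ∘ σ1) (f ∘ σ2) (f ∘ σ3) := by
  ext i
  fin_cases i <;> simp [Zaux]

theorem map_Zv (a : Fin 8 → R) (σ : Fin 3 → R) :
    f ∘ Zv a σ = Zv (f ∘ a) (f ∘ σ) := by
  simp only [Zv, maps_Zaux, maps_mulVec, map_Nm]

theorem maps_msmul {a b : Type*} (c : R) (M : Matrix a b R) : (c • M).map f = f c • M.map f := by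
  ext i j
  exact map_mul f c (M i j)

theorem map_Cm (a : Fin 8 → R) (e : Fin 3 → R) :
    (Cm a e).map f = Cm (f ∘ a) (f ∘ e) := by
  simp only [Cm, Matrix.map_add f (map_add f), Matrix.map_sub f (map_sub f), Matrix.map_mul,
    maps_msmul, Matrix.map_one f (map_zero f) (map_one f), map_Nm, maps_s1, maps_s2,
    Function.comp_apply]

theorem maps_cross (u v : Fin 3 → R) : f ∘ (u ⨯₃ v) = (f ∘ u) ⨯₃ (f ∘ v) := by
  ext i
  fin_cases i <;> simp [cross_apply]

theorem maps_lamq (q : M10 R) (p0 p1 : Fin 10 → R) :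
    f ∘ lamq q p0 p1 = lamq (q.map f) (f ∘ p0) (f ∘ p1) := by
  ext i
  fin_cases i <;> simp [lamq, map_bq, map_bs]

theorem map_evec (m : Mi → R) (q : M10 R) (a : Fin 8 → R) :
    f ∘ evec m q a = evec (f ∘ m) (q.map f) (f ∘ a) := by
  simp only [evec, maps_cross, maps_lamq, map_P0, maps_mulVec, map_Phi, map_Zv, map_Nm, maps_e0]

theorem map_zst (m : Mi → R) (q : M10 R) (y : Fin 5 → R) :
    f ∘ zst m q y = zst (f ∘ m) (q.map f) (f ∘ y) := by
  simp only [zst, map_Zv, maps_mulVec, map_Cm, map_evec, map_am, maps_e0]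

theorem map_pst (m : Mi → R) (q : M10 R) (y : Fin 5 → R) :
    f ∘ pst m q y = pst (f ∘ m) (q.map f) (f ∘ y) := by
  rw [pst, pst, maps_mulVec, map_Phi, map_zst]

theorem map_Sb (z : Fin 9 → R) :
    (Sb z).map f = Sb (f ∘ z) := by
  ext i j
  fin_cases i <;> fin_cases j <;> simp [Sb]

theorem map_ratc (m : Mi → R) (q : M10 R) (y : Fin 5 → R) :
    f (ratc m q y) = ratc (f ∘ m) (q.map f) (f ∘ y) := by
  rw [ratc, ratc, map_mul, map_mul, map_mul, map_disc, RingHom.map_det, RingHom.mapMatrix_apply,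
    map_Sb, map_zst, ← map_am]
  rfl

theorem map_kap1 (h : Fin 10 → R) :
    f (kap1 h) = kap1 (f ∘ h) := by
  simp [kap1]

theorem maps_kap0 (h : Fin 10 → R) : f (kap0 h) = kap0 (f ∘ h) := by
  simp [kap0]

theorem maps_kv (h : Fin 10 → R) : f ∘ kv h = kv (f ∘ h) := by
  ext i
  fin_cases i <;> simp [kv]

theorem maps_wv (h : Fin 10 → R) (a b : R) : f ∘ wv h a b = wv (f ∘ h) (f a) (f b) := by
  ext i
  fin_cases i <;> simp [wv, map_kap1, maps_kap0]

theorem maps_vv (a b : R) : f ∘ vv a b = vv (f a) (f b) := by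
  ext i
  fin_cases i <;> simp [vv]

theorem maps_e3 : f ∘ ![0, 0, 0, 1, 0] = ![0, 0, 0, 1, 0] := by
  ext i
  fin_cases i <;> simp

theorem maps_pa (h : Fin 10 → R) (w : Fin 5 → R) : f ∘ pa h w = pa (f ∘ h) (f ∘ w) := by
  rw [pa, pa, maps_smul, map_kap1, map_pw, maps_kv]

theorem maps_pb (h : Fin 10 → R) (w v : Fin 5 → R) :
    f ∘ pb h w v = pb (f ∘ h) (f ∘ w) (f ∘ v) := by
  rw [pb, pb, maps_add, maps_smul, maps_smul, map_kap1, RingHom.map_dotProduct, map_pw, map_pw,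
    maps_kv]

theorem maps_co3 {g : (Fin 10 → R) → (Fin 10 → R) → R} {g' : (Fin 10 → S) → (Fin 10 → S) → S}
    (hg : ∀ x y, f (g x y) = g' (f ∘ x) (f ∘ y)) (x0 x1 y0 y1 : Fin 10 → R) :
    f ∘ co3 g x0 x1 y0 y1 = co3 g' (f ∘ x0) (f ∘ x1) (f ∘ y0) (f ∘ y1) := by
  ext i
  fin_cases i <;> simp [co3, hg]

theorem map_cA (h : Fin 10 → R) (q : M10 R) (w4 : R) :
    f ∘ cA h q w4 = cA (f ∘ h) (q.map f) (f w4) := by
  rw [cA, cA, maps_co3 f (map_bq f q), maps_pa, maps_pa, maps_wv, maps_e3, map_zero]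

theorem map_cB (h : Fin 10 → R) (q : M10 R) (w4 v3 v4 : R) :
    f ∘ cB h q w4 v3 v4 = cB (f ∘ h) (q.map f) (f w4) (f v3) (f v4) := by
  rw [cB, cB, maps_co3 f (map_bs f q), maps_pa, maps_pa, maps_pb, maps_pb, maps_wv, maps_vv,
    maps_e3, map_zero]

theorem map_cC (h : Fin 10 → R) (q : M10 R) (w4 v3 v4 : R) :
    f ∘ cC h q w4 v3 v4 = cC (f ∘ h) (q.map f) (f w4) (f v3) (f v4) := by
  rw [cC, cC, maps_co3 f (map_bq f q), maps_pb, maps_pb, maps_wv, maps_vv, maps_e3, map_zero]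

theorem maps_res2 (A B : Fin 3 → R) : f (res2 A B) = res2 (f ∘ A) (f ∘ B) := by
  simp [res2]

theorem maps_nsq (A B D : Fin 3 → R) : f (nsq A B D) = nsq (f ∘ A) (f ∘ B) (f ∘ D) := by
  simp only [nsq, map_add, map_sub, map_mul, map_pow, map_ofNat, Function.comp_apply]

theorem map_gpr (h : Fin 10 → R) (q : M10 R) :
    f (gpr h q) = gpr (f ∘ h) (q.map f) := by
  have hA := map_cA f h q 0
  have hB := map_cB f h q 0 0 0
  have hC := map_cC f h q 0 0 0
  rw [map_zero] at hA hB hC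
  rw [gpr, gpr, map_mul, map_mul, map_mul, map_mul, map_kap1, maps_res2, maps_nsq, hB, hC, ← hA]
  rfl

end Pool.Agent.GM34
end

-- merged part: Pool.Agent.Work.MP_274aea_ag_D34.Deriv
section
set_option autoImplicit false

open MvPolynomial Matrix Pool.Agent.GM16

namespace Pool.Agent.GM34

theorem deriv_smooth (F K : Type) [Field F] [Field K] [Algebra F K] [CharZero F] :
    Algebra.FormallySmooth F K := by
  obtain ⟨s, hs⟩ := exists_isTranscendenceBasis F K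
  have h1 : Algebra.IsAlgebraic (IntermediateField.adjoin F (Set.range ((↑) : s → K))) K :=
    hs.isAlgebraic_field
  have h2 : Algebra.IsSeparable (IntermediateField.adjoin F (Set.range ((↑) : s → K))) K :=
    Algebra.IsAlgebraic.isSeparable_of_perfectField
  exact .of_algebraicIndependent_of_isSeparable hs.1

/-- Make `K` an algebra over `P = MvPolynomial τ ℂ` by `aeval c`. It is formally smooth over `P`:
`P → F = adjoin ℂ (range c)` is a localisation and `K / F` is separably generated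
(`exists_isTranscendenceBasis`, `Algebra.FormallySmooth.of_algebraicIndependent_of_isSeparable`).
So `KaehlerDifferential.mapBaseChange ℂ P K` is injective (`Algebra.H1Cotangent.exact_δ_mapBaseChange`),
the differentials of the `c i` are linearly independent over `K`
(`KaehlerDifferential.mvPolynomialBasis`), and a linear functional with prescribed values composed
with the universal derivation does it. Alternatively extend `c` to a transcendence basis and use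
`KaehlerDifferential.tensorKaehlerEquivOfFormallyEtale`. -/
theorem exists_deriv {K τ : Type} [Field K] [Algebra ℂ K] [Fintype τ] {c : τ → K}
    (hc : AlgebraicIndependent ℂ c) (δ : τ → K) :
    ∃ D : Derivation ℂ K K, ∀ i, D (c i) = δ i := by
  let : Algebra (MvPolynomial τ ℂ) K := (aeval c : MvPolynomial τ ℂ →ₐ[ℂ] K).toRingHom.toAlgebra
  have hX : ∀ i, algebraMap (MvPolynomial τ ℂ) K (X i) = c i := fun i => aeval_X c i
  have : IsScalarTower ℂ (MvPolynomial τ ℂ) K :=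
    IsScalarTower.of_algebraMap_eq fun z => ((aeval c).commutes z).symm
  have : FaithfulSMul (MvPolynomial τ ℂ) K :=
    (faithfulSMul_iff_algebraMap_injective _ _).2 hc
  let : Algebra (FractionRing (MvPolynomial τ ℂ)) K := FractionRing.liftAlgebra _ K
  have : IsScalarTower (MvPolynomial τ ℂ) (FractionRing (MvPolynomial τ ℂ)) K :=
    FractionRing.isScalarTower_liftAlgebra _ K
  have : Algebra.FormallySmooth (MvPolynomial τ ℂ) (FractionRing (MvPolynomial τ ℂ)) :=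
    .of_isLocalization (nonZeroDivisors _)
  have := deriv_smooth (FractionRing (MvPolynomial τ ℂ)) K
  have : Algebra.FormallySmooth (MvPolynomial τ ℂ) K :=
    .comp _ (FractionRing (MvPolynomial τ ℂ)) _
  have hinj : LinearMap.ker (KaehlerDifferential.mapBaseChange ℂ (MvPolynomial τ ℂ) K) = ⊥ := by
    rw [LinearMap.ker_eq_bot']
    intro x hx
    obtain ⟨x, rfl⟩ := (Algebra.H1Cotangent.exact_δ_mapBaseChange ℂ (MvPolynomial τ ℂ) K x).mp hx
    rw [Subsingleton.elim x 0, map_zero]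
  obtain ⟨g, hg⟩ := LinearMap.exists_leftInverse_of_injective _ hinj
  let b := (KaehlerDifferential.mvPolynomialBasis ℂ τ).baseChange K
  refine ⟨((b.constr K δ).comp g).compDer (KaehlerDifferential.D ℂ K), fun i => ?_⟩
  have h1 : KaehlerDifferential.D ℂ K (c i) =
      KaehlerDifferential.mapBaseChange ℂ (MvPolynomial τ ℂ) K (b i) := by
    simp only [b, Module.Basis.baseChange_apply, KaehlerDifferential.mvPolynomialBasis_apply,
      KaehlerDifferential.mapBaseChange_tmul, one_smul, KaehlerDifferential.map_D, hX]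
  have h2 := LinearMap.congr_fun hg (b i)
  change b.constr K δ (g (KaehlerDifferential.D ℂ K (c i))) = δ i
  rw [LinearMap.comp_apply, LinearMap.id_apply] at h2
  rw [h1, h2, Module.Basis.constr_basis]

end Pool.Agent.GM34
end

-- merged part: Pool.Agent.Work.MP_274aea_ag_D34.Bertini
section
set_option autoImplicit false

open MvPolynomial Matrix Pool.Agent.GM16

namespace Pool.Agent.GM34

theorem bertini_two {K ι : Type*} [Field K] [Nonempty ι] (α β : ι → K) :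
    ∃ s t : ι, ∀ J : ι → K, (∀ (r s t : ι) (x y w : K), x * α r + y * α s + w * α t = 0 →
      x * β r + y * β s + w * β t = 0 → x * J r + y * J s + w * J t = 0) →
      J s = 0 → J t = 0 → J = 0 := by
  by_cases hm : ∃ s t, α s * β t - α t * β s ≠ 0
  · obtain ⟨s, t, hm⟩ := hm
    refine ⟨s, t, fun J hJ hs ht => funext fun r => ?_⟩
    have e := hJ r s t (α s * β t - α t * β s) (α t * β r - α r * β t) (α r * β s - α s * β r)
      (by ring) (by ring)
    rw [hs, ht, mul_zero, mul_zero, add_zero, add_zero] at e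
    exact (mul_eq_zero.1 e).resolve_left hm
  push Not at hm
  by_cases ha : ∃ s, α s ≠ 0
  · obtain ⟨s, ha⟩ := ha
    refine ⟨s, s, fun J hJ hs _ => funext fun r => ?_⟩
    have e := hJ r s s (α s) (-α r) 0 (by ring) (by linear_combination hm s r)
    rw [hs, mul_zero, mul_zero, add_zero, add_zero] at e
    exact (mul_eq_zero.1 e).resolve_left ha
  push Not at ha
  by_cases hb : ∃ s, β s ≠ 0
  · obtain ⟨s, hb⟩ := hb
    refine ⟨s, s, fun J hJ hs _ => funext fun r => ?_⟩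
    have e := hJ r s s (β s) (-β r) 0 (by simp [ha]) (by ring)
    rw [hs, mul_zero, mul_zero, add_zero, add_zero] at e
    exact (mul_eq_zero.1 e).resolve_left hb
  push Not at hb
  obtain ⟨s⟩ := ‹Nonempty ι›
  refine ⟨s, s, fun J hJ _ _ => funext fun r => ?_⟩
  have e := hJ r s s 1 0 0 (by simp [ha]) (by simp [hb])
  simpa using e

theorem bertini_dpw {K : Type} [Field K] [Algebra ℂ K] (D : Derivation ℂ K K)
    (u v : Fin 5 → K) : D ∘ pw u v = pw (D ∘ u) v + pw u (D ∘ v) := by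
  funext i
  fin_cases i <;> simp [pw] <;> ring

theorem bertini_dmul {K : Type} [Field K] [Algebra ℂ K] (D : Derivation ℂ K K) {m n : ℕ}
    (M : Matrix (Fin m) (Fin n) ℂ) (p : Fin n → K) :
    D ∘ (M.map (algebraMap ℂ K) *ᵥ p) = M.map (algebraMap ℂ K) *ᵥ (D ∘ p) := by
  funext i
  simp [mulVec, dotProduct, map_sum, Derivation.leibniz, Derivation.map_algebraMap]

theorem bertini_ddot {K : Type} [Field K] [Algebra ℂ K] (D : Derivation ℂ K K) {n : ℕ}
    (h : Fin n → ℂ) (p : Fin n → K) :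
    D ((algebraMap ℂ K ∘ h) ⬝ᵥ p) = (algebraMap ℂ K ∘ h) ⬝ᵥ (D ∘ p) := by
  simp [dotProduct, map_sum, Derivation.leibniz, Derivation.map_algebraMap]

theorem bertini_dbq {K : Type} [Field K] [Algebra ℂ K] (D : Derivation ℂ K K)
    (c : Fin 9 × Fin 9 → K) (z z' : Fin 9 → K) :
    D (bq (bm c) z z') = bq (bm (D ∘ c)) z z' + bq (bm c) (D ∘ z) z' + bq (bm c) z (D ∘ z') := by
  simp only [bq_bm, map_sum, ← Finset.sum_add_distrib]
  refine Finset.sum_congr rfl fun s _ => ?_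
  simp only [Derivation.leibniz, map_sub, smul_eq_mul, Function.comp_apply]
  ring

/-- The map `(u', v') ↦ u' ∧ v + u ∧ v'`. -/
def bertini_tau {K : Type} [Field K] (u v : Fin 5 → K) :
    (Fin 5 → K) × (Fin 5 → K) →ₗ[K] Fin 10 → K where
  toFun x := pw x.1 v + pw u x.2
  map_add' x y := by
    funext i
    fin_cases i <;> simp [pw] <;> ring
  map_smul' r x := by
    funext i
    fin_cases i <;> simp [pw] <;> ring

/-- The linearised binomial number `s`. -/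
def bertini_J {K : Type} [Field K] (z : Fin 9 → K) (s : Fin 9 × Fin 9) : (Fin 9 → K) →ₗ[K] K where
  toFun ζ := z s.1 * ζ s.2 + z s.2 * ζ s.1 - z (pref s.1 s.2).1 * ζ (pref s.1 s.2).2 -
    z (pref s.1 s.2).2 * ζ (pref s.1 s.2).1
  map_add' x y := by
    simp only [Pi.add_apply]
    ring
  map_smul' r x := by
    simp only [Pi.smul_apply, smul_eq_mul, RingHom.id_apply]
    ring

theorem bertini_bs {K : Type} [Field K] (c : Fin 9 × Fin 9 → K) (z ζ : Fin 9 → K) :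
    bs (bm c) z ζ = ∑ s, c s * bertini_J z s ζ := by
  simp only [bs, bq_bm, ← Finset.sum_add_distrib]
  refine Finset.sum_congr rfl fun s _ => ?_
  simp only [bertini_J, LinearMap.coe_mk, AddHom.coe_mk]
  ring

theorem bertini_lrel {K : Type} [Field K] {z ζ : Fin 9 → K}
    (h : ∀ s, bertini_J z s ζ = 0) : LRel z ζ := by
  intro a b c d e
  have e1 := h (a, b)
  have e2 := h (c, d)
  simp only [bertini_J, LinearMap.coe_mk, AddHom.coe_mk] at e1 e2
  rw [pref_eq a b c d e] at e1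
  linear_combination e1 - e2

theorem bertini_tau2 {K : Type} [Field K] (u v u' v' u'' v'' : Fin 5 → K) (a b c d : K) :
    pw u'' v + pw u' (c • u + d • v) + (pw (a • u + b • v) v' + pw u v'') =
      pw (u'' + d • u' - b • v') v + pw u (v'' + a • v' - c • u') := by
  have key : ∀ j : Fin 10, ∃ p q : Fin 5, ∀ x y : Fin 5 → K, pw x y j = x p * y q - x q * y p := by
    intro j
    fin_cases j
    exacts [⟨0, 1, fun _ _ => rfl⟩, ⟨0, 2, fun _ _ => rfl⟩, ⟨0, 3, fun _ _ => rfl⟩,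
      ⟨0, 4, fun _ _ => rfl⟩, ⟨1, 2, fun _ _ => rfl⟩, ⟨1, 3, fun _ _ => rfl⟩,
      ⟨1, 4, fun _ _ => rfl⟩, ⟨2, 3, fun _ _ => rfl⟩, ⟨2, 4, fun _ _ => rfl⟩,
      ⟨3, 4, fun _ _ => rfl⟩]
  funext j
  obtain ⟨p, q, h⟩ := key j
  simp only [Pi.add_apply, Pi.sub_apply, Pi.smul_apply, smul_eq_mul, h]
  ring

theorem bertini_count {K : Type} [Field K]
    (φ : Fin 9 → ((Fin 5 → K) × (Fin 5 → K) →ₗ[K] K))
    (h : ∀ x, (∀ i, φ i x = 0) → x = 0) : False := by
  have hi : Function.Injective (LinearMap.pi φ) := by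
    rw [← LinearMap.ker_eq_bot, LinearMap.ker_eq_bot']
    intro x hx
    exact h x fun i => congrFun hx i
  have := LinearMap.finrank_le_finrank_of_injective hi
  simp at this

/-- Write `π = pw u v`, `z = Ψ π`, `τ (u', v') = pw u' v + pw u v'`. From `h1`, `π = Φ z`, so
`z ≠ 0`, and `Ψ` is injective on the kernel of `h`. For a derivation `D` apply `D` to `hQ`
(`bq_bm`): `∑ s, D (c s) * (z s.1 * z s.2 - z ρ * z σ) + bs (bm c) z (D z) = 0`, `D z = Ψ τ (D u, D v)`,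
and `h ⬝ᵥ τ (D u, D v) = D (h ⬝ᵥ π) = 0`, so the second term vanishes by `hs`. With
`exists_deriv` all binomials vanish: `Rel z` (`pref_eq`). Take `v0, n1, n2` from `toric`. If
`z v0 * D (z n) = z n * D (z v0)` for `n = n1, n2` then `D z = ε • z` (apply `toric` to
`D z - ε • z`), so `τ (D u, D v) = ε • π` and `span_tau` applies. For `(u', v')` with
`h ⬝ᵥ τ (u', v') = 0` and `ζ = Ψ τ (u', v')` apply `D` to `bs (bm c) z ζ = 0`; the derivative of
`τ (u', v')` is again of the form `τ (_, _)` and is killed by `h`; hence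
`∑ s, D (c s) * J ζ s = 0`, `J ζ s = z s.1 * ζ s.2 + z s.2 * ζ s.1 - z ρ * ζ σ - z σ * ζ ρ`. Taking
`D = ∑ δ s • D s` with `D s (c s') = if s = s' then 1 else 0`, the vector `J ζ` lies in the span
`W` of two fixed vectors. Now count: on the ten dimensional space of pairs `(u', v')` the nine
linear conditions `h ⬝ᵥ τ = 0`, the two coordinates of `J ζ` in `W`, `ζ v0 = ζ n1 = ζ n2 = 0` and the
three forms of `ker_tau` force `(u', v') = 0`, which is absurd (an injective linear map from the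
kernel of `h ⬝ᵥ τ`, of dimension at least nine, to `W × K³ × K³`). -/
theorem bertini {K : Type} [Field K] [Algebra ℂ K] {c : Fin 9 × Fin 9 → K}
    (hc : AlgebraicIndependent ℂ c) {Φ : Matrix (Fin 10) (Fin 9) ℂ}
    {Ψ : Matrix (Fin 9) (Fin 10) ℂ} {h w0 : Fin 10 → ℂ} (h1 : Φ * Ψ + vecMulVec w0 h = 1)
    {u v : Fin 5 → K} {a : K} (hne : pw u v ≠ 0) (hH : (algebraMap ℂ K ∘ h) ⬝ᵥ pw u v = 0)
    (hQ : bq (bm c) (Ψ.map (algebraMap ℂ K) *ᵥ pw u v) (Ψ.map (algebraMap ℂ K) *ᵥ pw u v) = 0)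
    (hs : ∀ u' v' : Fin 5 → K, a * (algebraMap ℂ K ∘ h) ⬝ᵥ (pw u' v + pw u v') +
      bs (bm c) (Ψ.map (algebraMap ℂ K) *ᵥ pw u v)
        (Ψ.map (algebraMap ℂ K) *ᵥ (pw u' v + pw u v')) = 0) : False := by
  classical
  set H : Fin 10 → K := algebraMap ℂ K ∘ h with hHdef
  set P : Matrix (Fin 9) (Fin 10) K := Ψ.map (algebraMap ℂ K) with hP
  have hinj : ∀ p : Fin 10 → K, H ⬝ᵥ p = 0 → P *ᵥ p = 0 → p = 0 := by
    intro p hp hq
    have e : Φ.map (algebraMap ℂ K) * P + vecMulVec (algebraMap ℂ K ∘ w0) H = 1 := by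
      have := congrArg (fun M : Matrix (Fin 10) (Fin 10) ℂ => M.map (algebraMap ℂ K)) h1
      simp only [Matrix.map_one _ (map_zero _) (map_one _)] at this
      rw [← this]
      ext i j
      simp [hP, hHdef, Matrix.mul_apply, vecMulVec_apply, map_sum]
    have e2 := congrArg (fun M : Matrix (Fin 10) (Fin 10) K => M *ᵥ p) e
    simp only [Matrix.add_mulVec, ← Matrix.mulVec_mulVec, hq, Matrix.mulVec_zero,
      Matrix.vecMulVec_mulVec, hp, Matrix.one_mulVec] at e2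
    simpa using e2.symm
  set z : Fin 9 → K := P *ᵥ pw u v with hz
  have hz0 : z ≠ 0 := fun e => hne (hinj _ hH e)
  have hs0 : ∀ u' v' : Fin 5 → K, H ⬝ᵥ (pw u' v + pw u v') = 0 →
      bs (bm c) z (P *ᵥ (pw u' v + pw u v')) = 0 := by
    intro u' v' e
    have := hs u' v'
    rwa [e, mul_zero, zero_add] at this
  have hDz : ∀ D : Derivation ℂ K K, D ∘ z = P *ᵥ (pw (D ∘ u) v + pw u (D ∘ v)) := by
    intro D
    rw [hz, hP, bertini_dmul, bertini_dpw]
  have hDH : ∀ D : Derivation ℂ K K, H ⬝ᵥ (pw (D ∘ u) v + pw u (D ∘ v)) = 0 := by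
    intro D
    rw [← bertini_dpw, hHdef, ← bertini_ddot, ← hHdef, hH, map_zero]
  choose E hE using fun s : Fin 9 × Fin 9 => exists_deriv hc (Pi.single s 1)
  have hrel : Rel z := by
    have key : ∀ s : Fin 9 × Fin 9, z s.1 * z s.2 = z (pref s.1 s.2).1 * z (pref s.1 s.2).2 := by
      intro s
      have e := bertini_dbq (E s) c z z
      have e' := hs0 _ _ (hDH (E s))
      rw [← hDz, bs] at e'
      rw [hQ, map_zero, bq_bm] at e
      simp only [Function.comp_apply, hE, Pi.single_apply, ite_mul, one_mul, zero_mul,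
        Finset.sum_ite_eq', Finset.mem_univ, if_true] at e
      linear_combination -e - e'
    intro a b c d e
    have e1 := key (a, b)
    have e2 := key (c, d)
    simp only at e1 e2
    rw [e1, e2, pref_eq a b c d e]
  obtain ⟨v0, n1, n2, hv0, htor⟩ := toric hz0 hrel
  have hmain : ∀ D : Derivation ℂ K K, z v0 * D (z n1) - z n1 * D (z v0) = 0 →
      z v0 * D (z n2) - z n2 * D (z v0) = 0 → ∀ u' v' : Fin 5 → K,
      H ⬝ᵥ (pw u' v + pw u v') = 0 →
      ∑ s, D (c s) * bertini_J z s (P *ᵥ (pw u' v + pw u v')) = 0 := by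
    intro D d1 d2 u' v' hu
    set ε : K := D (z v0) / z v0 with hε
    have hε' : ε * z v0 = D (z v0) := div_mul_cancel₀ _ hv0
    have hzz : D ∘ z - ε • z = 0 := by
      refine htor _ ?_ ?_ ?_ ?_
      · intro a b c d e
        have e1 := hrel a b c d e
        have e2 := congrArg D e1
        simp only [Derivation.leibniz, smul_eq_mul] at e2
        simp only [Pi.sub_apply, Pi.smul_apply, smul_eq_mul, Function.comp_apply]
        linear_combination e2 - 2 * ε * e1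
      · simp only [Pi.sub_apply, Pi.smul_apply, smul_eq_mul, Function.comp_apply]
        linear_combination -hε'
      · simp only [Pi.sub_apply, Pi.smul_apply, smul_eq_mul, Function.comp_apply]
        apply mul_left_cancel₀ hv0
        linear_combination d1 - z n1 * hε'
      · simp only [Pi.sub_apply, Pi.smul_apply, smul_eq_mul, Function.comp_apply]
        apply mul_left_cancel₀ hv0
        linear_combination d2 - z n2 * hε'
    have hτ : pw (D ∘ u) v + pw u (D ∘ v) = ε • pw u v := by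
      rw [← sub_eq_zero]
      apply hinj
      · rw [dotProduct_sub, hDH, dotProduct_smul, hH, smul_zero, sub_zero]
      · rw [Matrix.mulVec_sub, ← hDz, Matrix.mulVec_smul, ← hz, hzz]
    obtain ⟨a1, b1, c1, d1, hu1, hv1⟩ := span_tau hne hτ
    have hDτ : D ∘ (pw u' v + pw u v') =
        pw (D ∘ u' + d1 • u' - b1 • v') v + pw u (D ∘ v' + a1 • v' - c1 • u') := by
      rw [← bertini_tau2, ← hu1, ← hv1, ← bertini_dpw, ← bertini_dpw]
      funext i
      simp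
    set ζ : Fin 9 → K := P *ᵥ (pw u' v + pw u v') with hζ
    have b0 : bs (bm c) z ζ = 0 := hs0 u' v' hu
    have b1' : bs (bm c) z (D ∘ ζ) = 0 := by
      rw [hζ, hP, bertini_dmul, ← hP, hDτ]
      apply hs0
      rw [← hDτ, hHdef, ← bertini_ddot, ← hHdef, hu, map_zero]
    have b2 : bs (bm c) (D ∘ z) ζ = 0 := by
      have e : D ∘ z = ε • z := sub_eq_zero.1 hzz
      have e' : bs (bm c) (ε • z) ζ = ε * bs (bm c) z ζ := by
        simp only [bs, bq, Matrix.mulVec_smul, smul_dotProduct, dotProduct_smul, smul_eq_mul]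
        ring
      rw [e, e', b0, mul_zero]
    have b3 := congrArg D b0
    rw [bs, map_add, bertini_dbq, bertini_dbq, map_zero] at b3
    have b4 := bertini_bs (D ∘ c) z ζ
    simp only [bs] at b1' b2 b4
    simp only [Function.comp_apply] at b4
    linear_combination b3 - b1' - b2 - b4
  obtain ⟨s1, s2, hJ⟩ := bertini_two (fun s => z v0 * E s (z n1) - z n1 * E s (z v0))
    (fun s => z v0 * E s (z n2) - z n2 * E s (z v0))
  obtain ⟨i, j, hij⟩ := ker_tau hne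
  let T := bertini_tau u v
  let Z : (Fin 5 → K) × (Fin 5 → K) →ₗ[K] Fin 9 → K := P.mulVecLin ∘ₗ T
  let A : Fin 5 → ((Fin 5 → K) × (Fin 5 → K) →ₗ[K] K) := fun k =>
    LinearMap.proj k ∘ₗ LinearMap.fst K _ _
  let B : Fin 5 → ((Fin 5 → K) × (Fin 5 → K) →ₗ[K] K) := fun k =>
    LinearMap.proj k ∘ₗ LinearMap.snd K _ _
  refine bertini_count ![(dotProductBilin K K H) ∘ₗ T, bertini_J z s1 ∘ₗ Z, bertini_J z s2 ∘ₗ Z,
    LinearMap.proj v0 ∘ₗ Z, LinearMap.proj n1 ∘ₗ Z, LinearMap.proj n2 ∘ₗ Z, A i, A j,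
    v j • B i - v i • B j] ?_
  rintro ⟨u', v'⟩ hx
  have x0 : H ⬝ᵥ (pw u' v + pw u v') = 0 := hx 0
  have x1 : bertini_J z s1 (P *ᵥ (pw u' v + pw u v')) = 0 := hx 1
  have x2 : bertini_J z s2 (P *ᵥ (pw u' v + pw u v')) = 0 := hx 2
  have x3 : (P *ᵥ (pw u' v + pw u v')) v0 = 0 := hx 3
  have x4 : (P *ᵥ (pw u' v + pw u v')) n1 = 0 := hx 4
  have x5 : (P *ᵥ (pw u' v + pw u v')) n2 = 0 := hx 5
  have x6 : u' i = 0 := hx 6
  have x7 : u' j = 0 := hx 7
  have x8 : v j * v' i - v i * v' j = 0 := hx 8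
  have hJ0 := hJ (fun s => bertini_J z s (P *ᵥ (pw u' v + pw u v'))) (by
    intro r s t x y w e1 e2
    have e := hmain (x • E r + y • E s + w • E t) (by
      simp only [Derivation.add_apply, Derivation.smul_apply, smul_eq_mul]
      linear_combination e1) (by
      simp only [Derivation.add_apply, Derivation.smul_apply, smul_eq_mul]
      linear_combination e2) u' v' x0
    simpa only [Derivation.add_apply, Derivation.smul_apply, smul_eq_mul, hE, Pi.single_apply,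
      add_mul, mul_ite, ite_mul, mul_one, mul_zero, zero_mul, Finset.sum_add_distrib,
      Finset.sum_ite_eq', Finset.mem_univ, if_true] using e) x1 x2
  have hζ0 := htor _ (bertini_lrel fun s => congrFun hJ0 s) x3 x4 x5
  obtain ⟨k1, k2⟩ := hij u' v' (hinj _ x0 hζ0) x6 x7 (by linear_combination x8)
  exact Prod.ext k1 k2

end Pool.Agent.GM34
end

-- merged part: Pool.Agent.Work.MP_274aea_ag_D34.SmGen
section
set_option autoImplicit false

open MvPolynomial Matrix Pool.Agent.GM16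

namespace Pool.Agent.GM34

/-- Take `w0` with `h ⬝ᵥ w0 = 1` and `Ψ = B * (1 - vecMulVec w0 h)`. The matrix
`1 - Φ * Ψ - vecMulVec w0 h` kills the columns of `Φ` and `w0`, which span everything. -/
theorem exists_split {Φ : Matrix (Fin 10) (Fin 9) ℂ} {B : Matrix (Fin 9) (Fin 10) ℂ}
    (hB : B * Φ = 1) {h : Fin 10 → ℂ} (hΦ : h ᵥ* Φ = 0) (h0 : h ≠ 0) :
    ∃ (Ψ : Matrix (Fin 9) (Fin 10) ℂ) (w0 : Fin 10 → ℂ),
      Ψ * Φ = 1 ∧ Φ * Ψ + vecMulVec w0 h = 1 := by
  obtain ⟨i, hi⟩ := Function.ne_iff.1 h0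
  obtain ⟨w0, hw⟩ : ∃ w0 : Fin 10 → ℂ, h ⬝ᵥ w0 = 1 :=
    ⟨Pi.single i (h i)⁻¹, by rw [dotProduct_single]; exact mul_inv_cancel₀ hi⟩
  have k1 : B * (1 - vecMulVec w0 h) * Φ = 1 := by
    rw [Matrix.mul_assoc, Matrix.sub_mul, Matrix.one_mul, vecMulVec_mul, hΦ,
      show vecMulVec w0 (0 : Fin 9 → ℂ) = 0 from Matrix.ext fun _ _ => mul_zero _, sub_zero, hB]
  have k2 : (B * (1 - vecMulVec w0 h)) *ᵥ w0 = 0 := by
    rw [← mulVec_mulVec, sub_mulVec, one_mulVec, vecMulVec_mulVec, hw]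
    simp
  refine ⟨B * (1 - vecMulVec w0 h), w0, k1, ?_⟩
  generalize B * (1 - vecMulVec w0 h) = Ψ at k1 k2
  rw [vecMulVec_eq (Fin 1), ← fromCols_mul_fromRows]
  refine (fromCols_mul_fromRows_eq_one_comm (n := Fin 10)
    (finSumFinEquiv (m := 9) (n := 1)).symm _ _ _ _).2 ?_
  rw [fromRows_mul_fromCols, k1, ← replicateCol_mulVec, k2, ← replicateRow_vecMul, hΦ,
    replicateRow_mul_replicateCol, hw, ← fromBlocks_one]
  congr 1
  ext a b
  rw [Subsingleton.elim a b]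
  simp

section Ring

variable {R S : Type*} [CommRing R] [CommRing S]

/-- The tangency functional. -/
def smgen_T (h : Fin 10 → R) (Ψ : Matrix (Fin 9) (Fin 10) R) (c : Fin 9 × Fin 9 → R) (a : R)
    (p t : Fin 10 → R) : R := a * h ⬝ᵥ t + bs (bm c) (Ψ *ᵥ p) (Ψ *ᵥ t)

theorem smgen_lin (h : Fin 10 → R) (Ψ : Matrix (Fin 9) (Fin 10) R) (c : Fin 9 × Fin 9 → R) (a : R)
    (p : Fin 10 → R) : ∃ w : Fin 10 → R, ∀ t, smgen_T h Ψ c a p t = w ⬝ᵥ t := by
  refine ⟨a • h + (((Ψ *ᵥ p) ᵥ* bm c) ᵥ* Ψ + (bm c *ᵥ Ψ *ᵥ p) ᵥ* Ψ), fun t => ?_⟩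
  rw [smgen_T, bs, bq, bq, add_dotProduct, add_dotProduct, smul_dotProduct, smul_eq_mul,
    dotProduct_comm (Ψ *ᵥ t), dotProduct_mulVec (Ψ *ᵥ p), dotProduct_mulVec _ Ψ t,
    dotProduct_mulVec _ Ψ t]

theorem smgen_left (w : Fin 10 → R) (x y : Fin 5 → R) :
    w ⬝ᵥ pw x y = ∑ r, x r * (w ⬝ᵥ pw (Pi.single r 1) y) := by
  simp [pw, dotProduct, Fin.sum_univ_succ]
  ring

theorem smgen_right (w : Fin 10 → R) (x y : Fin 5 → R) :
    w ⬝ᵥ pw x y = ∑ r, y r * (w ⬝ᵥ pw x (Pi.single r 1)) := by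
  simp [pw, dotProduct, Fin.sum_univ_succ]
  ring

theorem smgen_zero_left (y : Fin 5 → R) : pw 0 y = 0 := by
  ext i
  fin_cases i <;> simp [pw]

theorem smgen_zero_right (x : Fin 5 → R) : pw x 0 = 0 := by
  ext i
  fin_cases i <;> simp [pw]

/-- The equations of the incidence variety. -/
def smgen_sys (h : Fin 10 → R) (Ψ : Matrix (Fin 9) (Fin 10) R) (c : Fin 9 × Fin 9 → R)
    (u v : Fin 5 → R) (a : R) (γ : Fin 10 → R) : Fin 3 ⊕ (Fin 5 ⊕ Fin 5) → R :=
  Sum.elim ![h ⬝ᵥ pw u v, bq (bm c) (Ψ *ᵥ pw u v) (Ψ *ᵥ pw u v), γ ⬝ᵥ pw u v - 1]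
    (Sum.elim (fun r => smgen_T h Ψ c a (pw u v) (pw (Pi.single r 1) v))
      fun r => smgen_T h Ψ c a (pw u v) (pw u (Pi.single r 1)))

theorem smgen_map (f : R →+* S) (h : Fin 10 → R) (Ψ : Matrix (Fin 9) (Fin 10) R)
    (c : Fin 9 × Fin 9 → R) (u v : Fin 5 → R) (a : R) (γ : Fin 10 → R)
    (i : Fin 3 ⊕ (Fin 5 ⊕ Fin 5)) : f (smgen_sys h Ψ c u v a γ i) =
      smgen_sys (f ∘ h) (Ψ.map f) (f ∘ c) (f ∘ u) (f ∘ v) (f a) (f ∘ γ) i := by
  have hm : ∀ p : Fin 10 → R, f ∘ (Ψ *ᵥ p) = Ψ.map f *ᵥ (f ∘ p) := fun p =>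
    _root_.funext fun j => f.map_mulVec Ψ p j
  have he : ∀ r : Fin 5, f ∘ (Pi.single r 1 : Fin 5 → R) = Pi.single r 1 := fun r => by
    ext j
    by_cases hj : j = r <;> simp [hj]
  have hT : ∀ p t, f (smgen_T h Ψ c a p t) =
      smgen_T (f ∘ h) (Ψ.map f) (f ∘ c) (f a) (f ∘ p) (f ∘ t) := fun p t => by
    rw [smgen_T, smgen_T, map_add, map_mul, f.map_dotProduct, map_bs, map_bm, hm, hm]
  rcases i with i | i | i
  · fin_cases i
    · change f (h ⬝ᵥ pw u v) = (f ∘ h) ⬝ᵥ pw (f ∘ u) (f ∘ v)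
      rw [f.map_dotProduct, map_pw]
    · change f (bq (bm c) (Ψ *ᵥ pw u v) (Ψ *ᵥ pw u v)) = bq (bm (f ∘ c))
        (Ψ.map f *ᵥ pw (f ∘ u) (f ∘ v)) (Ψ.map f *ᵥ pw (f ∘ u) (f ∘ v))
      rw [map_bq, map_bm, hm, map_pw]
    · change f (γ ⬝ᵥ pw u v - 1) = (f ∘ γ) ⬝ᵥ pw (f ∘ u) (f ∘ v) - 1
      rw [map_sub, map_one, f.map_dotProduct, map_pw]
  · change f (smgen_T h Ψ c a (pw u v) (pw (Pi.single i 1) v)) = smgen_T _ _ _ _ _ _
    rw [hT, map_pw, map_pw, he]
  · change f (smgen_T h Ψ c a (pw u v) (pw u (Pi.single i 1))) = smgen_T _ _ _ _ _ _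
    rw [hT, map_pw, map_pw, he]

end Ring

/-- Apply `generic_or` to the incidence system in the variables `u, v, a` and ten multipliers that
express `pw u v ≠ 0` (equations: `hH`, `hQ`, `hs` for unit vectors `u'` or `v'`, and
`∑ γ i * pw u v i = 1`); the second case is excluded by `bertini`. -/
theorem generic_smooth {Φ : Matrix (Fin 10) (Fin 9) ℂ} {Ψ : Matrix (Fin 9) (Fin 10) ℂ}
    {h w0 : Fin 10 → ℂ} (h1 : Φ * Ψ + vecMulVec w0 h = 1) :
    ∃ g : MvPolynomial (Fin 9 × Fin 9) ℂ, g ≠ 0 ∧ ∀ c, eval c g ≠ 0 → ∀ (u v : Fin 5 → ℂ) (a : ℂ),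
      pw u v ≠ 0 → h ⬝ᵥ pw u v = 0 → bq (bm c) (Ψ *ᵥ pw u v) (Ψ *ᵥ pw u v) = 0 →
      ¬ ∀ u' v' : Fin 5 → ℂ, a * h ⬝ᵥ (pw u' v + pw u v') +
        bs (bm c) (Ψ *ᵥ pw u v) (Ψ *ᵥ (pw u' v + pw u v')) = 0 := by
  rcases generic_or (τ := Fin 9 × Fin 9) (σ := Fin 5 ⊕ Fin 5 ⊕ Unit ⊕ Fin 10)
    (smgen_sys (C ∘ h) (Ψ.map C) (fun s => X (Sum.inl s)) (fun s => X (Sum.inr (Sum.inl s)))
      (fun s => X (Sum.inr (Sum.inr (Sum.inl s)))) (X (Sum.inr (Sum.inr (Sum.inr (Sum.inl ())))))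
      fun s => X (Sum.inr (Sum.inr (Sum.inr (Sum.inr s))))) with
    ⟨g, h0, hg⟩ | ⟨K, _, _, φ, hθ, hφ⟩
  · refine ⟨g, h0, fun c hc u v a hne hH hQ hs => hc ?_⟩
    obtain ⟨i, hi⟩ := Function.ne_iff.1 hne
    refine hg c (Sum.elim u (Sum.elim v (Sum.elim (fun _ => a) (Pi.single i (pw u v i)⁻¹))))
      fun q => ?_
    rw [smgen_map, Matrix.map_map, ← Function.comp_assoc]
    have e : ∀ x : (Fin 9 × Fin 9) ⊕ Fin 5 ⊕ Fin 5 ⊕ Unit ⊕ Fin 10 → ℂ,
        (eval x) ∘ (C : ℂ → MvPolynomial _ ℂ) = id := fun x => _root_.funext fun z => eval_C z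
    rw [e, Matrix.map_id, Function.id_comp]
    simp only [Function.comp_def, eval_X, Sum.elim_inl, Sum.elim_inr]
    rcases q with q | q | q
    · fin_cases q
      · exact hH
      · exact hQ
      · change Pi.single i (pw u v i)⁻¹ ⬝ᵥ pw u v - 1 = 0
        rw [single_dotProduct, inv_mul_cancel₀ hi, sub_self]
    · have := hs (Pi.single q 1) 0
      rwa [smgen_zero_right, add_zero] at this
    · have := hs 0 (Pi.single q 1)
      rwa [smgen_zero_left, zero_add] at this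
  · have e : φ.toRingHom ∘ (C : ℂ → MvPolynomial _ ℂ) = algebraMap ℂ K :=
      _root_.funext fun z => φ.commutes z
    have k := fun i => (smgen_map φ.toRingHom _ _ _ _ _ _ _ i).symm.trans (hφ i)
    rw [Matrix.map_map, ← Function.comp_assoc, e] at k
    refine (bertini hθ h1 (a := φ (X (Sum.inr (Sum.inr (Sum.inr (Sum.inl ())))))) (fun hz => ?_)
      (k (.inl 0)) (k (.inl 1)) fun u' v' => ?_).elim
    · have := k (.inl 2)
      change _ ⬝ᵥ pw _ _ - 1 = 0 at this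
      rw [hz, dotProduct_zero, zero_sub, neg_eq_zero] at this
      exact one_ne_zero this
    · obtain ⟨w, hw⟩ := smgen_lin (algebraMap ℂ K ∘ h) (Ψ.map (algebraMap ℂ K))
        (fun s => φ (X (Sum.inl s))) (φ (X (Sum.inr (Sum.inr (Sum.inr (Sum.inl ())))))) _
      refine (hw _).trans ?_
      rw [dotProduct_add, smgen_left, smgen_right w _ v', Finset.sum_eq_zero, Finset.sum_eq_zero,
        add_zero]
      · exact fun r _ => mul_eq_zero_of_right _ ((hw _).symm.trans (k (.inr (.inr r))))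
      · exact fun r _ => mul_eq_zero_of_right _ ((hw _).symm.trans (k (.inr (.inl r))))

end Pool.Agent.GM34
end
end

-- merged part: Pool.Agent.Work.MP_274aea_ag_D34.Transfer
section
-- merged part: Pool.Agent.Work.MP_274aea_ag_D34.Maps2
section
set_option autoImplicit false

open MvPolynomial Matrix Pool.Agent.GM16

namespace Pool.Agent.GM34

/-! Naturality of the definitions under ring homomorphisms, part two. -/

variable {R S : Type*} [CommRing R] [CommRing S] (f : R →+* S)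

section Aux

variable {ι κ μ : Type*}

theorem maps2_cons {α β : Type*} {n : ℕ} (g : α → β) (a : α) (v : Fin n → α) :
    g ∘ vecCons a v = vecCons (g a) (g ∘ v) := Fin.comp_cons g a v

theorem maps2_nil {α β : Type*} (g : α → β) : g ∘ ![] = ![] := Subsingleton.elim _ _

theorem maps2_of (v : ι → κ → R) :
    (Matrix.of v).map f = Matrix.of ((fun r => f ∘ r) ∘ v) := rfl

theorem maps2_row (A : Matrix ι κ R) (i : ι) : f ∘ A i = A.map f i := rfl

theorem maps2_vzero : f ∘ (0 : ι → R) = 0 := funext fun _ => map_zero f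

theorem maps2_vneg (v : ι → R) : f ∘ (-v) = -(f ∘ v) := funext fun _ => map_neg f _

theorem maps2_vadd (u v : ι → R) : f ∘ (u + v) = f ∘ u + f ∘ v := funext fun _ => map_add f _ _

theorem maps2_vsmul (c : R) (v : ι → R) : f ∘ (c • v) = f c • (f ∘ v) :=
  funext fun _ => map_mul f _ _

theorem maps2_zero : (0 : Matrix ι κ R).map f = 0 := Matrix.ext fun _ _ => map_zero f

theorem maps2_one [DecidableEq ι] : (1 : Matrix ι ι R).map f = 1 :=
  Matrix.map_one f (map_zero f) (map_one f)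

theorem maps2_neg (A : Matrix ι κ R) : (-A).map f = -A.map f := Matrix.ext fun _ _ => map_neg f _

theorem maps2_add (A B : Matrix ι κ R) : (A + B).map f = A.map f + B.map f :=
  Matrix.ext fun _ _ => map_add f _ _

theorem maps2_sub (A B : Matrix ι κ R) : (A - B).map f = A.map f - B.map f :=
  Matrix.ext fun _ _ => map_sub f _ _

theorem maps2_smul (c : R) (A : Matrix ι κ R) : (c • A).map f = f c • A.map f :=
  Matrix.ext fun _ _ => map_mul f _ _

theorem maps2_tr (A : Matrix ι κ R) : Aᵀ.map f = (A.map f)ᵀ := rfl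

variable [Fintype κ]

theorem maps2_mul (A : Matrix ι κ R) (B : Matrix κ μ R) :
    (A * B).map f = A.map f * B.map f := Matrix.map_mul

theorem maps2_mulVec (A : Matrix ι κ R) (v : κ → R) : f ∘ (A *ᵥ v) = A.map f *ᵥ (f ∘ v) :=
  funext fun i => RingHom.map_mulVec f A v i

theorem maps2_vecMul (v : κ → R) (A : Matrix κ ι R) : f ∘ (v ᵥ* A) = (f ∘ v) ᵥ* A.map f :=
  funext fun i => RingHom.map_vecMul f A v i

variable [DecidableEq κ]

theorem maps2_det (A : Matrix κ κ R) : f A.det = (A.map f).det := RingHom.map_det f A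

theorem maps2_adj (A : Matrix κ κ R) : A.adjugate.map f = (A.map f).adjugate :=
  RingHom.map_adjugate f A

end Aux

theorem map_jm (J : M3 R) :
    (jm J).map f = jm (J.map f) := by
  simp only [jm, maps2_of, maps2_cons, maps2_nil, map_zero, map_one, maps2_vzero, maps2_vneg]
  rfl

theorem map_io {ι : Type*} (g : Matrix (Fin 3) ι R) (d : Matrix (Fin 4) ι R) :
    (io g d).map f = io (g.map f) (d.map f) := by
  simp only [io, maps2_of, maps2_cons, maps2_nil, maps2_vzero, maps2_vneg]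
  rfl

theorem map_Dr {ι : Type*} (A : Matrix (Fin 10) ι R) :
    (Dr A).map f = Dr (A.map f) := by
  simp only [Dr, maps2_of, maps2_cons, maps2_nil, maps2_row]

theorem map_Xr {ι : Type*} (A : Matrix (Fin 10) ι R) :
    (Xr A).map f = Xr (A.map f) := by
  simp only [Xr, maps2_of, maps2_cons, maps2_nil, maps2_row]

theorem map_Yr {ι : Type*} (A : Matrix (Fin 10) ι R) :
    (Yr A).map f = Yr (A.map f) := by
  simp only [Yr, maps2_of, maps2_cons, maps2_nil, maps2_vneg]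
  rfl

theorem map_LL (J : M3 R) (q : M10 R) :
    (LL J q).map f = LL (J.map f) (q.map f) := by
  simp only [LL, maps2_mul, maps2_add, maps2_tr, map_jm, map_io, maps2_one, maps2_zero]

theorem map_MM (J : M3 R) (q : M10 R) :
    (MM J q).map f = MM (J.map f) (q.map f) := by
  simp only [MM, maps2_mul, maps2_add, maps2_tr, map_jm, map_io, maps2_one, maps2_zero]

theorem map_Gm (J N : M3 R) (q : M10 R) :
    (Gm J N q).map f = Gm (J.map f) (N.map f) (q.map f) := by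
  simp only [Gm, maps2_mul, maps2_add, maps2_tr, map_Yr, map_Xr, map_Dr, map_MM, maps2_one]

theorem map_EE (J N : M3 R) (q : M10 R) :
    (EE J N q).map f = EE (J.map f) (N.map f) (q.map f) := by
  simp only [EE, map_io, map_Gm, maps2_neg, map_Dr, maps2_one]

theorem map_legH (J N : M3 R) (h : Fin 10 → R) (q : M10 R) :
    f ∘ legH J N h q = legH (J.map f) (N.map f) (f ∘ h) (q.map f) := by
  simp only [legH, maps2_vecMul, map_EE]

theorem map_legQ (J N : M3 R) (q : M10 R) :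
    (legQ J N q).map f = legQ (J.map f) (N.map f) (q.map f) := by
  simp only [legQ, maps2_mul, maps2_sub, maps2_tr, map_Xr, map_Gm, map_EE, maps2_one]

theorem map_HasPlane {J : M3 R} {h : Fin 10 → R} {q : M10 R} (hp : HasPlane J h q) :
    HasPlane (J.map f) (f ∘ h) (q.map f) := by
  refine ⟨?_, ?_⟩
  · rw [← map_jm, ← maps2_vecMul, hp.1, maps2_vzero]
  · rw [← map_jm, ← maps2_tr, ← maps2_tr, ← maps2_add, ← maps2_mul, ← maps2_mul, hp.2, maps2_zero]

theorem map_Gl (l : Fin 4 → R) :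
    (Gl l).map f = Gl (f ∘ l) := by
  simp only [Gl, maps2_of, maps2_cons, maps2_nil, map_zero, map_one, map_neg, Function.comp_apply]

theorem map_hG (l : Fin 4 → R) (h : Fin 10 → R) :
    f ∘ hG l h = hG (f ∘ l) (f ∘ h) := by
  simp only [hG, maps2_vecMul, map_Gl]

theorem map_qG (l : Fin 4 → R) (c : R) (q : M10 R) :
    (qG l c q).map f = qG (f ∘ l) (f c) (q.map f) := by
  simp only [qG, maps2_mul, maps2_add, maps2_tr, maps2_smul, map_Gl, map_P0]

theorem map_Sm (J : M3 R) (p : Fin 10 → R) :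
    (Sm J p).map f = Sm (J.map f) (f ∘ p) := by
  simp only [Sm, maps2_sub, maps2_smul, maps2_of, maps2_cons, maps2_nil, map_zero, map_neg,
    Function.comp_apply]

theorem map_trf (J N : M3 R) (q : M10 R) (p : Fin 10 → R) :
    f ∘ trf J N q p = trf (J.map f) (N.map f) (q.map f) (f ∘ p) := by
  simp only [trf, maps2_vadd, maps2_vsmul, maps2_mulVec, maps2_adj, maps2_det, map_neg, map_jm,
    map_Sm, map_Gm, map_EE, Function.comp_apply]

theorem map_F2 (x : Par ⊕ Aux → R) (k : Eq2) :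
    f (F2 x k) = F2 (f ∘ x) k := by
  have e : ∀ (h : Fin 10 → R) (q : M10 R) (P : Matrix (Fin 10) (Fin 9) R) (J : M3 R)
      (Y : Matrix (Fin 3) (Fin 9) R),
      f (F2core h q P J Y k) = F2core (f ∘ h) (q.map f) (P.map f) (J.map f) (Y.map f) k := by
    intro h q P J Y
    simp only [F2core, ← map_jm, ← map_Dr, ← map_Xr, ← map_Yr, ← maps2_neg, ← map_io, ← maps2_tr,
      ← maps2_add, ← maps2_mul, ← maps2_sub, ← maps2_vecMul]
    rcases k with k | k | k | k | k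
    exacts [rfl, rfl, rfl, rfl, map_e2 f _ k]
  rw [F2, e, map_hG, map_qG, map_Phi]
  rfl

theorem map_F1x (x : Par ⊕ Aux1 → R) (k : Eq1) :
    f (F1x x k) = F1x (f ∘ x) k := by
  have e : ∀ (h : Fin 10 → R) (q : M10 R) (J : M3 R),
      f (F1 h q J k) = F1 (f ∘ h) (q.map f) (J.map f) k := by
    intro h q J
    simp only [F1, ← map_jm, ← maps2_tr, ← maps2_add, ← maps2_mul, ← maps2_vecMul]
    rcases k with k | k
    exacts [rfl, rfl]
  rw [F1x, e, maps2_add, maps2_smul, map_P0]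
  rfl

theorem map_m0  :
    f ∘ (m0 : Mi → R) = m0 := by
  funext i
  rw [Function.comp_apply, m0, ← Matrix.map_apply (f := f)]
  simp only [m0, maps2_of, maps2_cons, maps2_nil, map_zero, map_one, map_neg]

theorem map_B0  :
    (B0 : Matrix (Fin 9) (Fin 10) R).map f = B0 := by
  simp only [B0, maps2_of, maps2_cons, maps2_nil, map_zero, map_one, map_neg, map_ofNat]

theorem map_La0  :
    (La0 : Matrix (Fin 5) (Fin 7) R).map f = La0 := by
  simp only [La0, maps2_of, maps2_cons, maps2_nil, map_zero, map_one, map_neg]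

theorem map_y0  :
    f ∘ (y0 : Fin 5 → R) = y0 := by
  simp only [y0, maps2_cons, maps2_nil, map_zero, map_one, map_neg]

theorem map_H0  :
    f ∘ (H0 : Fin 10 → R) = H0 := by
  simp only [H0, maps2_cons, maps2_nil, map_zero, map_one, map_neg]

theorem map_R0  :
    (R0 : Matrix (Fin 9) (Fin 9) R).map f = R0 := by
  ext a b
  simp only [R0, Matrix.map_apply, Matrix.of_apply, apply_ite f, map_zero, map_one, map_neg]

theorem map_Q0  :
    (Q0 : M10 R).map f = Q0 := by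
  simp only [Q0, maps2_of, maps2_cons, maps2_nil, map_zero, map_one, map_neg, map_ofNat]

theorem map_Jh0  :
    (Jh0 : M3 R).map f = Jh0 := by
  simp only [Jh0, maps2_of, maps2_cons, maps2_nil, map_zero, map_one]

theorem map_Nh0  :
    (Nh0 : M3 R).map f = Nh0 := by
  simp only [Nh0, maps2_of, maps2_cons, maps2_nil, map_zero, map_one, map_neg]

theorem map_L0  :
    (L0 : M3 R).map f = L0 := by
  simp only [L0, maps2_of, maps2_cons, maps2_nil, map_zero, map_one, map_neg]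

theorem map_h2  :
    f ∘ (h2 : Fin 10 → R) = h2 := by
  simp only [h2, maps2_cons, maps2_nil, map_zero, map_one, map_neg]

theorem map_q2  :
    (q2 : M10 R).map f = q2 := by
  simp only [q2, maps2_of, maps2_cons, maps2_nil, map_zero, map_one, map_neg, map_ofNat]

theorem map_Y0  :
    (Y0 : Matrix (Fin 3) (Fin 9) R).map f = Y0 := by
  simp only [Y0, maps2_of, maps2_cons, maps2_nil, map_zero, map_one, map_neg, map_ofNat]

theorem map_x2  :
    f ∘ (x2 : Par ⊕ Aux → R) = x2 := by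
  have e : ∀ (m : Mi → R) (J : M3 R) (l : Fin 4 → R) (c : R) (Y : Matrix (Fin 3) (Fin 9) R),
      f ∘ mkA m J l c Y = mkA (f ∘ m) (J.map f) (f ∘ l) (f c) (Y.map f) := fun m J l c Y => by
    funext k
    rcases k with k | k | k | k | k <;> rfl
  rw [x2, Sum.comp_elim, map_mkP, e, map_h2, map_q2, map_m0, maps2_neg, maps2_tr, map_Jh0,
    maps2_vzero, map_zero, map_Y0, x2]

theorem map_x1  :
    f ∘ (x1 : Par ⊕ Aux1 → R) = x1 := by
  rw [x1, Sum.comp_elim, map_mkP, map_H0, map_Q0, x1, ← map_Jh0 f, ← map_zero f, Sum.comp_elim]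
  rfl

theorem map_Psi (m : Mi → R) :
    (Psi m).map f = Psi (f ∘ m) := by
  simp only [Psi, maps2_mul, maps2_adj, map_B0, map_Phi]

theorem map_secH (m : Mi → R) :
    f ∘ secH m = secH (f ∘ m) := by
  simp only [secH, maps2_row, maps2_sub, maps2_smul, maps2_det, maps2_mul, maps2_one, map_B0,
    map_Phi, map_Psi]

theorem map_secQ (m : Mi → R) :
    (secQ m).map f = secQ (f ∘ m) := by
  simp only [secQ, maps2_mul, maps2_tr, map_Psi, map_R0]

theorem map_condM (m : Mi → R) :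
    f (condM m) = condM (f ∘ m) := by
  simp only [condM, map_mul, maps2_det, maps2_mul, map_B0, map_La0, map_Phi, map_Nu]

theorem map_cond1 (m : Mi → R) (h : Fin 10 → R) (q : M10 R) (y : Fin 5 → R) :
    f (cond1 m h q y) = cond1 (f ∘ m) (f ∘ h) (q.map f) (f ∘ y) := by
  rw [cond1, cond1, map_mul, map_mul, map_gpr, map_ratc, ← map_pst]
  rfl

theorem map_cond2 (m : Mi → R) (J N : M3 R) (l : Fin 4 → R) (q : M10 R) (y : Fin 5 → R) :
    f (cond2 m J N l q y) =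
      cond2 (f ∘ m) (J.map f) (N.map f) (f ∘ l) (q.map f) (f ∘ y) := by
  rw [cond2, cond2, map_mul, map_mul, map_ratc, maps2_det, map_Sm, ← map_legQ, ← map_pst, ← map_trf,
    ← map_Gl, ← maps2_mulVec]
  rfl

theorem map_cond3 (x : Par ⊕ Aux → R) (N : M3 R) :
    f (cond3 x N) = cond3 (f ∘ x) (N.map f) := by
  rw [cond3, map_mul, map_mul, map_condM, map_gpr, map_cond2, map_qG, map_y0]
  rfl

end Pool.Agent.GM34
end

-- merged part: Pool.Agent.Work.MP_274aea_ag_D34.Leg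
section
set_option autoImplicit false

open MvPolynomial Matrix Pool.Agent.GM16

namespace Pool.Agent.GM34

/-! Algebra of the Legendre transform. Every vector `w` is `jm J *ᵥ x + io g d` with `x = Xr w`,
`g = Yr w - J x`, `d = Dr w`. Useful: `Xr A = Xr 1 * A` and so on, `io g d = io 1 0 * g + io 0 1 * d`,
`Xr (jm J) = 1`, `Yr (jm J) = J`, `Dr (jm J) = 0`, `Xr (io g d) = 0`, `Yr (io g d) = g`,
`Dr (io g d) = d`, and `jm J * Xr 1 + io (Yr 1 - J * Xr 1) (Dr 1) = 1`. -/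

variable {R : Type*} [CommRing R]

section Aux

variable {ι : Type*}

theorem leg_X (A : Matrix (Fin 10) ι R) : Xr (1 : M10 R) * A = Xr A := by
  ext i j
  fin_cases i <;> simp [Xr, mul_apply, one_apply]

theorem leg_Y (A : Matrix (Fin 10) ι R) : Yr (1 : M10 R) * A = Yr A := by
  ext i j
  fin_cases i <;> simp [Yr, mul_apply, one_apply]

theorem leg_D (A : Matrix (Fin 10) ι R) : Dr (1 : M10 R) * A = Dr A := by
  ext i j
  fin_cases i <;> simp [Dr, mul_apply, one_apply]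

theorem leg_Xj (J : M3 R) : Xr (1 : M10 R) * jm J = 1 := by
  rw [leg_X]
  ext i j
  fin_cases i <;> fin_cases j <;> simp [Xr, jm]

theorem leg_Yj (J : M3 R) : Yr (1 : M10 R) * jm J = J := by
  rw [leg_Y]
  ext i j
  fin_cases i <;> simp [Yr, jm]

theorem leg_Dj (J : M3 R) : Dr (1 : M10 R) * jm J = 0 := by
  rw [leg_D]
  ext i j
  fin_cases i <;> simp [Dr, jm]

theorem leg_Xi (g : Matrix (Fin 3) ι R) (d : Matrix (Fin 4) ι R) : Xr (1 : M10 R) * io g d = 0 := by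
  rw [leg_X]
  ext i j
  fin_cases i <;> simp [Xr, io]

theorem leg_Yi (g : Matrix (Fin 3) ι R) (d : Matrix (Fin 4) ι R) : Yr (1 : M10 R) * io g d = g := by
  rw [leg_Y]
  ext i j
  fin_cases i <;> simp [Yr, io]

theorem leg_Di (g : Matrix (Fin 3) ι R) (d : Matrix (Fin 4) ι R) : Dr (1 : M10 R) * io g d = d := by
  rw [leg_D]
  ext i j
  fin_cases i <;> simp [Dr, io]

theorem leg_io_mul {κ : Type*} [Fintype ι] (g : Matrix (Fin 3) ι R) (d : Matrix (Fin 4) ι R)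
    (A : Matrix ι κ R) : io g d * A = io (g * A) (d * A) := by
  ext i j
  fin_cases i <;> simp [io, mul_apply]

theorem leg_io_add (g g' : Matrix (Fin 3) ι R) (d d' : Matrix (Fin 4) ι R) :
    io g d + io g' d' = io (g + g') (d + d') := by
  ext i j
  fin_cases i <;> simp [io, add_comm]

theorem leg_io_zero : io (0 : Matrix (Fin 3) ι R) (0 : Matrix (Fin 4) ι R) = 0 := by
  ext i j
  fin_cases i <;> simp [io]

theorem leg_one (J : M3 R) :
    io (Yr (1 : M10 R) - J * Xr (1 : M10 R)) (Dr (1 : M10 R)) = 1 - jm J * Xr (1 : M10 R) := by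
  ext i j
  fin_cases i <;> simp [io, jm, Xr, Yr, Dr, mul_apply, Fin.sum_univ_three, vecHead, vecTail] <;> ring

theorem leg_Si (J : M3 R) (q : M10 R) (g : Matrix (Fin 3) ι R) (d : Matrix (Fin 4) ι R) :
    (jm J)ᵀ * (q + qᵀ) * io g d = LL J q * g + MM J q * d := by
  rw [LL, MM, Matrix.mul_assoc _ (io 1 0), Matrix.mul_assoc _ (io 0 1), ← Matrix.mul_add,
    leg_io_mul, leg_io_mul, leg_io_add]
  simp

theorem leg_Gm (J N : M3 R) (q : M10 R) (A : Matrix (Fin 10) ι R) : Gm J N q * A =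
    N * (Yr (1 : M10 R) * A + Jᵀ * (Xr (1 : M10 R) * A) + MM J q * (Dr (1 : M10 R) * A)) := by
  simp only [Gm, Matrix.mul_assoc, Matrix.add_mul]

theorem leg_Gj (J N : M3 R) (q : M10 R) : Gm J N q * jm (-Jᵀ) = 0 := by
  rw [leg_Gm, leg_Xj, leg_Yj, leg_Dj]
  simp

theorem leg_Gi (J N : M3 R) (q : M10 R) (g : Matrix (Fin 3) ι R) (d : Matrix (Fin 4) ι R) :
    Gm J N q * io g d = N * (g + MM J q * d) := by
  rw [leg_Gm, leg_Xi, leg_Yi, leg_Di]
  simp

theorem leg_E (J N : M3 R) (q : M10 R) (A : Matrix (Fin 10) ι R) :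
    EE J N q * A = io (Gm J N q * A) (-(Dr (1 : M10 R) * A)) := by
  rw [EE, leg_io_mul, Matrix.neg_mul]

theorem leg_Ej (J N : M3 R) (q : M10 R) : EE J N q * jm (-Jᵀ) = 0 := by
  rw [leg_E, leg_Gj, leg_Dj, neg_zero, leg_io_zero]

theorem leg_Q {κ : Type*} (J N : M3 R) (q : M10 R) (A : Matrix (Fin 10) ι R)
    (B : Matrix (Fin 10) κ R) : Aᵀ * legQ J N q * B =
      (Xr (1 : M10 R) * A)ᵀ * (Gm J N q * B) - (EE J N q * A)ᵀ * q * (EE J N q * B) := by
  simp only [legQ, transpose_mul, Matrix.mul_assoc, Matrix.mul_sub, Matrix.sub_mul]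

theorem leg_jS (J N : M3 R) (q : M10 R) (B : Matrix (Fin 10) ι R) :
    (jm (-Jᵀ))ᵀ * (legQ J N q + (legQ J N q)ᵀ) * B = Gm J N q * B := by
  have h := congrArg transpose (leg_Q J N q B (jm (-Jᵀ)))
  rw [leg_Gj, leg_Ej, transpose_mul, transpose_mul, transpose_transpose, ← Matrix.mul_assoc] at h
  rw [Matrix.mul_add, Matrix.add_mul, leg_Q, leg_Xj, leg_Ej, h]
  simp

theorem leg_sy (J : M3 R) (q : M10 R) :
    (∀ k, ((jm J)ᵀ * (q + qᵀ) * jm J) (sy k).1 (sy k).2 = 0) ↔ (jm J)ᵀ * (q + qᵀ) * jm J = 0 := by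
  refine ⟨fun h => ?_, fun h k => by rw [h]; rfl⟩
  have e : ((jm J)ᵀ * (q + qᵀ) * jm J)ᵀ = (jm J)ᵀ * (q + qᵀ) * jm J := by
    rw [transpose_mul, transpose_mul, transpose_transpose, transpose_add, transpose_transpose,
      add_comm, Matrix.mul_assoc]
  have e' := fun i j => congrFun (congrFun e i) j
  ext i j
  fin_cases i <;> fin_cases j
  exacts [h 0, h 1, h 2, (e' 1 0).symm.trans (h 1), h 3, h 4, (e' 2 0).symm.trans (h 2),
    (e' 2 1).symm.trans (h 4), h 5]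

end Aux

theorem leg_plane (J N : M3 R) (h : Fin 10 → R) (q : M10 R) :
    HasPlane (-Jᵀ) (legH J N h q) (legQ J N q) := by
  refine ⟨?_, by rw [leg_jS, leg_Gj]⟩
  rw [legH, vecMul_vecMul, leg_Ej, vecMul_zero]

theorem LL_leg (J N : M3 R) (q : M10 R) : LL (-Jᵀ) (legQ J N q) = N := by
  rw [LL, leg_jS, leg_Gi]
  simp

theorem MM_leg (J N : M3 R) (q : M10 R) : MM (-Jᵀ) (legQ J N q) = N * MM J q := by
  rw [MM, leg_jS, leg_Gi]
  simp

theorem leg_leg {J N : M3 R} {h : Fin 10 → R} {q : M10 R} (hp : HasPlane J h q)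
    (hN : LL J q * N = 1) :
    legH (-Jᵀ) (LL J q) (legH J N h q) (legQ J N q) = h ∧
      legQ (-Jᵀ) (LL J q) (legQ J N q) + (legQ (-Jᵀ) (LL J q) (legQ J N q))ᵀ = q + qᵀ := by
  have hN' : N * LL J q = 1 := mul_eq_one_comm.1 hN
  have g1 : Gm (-Jᵀ) (LL J q) (legQ J N q) =
      LL J q * (Yr (1 : M10 R) - J * Xr (1 : M10 R)) + MM J q * Dr (1 : M10 R) := by
    rw [Gm, MM_leg, Matrix.mul_add, Matrix.mul_assoc N, ← Matrix.mul_assoc _ N, hN, Matrix.one_mul,
      transpose_neg, transpose_transpose, Matrix.neg_mul, ← sub_eq_add_neg]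
  have g2 : Gm (-Jᵀ) (LL J q) (legQ J N q) = (jm J)ᵀ * (q + qᵀ) := by
    rw [g1, ← leg_Si, leg_one, Matrix.mul_sub, ← Matrix.mul_assoc _ (jm J), hp.2]
    simp
  have e1 : EE J N q * EE (-Jᵀ) (LL J q) (legQ J N q) = 1 - jm J * Xr (1 : M10 R) := by
    rw [leg_E, EE, leg_Gi, leg_Di, neg_neg, g1, Matrix.mul_neg, add_neg_cancel_right,
      ← Matrix.mul_assoc, hN', Matrix.one_mul, leg_one]
  constructor
  · rw [legH, legH, vecMul_vecMul, e1, vecMul_sub, vecMul_one, ← vecMul_vecMul, hp.1, zero_vecMul,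
      sub_zero]
  · have e2 : legQ (-Jᵀ) (LL J q) (legQ J N q) = (jm J * Xr (1 : M10 R))ᵀ * (q + qᵀ) +
        (1 - jm J * Xr (1 : M10 R))ᵀ * q * (1 - jm J * Xr (1 : M10 R)) := by
      rw [legQ, leg_Q, e1, g2, EE, leg_Xi, transpose_mul, ← Matrix.mul_assoc]
      simp
    have e3 : (jm J * Xr (1 : M10 R))ᵀ * (q + qᵀ) * (jm J * Xr (1 : M10 R)) = 0 := by
      rw [transpose_mul, Matrix.mul_assoc _ (jm J)ᵀ, Matrix.mul_assoc, ← Matrix.mul_assoc _ (jm J),
        hp.2]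
      simp
    rw [e2]
    generalize jm J * Xr (1 : M10 R) = T at e3
    simp only [transpose_add, transpose_mul, transpose_sub, transpose_transpose, transpose_one]
    rw [← sub_eq_zero, ← e3]
    noncomm_ring

theorem F1_iff (h : Fin 10 → R) (q : M10 R) (J : M3 R) : F1 h q J = 0 ↔ HasPlane J h q := by
  rw [HasPlane, ← leg_sy, funext_iff, funext_iff, Sum.forall]
  rfl

theorem F2core_iff {J N : M3 R} {q : M10 R} (hN : LL J q * N = 1) (h : Fin 10 → R) (m : Mi → R)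
    (Y : Matrix (Fin 3) (Fin 9) R) : F2core h q (Phi m) J Y = 0 ↔
      HasPlane J h q ∧ Y = Gm J N q * Phi m ∧ OctN m (legH J N h q) (legQ J N q) := by
  have hN' : N * LL J q = 1 := mul_eq_one_comm.1 hN
  have k : ∀ P : Matrix (Fin 10) (Fin 9) R,
      (jm J)ᵀ * (q + qᵀ) * io Y (-Dr P) - (Yr P + Jᵀ * Xr P) = 0 ↔ Y = Gm J N q * P := fun P => by
    rw [leg_Si, leg_Gm, leg_X, leg_Y, leg_D, Matrix.mul_neg, sub_eq_zero, add_neg_eq_iff_eq_add]
    refine ⟨fun e => ?_, fun e => ?_⟩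
    · rw [← e, ← Matrix.mul_assoc, hN', Matrix.one_mul]
    · rw [e, ← Matrix.mul_assoc, hN, Matrix.one_mul]
  rw [HasPlane, ← leg_sy, OctN, leg_Q, legH, vecMul_vecMul, leg_E, leg_X, leg_D, and_assoc]
  have k2 : F2core h q (Phi m) J Y = 0 ↔ h ᵥ* jm J = 0 ∧
      (∀ k, ((jm J)ᵀ * (q + qᵀ) * jm J) (sy k).1 (sy k).2 = 0) ∧
      (jm J)ᵀ * (q + qᵀ) * io Y (-Dr (Phi m)) - (Yr (Phi m) + Jᵀ * Xr (Phi m)) = 0 ∧
      h ᵥ* io Y (-Dr (Phi m)) = 0 ∧ ∀ k, e2 ((Xr (Phi m))ᵀ * Y -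
        (io Y (-Dr (Phi m)))ᵀ * q * io Y (-Dr (Phi m))) k = 0 := by
    rw [_root_.funext_iff, _root_.funext_iff, ← Matrix.ext_iff, _root_.funext_iff (f := h ᵥ* io _ _)]
    simp only [Sum.forall, Prod.forall]
    rfl
  rw [k2, k]
  refine and_congr_right fun _ => and_congr_right fun _ => and_congr_right fun e => ?_
  rw [← e]

theorem leg_Gl : Gl (0 : Fin 4 → R) = 1 := by
  ext i j
  fin_cases i <;> fin_cases j <;> simp [Gl]

theorem hG_zero (h : Fin 10 → R) : hG 0 h = h := by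
  rw [hG, leg_Gl, vecMul_one]

theorem qG_zero (q : M10 R) : qG 0 0 q = q := by
  rw [qG, leg_Gl]
  simp

end Pool.Agent.GM34
end

-- merged part: Pool.Agent.Work.MP_274aea_ag_D34.Transfer
section
set_option autoImplicit false

open MvPolynomial Matrix Pool.Agent.GM16

namespace Pool.Agent.GM34

variable {K : Type*} [Field K] [Algebra ℂ K]

section Ring
variable {R : Type*} [CommRing R]

theorem transfer_jm (J : M3 R) (x : Fin 3 → R) : jm J *ᵥ x =
    ![0, 0, 0, 0, x 0, x 1, x 2, (J *ᵥ x) 2, -(J *ᵥ x) 1, (J *ᵥ x) 0] := by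
  ext i
  fin_cases i <;> simp [jm, mulVec, dotProduct, Fin.sum_univ_three, add_comm]

theorem transfer_io {ι : Type*} [Fintype ι] (g : Matrix (Fin 3) ι R) (d : Matrix (Fin 4) ι R)
    (p : ι → R) : io g d *ᵥ p = ![(d *ᵥ p) 0, (d *ᵥ p) 1, (d *ᵥ p) 2, (d *ᵥ p) 3, 0, 0, 0,
      (g *ᵥ p) 2, -(g *ᵥ p) 1, (g *ᵥ p) 0] := by
  ext i
  fin_cases i <;> simp [io, mulVec, dotProduct]

theorem transfer_one (i : Fin 10) (p : Fin 10 → R) : (1 : M10 R) i ⬝ᵥ p = p i :=
  congrFun (one_mulVec p) i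

theorem transfer_Dr (p : Fin 10 → R) : Dr (1 : M10 R) *ᵥ p = ![p 0, p 1, p 2, p 3] := by
  ext i
  fin_cases i <;> exact transfer_one _ p

theorem transfer_Xr (p : Fin 10 → R) : Xr (1 : M10 R) *ᵥ p = ![p 4, p 5, p 6] := by
  ext i
  fin_cases i <;> exact transfer_one _ p

theorem transfer_Yr (p : Fin 10 → R) : Yr (1 : M10 R) *ᵥ p = ![p 9, -p 8, p 7] := by
  ext i
  fin_cases i
  · exact transfer_one _ p
  · exact (neg_dotProduct _ p).trans (congrArg Neg.neg (transfer_one 8 p))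
  · exact transfer_one _ p

theorem transfer_EE (J N : M3 R) (q : M10 R) (p : Fin 10 → R) : EE J N q *ᵥ p =
    ![-p 0, -p 1, -p 2, -p 3, 0, 0, 0, (Gm J N q *ᵥ p) 2, -(Gm J N q *ᵥ p) 1,
      (Gm J N q *ᵥ p) 0] := by
  rw [EE, transfer_io, neg_mulVec, transfer_Dr]
  rfl

theorem transfer_EE' (J N : M3 R) (q : M10 R) (p : Fin 10 → R) : EE J N q *ᵥ p =
    io (1 : M3 R) 0 *ᵥ (Gm J N q *ᵥ p) -
      io 0 (1 : Matrix (Fin 4) (Fin 4) R) *ᵥ ![p 0, p 1, p 2, p 3] := by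
  rw [transfer_EE, transfer_io, transfer_io, one_mulVec, one_mulVec, zero_mulVec, zero_mulVec]
  ext i
  fin_cases i <;> simp

theorem transfer_f {J N : M3 R} {q : M10 R} (hN : LL J q * N = 1) (p : Fin 10 → R) :
    LL J q *ᵥ (Gm J N q *ᵥ p) - MM J q *ᵥ ![p 0, p 1, p 2, p 3] =
      ![p 9, -p 8, p 7] + Jᵀ *ᵥ ![p 4, p 5, p 6] := by
  rw [mulVec_mulVec, Gm, ← Matrix.mul_assoc, hN, Matrix.one_mul, add_mulVec, add_mulVec,
    ← mulVec_mulVec, ← mulVec_mulVec, transfer_Dr, transfer_Xr, transfer_Yr, add_sub_cancel_right]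

theorem transfer_bq {n m k : ℕ} (q : Matrix (Fin n) (Fin n) R) (A : Matrix (Fin n) (Fin m) R)
    (B : Matrix (Fin n) (Fin k) R) (x : Fin m → R) (y : Fin k → R) :
    bq q (A *ᵥ x) (B *ᵥ y) = x ⬝ᵥ (Aᵀ * q * B) *ᵥ y := by
  rw [bq, ← mulVec_mulVec, ← mulVec_mulVec, dotProduct_mulVec x Aᵀ, vecMul_transpose]

theorem transfer_bs {n m : ℕ} (q : Matrix (Fin n) (Fin n) R) (A : Matrix (Fin n) (Fin m) R)
    (x : Fin m → R) (y : Fin n → R) :
    bq q (A *ᵥ x) y + bq q y (A *ᵥ x) = x ⬝ᵥ (Aᵀ * (q + qᵀ)) *ᵥ y := by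
  rw [bq, bq, ← mulVec_mulVec, dotProduct_mulVec x Aᵀ, vecMul_transpose, add_mulVec,
    dotProduct_add, dotProduct_mulVec y q, ← mulVec_transpose, dotProduct_comm (qᵀ *ᵥ y)]

theorem transfer_S (J : M3 R) (p : Fin 10 → R) (x : Fin 3 → R) : Sm J p *ᵥ x =
    ![p 0 * (J *ᵥ x) 0 + p 3 * x 1 - p 2 * x 2, p 0 * (J *ᵥ x) 1 - p 3 * x 0 + p 1 * x 2,
      p 0 * (J *ᵥ x) 2 + p 2 * x 0 - p 1 * x 1] := by
  ext i
  fin_cases i <;> simp [Sm, mulVec, dotProduct, Fin.sum_univ_three] <;> ring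

theorem transfer_St (J : M3 R) (p : Fin 10 → R) (x : Fin 3 → R) : (Sm J p)ᵀ *ᵥ x =
    ![p 0 * (Jᵀ *ᵥ x) 0 - p 3 * x 1 + p 2 * x 2, p 0 * (Jᵀ *ᵥ x) 1 + p 3 * x 0 - p 1 * x 2,
      p 0 * (Jᵀ *ᵥ x) 2 - p 2 * x 0 + p 1 * x 1] := by
  ext i
  fin_cases i <;> simp [Sm, mulVec, dotProduct, Fin.sum_univ_three] <;> ring

theorem transfer_S0 (J : M3 R) {p : Fin 10 → R} (h : p 0 = 0) : (Sm J p).det = 0 := by
  simp [Sm, det_fin_three, h]
  ring

theorem transfer_plk {p : Fin 10 → R} (h : plk p = 0) :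
    p 4 * p 9 - p 5 * p 8 + p 6 * p 7 = 0 ∧ p 1 * p 9 - p 2 * p 8 + p 3 * p 7 = 0 ∧
      p 0 * p 9 - p 2 * p 6 + p 3 * p 5 = 0 ∧ p 0 * p 8 - p 1 * p 6 + p 3 * p 4 = 0 ∧
      p 0 * p 7 - p 1 * p 5 + p 2 * p 4 = 0 :=
  ⟨congrFun h 0, congrFun h 1, congrFun h 2, congrFun h 3, congrFun h 4⟩

theorem transfer_plk' {a b c d e f g h i j : R} (h0 : e * j - f * i + g * h = 0)
    (h1 : b * j - c * i + d * h = 0) (h2 : a * j - c * g + d * f = 0)
    (h3 : a * i - b * g + d * e = 0) (h4 : a * h - b * f + c * e = 0) :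
    plk ![a, b, c, d, e, f, g, h, i, j] = 0 := by
  ext k
  fin_cases k
  exacts [h0, h1, h2, h3, h4]

theorem transfer_Gl (l : Fin 4 → R) (p : Fin 10 → R) : Gl l *ᵥ p =
    ![p 0 - l 1 * p 4 - l 2 * p 5 - l 3 * p 6, p 1 + l 0 * p 4 - l 2 * p 7 - l 3 * p 8,
      p 2 + l 0 * p 5 + l 1 * p 7 - l 3 * p 9, p 3 + l 0 * p 6 + l 1 * p 8 + l 2 * p 9,
      p 4, p 5, p 6, p 7, p 8, p 9] := by
  ext i
  fin_cases i <;> simp [Gl, mulVec, dotProduct, Fin.sum_univ_succ] <;> ring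

theorem transfer_P0 (p : Fin 10 → R) : p ⬝ᵥ (P0 : M10 R) *ᵥ p = p 4 * p 9 - p 5 * p 8 + p 6 * p 7 := by
  simp [P0, mulVec, dotProduct, Fin.sum_univ_succ]
  ring

end Ring

theorem transfer_mem {K : Type*} [Field K] (F : Subfield K) {m n : ℕ} {A : Matrix (Fin m) (Fin n) K}
    (hA : ∀ i j, A i j ∈ F) {ρ : K} {u : Fin n → K} (hu : ∀ j, ρ * u j ∈ F) (i : Fin m) :
    ρ * (A *ᵥ u) i ∈ F := by
  rw [mulVec, dotProduct, Finset.mul_sum]
  exact sum_mem fun j _ => by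
    rw [mul_left_comm]
    exact mul_mem (hA i j) (hu j)

theorem transfer_solve {K : Type*} [Field K] (F : Subfield K) {A : M3 K} (hA : ∀ i j, A i j ∈ F)
    (hd : A.det ≠ 0) {z : Fin 3 → K} (hz : ∀ i, (A *ᵥ z) i ∈ F) (i : Fin 3) : z i ∈ F := by
  obtain ⟨B, rfl⟩ : ∃ B : M3 F, A = F.subtype.mapMatrix B :=
    ⟨Matrix.of fun i j => ⟨A i j, hA i j⟩, rfl⟩
  have e := congrFun (mulVec_mulVec z (F.subtype.mapMatrix B).adjugate (F.subtype.mapMatrix B)) i
  rw [adjugate_mul, smul_mulVec, one_mulVec, Pi.smul_apply, smul_eq_mul] at e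
  have h1 := transfer_mem F (A := (F.subtype.mapMatrix B).adjugate) (ρ := 1) (fun i j => by
    rw [← RingHom.map_adjugate]
    exact (B.adjugate i j).2) (fun j => by rw [one_mul]; exact hz j) i
  rw [one_mul, e] at h1
  have h2 : (F.subtype.mapMatrix B).det ∈ F := by
    rw [← RingHom.map_det]
    exact B.det.2
  rw [← inv_mul_cancel_left₀ hd (z i)]
  exact mul_mem (inv_mem h2) h1

theorem transfer_core {K : Type*} [Field K] [CharZero K] {J N : M3 K} {h : Fin 10 → K} {q : M10 K}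
    (hp : HasPlane J h q) (hN : LL J q * N = 1) {p : Fin 10 → K} (h1 : plk p = 0)
    (h2 : legH J N h q ⬝ᵥ p = 0) (h3 : bq (legQ J N q) p p = 0) (hd : (Sm J p).det ≠ 0) :
    plk (trf J N q p) = 0 ∧ h ⬝ᵥ trf J N q p = 0 ∧ bq q (trf J N q p) (trf J N q p) = 0 ∧
      ∀ F : Subfield K, (∀ i j, J i j ∈ F) → (∀ i j, LL J q i j ∈ F) → (∀ i j, MM J q i j ∈ F) →
        ∀ ρ : K, ρ ≠ 0 → (∀ i, ρ * trf J N q p i ∈ F) → ∀ i, ρ * (Sm J p).det * p i ∈ F := by
  have p0 : p 0 ≠ 0 := fun e => hd (transfer_S0 J e)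
  obtain ⟨-, -, k2, k3, k4⟩ := transfer_plk h1
  have hf := transfer_f hN p
  have hE := transfer_EE J N q p
  have hE' := transfer_EE' J N q p
  have hb : bq q (EE J N q *ᵥ p) (EE J N q *ᵥ p) = ![p 4, p 5, p 6] ⬝ᵥ Gm J N q *ᵥ p := by
    rw [bq, legQ, sub_mulVec, dotProduct_sub, ← transfer_bq, ← mulVec_mulVec,
      dotProduct_mulVec p, vecMul_transpose, transfer_Xr, sub_eq_zero] at h3
    exact h3.symm
  rw [legH, ← dotProduct_mulVec] at h2
  obtain ⟨x, hx⟩ : ∃ x, x = -p 0 • (Sm J p).adjugate *ᵥ Gm J N q *ᵥ p := ⟨_, rfl⟩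
  have hS : Sm J p *ᵥ x = -p 0 • (Sm J p).det • Gm J N q *ᵥ p := by
    rw [hx, mulVec_smul, mulVec_mulVec, mul_adjugate, smul_mulVec, one_mulVec]
  rw [trf, ← hx]
  generalize Gm J N q *ᵥ p = g at *
  generalize hδ : (Sm J p).det = δ at *
  rw [transfer_S] at hS
  have s0 : p 0 * (J *ᵥ x) 0 + p 3 * x 1 - p 2 * x 2 = -p 0 * (δ * g 0) := congrFun hS 0
  have s1 : p 0 * (J *ᵥ x) 1 - p 3 * x 0 + p 1 * x 2 = -p 0 * (δ * g 1) := congrFun hS 1
  have s2 : p 0 * (J *ᵥ x) 2 + p 2 * x 0 - p 1 * x 1 = -p 0 * (δ * g 2) := congrFun hS 2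
  have hw : jm J *ᵥ x + δ • EE J N q *ᵥ p = ![-(δ * p 0), -(δ * p 1), -(δ * p 2), -(δ * p 3), x 0,
      x 1, x 2, (J *ᵥ x) 2 + δ * g 2, -((J *ᵥ x) 1 + δ * g 1), (J *ᵥ x) 0 + δ * g 0] := by
    rw [transfer_jm, hE]
    ext i
    fin_cases i <;> simp
    ring
  refine ⟨?_, ?_, ?_, fun F hJ hL hM ρ hρ hF => ?_⟩
  · rw [hw]
    refine transfer_plk' (mul_left_cancel₀ p0 ?_) (mul_left_cancel₀ p0 ?_) ?_ ?_ ?_
    · linear_combination x 0 * s0 + x 1 * s1 + x 2 * s2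
    · linear_combination -δ * (p 1 * s0 + p 2 * s1 + p 3 * s2)
    · linear_combination -δ * s0
    · linear_combination δ * s1
    · linear_combination -δ * s2
  · rw [dotProduct_add, dotProduct_smul, h2, dotProduct_mulVec, hp.1, zero_dotProduct, smul_zero,
      add_zero]
  · have b1 := transfer_bs q (jm J) x (jm J *ᵥ x)
    rw [mulVec_mulVec, hp.2, zero_mulVec, dotProduct_zero] at b1
    have b2 := transfer_bs q (jm J) x (EE J N q *ᵥ p)
    rw [hE', mulVec_sub, mulVec_mulVec, mulVec_mulVec, ← hE', ← LL.eq_1, ← MM.eq_1, hf,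
      dotProduct_add, dotProduct_mulVec x Jᵀ, vecMul_transpose] at b2
    have e : bq q (jm J *ᵥ x + δ • EE J N q *ᵥ p) (jm J *ᵥ x + δ • EE J N q *ᵥ p) =
        bq q (jm J *ᵥ x) (jm J *ᵥ x) + δ * (bq q (jm J *ᵥ x) (EE J N q *ᵥ p) +
          bq q (EE J N q *ᵥ p) (jm J *ᵥ x)) + δ ^ 2 * bq q (EE J N q *ᵥ p) (EE J N q *ᵥ p) := by
      simp only [bq, mulVec_add, mulVec_smul, dotProduct_add, add_dotProduct, dotProduct_smul,
        smul_dotProduct, smul_eq_mul]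
      ring
    rw [e, b2, hb, add_self_eq_zero.1 b1]
    refine mul_left_cancel₀ p0 ?_
    simp only [dotProduct, Fin.sum_univ_three, cons_val_zero, cons_val_one, cons_val_two,
      head_cons, tail_cons]
    linear_combination δ * (p 4 * s0 + p 5 * s1 + p 6 * s2 + x 0 * k2 - x 1 * k3 + x 2 * k4)
  · rw [hw] at hF
    have m0 : ρ * δ * p 0 ∈ F := by simpa [mul_assoc] using neg_mem (hF 0)
    have m1 : ρ * δ * p 1 ∈ F := by simpa [mul_assoc] using neg_mem (hF 1)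
    have m2 : ρ * δ * p 2 ∈ F := by simpa [mul_assoc] using neg_mem (hF 2)
    have m3 : ρ * δ * p 3 ∈ F := by simpa [mul_assoc] using neg_mem (hF 3)
    have mx : ∀ j, ρ * x j ∈ F := fun j => by
      fin_cases j
      exacts [hF 4, hF 5, hF 6]
    have my : ∀ j, ρ * ((J *ᵥ x) j + δ * g j) ∈ F := fun j => by
      fin_cases j
      · exact hF 9
      · have : ρ * -((J *ᵥ x) 1 + δ * g 1) ∈ F := hF 8
        rw [mul_neg] at this
        exact neg_mem_iff.1 this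
      · exact hF 7
    have mg : ∀ j, ρ * δ * g j ∈ F := fun j => by
      have := sub_mem (my j) (transfer_mem F hJ mx j)
      rwa [mul_add, add_sub_cancel_left, ← mul_assoc] at this
    have mf : ∀ j, ρ * δ * (![p 9, -p 8, p 7] + Jᵀ *ᵥ ![p 4, p 5, p 6]) j ∈ F := fun j => by
      rw [← hf, Pi.sub_apply, mul_sub]
      refine sub_mem (transfer_mem F hL mg j) (transfer_mem F hM (fun k => ?_) j)
      fin_cases k
      exacts [m0, m1, m2, m3]
    have hρ' : ρ * δ ≠ 0 := mul_ne_zero hρ hd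
    have mb : ∀ j, ((ρ * δ) • ![p 4, p 5, p 6]) j ∈ F := by
      refine transfer_solve F (A := (ρ * δ) • (Sm J p)ᵀ) (fun i j => ?_) ?_ fun i => ?_
      · have e : ((ρ * δ) • (Sm J p)ᵀ) i j = ρ * δ * p 0 * J j i - !![0, -(ρ * δ * p 3),
            ρ * δ * p 2; ρ * δ * p 3, 0, -(ρ * δ * p 1); -(ρ * δ * p 2), ρ * δ * p 1, 0] j i := by
          fin_cases i <;> fin_cases j <;> simp [Sm] <;> ring
        rw [e]
        refine sub_mem (mul_mem m0 (hJ j i)) ?_
        fin_cases i <;> fin_cases j <;> simp [m1, m2, m3]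
      · rw [det_smul, det_transpose, hδ]
        exact mul_ne_zero (pow_ne_zero _ hρ') hd
      · have e : (((ρ * δ) • (Sm J p)ᵀ) *ᵥ (ρ * δ) • ![p 4, p 5, p 6]) i = ρ * δ * p 0 *
            (ρ * δ * (![p 9, -p 8, p 7] + Jᵀ *ᵥ ![p 4, p 5, p 6]) i) := by
          rw [smul_mulVec, mulVec_smul, transfer_St]
          generalize Jᵀ *ᵥ ![p 4, p 5, p 6] = u
          fin_cases i <;> simp
          · linear_combination -(ρ * δ) ^ 2 * k2
          · linear_combination (ρ * δ) ^ 2 * k3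
          · linear_combination -(ρ * δ) ^ 2 * k4
        rw [e]
        exact mul_mem m0 (mf i)
    have mY : ∀ j, ρ * δ * ![p 9, -p 8, p 7] j ∈ F := fun j => by
      have := sub_mem (mf j) (transfer_mem F (A := Jᵀ) (fun i j => hJ j i) mb j)
      rwa [Pi.add_apply, mul_add, add_sub_cancel_right] at this
    have m8 : ρ * δ * p 8 ∈ F := by simpa using neg_mem (mY 1)
    intro i
    fin_cases i
    exacts [m0, m1, m2, m3, mb 0, mb 1, mb 2, mY 2, m8, mY 0]

/-- Let `v = (p 0, p 1, p 2, p 3)`, `b = Xr p`, `f = Yr p + Jᵀ b`, `g = Gm *ᵥ p`, `S = Sm J p`,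
`δ = det S`; `δ ≠ 0` forces `p 0 ≠ 0`. The Pluecker relations say `p 0 • Yr p = vbar × b` with
`vbar = (p 1, p 2, p 3)`, that is `Sᵀ b = p 0 • f`. The new point `w` has `Dr w = -δ • v`,
`Xr w = x = -p 0 • adj S g`, `Yr w = J x + δ • g`, so `p 0 • Yr w = vbar × x`; this gives all five
Pluecker relations after multiplying by `p 0`. Also `h ⬝ᵥ w = δ * legH ⬝ᵥ p`, and
`bq q w w = δ * (x ⬝ᵥ f + δ * b ⬝ᵥ g) - δ ^ 2 * bq legQ p p`, where
`x ⬝ᵥ f + δ * b ⬝ᵥ g = b ⬝ᵥ Yr w + Yr p ⬝ᵥ x` vanishes after multiplying by `p 0`. Generation: if `ρ • w` lies in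
`F` put `ρ' = ρ δ`; then `ρ' • v`, `ρ' • g`, `ρ' • f = LL (ρ' g) - MM (ρ' v)` lie in `F`, and
`ρ' • b` solves `(Sm J (ρ' • p))ᵀ (ρ' b) = (ρ' p 0) • (ρ' f)`, a system over `F` with nonzero
determinant. -/
theorem trf_gen {J N : M3 ℂ} {h : Fin 10 → ℂ} {q : M10 ℂ} (hp : HasPlane J h q)
    (hN : LL J q * N = 1) {p : Fin 10 → K} (hg : GenPt (legH J N h q) (legQ J N q) p)
    (hd : (Sm (J.map (algebraMap ℂ K)) p).det ≠ 0) :
    GenPt h q (trf (J.map (algebraMap ℂ K)) (N.map (algebraMap ℂ K)) (q.map (algebraMap ℂ K)) p) := by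
  have : CharZero K := charZero_of_injective_algebraMap (algebraMap ℂ K).injective
  obtain ⟨g1, g2, g3, g4⟩ := hg
  have e := congrArg (Matrix.map · (algebraMap ℂ K)) hN
  simp only [Matrix.map_mul, map_LL, Matrix.map_one _ (map_zero _) (map_one _)] at e
  rw [map_legQ] at g3
  obtain ⟨k1, k2, k3, k4⟩ := transfer_core (map_HasPlane (algebraMap ℂ K) hp) e g1
    (by rw [← map_legH]; exact g2) g3 hd
  refine ⟨k1, k2, k3, fun F hF ρ hρ h => g4 F hF _ (mul_ne_zero hρ hd)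
    (k4 F (fun i j => hF _) (fun i j => ?_) (fun i j => ?_) ρ hρ h)⟩
  · rw [← map_LL]
    exact hF _
  · rw [← map_MM]
    exact hF _

/-- `Gl l` preserves the Pluecker relations and `Gl (-l) * Gl l = 1`. -/
theorem gl_gen {l : Fin 4 → ℂ} {c : ℂ} {h : Fin 10 → ℂ} {q : M10 ℂ} {p : Fin 10 → K}
    (hg : GenPt (hG l h) (qG l c q) p) : GenPt h q (Gl (algebraMap ℂ K ∘ l) *ᵥ p) := by
  obtain ⟨g1, g2, g3, g4⟩ := hg
  obtain ⟨k0, k1, k2, k3, k4⟩ := transfer_plk g1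
  have hl : ∀ F : Subfield K, (∀ c, algebraMap ℂ K c ∈ F) → ∀ i, (algebraMap ℂ K ∘ l) i ∈ F :=
    fun F hF i => hF _
  have g2' : hG (algebraMap ℂ K ∘ l) (algebraMap ℂ K ∘ h) ⬝ᵥ p = 0 := by
    rw [← map_hG]
    exact g2
  rw [map_qG] at g3
  generalize algebraMap ℂ K ∘ l = L at *
  refine ⟨?_, ?_, ?_, fun F hF ρ hρ hw => g4 F hF ρ hρ ?_⟩
  · rw [transfer_Gl]
    refine transfer_plk' k0 ?_ ?_ ?_ ?_
    · linear_combination k1 + L 0 * k0
    · linear_combination k2 - L 1 * k0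
    · linear_combination k3 + L 2 * k0
    · linear_combination k4 - L 3 * k0
  · rw [dotProduct_mulVec]
    exact g2'
  · rw [bq, qG, add_mulVec, dotProduct_add, smul_mulVec, dotProduct_smul, transfer_P0, k0,
      smul_zero, add_zero] at g3
    rw [transfer_bq, g3]
  · rw [transfer_Gl] at hw
    have l0 := hl F hF 0
    have l1 := hl F hF 1
    have l2 := hl F hF 2
    have l3 := hl F hF 3
    have m4 : ρ * p 4 ∈ F := hw 4
    have m5 : ρ * p 5 ∈ F := hw 5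
    have m6 : ρ * p 6 ∈ F := hw 6
    have m7 : ρ * p 7 ∈ F := hw 7
    have m8 : ρ * p 8 ∈ F := hw 8
    have m9 : ρ * p 9 ∈ F := hw 9
    have m0 : ρ * p 0 ∈ F := by
      rw [show ρ * p 0 = ρ * (p 0 - L 1 * p 4 - L 2 * p 5 - L 3 * p 6) + L 1 * (ρ * p 4) +
        L 2 * (ρ * p 5) + L 3 * (ρ * p 6) by ring]
      exact add_mem (add_mem (add_mem (hw 0) (mul_mem l1 m4)) (mul_mem l2 m5)) (mul_mem l3 m6)
    have m1 : ρ * p 1 ∈ F := by
      rw [show ρ * p 1 = ρ * (p 1 + L 0 * p 4 - L 2 * p 7 - L 3 * p 8) - L 0 * (ρ * p 4) +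
        L 2 * (ρ * p 7) + L 3 * (ρ * p 8) by ring]
      exact add_mem (add_mem (sub_mem (hw 1) (mul_mem l0 m4)) (mul_mem l2 m7)) (mul_mem l3 m8)
    have m2 : ρ * p 2 ∈ F := by
      rw [show ρ * p 2 = ρ * (p 2 + L 0 * p 5 + L 1 * p 7 - L 3 * p 9) - L 0 * (ρ * p 5) -
        L 1 * (ρ * p 7) + L 3 * (ρ * p 9) by ring]
      exact add_mem (sub_mem (sub_mem (hw 2) (mul_mem l0 m5)) (mul_mem l1 m7)) (mul_mem l3 m9)
    have m3 : ρ * p 3 ∈ F := by
      rw [show ρ * p 3 = ρ * (p 3 + L 0 * p 6 + L 1 * p 8 + L 2 * p 9) - L 0 * (ρ * p 6) -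
        L 1 * (ρ * p 8) - L 2 * (ρ * p 9) by ring]
      exact sub_mem (sub_mem (sub_mem (hw 3) (mul_mem l0 m6)) (mul_mem l1 m8)) (mul_mem l2 m9)
    intro i
    fin_cases i
    exacts [m0, m1, m2, m3, m4, m5, m6, m7, m8, m9]

end Pool.Agent.GM34
end
end

-- merged part: Pool.Agent.Work.MP_274aea_ag_D34.PrimeB
section
set_option autoImplicit false

open MvPolynomial Matrix Pool.Agent.GM16

namespace Pool.Agent.GM34

section

variable {R S : Type*} [CommRing R] [CommRing S]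

/-- the value of the hyperplane on `w ∧ v0` -/
def primeb_s (h : Fin 10 → R) (T w4 v3 v4 : R) : R :=
  h 0 * kap1 h + h 2 * (kap1 h * v3) + h 3 * (kap1 h * v4) - h 5 * (kap0 h * v3 + T) -
    h 6 * (kap0 h * v4 + w4) + h 9 * (T * v4 - w4 * v3)

/-- the parametrisation of the hyperplane section -/
def primeb_x (h : Fin 10 → R) (i T w4 v3 v4 b : R) : Fin 6 → R :=
  ![i ^ 2 * (primeb_s h T w4 v3 v4 * h 9) + kap0 h * i * (b * h 9),
    i ^ 2 * (kap1 h * T - primeb_s h T w4 v3 v4 * h 8) + kap0 h * i * (v3 - b * h 8),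
    i ^ 2 * (kap1 h * w4 + primeb_s h T w4 v3 v4 * h 7) + kap0 h * i * (v4 + b * h 7),
    b * h 9, v3 - b * h 8, v4 + b * h 7]

theorem primeb_dot (h p : Fin 10 → R) : h ⬝ᵥ p = h 0 * p 0 + h 1 * p 1 + h 2 * p 2 + h 3 * p 3 +
    h 4 * p 4 + h 5 * p 5 + h 6 * p 6 + h 7 * p 7 + h 8 * p 8 + h 9 * p 9 := by
  simp [dotProduct, Fin.sum_univ_succ, add_assoc]

theorem primeb_s_eq (h : Fin 10 → R) (T w4 v3 v4 : R) :
    h ⬝ᵥ pw (wv h T w4) (vv v3 v4) = primeb_s h T w4 v3 v4 := by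
  rw [primeb_dot]
  simp [pw, wv, vv, primeb_s]
  ring

theorem primeb_map (f : R →+* S) (h : Fin 10 → R) (i T w4 v3 v4 b : R) :
    f ∘ primeb_x h i T w4 v3 v4 b = primeb_x (f ∘ h) (f i) (f T) (f w4) (f v3) (f v4) (f b) := by
  funext j
  fin_cases j <;> simp [primeb_x, primeb_s, kap0, kap1]

theorem primeb_map_pch (f : R →+* S) (x : Fin 6 → R) : f ∘ pch x = pch (f ∘ x) := by
  funext j
  fin_cases j <;> simp [pch, pw]

theorem primeb_pw (w v k : Fin 5 → R) (a s c e b : R) :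
    pw (a • (e • w + s • k) + c • (v + b • k)) (v + b • k) =
      a • (e • pw w v + s • pw k v + b • e • pw w k) := by
  have key : ∀ j : Fin 10, ∃ p q : Fin 5, ∀ x y : Fin 5 → R, pw x y j = x p * y q - x q * y p := by
    intro j
    fin_cases j
    exacts [⟨0, 1, fun _ _ => rfl⟩, ⟨0, 2, fun _ _ => rfl⟩, ⟨0, 3, fun _ _ => rfl⟩,
      ⟨0, 4, fun _ _ => rfl⟩, ⟨1, 2, fun _ _ => rfl⟩, ⟨1, 3, fun _ _ => rfl⟩,
      ⟨1, 4, fun _ _ => rfl⟩, ⟨2, 3, fun _ _ => rfl⟩, ⟨2, 4, fun _ _ => rfl⟩,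
      ⟨3, 4, fun _ _ => rfl⟩]
  funext j
  obtain ⟨p, q, h⟩ := key j
  simp only [Pi.add_apply, Pi.smul_apply, smul_eq_mul, h]
  ring

theorem primeb_pch {h : Fin 10 → R} {i : R} (hi : kap1 h * i = 1) (T w4 v3 v4 b : R) :
    pch (primeb_x h i T w4 v3 v4 b) =
      i ^ 2 • (pb h (wv h T w4) (vv v3 v4) + b • pa h (wv h T w4)) := by
  rw [pb, pa, primeb_s_eq, ← primeb_pw _ _ _ _ _ (kap0 h * i), pch]
  congr 1
  · funext j
    fin_cases j <;> simp [primeb_x, wv, vv, kv, sub_eq_add_neg]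
    · linear_combination (-1 - kap1 h * i) * hi
    · linear_combination (kap0 h * i) * hi
  · funext j
    fin_cases j <;> simp [primeb_x, vv, kv, sub_eq_add_neg]

theorem primeb_H {h : Fin 10 → R} {i : R} (hi : kap1 h * i = 1) (T w4 v3 v4 b : R) :
    h ⬝ᵥ pch (primeb_x h i T w4 v3 v4 b) = 0 := by
  have e1 : h ⬝ᵥ pw (kv h) (vv v3 v4) = -kap1 h := by
    rw [primeb_dot]
    simp [pw, kv, vv, kap1]
    ring
  have e2 : h ⬝ᵥ pw (wv h T w4) (kv h) = 0 := by
    rw [primeb_dot]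
    simp [pw, kv, wv, kap1, kap0]
    ring
  rw [primeb_pch hi, pb, pa]
  simp only [dotProduct_smul, dotProduct_add, e1, e2, smul_eq_mul]
  ring

theorem primeb_bq {n : ℕ} (q : Matrix (Fin n) (Fin n) R) (x y z w : Fin n → R) (s t : R) :
    bq q (x + s • y) (z + t • w) = bq q x z + t * bq q x w + s * bq q y z + s * t * bq q y w := by
  simp only [bq, mulVec_add, mulVec_smul, add_dotProduct, dotProduct_add, smul_dotProduct,
    dotProduct_smul, smul_eq_mul]
  ring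

theorem primeb_Q {h : Fin 10 → R} {i : R} (hi : kap1 h * i = 1) (q : M10 R) (T w4 v3 v4 b : R) :
    bq q (pch (primeb_x h i T w4 v3 v4 b)) (pch (primeb_x h i T w4 v3 v4 b)) = i ^ 4 *
      ((cA h q w4 2 * T ^ 2 + cA h q w4 1 * T + cA h q w4 0) * b ^ 2 +
        (cB h q w4 v3 v4 2 * T ^ 2 + cB h q w4 v3 v4 1 * T + cB h q w4 v3 v4 0) * b +
        (cC h q w4 v3 v4 2 * T ^ 2 + cC h q w4 v3 v4 1 * T + cC h q w4 v3 v4 0)) := by
  have e0 (v : Fin 5 → R) : pw (wv h T w4) v = pw (wv h 0 w4) v + T • pw ![0, 0, 0, 1, 0] v := by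
    funext j
    fin_cases j <;> simp [pw, wv] <;> ring
  have e1 : pa h (wv h T w4) = pa h (wv h 0 w4) + T • pa h ![0, 0, 0, 1, 0] := by
    rw [pa, pa, pa, e0, smul_add, smul_comm T]
  have e2 : pb h (wv h T w4) (vv v3 v4) =
      pb h (wv h 0 w4) (vv v3 v4) + T • pb h ![0, 0, 0, 1, 0] (vv v3 v4) := by
    rw [pb, pb, pb, e0, dotProduct_add, dotProduct_smul]
    module
  have e3 (c : R) (x : Fin 10 → R) : bq q (c • x) (c • x) = c ^ 2 * bq q x x := by
    simp only [bq, mulVec_smul, smul_dotProduct, dotProduct_smul, smul_eq_mul]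
    ring
  rw [primeb_pch hi, e3, primeb_bq, e1, e2]
  simp only [primeb_bq, cA, cB, cC, co3, bs, cons_val]
  ring

theorem primeb_A2 (h : Fin 10 → R) (q : M10 R) (w w' : R) : cA h q w 2 = cA h q w' 2 := by
  simp only [cA, co3, cons_val]

theorem primeb_inv {h : Fin 10 → R} {i j : R} (hi : kap1 h * i = 1) (hj : h 9 * j = 1)
    {x : Fin 6 → R} (hx : h ⬝ᵥ pch x = 0) : ∃ t a b c d, primeb_x h i t a b c d = x := by
  refine ⟨kap1 h * (x 1 + h 8 * (x 0 * j)) - kap0 h * (x 4 + h 8 * (x 3 * j)),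
    kap1 h * (x 2 - h 7 * (x 0 * j)) - kap0 h * (x 5 - h 7 * (x 3 * j)),
    x 4 + h 8 * (x 3 * j), x 5 - h 7 * (x 3 * j), x 3 * j, ?_⟩
  have e0 : x 0 = x 0 * j * h 9 := by linear_combination (-x 0) * hj
  have e3 : x 3 = x 3 * j * h 9 := by linear_combination (-x 3) * hj
  generalize x 0 * j = a at *
  generalize x 3 * j = b at *
  have es : primeb_s h (kap1 h * (x 1 + h 8 * a) - kap0 h * (x 4 + h 8 * b))
      (kap1 h * (x 2 - h 7 * a) - kap0 h * (x 5 - h 7 * b)) (x 4 + h 8 * b) (x 5 - h 7 * b) =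
      kap1 h * (a * kap1 h - b * kap0 h) := by
    rw [primeb_dot] at hx
    simp [pch, pw] at hx
    rw [e0, e3] at hx
    unfold primeb_s
    generalize hk : kap1 h = k1
    generalize hl : kap0 h = k0
    unfold kap1 at hk
    unfold kap0 at hl
    linear_combination k1 * hx + k1 * a * hk - k1 * b * hl
  unfold primeb_x
  rw [es]
  generalize kap1 h = k1 at *
  generalize kap0 h = k0 at *
  funext m
  fin_cases m <;> simp
  · linear_combination (a * h 9 * (k1 * i + 1) - i * b * k0 * h 9) * hi - e0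
  · linear_combination (x 1 * (k1 * i + 1) - i * k0 * x 4) * hi
  · linear_combination (x 2 * (k1 * i + 1) - i * k0 * x 5) * hi
  · exact e3.symm
  · ring
  · ring

theorem primeb_mem {A E : Type} [CommRing A] [CommRing E] {g₁ g₂ : A} {J : Ideal A}
    (hJ : J = Ideal.span {g₁, g₂}) (Φ : A →+* E) (Ψ : E →+* A ⧸ J)
    (e : ∀ p, Ψ (Φ p) = Ideal.Quotient.mk _ p) {P c d : E}
    (h1 : Φ g₁ = 0) (h2 : Φ g₂ = c * P) (hc : d * c = 1) (p : A) : p ∈ J ↔ P ∣ Φ p := by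
  subst hJ
  refine ⟨fun h => ?_, fun ⟨r, h⟩ => ?_⟩
  · obtain ⟨u, v, rfl⟩ := Ideal.mem_span_pair.1 h
    rw [map_add, map_mul, map_mul, h1, h2, mul_zero, zero_add, ← mul_assoc]
    exact dvd_mul_left _ _
  · have m : g₂ ∈ Ideal.span {g₁, g₂} := Ideal.subset_span (by simp)
    rw [← Ideal.Quotient.eq_zero_iff_mem, ← e, h, ← one_mul P, ← hc, mul_assoc d, ← h2, map_mul,
      map_mul, e, Ideal.Quotient.eq_zero_iff_mem.2 m, mul_zero, zero_mul]

end

theorem primeb_fin {S : Type} [CommRing S] [IsDomain S] [UniqueFactorizationMonoid S] [Algebra ℂ S]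
    {h : Fin 10 → ℂ} {q : M10 ℂ} (hg : gpr h q ≠ 0) {w4 v3 v4 : S} (ev : S →ₐ[ℂ] ℂ)
    (e0 : ev w4 = 0) (e1 : ev v3 = 0) (e2 : ev v4 = 0)
    (hS : ∀ a b c : MvPolynomial (Fin 6) ℂ ⧸ JN h q,
      ∃ Ψ : S →ₐ[ℂ] MvPolynomial (Fin 6) ℂ ⧸ JN h q, Ψ w4 = a ∧ Ψ v3 = b ∧ Ψ v4 = c) :
    (JN h q).IsPrime ∧
      Algebra.trdeg ℂ (MvPolynomial (Fin 6) ℂ ⧸ JN h q) ≤ Algebra.trdeg ℂ S + 1 := by
  simp only [gpr, mul_ne_zero_iff] at hg
  obtain ⟨⟨⟨⟨g1, g2⟩, g3⟩, g4⟩, g5⟩ := hg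
  have ki (B : Type) [CommRing B] [Algebra ℂ B] :
      kap1 (algebraMap ℂ B ∘ h) * algebraMap ℂ B (kap1 h)⁻¹ = 1 := by
    rw [← map_kap1, ← map_mul, mul_inv_cancel₀ g2, map_one]
  have ch {B B' : Type} [CommRing B] [Algebra ℂ B] [CommRing B'] [Algebra ℂ B'] (f : B →ₐ[ℂ] B') :
      (f : B →+* B') ∘ algebraMap ℂ B ∘ h = algebraMap ℂ B' ∘ h := funext fun i => f.commutes _
  have cq {B B' : Type} [CommRing B] [Algebra ℂ B] [CommRing B'] [Algebra ℂ B'] (f : B →ₐ[ℂ] B') :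
      (q.map (algebraMap ℂ B)).map (f : B →+* B') = q.map (algebraMap ℂ B') :=
    Matrix.ext fun i j => f.commutes _
  obtain ⟨A, hA⟩ : ∃ A, A = cA (algebraMap ℂ S ∘ h) (q.map (algebraMap ℂ S)) w4 := ⟨_, rfl⟩
  obtain ⟨B, hB⟩ : ∃ B, B = cB (algebraMap ℂ S ∘ h) (q.map (algebraMap ℂ S)) w4 v3 v4 := ⟨_, rfl⟩
  obtain ⟨C', hC⟩ : ∃ B, B = cC (algebraMap ℂ S ∘ h) (q.map (algebraMap ℂ S)) w4 v3 v4 := ⟨_, rfl⟩
  have a2 : A 2 = algebraMap ℂ S (cA h q 0 2) := by
    rw [hA, primeb_A2 _ _ w4 (algebraMap ℂ S 0), ← map_cA, Function.comp_apply]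
  have vA : ev ∘ A = cA h q 0 := by
    have := map_cA (ev : S →+* ℂ) (algebraMap ℂ S ∘ h) (q.map (algebraMap ℂ S)) w4
    rwa [ch, cq, ← hA, RingHom.coe_coe, e0] at this
  have vB : ev ∘ B = cB h q 0 0 0 := by
    have := map_cB (ev : S →+* ℂ) (algebraMap ℂ S ∘ h) (q.map (algebraMap ℂ S)) w4 v3 v4
    rwa [ch, cq, ← hB, RingHom.coe_coe, e0, e1, e2] at this
  have vC : ev ∘ C' = cC h q 0 0 0 := by
    have := map_cC (ev : S →+* ℂ) (algebraMap ℂ S ∘ h) (q.map (algebraMap ℂ S)) w4 v3 v4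
    rwa [ch, cq, ← hC, RingHom.coe_coe, e0, e1, e2] at this
  have hP := (irr_quad A B C' ev _ a2 g3 (by rwa [vA, vB]) (by rwa [vA, vB, vC])).prime
  have n2 : A 2 ≠ 0 := a2 ▸ (map_ne_zero _).2 g3
  have nA : qd A ≠ 0 := fun e => by
    have : (qd A).degree = 2 := Polynomial.degree_quadratic n2
    rw [e, Polynomial.degree_zero] at this
    exact absurd this (by decide)
  obtain ⟨g, hg⟩ : ∃ g : S →ₐ[ℂ] Polynomial (Polynomial S),
      ∀ s, (g : S →+* Polynomial (Polynomial S)) s = Polynomial.C (Polynomial.C s) :=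
    ⟨(IsScalarTower.toAlgHom ℂ _ _).comp (IsScalarTower.toAlgHom ℂ S (Polynomial S)), fun _ => rfl⟩
  obtain ⟨y, hy⟩ : ∃ y, y = primeb_x (algebraMap ℂ (Polynomial (Polynomial S)) ∘ h)
      (algebraMap ℂ _ (kap1 h)⁻¹) (Polynomial.C Polynomial.X) (Polynomial.C (Polynomial.C w4))
      (Polynomial.C (Polynomial.C v3)) (Polynomial.C (Polynomial.C v4)) Polynomial.X := ⟨_, rfl⟩
  obtain ⟨Φ, hΦ⟩ : ∃ Φ : MvPolynomial (Fin 6) ℂ →ₐ[ℂ] Polynomial (Polynomial S),
      (Φ : MvPolynomial (Fin 6) ℂ →+* _) ∘ X = y := ⟨aeval y, funext (aeval_X y)⟩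
  obtain ⟨π, hπ⟩ : ∃ π : MvPolynomial (Fin 6) ℂ →ₐ[ℂ] MvPolynomial (Fin 6) ℂ ⧸ JN h q,
      ∀ p, π p = Ideal.Quotient.mk _ p := ⟨Ideal.Quotient.mkₐ ℂ _, fun _ => rfl⟩
  have hH {B : Type} [CommRing B] [Algebra ℂ B] (f : MvPolynomial (Fin 6) ℂ →ₐ[ℂ] B) :
      (f : MvPolynomial (Fin 6) ℂ →+* B) ((fun i => C (h i)) ⬝ᵥ pch X) =
        (algebraMap ℂ B ∘ h) ⬝ᵥ pch ((f : MvPolynomial (Fin 6) ℂ →+* B) ∘ X) := by
    rw [RingHom.map_dotProduct, primeb_map_pch, ← ch f]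
    rfl
  obtain ⟨t, a, b, c, d, hI⟩ := primeb_inv (ki _) (j := algebraMap ℂ _ (h 9)⁻¹)
    ((map_mul _ _ _).symm.trans (by rw [mul_inv_cancel₀ g1, map_one])) ((hH π).symm.trans
      ((hπ _).trans (Ideal.Quotient.eq_zero_iff_mem.2 (Ideal.subset_span (Set.mem_insert _ _)))))
  obtain ⟨Ψ, p0, p1, p2⟩ := hS a b c
  obtain ⟨Θ, q0, q1, q2⟩ : ∃ Θ : Polynomial (Polynomial S) →ₐ[ℂ] MvPolynomial (Fin 6) ℂ ⧸ JN h q,
      (∀ s, (Θ : Polynomial (Polynomial S) →+* _) (Polynomial.C (Polynomial.C s)) = Ψ s) ∧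
        (Θ : Polynomial (Polynomial S) →+* _) (Polynomial.C Polynomial.X) = t ∧
        (Θ : Polynomial (Polynomial S) →+* _) Polynomial.X = d :=
    ⟨Polynomial.aevalTower (Polynomial.aevalTower Ψ t) d, by simp, by simp, by simp⟩
  have q3 (z : ℂ) : (Θ : Polynomial (Polynomial S) →+* MvPolynomial (Fin 6) ℂ ⧸ JN h q)
      (algebraMap ℂ _ z) = algebraMap ℂ _ z := Θ.commutes z
  have hΘ : Θ.comp Φ = π := algHom_ext fun i => by
    have := congrArg
      ((Θ : Polynomial (Polynomial S) →+* MvPolynomial (Fin 6) ℂ ⧸ JN h q) ∘ ·) hy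
    beta_reduce at this
    rw [primeb_map, ch, q0, q0, q0, q1, q2, p0, p1, p2, q3, hI] at this
    exact (congrArg Θ (congrFun hΦ i)).trans (congrFun this i)
  have := prime_main hP (fun k => by
    rw [Polynomial.degree_quadratic nA] at k
    exact absurd k (by decide)) Φ (primeb_mem (J := JN h q) rfl (Φ : MvPolynomial (Fin 6) ℂ →+* _)
      (Θ : Polynomial (Polynomial S) →+* _) (fun p => (DFunLike.congr_fun hΘ p).trans (hπ p))
      (c := algebraMap ℂ _ (kap1 h)⁻¹ ^ 4) (d := kap1 (algebraMap ℂ _ ∘ h) ^ 4) ?_ ?_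
      (by rw [← mul_pow, ki, one_pow]))
  · rwa [← trdeg_add_eq ℂ S (A := Polynomial S), Polynomial.trdeg_of_isDomain] at this
  · rw [hH, hΦ, hy, primeb_H (ki _)]
  · rw [map_bq, primeb_map_pch, hΦ, show (q.map C).map _ = _ from cq Φ, hy, primeb_Q (ki _),
      ← hg, ← hg, ← hg, ← ch g, ← cq g, ← map_cA, ← map_cB, ← map_cC, ← hA, ← hB, ← hC]
    simp only [qd, map_add, map_mul, map_pow, Function.comp_apply, hg]

/-- Put `S = ℂ[w4, v3, v4]`, `D = S[T]` with `T = w3`, and let `b` be the variable of `D[b]`.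
With `k = kv h`, `w = wv h T w4`, `v0 = vv v3 v4`, `κ0 = kap0 h`, `κ1 = kap1 h` set
`v = v0 + b • k` and `u = (κ1 • w + (h ⬝ᵥ pw w v0) • k) / κ1 ^ 2 + (κ0 / κ1) • v`. Then
`u = (1, 0, _, _, _)`, `v = (0, 1, _, _, _)`, `κ1 ^ 2 • pw u v = pb h w v0 + b • pa h w`, and
`h ⬝ᵥ pw u v = 0` (use `h ⬝ᵥ pw k e_j = 0` for `j = 2, 3, 4`, `h ⬝ᵥ pw e_0 k = κ0`,
`h ⬝ᵥ pw e_1 k = κ1`). Let `Φ` send `X 0, X 1, X 2, X 3, X 4, X 5` to `u 2, u 3, u 4, v 2, v 3, v 4`;
it kills the first generator and sends the second to `κ1⁻¹ ^ 4` times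
`P = C (qd A) b ^ 2 + C (qd B) b + C (qd C)` with `A = cA h q w4`, `B = cB h q w4 v3 v4`,
`C = cC h q w4 v3 v4` (coefficients mapped by `C`). Inverse modulo the first generator:
`b = X 3 / h 9`, `v3 = X 4 + h 8 * b`, `v4 = X 5 - h 7 * b`, `a = X 0 / h 9`,
`w3 = κ1 * (X 1 + h 8 * a) - κ0 * v3`, `w4 = κ1 * (X 2 - h 7 * a) - κ0 * v4`. So
`p ∈ JN h q ↔ P ∣ Φ p`; finish with `irr_quad`, `prime_main`. Model: `Prime_mem`, `Prime_fin` in
`Work/MP_274aea_ag/Prime`. -/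
theorem prime_of {h : Fin 10 → ℂ} {q : M10 ℂ} (hg : gpr h q ≠ 0) :
    (JN h q).IsPrime ∧ Algebra.trdeg ℂ (MvPolynomial (Fin 6) ℂ ⧸ JN h q) ≤ 4 := by
  have := primeb_fin (S := MvPolynomial (Fin 3) ℂ) hg (w4 := X 0) (v3 := X 1) (v4 := X 2)
    (aeval 0) (by simp) (by simp) (by simp) fun a b c => ⟨aeval ![a, b, c], by simp, by simp, by simp⟩
  refine ⟨this.1, this.2.trans_eq ?_⟩
  rw [MvPolynomial.trdeg_of_isDomain]
  simp only [Cardinal.mk_fintype, Fintype.card_fin, Cardinal.lift_natCast]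
  norm_num

end Pool.Agent.GM34
end
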