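import Pool.Agent.Work.MP_274aea_ag_D34.Num
import Pool.Agent.Work.MP_274aea_ag_D34.PrimeB

set_option autoImplicit false

open MvPolynomial Matrix Pool.Agent.GM16

namespace Pool.Agent.GM34

/-! Numerical facts about the witness. Prove them over `ℤ` by `decide +kernel` (in stages, with
explicit intermediate vectors) and move to `ℂ` by the naturality lemmas for `Int.castRingHom ℂ`. -/

def num3_J : M3 ℤ := !![0, 0, 0; 0, -1, 0; -1, 0, 0]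

def num3_M : Matrix (Fin 3) (Fin 4) ℤ := !![0, 0, 0, -1; 1, 0, -1, 1; -1, 0, 0, 0]

def num3_G : Matrix (Fin 3) (Fin 10) ℤ :=
  !![1, 0, 0, 0, 0, 0, 0, -1, 0, 0; 0, 0, -1, 2, 0, -1, 1, 1, -1, -1;
    0, 0, -1, 1, 0, -1, 0, 1, -1, 0]

def num3_E : M10 ℤ :=
  !![-1, 0, 0, 0, 0, 0, 0, 0, 0, 0; 0, -1, 0, 0, 0, 0, 0, 0, 0, 0; 0, 0, -1, 0, 0, 0, 0, 0, 0, 0;
    0, 0, 0, -1, 0, 0, 0, 0, 0, 0; 0, 0, 0, 0, 0, 0, 0, 0, 0, 0; 0, 0, 0, 0, 0, 0, 0, 0, 0, 0;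
    0, 0, 0, 0, 0, 0, 0, 0, 0, 0; 0, 0, -1, 1, 0, -1, 0, 1, -1, 0;
    0, 0, 1, -2, 0, 1, -1, -1, 1, 1; 1, 0, 0, 0, 0, 0, 0, -1, 0, 0]

def num3_Q : M10 ℤ :=
  !![1, 0, -1, 1, 0, 0, 0, -1, 0, 0; -1, 0, 0, 0, 0, 0, 0, 0, 0, 0; 1, 1, -1, 0, 0, 0, 0, 1, 0, 0;
    1, 0, 0, 0, 0, 0, 0, 0, 0, 0; 1, 0, 0, 0, 0, 0, 0, -1, 0, 0;
    -1, 0, -1, 2, 0, -1, 1, 1, -1, -1; 0, 0, -1, 1, 0, -1, 0, 1, -1, 0;
    -2, 0, 1, -1, 0, 0, 0, 1, 0, 0; -1, 0, 0, 0, 0, 0, 0, 0, 0, 0; 0, 0, 0, 0, 0, 0, 0, 0, 0, 0]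

def num3_P : Matrix (Fin 10) (Fin 9) ℤ :=
  !![0, 0, 1, 0, 0, 0, -1, 0, 0; 1, 0, 0, 0, 0, -1, 1, 0, -1; 0, 0, 0, 1, 0, -1, 0, 0, 0;
    -1, 0, -1, 0, 1, 0, 0, 1, 0; 0, 0, -1, 0, 0, 0, 0, 1, 0; 0, 0, -1, 0, 0, 0, 0, 0, 0;
    0, 0, 0, -1, 0, 0, 0, 0, 0; -1, 0, 0, 0, 0, 0, -1, 0, 0; -1, -1, -1, -1, 1, 0, 0, 0, 1;
    -1, 0, -1, -1, 0, 0, 0, 0, 0]

def num3_a : Fin 8 → ℤ := ![1, 1, 1, -2, 0, 0, 1, 0]

def num3_p : Fin 10 → ℤ :=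
  ![-1908736, -5001216, -5332992, 331776, -2760704, -2629632, 1777664, 823296, 4177920, 4509696]

def num3_z : Fin 9 → ℤ :=
  ![-5361664, -1314816, 2629632, -1777664, -2269184, 3555328, 4538368, -131072, 622592]

theorem num3_J_eq : -(Jh0 : M3 ℤ)ᵀ = num3_J := by decide +kernel

theorem num3_A : (jm num3_J)ᵀ * ((q2 : M10 ℤ) + q2ᵀ) =
    !![0, 0, 0, -1, 1, -1, 0, 1, 1, 0; 1, 0, -1, 1, 1, 0, 0, 1, 0, 1;
      -1, 0, 0, 0, 0, 0, 0, 0, 0, -1] := by decide +kernel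

theorem num3_M_eq : MM num3_J q2 = num3_M := by
  unfold MM
  rw [num3_A]
  decide +kernel

theorem num3_G_eq : Gm num3_J L0 q2 = num3_G := by
  unfold Gm
  rw [num3_M_eq]
  decide +kernel

theorem num3_E_eq : EE num3_J L0 q2 = num3_E := by
  unfold EE
  rw [num3_G_eq]
  decide +kernel

theorem num3_Q_eq : legQ num3_J L0 q2 = num3_Q := by
  unfold legQ
  rw [num3_G_eq, num3_E_eq]
  decide +kernel

theorem num3_P_eq : Phi (m0 : Mi → ℤ) = num3_P := by decide +kernel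

theorem num3_a_eq : am (m0 : Mi → ℤ) y0 = num3_a := by decide +kernel

theorem num3_z0 : Zv num3_a ![1, 0, 0] = ![-5, -1, 2, -2, -2, 4, 4, 0, 0] := by decide +kernel

theorem num3_z1 : Zv num3_a (Nm num3_a *ᵥ ![1, 0, 0]) = ![-5, -5, 10, 2, -2, -4, 4, 4, 0] := by
  decide +kernel

theorem num3_p0 : num3_P *ᵥ ![-5, -1, 2, -2, -2, 4, 4, 0, 0] =
    ![-2, -5, -6, 1, -2, -2, 2, 1, 4, 5] := by decide +kernel

theorem num3_p1 : num3_P *ᵥ ![-5, -5, 10, 2, -2, -4, 4, 4, 0] =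
    ![6, 3, 6, -3, -6, -10, -2, 1, -4, -7] := by decide +kernel

theorem num3_l0 : lamq (P0 : M10 ℤ) ![-2, -5, -6, 1, -2, -2, 2, 1, 4, 5]
    ![6, 3, 6, -3, -6, -10, -2, 1, -4, -7] = ![0, 16, 0] := by decide +kernel

theorem num3_l1 : lamq num3_Q ![-2, -5, -6, 1, -2, -2, 2, 1, 4, 5]
    ![6, 3, 6, -3, -6, -10, -2, 1, -4, -7] = ![-8, -36, -76] := by decide +kernel

theorem num3_ev : evec (m0 : Mi → ℤ) num3_Q num3_a = ![-1216, 0, 128] := by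
  unfold evec
  rw [num3_P_eq, num3_z0, num3_z1, num3_p0, num3_p1, num3_l0, num3_l1]
  decide +kernel

theorem num3_C : Cm num3_a ![-1216, 0, 128] *ᵥ ![1, 0, 0] = ![1134592, 65536, -311296] := by
  decide +kernel

theorem num3_z_eq : zst (m0 : Mi → ℤ) num3_Q y0 = num3_z := by
  unfold zst
  rw [num3_a_eq, num3_ev, num3_C]
  decide +kernel

theorem num3_p_eq : pst (m0 : Mi → ℤ) num3_Q y0 = num3_p := by
  unfold pst
  rw [num3_z_eq, num3_P_eq]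
  decide +kernel

theorem num3_ratc : ratc (m0 : Mi → ℤ) num3_Q y0 ≠ 0 := by
  unfold ratc
  rw [num3_z_eq, num3_a_eq, det_fin_three]
  decide +kernel

theorem num3_Sm : Sm num3_J num3_p =
    !![0, 331776, 5332992; -331776, 1908736, -5001216; -3424256, 5001216, 0] := by
  decide +kernel

theorem num3_det : (Sm num3_J num3_p).det = 31689305411914039296 := by
  rw [num3_Sm, det_fin_three]
  decide +kernel

theorem num3_trf : trf num3_J L0 q2 num3_p 0 ≠ 0 := by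
  unfold trf
  rw [num3_det, num3_E_eq]
  have h1 : ∀ v : Fin 3 → ℤ, (jm num3_J *ᵥ v) 0 = 0 := by
    intro v
    simp [jm, Matrix.mulVec, dotProduct]
  rw [Pi.add_apply, h1, zero_add]
  decide +kernel

theorem num3_Gl (v : Fin 10 → ℤ) : (Gl (0 : Fin 4 → ℤ) *ᵥ v) 0 = v 0 := by
  simp [Gl, Matrix.mulVec, dotProduct, Fin.sum_univ_succ]

theorem num3_cond2 : cond2 (m0 : Mi → ℤ) num3_J L0 0 q2 y0 ≠ 0 := by
  unfold cond2
  rw [num3_Q_eq, num3_p_eq, num3_Gl, num3_det]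
  exact mul_ne_zero (mul_ne_zero num3_ratc (by decide)) num3_trf

theorem num3_cA : cA (h2 : Fin 10 → ℤ) q2 0 = ![12, 16, -4] := by decide +kernel

theorem num3_cB : cB (h2 : Fin 10 → ℤ) q2 0 0 0 = ![56, 0, 4] := by decide +kernel

theorem num3_cC : cC (h2 : Fin 10 → ℤ) q2 0 0 0 = ![32, -4, 1] := by decide +kernel

theorem num3_gpr : gpr (h2 : Fin 10 → ℤ) q2 ≠ 0 := by
  unfold gpr
  rw [num3_cA, num3_cB, num3_cC]
  decide +kernel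

theorem num3_condM : condM (m0 : Mi → ℤ) ≠ 0 := by
  intro h
  apply num_condM
  have h' := map_condM (Int.castRingHom ℂ) (m0 : Mi → ℤ)
  rw [map_m0, h, map_zero] at h'
  exact h'.symm

theorem num3_int : cond3 (x2 : Par ⊕ Aux → ℤ) L0 ≠ 0 := by
  have e1 : aM ((x2 : Par ⊕ Aux → ℤ) ∘ Sum.inr) = m0 := rfl
  have e2 : aJ ((x2 : Par ⊕ Aux → ℤ) ∘ Sum.inr) = num3_J := num3_J_eq
  have e3 : aL ((x2 : Par ⊕ Aux → ℤ) ∘ Sum.inr) = 0 := rfl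
  have e4 : aC ((x2 : Par ⊕ Aux → ℤ) ∘ Sum.inr) = 0 := rfl
  have e5 : (x2 : Par ⊕ Aux → ℤ) ∘ Sum.inl = mkP h2 q2 := rfl
  unfold cond3
  rw [e1, e2, e3, e4, e5, hv_mkP, qm_mkP, qG_zero]
  exact mul_ne_zero (mul_ne_zero num3_condM num3_gpr) num3_cond2

theorem num_cond3 : cond3 (x2 : Par ⊕ Aux → ℂ) L0 ≠ 0 := by
  have h := map_cond3 (Int.castRingHom ℂ) (x2 : Par ⊕ Aux → ℤ) L0
  rw [map_x2, map_L0] at h
  rw [← h]
  exact (map_ne_zero_iff _ (RingHom.injective_int _)).2 num3_int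

end Pool.Agent.GM34
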