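import Pool.Agent.Work.MP_274aea_ag_D34.PrimeA
import Pool.Agent.Work.MP_274aea_ag_D34.PrimeB
import Pool.Agent.Work.MP_274aea_ag_D34.Num
import Pool.Agent.Work.MP_274aea_ag_D34.Main1
import Pool.Agent.Work.MP_274aea_ag_D34.Num3
import Pool.Agent.Work.MP_274aea_ag_D34.Cert2

-- merged part: Pool.Agent.Work.MP_274aea_ag_D34.PartC
section
-- merged part: Pool.Agent.Work.MP_274aea_ag_D34.PartA
section
set_option autoImplicit false

open MvPolynomial Matrix Pool.Agent.GM16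

namespace Pool.Agent.GM34

open Kronecker in
theorem parta_kron (g : Matrix (Fin 6) (Fin 6) ℂ) (a : Fin 6 → Fin 6 → Fin 6 → ℂ) (i j k : Fin 6) :
    act g a i j k = ((g ⊗ₖ (g ⊗ₖ g)) *ᵥ fun x => a x.1 x.2.1 x.2.2) (i, j, k) := by
  simp only [act, mulVec, dotProduct, Fintype.sum_prod_type, kroneckerMap_apply, mul_assoc]

theorem parta_one (g : Matrix (Fin 6) (Fin 6) ℂ) (u v w : Fin 6 → ℂ) (i j k : Fin 6) :
    (g *ᵥ u) i * ((g *ᵥ v) j * (g *ᵥ w) k) =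
      ∑ i', ∑ j', ∑ k', g i i' * g j j' * g k k' * (u i' * (v j' * w k')) := by
  simp only [mulVec, dotProduct]
  rw [Finset.sum_mul_sum, Finset.sum_mul]
  refine Finset.sum_congr rfl fun i' _ => ?_
  rw [Finset.mul_sum]
  refine Finset.sum_congr rfl fun j' _ => ?_
  rw [Finset.mul_sum]
  exact Finset.sum_congr rfl fun k' _ => by ring

theorem parta_w3 (u v w : Fin 6 → ℂ) (i j k : Fin 6) : w3 u v w i j k =
    u i * (v j * w k) - u i * (w j * v k) - v i * (u j * w k) + w i * (u j * v k) +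
      v i * (w j * u k) - w i * (v j * u k) := by
  unfold w3
  ring

theorem act_mul (g g' : Matrix (Fin 6) (Fin 6) ℂ) (a : Fin 6 → Fin 6 → Fin 6 → ℂ) :
    act (g * g') a = act g (act g' a) := by
  funext i j k
  simp only [parta_kron, mul_kronecker_mul, ← mulVec_mulVec]

theorem act_one (a : Fin 6 → Fin 6 → Fin 6 → ℂ) : act 1 a = a := by
  funext i j k
  simp only [parta_kron, one_kronecker_one, one_mulVec]

theorem act_w3 (g : Matrix (Fin 6) (Fin 6) ℂ) (u v w : Fin 6 → ℂ) :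
    act g (w3 u v w) = w3 (g *ᵥ u) (g *ᵥ v) (g *ᵥ w) := by
  funext i j k
  simp only [act, parta_w3, parta_one, mul_add, mul_sub, Finset.sum_add_distrib,
    Finset.sum_sub_distrib]

theorem act_alt (g : Matrix (Fin 6) (Fin 6) ℂ) {a : Fin 6 → Fin 6 → Fin 6 → ℂ}
    (h : ∀ i j k, a j i k = -a i j k ∧ a i k j = -a i j k) (i j k : Fin 6) :
    act g a j i k = -act g a i j k ∧ act g a i k j = -act g a i j k := by
  simp only [act, ← Finset.sum_neg_distrib]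
  constructor
  · rw [Finset.sum_comm]
    refine Finset.sum_congr rfl fun i' _ => Finset.sum_congr rfl fun j' _ =>
      Finset.sum_congr rfl fun k' _ => ?_
    rw [(h i' j' k').1]
    ring
  · refine Finset.sum_congr rfl fun i' _ => ?_
    rw [Finset.sum_comm]
    refine Finset.sum_congr rfl fun j' _ => Finset.sum_congr rfl fun k' _ => ?_
    rw [(h i' j' k').2]
    ring

/-- It is enough to map each Lagrangian into the other. -/
theorem partner_intro {h h' : Fin 10 → ℂ} {q q' : M10 ℂ} (g g' : Matrix (Fin 6) (Fin 6) ℂ)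
    (e : g' * g = 1) (h1 : ∀ a, InLagN h q a → InLagN h' q' (act g a))
    (h2 : ∀ a, InLagN h' q' a → InLagN h q (act g' a)) : PartnerN h q h' q' := by
  refine ⟨g, fun k => ?_, fun a => ⟨h1 a, fun k => ?_⟩⟩
  · have := congrArg det e
    rw [det_mul, k, mul_zero, det_one] at this
    exact zero_ne_one this
  · have := h2 _ k
    rwa [← act_mul, e, act_one] at this

theorem partner_trans {h h' h'' : Fin 10 → ℂ} {q q' q'' : M10 ℂ} (h1 : PartnerN h q h' q')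
    (h2 : PartnerN h' q' h'' q'') : PartnerN h q h'' q'' := by
  obtain ⟨g, d, k⟩ := h1
  obtain ⟨g', d', k'⟩ := h2
  refine ⟨g' * g, by rw [det_mul]; exact mul_ne_zero d' d, fun a => ?_⟩
  rw [act_mul, k, k']

theorem partner_nodec {h h' : Fin 10 → ℂ} {q q' : M10 ℂ} (h1 : PartnerN h q h' q')
    (hn : NoDec h q) : NoDec h' q' := by
  obtain ⟨g, d, k⟩ := h1
  intro u v w hw
  have e : act g (w3 (g⁻¹ *ᵥ u) (g⁻¹ *ᵥ v) (g⁻¹ *ᵥ w)) = w3 u v w := by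
    rw [← act_w3, ← act_mul, mul_nonsing_inv g (Ne.isUnit d), act_one]
  rw [← e, hn _ _ _ ((k _).2 (e.symm ▸ hw))]
  funext i j l
  simp only [act, Pi.zero_apply, mul_zero, Finset.sum_const_zero]

end Pool.Agent.GM34
end

-- merged part: Pool.Agent.Work.MP_274aea_ag_D34.PartB
section
set_option autoImplicit false

open MvPolynomial Matrix Pool.Agent.GM16

namespace Pool.Agent.GM34

theorem partb_jm (J : M3 ℂ) : jm J = (Xr (1 : M10 ℂ))ᵀ + (Yr (1 : M10 ℂ))ᵀ * J := by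
  ext i j
  fin_cases i <;> fin_cases j <;> simp [jm, Xr, Yr, Matrix.mul_apply, Fin.sum_univ_three, Matrix.one_apply]

theorem partb_io {ι : Type} (g : Matrix (Fin 3) ι ℂ) (d : Matrix (Fin 4) ι ℂ) :
    io g d = (Yr (1 : M10 ℂ))ᵀ * g + (Dr (1 : M10 ℂ))ᵀ * d := by
  ext i j
  fin_cases i <;>
    simp [io, Dr, Yr, Matrix.mul_apply, Fin.sum_univ_three, Fin.sum_univ_four, Matrix.one_apply]

theorem partb_X (v : Fin 10 → ℂ) : Xr (1 : M10 ℂ) *ᵥ v = ![v 4, v 5, v 6] := by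
  ext i
  fin_cases i <;> simp [Xr, Matrix.mulVec, dotProduct, Matrix.one_apply]

theorem partb_Y (v : Fin 10 → ℂ) : Yr (1 : M10 ℂ) *ᵥ v = ![v 9, -v 8, v 7] := by
  ext i
  fin_cases i <;> simp [Yr, Matrix.mulVec, dotProduct, Matrix.one_apply]

theorem partb_D (v : Fin 10 → ℂ) : Dr (1 : M10 ℂ) *ᵥ v = ![v 0, v 1, v 2, v 3] := by
  ext i
  fin_cases i <;> simp [Dr, Matrix.mulVec, dotProduct, Matrix.one_apply]

theorem partb_one (v : Fin 10 → ℂ) :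
    (Xr (1 : M10 ℂ))ᵀ *ᵥ Xr (1 : M10 ℂ) *ᵥ v + (Yr (1 : M10 ℂ))ᵀ *ᵥ Yr (1 : M10 ℂ) *ᵥ v +
      (Dr (1 : M10 ℂ))ᵀ *ᵥ Dr (1 : M10 ℂ) *ᵥ v = v := by
  rw [partb_X, partb_Y, partb_D]
  ext i
  simp only [Pi.add_apply, Matrix.mulVec, dotProduct, Fin.sum_univ_three, Fin.sum_univ_four,
    transpose_apply]
  fin_cases i <;> simp [Xr, Yr, Dr, Matrix.one_apply]

theorem partb_core {X Y : Matrix (Fin 3) (Fin 10) ℂ} {D : Matrix (Fin 4) (Fin 10) ℂ}
    (one : ∀ v, Xᵀ *ᵥ X *ᵥ v + Yᵀ *ᵥ Y *ᵥ v + Dᵀ *ᵥ D *ᵥ v = v) {J N : M3 ℂ} {q E : M10 ℂ}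
    {K : Matrix (Fin 10) (Fin 3) ℂ} {G : Matrix (Fin 3) (Fin 10) ℂ} {h w ξ w' ξ' : Fin 10 → ℂ} {μ : ℂ}
    (eK : K = Xᵀ + Yᵀ * J) (eG : G = N * (Y + Jᵀ * X + Kᵀ * (q + qᵀ) * Dᵀ * D :
      Matrix (Fin 3) (Fin 10) ℂ)) (eE : E = Yᵀ * G + Dᵀ * (-D))
    (p1 : h ᵥ* K = 0) (p2 : Kᵀ * (q + qᵀ) * K = 0) (hN : Kᵀ * (q + qᵀ) * Yᵀ * N = 1)
    (h1 : h ⬝ᵥ w = 0) (h2 : ξ = (q + qᵀ) *ᵥ w + μ • h) (a1 : X *ᵥ w' = Y *ᵥ ξ)
    (a2 : Y *ᵥ w' = X *ᵥ ξ) (a3 : D *ᵥ w' = -(D *ᵥ w)) (b1 : X *ᵥ ξ' = Y *ᵥ w)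
    (b2 : Y *ᵥ ξ' = X *ᵥ w) (b3 : D *ᵥ ξ' = D *ᵥ ξ) :
    (h ᵥ* E) ⬝ᵥ w' = 0 ∧
      ξ' = (Xᵀ * G - Eᵀ * q * E + (Xᵀ * G - Eᵀ * q * E)ᵀ) *ᵥ w' + (-μ) • (h ᵥ* E) := by
  obtain ⟨A, eA⟩ : ∃ A, A = Kᵀ * (q + qᵀ) := ⟨_, rfl⟩
  rw [← eA] at eG p2 hN
  obtain ⟨x, ex⟩ : ∃ x, x = X *ᵥ w := ⟨_, rfl⟩
  obtain ⟨g, eg⟩ : ∃ g, g = Y *ᵥ w - J *ᵥ x := ⟨_, rfl⟩
  obtain ⟨v, ev⟩ : ∃ v, v = Yᵀ *ᵥ g + Dᵀ *ᵥ D *ᵥ w := ⟨_, rfl⟩
  have hw : w = K *ᵥ x + v := by
    conv_lhs => rw [← one w]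
    rw [eK, ev, eg, add_mulVec, ← mulVec_mulVec, mulVec_sub, ← ex]
    abel
  have k1 : Y *ᵥ w' + Jᵀ *ᵥ X *ᵥ w' = A *ᵥ v := by
    have t : Kᵀ *ᵥ ξ = A *ᵥ v := by
      rw [h2, mulVec_add, mulVec_smul, mulVec_transpose K h, p1, smul_zero, add_zero, mulVec_mulVec,
        ← eA, hw, mulVec_add, mulVec_mulVec, p2, zero_mulVec, zero_add]
    rw [← t, a1, a2, eK, transpose_add, transpose_mul, transpose_transpose, transpose_transpose,
      add_mulVec, ← mulVec_mulVec]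
  have k2 : G *ᵥ w' = g := by
    rw [eG, ← mulVec_mulVec, add_mulVec, add_mulVec, ← mulVec_mulVec, k1, ← mulVec_mulVec,
      ← mulVec_mulVec, a3, ev, mulVec_add A, mulVec_neg, mulVec_neg, add_neg_cancel_right,
      mulVec_mulVec g A, mulVec_mulVec, mul_eq_one_comm.1 hN, one_mulVec]
  have k3 : E *ᵥ w' = v := by
    rw [eE, add_mulVec, ← mulVec_mulVec, ← mulVec_mulVec, k2, neg_mulVec, a3, neg_neg, ev]
  have k4 : A * E = Y + Jᵀ * X := by
    rw [eE, Matrix.mul_add, ← Matrix.mul_assoc, ← Matrix.mul_assoc, eG, ← Matrix.mul_assoc, hN,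
      Matrix.one_mul, Matrix.mul_neg, add_neg_cancel_right]
  have k5 : Eᵀ *ᵥ (q + qᵀ) *ᵥ K *ᵥ x = Yᵀ *ᵥ x + Xᵀ *ᵥ J *ᵥ x := by
    have t := congrArg transpose k4
    rw [eA, transpose_mul, transpose_mul, transpose_transpose, transpose_add, transpose_transpose,
      add_comm qᵀ, transpose_add, transpose_mul, transpose_transpose] at t
    rw [mulVec_mulVec x, mulVec_mulVec x, t, add_mulVec, ← mulVec_mulVec]
  have k6 : Eᵀ *ᵥ ξ = Gᵀ *ᵥ Y *ᵥ ξ - Dᵀ *ᵥ D *ᵥ ξ := by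
    rw [eE, transpose_add, transpose_mul, transpose_mul, transpose_transpose, transpose_transpose,
      add_mulVec, ← mulVec_mulVec, ← mulVec_mulVec, transpose_neg, neg_mulVec, sub_eq_add_neg]
  have k7 : Eᵀ *ᵥ ξ = Eᵀ *ᵥ (q + qᵀ) *ᵥ K *ᵥ x + (Eᵀ *ᵥ q *ᵥ v + Eᵀ *ᵥ qᵀ *ᵥ v) + μ • (h ᵥ* E) := by
    rw [h2, mulVec_add, mulVec_smul, mulVec_transpose E h, ← mulVec_add, ← add_mulVec, ← mulVec_add,
      ← mulVec_add, ← hw]
  refine ⟨?_, ?_⟩
  · have t : h ⬝ᵥ K *ᵥ x = 0 := by rw [dotProduct_mulVec, p1, zero_dotProduct]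
    rw [hw, dotProduct_add, t, zero_add] at h1
    rw [← dotProduct_mulVec, k3, h1]
  · have t : Y *ᵥ w = g + J *ᵥ x := by rw [eg, sub_add_cancel]
    rw [← one ξ', b1, b2, b3, ← ex, t, mulVec_add, add_mulVec, transpose_sub, transpose_mul,
      transpose_mul, transpose_mul, transpose_transpose, transpose_transpose, sub_mulVec, sub_mulVec]
    simp only [← mulVec_mulVec]
    rw [k2, k3, a1, neg_smul]
    rw [k5, k6] at k7
    linear_combination (exp := 1) -k7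

/-- The exchange of the indices `0` and `5`. -/
noncomputable def partb_g : Matrix (Fin 6) (Fin 6) ℂ :=
  Matrix.of fun i j => if Equiv.swap 0 5 i = j then 1 else 0

theorem partb_gg : partb_g * partb_g = 1 := by
  ext i j
  simp only [partb_g, Matrix.mul_apply, of_apply, ite_mul, one_mul, zero_mul, Finset.sum_ite_eq,
    Finset.mem_univ, if_true, Equiv.swap_apply_self, Matrix.one_apply]

theorem partb_act (a : Fin 6 → Fin 6 → Fin 6 → ℂ) (i j k : Fin 6) :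
    act partb_g a i j k = a (Equiv.swap 0 5 i) (Equiv.swap 0 5 j) (Equiv.swap 0 5 k) := by
  simp [act, partb_g, Finset.sum_ite_eq]

theorem partb_w (a : Fin 6 → Fin 6 → Fin 6 → ℂ) : wN (act partb_g a) =
    ![a 0 5 1, a 0 5 2, a 0 5 3, a 0 5 4, a 0 1 2, a 0 1 3, a 0 1 4, a 0 2 3, a 0 2 4, a 0 3 4] := by
  simp only [wN, partb_act]
  rfl

theorem partb_xi (a : Fin 6 → Fin 6 → Fin 6 → ℂ) : xiN (act partb_g a) =
    ![a 2 3 4, -a 1 3 4, a 1 2 4, -a 1 2 3, a 5 3 4, -a 5 2 4, a 5 2 3, a 5 1 4, -a 5 1 3,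
      a 5 1 2] := by
  simp only [xiN, partb_act]
  rfl

theorem partb_to {J N : M3 ℂ} {h : Fin 10 → ℂ} {q : M10 ℂ} (hp : HasPlane J h q)
    (hN : LL J q * N = 1) (a : Fin 6 → Fin 6 → Fin 6 → ℂ) (ha : InLagN h q a) :
    InLagN (legH J N h q) (legQ J N q) (act partb_g a) := by
  obtain ⟨al, h1, μ, h2⟩ := ha
  rw [LL, partb_io, Matrix.mul_one, Matrix.mul_zero, add_zero] at hN
  have := partb_core partb_one (G := Gm J N q) (E := EE J N q) (w' := wN (act partb_g a))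
    (ξ' := xiN (act partb_g a)) (partb_jm J)
    (by rw [Gm, MM, partb_io, Matrix.mul_one, Matrix.mul_zero, zero_add]) (partb_io _ _) hp.1 hp.2 hN
    h1 h2 (by rw [partb_X, partb_Y, partb_w]; simp [xiN])
    (by rw [partb_X, partb_Y, partb_w]; simp [xiN])
    (by rw [partb_D, partb_D, partb_w]; simp [wN, (al 5 0 _).1])
    (by rw [partb_X, partb_Y, partb_xi]; simp [wN])
    (by rw [partb_X, partb_Y, partb_xi]; simp [wN])
    (by rw [partb_D, partb_D, partb_xi]; simp [xiN])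
  exact ⟨act_alt _ al, this.1, -μ, this.2⟩

/-- The matrix exchanges `e 0` and `e 5`. For an alternating `a` and `a' = act g a`:
`Dr` part of `wN a'` is minus that of `wN a`, the entries `4, …, 9` of `wN a'` are `a 0 i j`, and
`xiN a'` has the same first four entries as `xiN a`, the others being read off from `wN a`. One
direction: if `a` lies in the Lagrangian of `(h, q)` with multiplier `μ` then `a'` lies in that of
the transform with multiplier `-μ` (pair with `jm J` to get `Yr w' + Jᵀ Xr w' = LL g + MM d`, so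
`EE *ᵥ wN a' = io g d`). The other direction follows from the first one applied to the transform,
by `leg_plane`, `LL_leg`, `leg_leg` (membership only depends on `q + qᵀ`). -/
theorem partner_leg {J N : M3 ℂ} {h : Fin 10 → ℂ} {q : M10 ℂ} (hp : HasPlane J h q)
    (hN : LL J q * N = 1) : PartnerN (legH J N h q) (legQ J N q) h q := by
  refine partner_intro partb_g partb_g partb_gg (fun a ha => ?_) (partb_to hp hN)
  have := partb_to (leg_plane J N h q) (N := LL J q)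
    (by rw [LL_leg, mul_eq_one_comm.1 hN]) a ha
  obtain ⟨e1, e2⟩ := leg_leg hp hN
  unfold InLagN at this ⊢
  rwa [e1, e2] at this

end Pool.Agent.GM34
end

-- merged part: Pool.Agent.Work.MP_274aea_ag_D34.PartC
section
set_option autoImplicit false

open MvPolynomial Matrix Pool.Agent.GM16

namespace Pool.Agent.GM34

/-- The identity matrix with the row number zero replaced by `r`. -/
def partc_g (r : Fin 6 → ℂ) : Matrix (Fin 6) (Fin 6) ℂ :=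
  Matrix.of fun i j => if i = 0 then r j else if i = j then 1 else 0

theorem partc_sum (r f : Fin 6 → ℂ) {i : Fin 6} (hi : i ≠ 0) :
    ∑ i', partc_g r i i' * f i' = f i := by
  simp [partc_g, hi]

theorem partc_sum0 (r f : Fin 6 → ℂ) : ∑ i', partc_g r 0 i' * f i' = ∑ i', r i' * f i' := by
  simp [partc_g]

theorem partc_act (g : Matrix (Fin 6) (Fin 6) ℂ) (a : Fin 6 → Fin 6 → Fin 6 → ℂ) (i j k : Fin 6) :
    act g a i j k = ∑ i', g i i' * ∑ j', g j j' * ∑ k', g k k' * a i' j' k' := by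
  simp only [act, Finset.mul_sum, mul_assoc]

theorem partc_act1 (r : Fin 6 → ℂ) (a : Fin 6 → Fin 6 → Fin 6 → ℂ) {i j k : Fin 6} (hi : i ≠ 0)
    (hj : j ≠ 0) (hk : k ≠ 0) : act (partc_g r) a i j k = a i j k := by
  rw [partc_act, partc_sum r _ hi, partc_sum r _ hj, partc_sum r _ hk]

theorem partc_act2 (r : Fin 6 → ℂ) (a : Fin 6 → Fin 6 → Fin 6 → ℂ) {j k : Fin 6}
    (hj : j ≠ 0) (hk : k ≠ 0) : act (partc_g r) a 0 j k = ∑ i', r i' * a i' j k := by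
  rw [partc_act, partc_sum0]
  refine Finset.sum_congr rfl fun i' _ => ?_
  rw [partc_sum r _ hj, partc_sum r _ hk]

theorem partc_act3 (r : Fin 6 → ℂ) (a : Fin 6 → Fin 6 → Fin 6 → ℂ) {i k : Fin 6}
    (hi : i ≠ 0) (hk : k ≠ 0) : act (partc_g r) a i 0 k = ∑ j', r j' * a i j' k := by
  rw [partc_act, partc_sum r _ hi, partc_sum0]
  refine Finset.sum_congr rfl fun i' _ => ?_
  rw [partc_sum r _ hk]

theorem partc_inv (r r' : Fin 6 → ℂ) (h0 : r 0 = 1) (h0' : r' 0 = 1)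
    (h : ∀ j, j ≠ 0 → r' j = -r j) : partc_g r' * partc_g r = 1 := by
  ext i j
  rw [Matrix.mul_apply]
  by_cases hi : i = 0
  · subst hi
    rw [partc_sum0, Fin.sum_univ_succ, h0']
    by_cases hj : j = 0
    · subst hj
      simp [partc_g, h0, Fin.succ_ne_zero]
    · obtain ⟨j, rfl⟩ := Fin.exists_succ_eq.2 hj
      simp [partc_g, Fin.succ_ne_zero, h _ (Fin.succ_ne_zero j), (Fin.succ_ne_zero j).symm]
  · rw [partc_sum r' (fun m => partc_g r m j) hi]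
    simp [partc_g, hi, Matrix.one_apply]

theorem partc_z1 {a : Fin 6 → Fin 6 → Fin 6 → ℂ}
    (h : ∀ i j k, a j i k = -a i j k ∧ a i k j = -a i j k) (i k : Fin 6) : a i i k = 0 := by
  have := (h i i k).1
  linear_combination (1 / 2 : ℂ) * this

theorem partc_z2 {a : Fin 6 → Fin 6 → Fin 6 → ℂ}
    (h : ∀ i j k, a j i k = -a i j k ∧ a i k j = -a i j k) (i k : Fin 6) : a i k k = 0 := by
  have := (h i k k).2
  linear_combination (1 / 2 : ℂ) * this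

theorem partc_z3 {a : Fin 6 → Fin 6 → Fin 6 → ℂ}
    (h : ∀ i j k, a j i k = -a i j k ∧ a i k j = -a i j k) (i k : Fin 6) : a i k i = 0 := by
  rw [(h i i k).2, partc_z1 h, neg_zero]

theorem partc_wN (r : Fin 6 → ℂ) (a : Fin 6 → Fin 6 → Fin 6 → ℂ) :
    wN (act (partc_g r) a) =
      ![∑ j', r j' * a 5 j' 1, ∑ j', r j' * a 5 j' 2, ∑ j', r j' * a 5 j' 3, ∑ j', r j' * a 5 j' 4,
        a 5 1 2, a 5 1 3, a 5 1 4, a 5 2 3, a 5 2 4, a 5 3 4] := by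
  unfold wN
  rw [partc_act3 r a (by decide) (by decide), partc_act3 r a (by decide) (by decide),
    partc_act3 r a (by decide) (by decide), partc_act3 r a (by decide) (by decide),
    partc_act1 r a (by decide) (by decide) (by decide),
    partc_act1 r a (by decide) (by decide) (by decide),
    partc_act1 r a (by decide) (by decide) (by decide),
    partc_act1 r a (by decide) (by decide) (by decide),
    partc_act1 r a (by decide) (by decide) (by decide),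
    partc_act1 r a (by decide) (by decide) (by decide)]

theorem partc_xiN (r : Fin 6 → ℂ) (a : Fin 6 → Fin 6 → Fin 6 → ℂ) :
    xiN (act (partc_g r) a) =
      ![a 2 3 4, -a 1 3 4, a 1 2 4, -a 1 2 3, ∑ i', r i' * a i' 3 4, -∑ i', r i' * a i' 2 4,
        ∑ i', r i' * a i' 2 3, ∑ i', r i' * a i' 1 4, -∑ i', r i' * a i' 1 3,
        ∑ i', r i' * a i' 1 2] := by
  unfold xiN
  rw [partc_act1 r a (by decide) (by decide) (by decide),
    partc_act1 r a (by decide) (by decide) (by decide),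
    partc_act1 r a (by decide) (by decide) (by decide),
    partc_act1 r a (by decide) (by decide) (by decide),
    partc_act2 r a (by decide) (by decide), partc_act2 r a (by decide) (by decide),
    partc_act2 r a (by decide) (by decide), partc_act2 r a (by decide) (by decide),
    partc_act2 r a (by decide) (by decide), partc_act2 r a (by decide) (by decide)]

theorem partc_wP (c : ℂ) {a : Fin 6 → Fin 6 → Fin 6 → ℂ}
    (h : ∀ i j k, a j i k = -a i j k ∧ a i k j = -a i j k) :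
    wN (act (partc_g ![1, 0, 0, 0, 0, -c]) a) = wN a := by
  rw [partc_wN]
  simp [wN, Fin.sum_univ_six, partc_z1 h]

theorem partc_PP (w : Fin 10 → ℂ) :
    ((P0 : M10 ℂ) + (P0 : M10 ℂ)ᵀ) *ᵥ w = ![0, 0, 0, 0, w 9, -w 8, w 7, w 6, -w 5, w 4] := by
  ext i
  fin_cases i <;> simp [P0, Matrix.mulVec, dotProduct]

theorem partc_xP (c : ℂ) (a : Fin 6 → Fin 6 → Fin 6 → ℂ) :
    xiN (act (partc_g ![1, 0, 0, 0, 0, -c]) a) =
      xiN a - c • (((P0 : M10 ℂ) + (P0 : M10 ℂ)ᵀ) *ᵥ wN a) := by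
  rw [partc_xiN, partc_PP]
  ext i
  fin_cases i <;> simp [xiN, wN, Fin.sum_univ_six] <;> ring

theorem partc_P1 (c : ℂ) (h : Fin 10 → ℂ) (q : M10 ℂ) (a : Fin 6 → Fin 6 → Fin 6 → ℂ)
    (ha : InLagN h (q + c • P0) a) : InLagN h q (act (partc_g ![1, 0, 0, 0, 0, -c]) a) := by
  obtain ⟨h1, h2, μ, h3⟩ := ha
  refine ⟨act_alt _ h1, by rw [partc_wP c h1, h2], μ, ?_⟩
  rw [partc_xP, partc_wP c h1, h3]
  simp only [Matrix.transpose_add, Matrix.transpose_smul, Matrix.add_mulVec, Matrix.smul_mulVec,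
    smul_add]
  abel

/-- The matrix sends `e 5` to `e 5 - c • e 0` and fixes the other basis vectors. -/
theorem partner_P0 (c : ℂ) (h : Fin 10 → ℂ) (q : M10 ℂ) : PartnerN h (q + c • P0) h q := by
  refine partner_intro (partc_g ![1, 0, 0, 0, 0, -c]) (partc_g ![1, 0, 0, 0, 0, -(-c)])
    (partc_inv _ _ rfl rfl fun j hj => ?_) (partc_P1 c h q) fun a ha => partc_P1 (-c) h _ a ?_
  · fin_cases j <;> simp at hj ⊢
  · have e : q + c • (P0 : M10 ℂ) + (-c) • (P0 : M10 ℂ) = q := by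
      rw [neg_smul, add_neg_cancel_right]
    rwa [e]

theorem partc_GG (l : Fin 4 → ℂ) : (Gl l : M10 ℂ) * Gl (-l) = 1 := by
  have key : ∀ v : Fin 10 → ℂ, ∀ m : Fin 4 → ℂ, (Gl m : M10 ℂ) *ᵥ v =
      ![v 0 - m 1 * v 4 - m 2 * v 5 - m 3 * v 6, v 1 + m 0 * v 4 - m 2 * v 7 - m 3 * v 8,
        v 2 + m 0 * v 5 + m 1 * v 7 - m 3 * v 9, v 3 + m 0 * v 6 + m 1 * v 8 + m 2 * v 9,
        v 4, v 5, v 6, v 7, v 8, v 9] := fun v m => by
    funext i
    fin_cases i <;> simp [Gl, Matrix.mulVec, dotProduct, Fin.sum_univ_succ] <;> ring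
  refine Matrix.toLin'.injective (LinearMap.ext fun v => ?_)
  rw [Matrix.toLin'_apply, Matrix.toLin'_apply, ← Matrix.mulVec_mulVec, Matrix.one_mulVec, key, key]
  funext i
  fin_cases i <;> simp <;> ring

theorem partc_wG (l : Fin 4 → ℂ) {a : Fin 6 → Fin 6 → Fin 6 → ℂ}
    (h : ∀ i j k, a j i k = -a i j k ∧ a i k j = -a i j k) :
    wN (act (partc_g ![1, l 0, l 1, l 2, l 3, 0]) a) = Gl l *ᵥ wN a := by
  rw [partc_wN]
  have e1 := (h 5 1 2).2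
  have e2 := (h 5 1 3).2
  have e3 := (h 5 1 4).2
  have e4 := (h 5 2 3).2
  have e5 := (h 5 2 4).2
  have e6 := (h 5 3 4).2
  ext i
  fin_cases i <;>
    simp [wN, Gl, Matrix.mulVec, dotProduct, Fin.sum_univ_succ, partc_z2 h, e1, e2, e3, e4, e5, e6]

theorem partc_xG (l : Fin 4 → ℂ) {a : Fin 6 → Fin 6 → Fin 6 → ℂ}
    (h : ∀ i j k, a j i k = -a i j k ∧ a i k j = -a i j k) :
    xiN (act (partc_g ![1, l 0, l 1, l 2, l 3, 0]) a) = (Gl (-l))ᵀ *ᵥ xiN a := by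
  rw [partc_xiN]
  have e1 : a 2 1 3 = -a 1 2 3 := (h 1 2 3).1
  have e2 : a 2 1 4 = -a 1 2 4 := (h 1 2 4).1
  have e3 : a 3 1 4 = -a 1 3 4 := (h 1 3 4).1
  have e4 : a 3 2 4 = -a 2 3 4 := (h 2 3 4).1
  have e5 : a 3 1 2 = a 1 2 3 := by rw [(h 1 3 2).1, (h 1 2 3).2, neg_neg]
  have e6 : a 4 1 2 = a 1 2 4 := by rw [(h 1 4 2).1, (h 1 2 4).2, neg_neg]
  have e7 : a 4 1 3 = a 1 3 4 := by rw [(h 1 4 3).1, (h 1 3 4).2, neg_neg]
  have e8 : a 4 2 3 = a 2 3 4 := by rw [(h 2 4 3).1, (h 2 3 4).2, neg_neg]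
  ext i
  fin_cases i <;>
    simp [xiN, Gl, Matrix.mulVec, dotProduct, Fin.sum_univ_succ, partc_z1 h, partc_z3 h,
      e1, e2, e3, e4, e5, e6, e7, e8] <;> ring

theorem partc_G1 (l : Fin 4 → ℂ) (h : Fin 10 → ℂ) (q : M10 ℂ) (a : Fin 6 → Fin 6 → Fin 6 → ℂ)
    (ha : InLagN (hG l h) ((Gl l)ᵀ * q * Gl l) a) :
    InLagN h q (act (partc_g ![1, l 0, l 1, l 2, l 3, 0]) a) := by
  obtain ⟨h1, h2, μ, h3⟩ := ha
  refine ⟨act_alt _ h1, ?_, μ, ?_⟩
  · rw [partc_wG l h1, Matrix.dotProduct_mulVec]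
    exact h2
  · have e : ((Gl (-l))ᵀ * (Gl l)ᵀ : M10 ℂ) = 1 := by
      rw [← Matrix.transpose_mul, partc_GG, Matrix.transpose_one]
    have e' : ((Gl l)ᵀ * q * Gl l + ((Gl l)ᵀ * q * Gl l)ᵀ : M10 ℂ) = (Gl l)ᵀ * ((q + qᵀ) * Gl l) := by
      simp only [Matrix.transpose_mul, Matrix.transpose_transpose, Matrix.add_mul, Matrix.mul_add,
        Matrix.mul_assoc]
    rw [partc_xG l h1, partc_wG l h1, h3, e', hG, ← Matrix.mulVec_transpose, Matrix.mulVec_add,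
      Matrix.mulVec_smul, Matrix.mulVec_mulVec, Matrix.mulVec_mulVec, Matrix.mulVec_mulVec,
      ← Matrix.mul_assoc, e, Matrix.one_mul, Matrix.one_mulVec]

/-- The matrix sends `e i` to `e i + l (i - 1) • e 0` for `i = 1, …, 4` and fixes `e 0, e 5`; then
`wN (act g a) = Gl l *ᵥ wN a` and `(Gl l)ᵀ *ᵥ xiN (act g a) = xiN a` for alternating `a`, and
`Gl l * Gl (-l) = 1`. -/
theorem partner_Gl (l : Fin 4 → ℂ) (h : Fin 10 → ℂ) (q : M10 ℂ) :
    PartnerN (hG l h) ((Gl l)ᵀ * q * Gl l) h q := by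
  refine partner_intro (partc_g ![1, l 0, l 1, l 2, l 3, 0])
    (partc_g ![1, (-l) 0, (-l) 1, (-l) 2, (-l) 3, 0])
    (partc_inv _ _ rfl rfl fun j hj => ?_) (partc_G1 l h q) fun a ha => partc_G1 (-l) _ _ a ?_
  · fin_cases j <;> simp at hj ⊢
  · have e : ((Gl (-l))ᵀ * (Gl l)ᵀ : M10 ℂ) = 1 := by
      rw [← Matrix.transpose_mul, partc_GG, Matrix.transpose_one]
    have e1 : hG (-l) (hG l h) = h := by
      rw [hG, hG, Matrix.vecMul_vecMul, partc_GG, Matrix.vecMul_one]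
    have e2 : ((Gl (-l))ᵀ * ((Gl l)ᵀ * q * Gl l) * Gl (-l) : M10 ℂ) = q := by
      rw [← Matrix.mul_assoc, ← Matrix.mul_assoc, e, Matrix.one_mul, Matrix.mul_assoc, partc_GG,
        Matrix.mul_one]
    rwa [e1, e2]

theorem partner_G (l : Fin 4 → ℂ) (c : ℂ) (h : Fin 10 → ℂ) (q : M10 ℂ) :
    PartnerN (hG l h) (qG l c q) h q :=
  partner_trans (partner_P0 c _ _) (partner_Gl l h q)

end Pool.Agent.GM34
end
end

-- merged part: Pool.Agent.Work.MP_274aea_ag_D34.Ext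
section
-- merged part: Pool.Agent.Work.MP_274aea_ag_D34.ExtA
section
set_option autoImplicit false

open MvPolynomial Matrix Pool.Agent.GM16

namespace Pool.Agent.GM34

section Ring

variable {R S : Type*} [CommRing R] [CommRing S]

def xh (x : Par ⊕ Aux → R) : Fin 10 → R := hG (aL (x ∘ Sum.inr)) (hv (x ∘ Sum.inl))

def xq (x : Par ⊕ Aux → R) : M10 R :=
  qG (aL (x ∘ Sum.inr)) (aC (x ∘ Sum.inr)) (qm (x ∘ Sum.inl))

def xJ (x : Par ⊕ Aux → R) : M3 R := aJ (x ∘ Sum.inr)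

def xL (x : Par ⊕ Aux → R) : M3 R := LL (xJ x) (xq x)

/-- The Legendre transform of the data. -/
def xT (x : Par ⊕ Aux → R) (N : M3 R) : Par → R :=
  mkP (legH (xJ x) N (xh x) (xq x)) (legQ (xJ x) N (xq x))

def zq (z : Par ⊕ Aux1 → R) : M10 R := qm (z ∘ Sum.inl) + bC z • P0

def zL (z : Par ⊕ Aux1 → R) : M3 R := LL (bJ z) (zq z)

/-- From a solution of the small system to a solution of the large one. -/
def Th (z : Par ⊕ Aux1 → R) (N : M3 R) : Par ⊕ Aux → R :=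
  Sum.elim (mkP (legH (bJ z) N (hv (z ∘ Sum.inl)) (zq z)) (legQ (bJ z) N (zq z)))
    (mkA m0 (-(bJ z)ᵀ) 0 0 (Gm (-(bJ z)ᵀ) (zL z) (legQ (bJ z) N (zq z)) * Phi (m0 : Mi → R)))

variable (f : R →+* S)

theorem map_xh (x : Par ⊕ Aux → R) : f ∘ xh x = xh (f ∘ x) := map_hG f _ _

theorem map_xq (x : Par ⊕ Aux → R) : (xq x).map f = xq (f ∘ x) := map_qG f _ _ _

theorem map_xJ (x : Par ⊕ Aux → R) : (xJ x).map f = xJ (f ∘ x) := rfl

theorem map_xL (x : Par ⊕ Aux → R) : (xL x).map f = xL (f ∘ x) := by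
  rw [xL, map_LL, map_xq, map_xJ, xL]

theorem map_xT (x : Par ⊕ Aux → R) (N : M3 R) : f ∘ xT x N = xT (f ∘ x) (N.map f) := by
  rw [xT, map_mkP, map_legH, map_legQ, map_xq, map_xJ, map_xh, xT]

theorem map_bJ (z : Par ⊕ Aux1 → R) : (bJ z).map f = bJ (f ∘ z) := rfl

theorem map_zq (z : Par ⊕ Aux1 → R) : (zq z).map f = zq (f ∘ z) := by
  rw [zq, zq, ← map_P0 f]
  ext i j
  simp [qm, bC]

theorem map_zL (z : Par ⊕ Aux1 → R) : (zL z).map f = zL (f ∘ z) := by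
  rw [zL, map_LL, map_zq, map_bJ, zL]

theorem map_mkA (m : Mi → R) (J : M3 R) (l : Fin 4 → R) (c : R) (Y : Matrix (Fin 3) (Fin 9) R) :
    f ∘ mkA m J l c Y = mkA (f ∘ m) (J.map f) (f ∘ l) (f c) (Y.map f) := by
  funext i
  rcases i with i | i | i | i | i <;> rfl

theorem map_Th (z : Par ⊕ Aux1 → R) (N : M3 R) : f ∘ Th z N = Th (f ∘ z) (N.map f) := by
  have h1 : (-(bJ z)ᵀ).map f = -(bJ (f ∘ z))ᵀ := by
    ext i j
    simp [bJ]
  have h2 : f ∘ (0 : Fin 4 → R) = 0 := funext fun _ => map_zero f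
  rw [Th, Sum.comp_elim, map_mkP, map_mkA, map_legH, Matrix.map_mul, map_Gm, map_legQ, map_zq,
    map_zL, map_Phi, map_m0, h1, h2, map_zero, map_bJ, map_hv]
  rfl

theorem Th_h (z : Par ⊕ Aux1 → R) (N : M3 R) :
    xh (Th z N) = legH (bJ z) N (hv (z ∘ Sum.inl)) (zq z) := by
  change hG 0 (hv (mkP _ _)) = _
  rw [hG_zero, hv_mkP]

theorem Th_q (z : Par ⊕ Aux1 → R) (N : M3 R) : xq (Th z N) = legQ (bJ z) N (zq z) := by
  change qG 0 0 (qm (mkP _ _)) = _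
  rw [qG_zero, qm_mkP]

theorem Th_J (z : Par ⊕ Aux1 → R) (N : M3 R) : xJ (Th z N) = -(bJ z)ᵀ := rfl

theorem Th_L (z : Par ⊕ Aux1 → R) (N : M3 R) : xL (Th z N) = N := by
  rw [xL, Th_q, Th_J, LL_leg]

theorem F2_eq (x : Par ⊕ Aux → R) :
    F2 x = F2core (xh x) (xq x) (Phi (aM (x ∘ Sum.inr))) (xJ x) (aY (x ∘ Sum.inr)) := rfl

end Ring

theorem x1_q : zq (x1 : Par ⊕ Aux1 → ℂ) = Q0 := by
  change qm (mkP H0 Q0) + (0 : ℂ) • P0 = _
  rw [qm_mkP, zero_smul, add_zero]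

theorem x1_h : hv ((x1 : Par ⊕ Aux1 → ℂ) ∘ Sum.inl) = H0 := hv_mkP H0 Q0

theorem x1_J : bJ (x1 : Par ⊕ Aux1 → ℂ) = Jh0 := rfl

theorem x1_L : zL (x1 : Par ⊕ Aux1 → ℂ) = L0 := by rw [zL, x1_q, x1_J, num_LL]

theorem Th_x1 : Th (x1 : Par ⊕ Aux1 → ℂ) Nh0 = x2 := by
  rw [Th, x1_q, x1_h, x1_J, x1_L, num_legH, num_legQ, num_Y]
  rfl

theorem x2_L : xL (x2 : Par ⊕ Aux → ℂ) = Nh0 := by rw [← Th_x1, Th_L]

/-- Polynomial maps in a point and a matrix are continuous along the inverse matrix. -/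
theorem cont_inv {ι : Type} {E : (ι → ℂ) → M3 ℂ → ℂ} {L : (ι → ℂ) → M3 ℂ}
    (p : MvPolynomial (ι ⊕ Fin 3 × Fin 3) ℂ)
    (hE : ∀ x N, E x N = eval (Sum.elim x fun k => N k.1 k.2) p) (hL : Continuous L) {x : ι → ℂ}
    (hx : (L x).det ≠ 0) : ContinuousAt (fun y => E y (L y)⁻¹) x := by
  simp only [hE]
  have h1 : ContinuousAt (fun y => (L y)⁻¹) x := by
    refine ContinuousAt.comp (continuousAt_matrix_inv _ ?_) hL.continuousAt
    rw [Ring.inverse_eq_inv']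
    exact continuousAt_inv₀ hx
  refine (MvPolynomial.continuous_eval p).continuousAt.comp (continuousAt_pi.2 fun i => ?_)
  rcases i with i | i
  · exact (continuous_apply i).continuousAt
  · exact (continuous_apply_apply i.1 i.2).continuousAt.comp h1

/-- The generic matrix. -/
noncomputable def gN (ι : Type) : M3 (MvPolynomial (ι ⊕ Fin 3 × Fin 3) ℂ) :=
  Matrix.of fun i j => X (Sum.inr (i, j))

theorem ev_gN {ι : Type} (x : ι → ℂ) (N : M3 ℂ) :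
    (gN ι).map (eval (Sum.elim x fun k : Fin 3 × Fin 3 => N k.1 k.2)) = N := by
  ext i j
  simp [gN]

theorem ev_gX {ι : Type} (x : ι → ℂ) (N : M3 ℂ) :
    eval (Sum.elim x fun k : Fin 3 × Fin 3 => N k.1 k.2) ∘ (X ∘ Sum.inl) = x := by
  funext i
  simp

theorem ev_X {ι : Type} (x : ι → ℂ) : eval x ∘ (X : ι → MvPolynomial ι ℂ) = x :=
  funext fun i => eval_X i

theorem cont_xL : Continuous (xL : (Par ⊕ Aux → ℂ) → M3 ℂ) := by
  refine continuous_matrix fun i j => ?_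
  have h : ∀ x : Par ⊕ Aux → ℂ, xL x i j = eval x (xL X i j) := fun x => by
    conv_lhs => rw [← ev_X x, ← map_xL]
    rfl
  simp only [h]
  exact MvPolynomial.continuous_eval _

theorem cont_zL : Continuous (zL : (Par ⊕ Aux1 → ℂ) → M3 ℂ) := by
  refine continuous_matrix fun i j => ?_
  have h : ∀ x : Par ⊕ Aux1 → ℂ, zL x i j = eval x (zL X i j) := fun x => by
    conv_lhs => rw [← ev_X x, ← map_zL]
    rfl
  simp only [h]
  exact MvPolynomial.continuous_eval _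

theorem cont_cond3 {x : Par ⊕ Aux → ℂ} (hx : (xL x).det ≠ 0) :
    ContinuousAt (fun y : Par ⊕ Aux → ℂ => cond3 y (xL y)⁻¹) x :=
  cont_inv (cond3 (X ∘ Sum.inl) (gN _)) (fun y N => by rw [map_cond3, ev_gN, ev_gX]) cont_xL hx

theorem cont_xT {x : Par ⊕ Aux → ℂ} (hx : (xL x).det ≠ 0) :
    ContinuousAt (fun y : Par ⊕ Aux → ℂ => xT y (xL y)⁻¹) x :=
  continuousAt_pi.2 fun s => cont_inv (E := fun y N => xT y N s) (xT (X ∘ Sum.inl) (gN _) s)
    (fun y N => by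
      have h := map_xT (eval (Sum.elim y fun k : Fin 3 × Fin 3 => N k.1 k.2)) (X ∘ Sum.inl) (gN _)
      rw [ev_gN, ev_gX] at h
      exact (congrFun h s).symm) cont_xL hx

theorem cont_Th {z : Par ⊕ Aux1 → ℂ} (hz : (zL z).det ≠ 0) :
    ContinuousAt (fun y : Par ⊕ Aux1 → ℂ => Th y (zL y)⁻¹) z :=
  continuousAt_pi.2 fun s => cont_inv (E := fun y N => Th y N s) (Th (X ∘ Sum.inl) (gN _) s)
    (fun y N => by
      have h := map_Th (eval (Sum.elim y fun k : Fin 3 × Fin 3 => N k.1 k.2)) (X ∘ Sum.inl) (gN _)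
      rw [ev_gN, ev_gX] at h
      exact (congrFun h s).symm) cont_zL hz

end Pool.Agent.GM34
end

-- merged part: Pool.Agent.Work.MP_274aea_ag_D34.Cert1
section
set_option autoImplicit false

open MvPolynomial Matrix Pool.Agent.GM16

namespace Pool.Agent.GM34

theorem cert1_Q {R : Type*} [CommRing R] :
    (Q0 : M10 R) 4 4 = 0 ∧ (Q0 : M10 R) 4 5 = -1 ∧ (Q0 : M10 R) 4 6 = -1 ∧
    (Q0 : M10 R) 4 7 = 0 ∧ (Q0 : M10 R) 4 8 = 0 ∧ (Q0 : M10 R) 4 9 = 0 ∧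
    (Q0 : M10 R) 5 4 = 1 ∧ (Q0 : M10 R) 5 5 = -1 ∧ (Q0 : M10 R) 5 6 = 0 ∧
    (Q0 : M10 R) 5 7 = 1 ∧ (Q0 : M10 R) 5 8 = 0 ∧ (Q0 : M10 R) 5 9 = -1 ∧
    (Q0 : M10 R) 6 4 = 1 ∧ (Q0 : M10 R) 6 5 = 0 ∧ (Q0 : M10 R) 6 6 = 0 ∧
    (Q0 : M10 R) 6 7 = 1 ∧ (Q0 : M10 R) 6 8 = 0 ∧ (Q0 : M10 R) 6 9 = 0 ∧
    (Q0 : M10 R) 7 4 = -1 ∧ (Q0 : M10 R) 7 5 = 0 ∧ (Q0 : M10 R) 7 6 = 0 ∧
    (Q0 : M10 R) 7 7 = 1 ∧ (Q0 : M10 R) 7 8 = 0 ∧ (Q0 : M10 R) 7 9 = 0 ∧
    (Q0 : M10 R) 8 4 = 0 ∧ (Q0 : M10 R) 8 5 = -1 ∧ (Q0 : M10 R) 8 6 = -1 ∧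
    (Q0 : M10 R) 8 7 = 0 ∧ (Q0 : M10 R) 8 8 = 0 ∧ (Q0 : M10 R) 8 9 = 0 ∧
    (Q0 : M10 R) 9 4 = 0 ∧ (Q0 : M10 R) 9 5 = 0 ∧ (Q0 : M10 R) 9 6 = 0 ∧
    (Q0 : M10 R) 9 7 = 0 ∧ (Q0 : M10 R) 9 8 = 0 ∧ (Q0 : M10 R) 9 9 = 0 :=
  ⟨rfl, rfl, rfl, rfl, rfl, rfl, rfl, rfl, rfl, rfl, rfl, rfl, rfl, rfl, rfl, rfl, rfl, rfl,
    rfl, rfl, rfl, rfl, rfl, rfl, rfl, rfl, rfl, rfl, rfl, rfl, rfl, rfl, rfl, rfl, rfl, rfl⟩

theorem cert1_P {R : Type*} [CommRing R] :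
    (P0 : M10 R) 4 4 = 0 ∧ (P0 : M10 R) 4 5 = 0 ∧ (P0 : M10 R) 4 6 = 0 ∧
    (P0 : M10 R) 4 7 = 0 ∧ (P0 : M10 R) 4 8 = 0 ∧ (P0 : M10 R) 4 9 = 1 ∧
    (P0 : M10 R) 5 4 = 0 ∧ (P0 : M10 R) 5 5 = 0 ∧ (P0 : M10 R) 5 6 = 0 ∧
    (P0 : M10 R) 5 7 = 0 ∧ (P0 : M10 R) 5 8 = -1 ∧ (P0 : M10 R) 5 9 = 0 ∧
    (P0 : M10 R) 6 4 = 0 ∧ (P0 : M10 R) 6 5 = 0 ∧ (P0 : M10 R) 6 6 = 0 ∧
    (P0 : M10 R) 6 7 = 1 ∧ (P0 : M10 R) 6 8 = 0 ∧ (P0 : M10 R) 6 9 = 0 ∧
    (P0 : M10 R) 7 4 = 0 ∧ (P0 : M10 R) 7 5 = 0 ∧ (P0 : M10 R) 7 6 = 0 ∧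
    (P0 : M10 R) 7 7 = 0 ∧ (P0 : M10 R) 7 8 = 0 ∧ (P0 : M10 R) 7 9 = 0 ∧
    (P0 : M10 R) 8 4 = 0 ∧ (P0 : M10 R) 8 5 = 0 ∧ (P0 : M10 R) 8 6 = 0 ∧
    (P0 : M10 R) 8 7 = 0 ∧ (P0 : M10 R) 8 8 = 0 ∧ (P0 : M10 R) 8 9 = 0 ∧
    (P0 : M10 R) 9 4 = 0 ∧ (P0 : M10 R) 9 5 = 0 ∧ (P0 : M10 R) 9 6 = 0 ∧
    (P0 : M10 R) 9 7 = 0 ∧ (P0 : M10 R) 9 8 = 0 ∧ (P0 : M10 R) 9 9 = 0 :=
  ⟨rfl, rfl, rfl, rfl, rfl, rfl, rfl, rfl, rfl, rfl, rfl, rfl, rfl, rfl, rfl, rfl, rfl, rfl,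
    rfl, rfl, rfl, rfl, rfl, rfl, rfl, rfl, rfl, rfl, rfl, rfl, rfl, rfl, rfl, rfl, rfl, rfl⟩

theorem cert1_col {R : Type*} [CommRing R] (J : M3 R) (h : Fin 10 → R) (b : Fin 3) :
    ∑ j, h j * jm J j b = ![h 4, h 5, h 6] b +
      h 7 * J 2 b - h 8 * J 1 b + h 9 * J 0 b := by
  fin_cases b <;> simp [Fin.sum_univ_succ, jm] <;> ring

theorem cert1_poly {R : Type*} [CommRing R] (J : M3 R) (c : R) :
    F1 H0 (Q0 + c • P0) J = Sum.elim ![J 0 0 - J 2 0, J 0 1 - J 2 1, -1 + J 0 2 - J 2 2]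
      ![2 * J 0 0 * c - 2 * J 2 0 + 2 * J 2 0 * J 2 0,
        -J 0 0 + J 0 1 * c + J 1 0 + J 1 0 * c + J 2 0 + 2 * J 2 0 * J 2 1 - J 2 1,
        J 0 2 * c + J 1 0 + J 2 0 + 2 * J 2 0 * J 2 2 + J 2 0 * c - J 2 2,
        -2 - 2 * J 0 1 + 2 * J 1 1 + 2 * J 1 1 * c + 2 * J 2 1 + 2 * J 2 1 * J 2 1,
        -J 0 2 + J 1 1 + J 1 2 + J 1 2 * c + J 2 1 + 2 * J 2 1 * J 2 2 + J 2 1 * c + J 2 2,
        2 * J 1 2 + 2 * J 2 2 + 2 * J 2 2 * J 2 2 + 2 * J 2 2 * c] := by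
  have e : ∀ (s : M10 R) (a : Fin 3) (j : Fin 10), ((jm J)ᵀ * s) a j =
      ![s 4 j, s 5 j, s 6 j] a +
        s 7 j * J 2 a - s 8 j * J 1 a + s 9 j * J 0 a := by
    intro s a j
    rw [Matrix.mul_apply, ← cert1_col J (fun i => s i j) a]
    exact Finset.sum_congr rfl fun i _ => mul_comm _ _
  funext k
  rcases k with k | k
  · show ∑ j, H0 j * jm J j k = _
    rw [cert1_col]
    fin_cases k <;> simp [H0] <;> ring
  · show ∑ j, ((jm J)ᵀ * (Q0 + c • P0 + (Q0 + c • P0)ᵀ) : Matrix (Fin 3) (Fin 10) R) (sy k).1 j *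
      jm J j (sy k).2 = _
    rw [cert1_col]
    simp only [e]
    fin_cases k <;> simp [sy, cert1_Q, cert1_P] <;> ring

theorem cert1_pt (D : M3 ℂ) (c : ℂ) :
    F1x (dn x1 (Sum.elim 0 (Sum.elim (fun k => D k.1 k.2) fun _ => c))) =
      F1 H0 (Q0 + (TrivSqZeroExt.inr c : DualNumber ℂ) • P0)
        (Matrix.of fun i j => TrivSqZeroExt.inl (Jh0 i j) + TrivSqZeroExt.inr (D i j)) := by
  have e : dn x1 (Sum.elim 0 (Sum.elim (fun k : Fin 3 × Fin 3 => D k.1 k.2) fun _ : Unit => c)) ∘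
      Sum.inl = mkP (H0 : Fin 10 → DualNumber ℂ) Q0 := by
    rw [← map_H0 (TrivSqZeroExt.inlHom ℂ ℂ), ← map_Q0 (TrivSqZeroExt.inlHom ℂ ℂ)]
    funext s
    rcases s with s | s <;> simp [dn, x1, mkP]
  unfold F1x
  rw [e, hv_mkP, qm_mkP]
  congr 2
  simp [bC, dn, x1]

/-- The derivative of the small system in the ten auxiliary variables has rank nine. -/
theorem cert1 (r : Eq1 → ℂ) : ∃ v : Par ⊕ Aux1 → ℂ, (∀ s, v (Sum.inl s) = 0) ∧
    ∀ k, (F1x (dn x1 v) k).snd = r k := by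
  obtain ⟨a, ha⟩ : ∃ a : Fin 3 → ℂ, a = fun i => r (Sum.inl i) := ⟨_, rfl⟩
  obtain ⟨d, hd⟩ : ∃ d : Fin 6 → ℂ, d = fun i => r (Sum.inr i) := ⟨_, rfl⟩
  have hr : r = Sum.elim a d := by
    funext k
    rcases k with k | k <;> simp [ha, hd]
  obtain ⟨D, hD⟩ : ∃ D : M3 ℂ, D = !![a 0 - d 0 / 2,
      (-a 0 + a 1 + a 2) / 2 + d 0 / 4 - d 1 / 2 + d 2 / 2 - d 3 / 4 + d 4 / 2 - d 5 / 4, a 2;
    (a 0 - a 1 + a 2) / 2 + d 0 / 4 + d 1 / 2 + d 2 / 2 - d 3 / 4 + d 4 / 2 - d 5 / 4,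
      (a 0 + a 1 + a 2) / 2 - d 0 / 4 + d 1 / 2 - d 2 / 2 + d 3 / 4 + d 4 / 2 - d 5 / 4, d 5 / 2;
    -d 0 / 2, (-a 0 - a 1 + a 2) / 2 + d 0 / 4 - d 1 / 2 + d 2 / 2 - d 3 / 4 + d 4 / 2 - d 5 / 4,
      0] := ⟨_, rfl⟩
  refine ⟨Sum.elim 0 (Sum.elim (fun k => D k.1 k.2) fun _ =>
    (-a 0 + a 1 - a 2) / 2 + d 0 / 4 - d 1 / 2 + d 2 / 2 + d 3 / 4 - d 4 / 2 + d 5 / 4),
    fun s => rfl, fun k => ?_⟩
  have two : (2 : DualNumber ℂ) = TrivSqZeroExt.inl 2 := rfl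
  rw [cert1_pt, cert1_poly, hr, two]
  rcases k with k | k <;> fin_cases k <;> simp [Jh0, hD] <;> ring

end Pool.Agent.GM34
end

-- merged part: Pool.Agent.Work.MP_274aea_ag_D34.OpenSm
section
set_option autoImplicit false

open MvPolynomial Matrix Pool.Agent.GM16

namespace Pool.Agent.GM34

theorem opensm_closed {X Y : Type} [TopologicalSpace X] [TopologicalSpace Y] {K : Set Y}
    (hK : IsCompact K) {P : X → Y → Prop} (hP : IsClosed {z : X × Y | P z.1 z.2}) :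
    IsClosed {x | ∃ y ∈ K, P x y} := by
  have : CompactSpace K := isCompact_iff_compactSpace.1 hK
  have h := isClosedMap_fst_of_compactSpace (X := X) (Y := K) _
    (hP.preimage (continuous_fst.prodMk (continuous_subtype_val.comp continuous_snd)))
  have e : {x | ∃ y ∈ K, P x y} = Prod.fst '' ((fun z : X × K => (z.1, (z.2 : Y))) ⁻¹'
      {z : X × Y | P z.1 z.2}) := by
    ext x
    exact ⟨fun ⟨y, hy, k⟩ => ⟨(x, ⟨y, hy⟩), k, rfl⟩, fun ⟨z, k, e⟩ => ⟨z.2, z.2.2, e ▸ k⟩⟩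
  rwa [e]

theorem opensm_ex {X ι : Type} [TopologicalSpace X] [Finite ι] {P : ι → X → Prop}
    (h : ∀ i, IsClosed {x | P i x}) : IsClosed {x | ∃ i, P i x} := by
  rw [Set.ofPred_exists]
  exact isClosed_iUnion_of_finite h

theorem opensm_all {X ι : Type} [TopologicalSpace X] {P : ι → X → Prop}
    (h : ∀ i, IsClosed {x | P i x}) : IsClosed {x | ∀ i, P i x} := by
  rw [Set.ofPred_forall]
  exact isClosed_iInter h

theorem opensm_pw {X : Type} [TopologicalSpace X] {u v : X → Fin 5 → ℂ} (hu : Continuous u)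
    (hv : Continuous v) : Continuous fun x => pw (u x) (v x) := by
  refine continuous_pi fun i => ?_
  fin_cases i <;> simp [pw] <;> fun_prop

theorem opensm_bq {X : Type} [TopologicalSpace X] {q : X → M10 ℂ} {p p' : X → Fin 10 → ℂ}
    (hq : Continuous q) (hp : Continuous p) (hp' : Continuous p') :
    Continuous fun x => bq (q x) (p x) (p' x) := hp.dotProduct (hq.matrix_mulVec hp')

/-- A singular datum. -/
def opensm_S (x : (Fin 10 → ℂ) × M10 ℂ) (u v : Fin 5 → ℂ) (a b : ℂ) : Prop :=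
  x.1 ⬝ᵥ pw u v = 0 ∧ bq x.2 (pw u v) (pw u v) = 0 ∧ ∀ u' v' : Fin 5 → ℂ,
    a * x.1 ⬝ᵥ (pw u' v + pw u v') + b * bs x.2 (pw u v) (pw u' v + pw u v') = 0

theorem opensm_smul (q : M10 ℂ) (c : ℂ) (p p' : Fin 10 → ℂ) :
    bq q (c • p) p' = c * bq q p p' ∧ bq q p' (c • p) = c * bq q p' p := by
  simp [bq, mulVec_smul]

theorem opensm_det (u v : Fin 5 → ℂ) (α β γ δ : ℂ) :
    pw (α • u + β • v) (γ • u + δ • v) = (α * δ - β * γ) • pw u v := by
  funext i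
  fin_cases i <;> simp [pw] <;> ring

theorem opensm_tan (u v u' v' : Fin 5 → ℂ) (α β γ δ : ℂ) :
    pw u' (γ • u + δ • v) + pw (α • u + β • v) v' =
      pw (δ • u' - β • v') v + pw u (α • v' - γ • u') := by
  funext i
  fin_cases i <;> simp [pw] <;> ring

theorem opensm_chg {x : (Fin 10 → ℂ) × M10 ℂ} {u v : Fin 5 → ℂ} {a b : ℂ} (h : opensm_S x u v a b)
    {α β γ δ m : ℂ} (hm : (α * δ - β * γ) * m = 1) (c : ℂ) :
    opensm_S x (α • u + β • v) (γ • u + δ • v) (c * a) (c * (m * b)) := by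
  refine ⟨?_, ?_, fun u' v' => ?_⟩
  · rw [opensm_det, dotProduct_smul, h.1, smul_zero]
  · rw [opensm_det, (opensm_smul _ _ _ _).1, (opensm_smul _ _ _ _).2, h.2.1, mul_zero, mul_zero]
  · have k := h.2.2 (δ • u' - β • v') (α • v' - γ • u')
    rw [bs] at k
    rw [opensm_tan, opensm_det, bs, (opensm_smul _ _ _ _).1, (opensm_smul _ _ _ _).2]
    linear_combination c * k + c * b * (bq x.2 (pw u v) _ + bq x.2 _ (pw u v)) * hm

theorem opensm_norm {x : (Fin 10 → ℂ) × M10 ℂ} {u v : Fin 5 → ℂ} {a b : ℂ}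
    (h : opensm_S x u v a b) (hi : pw u v ≠ 0) (hab : ¬ (a = 0 ∧ b = 0)) :
    ∃ y ∈ Metric.closedBall (0 : (Fin 5 → ℂ) × (Fin 5 → ℂ) × ℂ × ℂ) 1,
      (∃ i j, y.1 i * y.2.1 j - y.1 j * y.2.1 i = 1) ∧ ‖y.2.2‖ = 1 ∧
        opensm_S x y.1 y.2.1 y.2.2.1 y.2.2.2 := by
  obtain ⟨⟨i, j⟩, hm⟩ := Finite.exists_max fun p : Fin 5 × Fin 5 => ‖u p.1 * v p.2 - u p.2 * v p.1‖
  obtain ⟨m, e⟩ : ∃ m, m = u i * v j - u j * v i := ⟨_, rfl⟩
  simp only [← e, Prod.forall] at hm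
  have m0 : m ≠ 0 := by
    rintro rfl
    have k : ∀ s t, u s * v t - u t * v s = 0 := fun s t =>
      norm_le_zero_iff.1 ((hm s t).trans_eq norm_zero)
    refine hi (funext fun s => ?_)
    fin_cases s <;> exact k _ _
  have n0 : ((a, m * b) : ℂ × ℂ) ≠ 0 := fun k =>
    hab ⟨congrArg Prod.fst k, (mul_eq_zero.1 (congrArg Prod.snd k)).resolve_left m0⟩
  have n1 : ‖((‖((a, m * b) : ℂ × ℂ)‖⁻¹ : ℝ) : ℂ) • ((a, m * b) : ℂ × ℂ)‖ = 1 := by
    rw [norm_smul, Complex.norm_real, norm_inv, norm_norm, inv_mul_cancel₀ (norm_ne_zero_iff.2 n0)]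
  have bd : ∀ s t, ‖(u s * v t - u t * v s) / m‖ ≤ 1 := fun s t => by
    rw [norm_div]
    exact div_le_one_of_le₀ (hm s t) (norm_nonneg _)
  refine ⟨((v j / m) • u + (-u j / m) • v, (-v i / m) • u + (u i / m) • v,
    ((‖((a, m * b) : ℂ × ℂ)‖⁻¹ : ℝ) : ℂ) • ((a, m * b) : ℂ × ℂ)), ?_, ⟨i, j, ?_⟩, n1,
    opensm_chg h ?_ _⟩
  · rw [mem_closedBall_zero_iff, Prod.norm_def, Prod.norm_def]
    refine max_le ((pi_norm_le_iff_of_nonneg zero_le_one).2 fun s => (le_of_eq ?_).trans (bd s j))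
      (max_le ((pi_norm_le_iff_of_nonneg zero_le_one).2 fun s => (le_of_eq ?_).trans (bd i s))
        n1.le)
    all_goals
      refine congrArg _ ?_
      simp only [Pi.add_apply, Pi.smul_apply, smul_eq_mul]
      ring
  · simp only [Pi.add_apply, Pi.smul_apply, smul_eq_mul]
    field_simp
    rw [e]
    ring
  · field_simp
    rw [e]
    ring

/-- The complement is the projection along a compact factor of a closed set
(`isClosedMap_fst_of_compactSpace`). Normalise a singular datum: the conditions only depend on the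
span of `u, v` and on the line of `(a, b)`. Choose `i, j` with the minor `u i * v j - u j * v i` of
largest norm and replace `u, v` by the basis with `u i = 1, u j = 0, v i = 0, v j = 1`; its entries
are quotients of minors, of norm at most one. Scale `(a, b)` to norm one. -/
theorem isOpen_smooth : IsOpen {x : (Fin 10 → ℂ) × M10 ℂ | SmoothN x.1 x.2} := by
  have e : {x : (Fin 10 → ℂ) × M10 ℂ | SmoothN x.1 x.2}ᶜ =
      {x | ∃ y ∈ Metric.closedBall (0 : (Fin 5 → ℂ) × (Fin 5 → ℂ) × ℂ × ℂ) 1,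
        (∃ i j, y.1 i * y.2.1 j - y.1 j * y.2.1 i = 1) ∧ ‖y.2.2‖ = 1 ∧
          opensm_S x y.1 y.2.1 y.2.2.1 y.2.2.2} := by
    ext x
    constructor
    · intro h
      by_contra k
      exact h fun u v hi h1 h2 a b h3 => by_contra fun hab =>
        k (opensm_norm ⟨h1, h2, h3⟩ (pw_ne.1 hi) hab)
    · rintro ⟨⟨u, v, a, b⟩, -, ⟨i, j, hm⟩, n1, h1, h2, h3⟩ h
      have hi : LinearIndependent ℂ ![u, v] := LinearIndependent.pair_iff.2 fun s t k => by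
        have k1 : s * u i + t * v i = 0 := congrFun k i
        have k2 : s * u j + t * v j = 0 := congrFun k j
        have hm' : u i * v j - u j * v i = 1 := hm
        exact ⟨by linear_combination v j * k1 - v i * k2 - s * hm',
          by linear_combination u i * k2 - u j * k1 - t * hm'⟩
      obtain ⟨rfl, rfl⟩ := h u v hi h1 h2 a b h3
      simp at n1
  rw [← isClosed_compl_iff, e]
  refine opensm_closed (isCompact_closedBall _ _) ?_
  have c1 : Continuous fun z : ((Fin 10 → ℂ) × M10 ℂ) × (Fin 5 → ℂ) × (Fin 5 → ℂ) × ℂ × ℂ =>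
      pw z.2.1 z.2.2.1 := opensm_pw (by fun_prop) (by fun_prop)
  refine IsClosed.inter ?_ ((isClosed_eq (by fun_prop) continuous_const).inter
    ((isClosed_eq (continuous_fst.fst.dotProduct c1) continuous_const).inter
      ((isClosed_eq (opensm_bq continuous_fst.snd c1 c1) continuous_const).inter ?_)))
  · exact opensm_ex fun i => opensm_ex fun j => isClosed_eq (by fun_prop) continuous_const
  · refine opensm_all fun u' => opensm_all fun v' => ?_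
    have c2 : Continuous fun z : ((Fin 10 → ℂ) × M10 ℂ) × (Fin 5 → ℂ) × (Fin 5 → ℂ) × ℂ × ℂ =>
        pw u' z.2.2.1 + pw z.2.1 v' :=
      (opensm_pw continuous_const (by fun_prop)).add (opensm_pw (by fun_prop) continuous_const)
    exact isClosed_eq ((continuous_snd.snd.snd.fst.mul (continuous_fst.fst.dotProduct c2)).add
      (continuous_snd.snd.snd.snd.mul ((opensm_bq continuous_fst.snd c1 c2).add
        (opensm_bq continuous_fst.snd c2 c1)))) continuous_const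

end Pool.Agent.GM34
end

-- merged part: Pool.Agent.Work.MP_274aea_ag_D34.NoDec
section
set_option autoImplicit false

open MvPolynomial Matrix Pool.Agent.GM16

namespace Pool.Agent.GM34

/-- A minor of three covectors. -/
def nodec_D (a b c : Fin 5 → ℂ) (i j k : Fin 5) : ℂ :=
  a i * (b j * c k - b k * c j) - a j * (b i * c k - b k * c i) + a k * (b i * c j - b j * c i)

/-- The trivector dual to `ξ`, evaluated at three covectors. -/
def nodec_T (ξ : Fin 10 → ℂ) (a b c : Fin 5 → ℂ) : ℂ :=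
  ξ 0 * nodec_D a b c 2 3 4 - ξ 1 * nodec_D a b c 1 3 4 + ξ 2 * nodec_D a b c 1 2 4 -
    ξ 3 * nodec_D a b c 1 2 3 + ξ 4 * nodec_D a b c 0 3 4 - ξ 5 * nodec_D a b c 0 2 4 +
    ξ 6 * nodec_D a b c 0 2 3 + ξ 7 * nodec_D a b c 0 1 4 - ξ 8 * nodec_D a b c 0 1 3 +
    ξ 9 * nodec_D a b c 0 1 2

/-- A minor of four covectors. -/
def nodec_E (a b c d : Fin 5 → ℂ) (i j k l : Fin 5) : ℂ :=
  a i * nodec_D b c d j k l - a j * nodec_D b c d i k l + a k * nodec_D b c d i j l -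
    a l * nodec_D b c d i j k

theorem nodec_dot (ξ : Fin 10 → ℂ) (w y : Fin 5 → ℂ) : ξ ⬝ᵥ pw w y =
    ξ 0 * (w 0 * y 1 - w 1 * y 0) + ξ 1 * (w 0 * y 2 - w 2 * y 0) + ξ 2 * (w 0 * y 3 - w 3 * y 0) +
      ξ 3 * (w 0 * y 4 - w 4 * y 0) + ξ 4 * (w 1 * y 2 - w 2 * y 1) +
      ξ 5 * (w 1 * y 3 - w 3 * y 1) + ξ 6 * (w 1 * y 4 - w 4 * y 1) +
      ξ 7 * (w 2 * y 3 - w 3 * y 2) + ξ 8 * (w 2 * y 4 - w 4 * y 2) +
      ξ 9 * (w 3 * y 4 - w 4 * y 3) := by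
  simp only [dotProduct, Fin.sum_univ_succ, Fin.sum_univ_zero, pw]
  simp
  ring

theorem nodec_wedge {ξ : Fin 10 → ℂ} {y : Fin 5 → ℂ} (hy : ∀ w, ξ ⬝ᵥ pw w y = 0)
    (a b c d : Fin 5 → ℂ) :
    a ⬝ᵥ y * nodec_T ξ b c d - b ⬝ᵥ y * nodec_T ξ a c d + c ⬝ᵥ y * nodec_T ξ a b d -
      d ⬝ᵥ y * nodec_T ξ a b c = 0 := by
  have h := hy ![nodec_E a b c d 1 2 3 4, -nodec_E a b c d 0 2 3 4, nodec_E a b c d 0 1 3 4,
    -nodec_E a b c d 0 1 2 4, nodec_E a b c d 0 1 2 3]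
  rw [nodec_dot] at h
  simp only [cons_val_zero, cons_val_one, cons_val, nodec_E, nodec_D] at h
  simp only [dotProduct, Fin.sum_univ_five, nodec_T, nodec_D]
  linear_combination h

theorem nodec_dual {u v : Fin 5 → ℂ} (h : pw u v ≠ 0) :
    ∃ φ ψ : Fin 5 → ℂ, φ ⬝ᵥ u = 1 ∧ φ ⬝ᵥ v = 0 ∧ ψ ⬝ᵥ v = 1 := by
  obtain ⟨i, j, hp⟩ : ∃ i j, u i * v j - u j * v i ≠ 0 := by
    by_contra hc
    push Not at hc
    refine h (funext fun k => ?_)
    fin_cases k <;> exact hc _ _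
  have hr := mul_inv_cancel₀ hp
  generalize (u i * v j - u j * v i)⁻¹ = r at hr
  refine ⟨Pi.single i (v j * r) - Pi.single j (v i * r),
    Pi.single j (u i * r) - Pi.single i (u j * r), ?_, ?_, ?_⟩ <;>
    rw [sub_dotProduct, single_dotProduct, single_dotProduct]
  exacts [by linear_combination hr, by ring, by linear_combination hr]

theorem nodec_snoc (u : Fin 5 → ℂ) (c : ℂ) :
    (Fin.snoc u c : Fin 6 → ℂ) = ![u 0, u 1, u 2, u 3, u 4, c] := by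
  funext i
  fin_cases i <;> rfl

/-- A linear form on bivectors that kills `u ∧ V + V ∧ v` is `u ∧ v ∧ x`. If the entry `(i, j)` of
`pw u v` is not zero and `k, l, n` are the other indices, `x` is supported on `k, l, n` with
coordinates the values of `ξ` at `(l, n), (k, n), (k, l)` divided by that entry, up to sign. -/
theorem ann_dec {u v : Fin 5 → ℂ} (h : pw u v ≠ 0) {ξ : Fin 10 → ℂ}
    (hξ : ∀ u' v' : Fin 5 → ℂ, ξ ⬝ᵥ (pw u' v + pw u v') = 0) :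
    ∃ x : Fin 5 → ℂ, ξ = xiN (w3 (Fin.snoc u 0) (Fin.snoc v 0) (Fin.snoc x 1)) ∧
      wN (w3 (Fin.snoc u 0) (Fin.snoc v 0) (Fin.snoc x 1)) = pw u v := by
  have hv : ∀ w, ξ ⬝ᵥ pw w v = 0 := fun w => by
    have := hξ w 0
    rw [dotProduct_add, nodec_dot ξ u] at this
    simpa using this
  have hu : ∀ w, ξ ⬝ᵥ pw w u = 0 := fun w => by
    have := hξ 0 w
    rw [dotProduct_add, nodec_dot, nodec_dot] at this
    rw [nodec_dot]
    simp only [Pi.zero_apply] at this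
    linear_combination -this
  obtain ⟨φ, ψ, h1, h2, h3⟩ := nodec_dual h
  have hs : ∀ c d, nodec_T ξ φ c d =
      c ⬝ᵥ v * nodec_T ξ φ ψ d - d ⬝ᵥ v * nodec_T ξ φ ψ c := fun c d => by
    have := nodec_wedge hv φ ψ c d
    rw [h2, h3] at this
    linear_combination -this
  obtain ⟨x, hx⟩ : ∃ x : Fin 5 → ℂ, ∀ l, nodec_T ξ φ ψ (Pi.single l 1) = x l := ⟨_, fun _ => rfl⟩
  have ht : ∀ j k l, nodec_T ξ (Pi.single j 1) (Pi.single k 1) (Pi.single l 1) =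
      nodec_D u v x j k l := fun j k l => by
    have := nodec_wedge hu φ (Pi.single j 1) (Pi.single k 1) (Pi.single l 1)
    rw [h1, hs (Pi.single k 1), hs (Pi.single j 1), hs (Pi.single j 1)] at this
    simp only [single_dotProduct, hx] at this
    rw [nodec_D]
    linear_combination this
  refine ⟨x, ?_, ?_⟩
  · have e0 := ht 2 3 4
    have e1 := ht 1 3 4
    have e2 := ht 1 2 4
    have e3 := ht 1 2 3
    have e4 := ht 0 3 4
    have e5 := ht 0 2 4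
    have e6 := ht 0 2 3
    have e7 := ht 0 1 4
    have e8 := ht 0 1 3
    have e9 := ht 0 1 2
    simp [nodec_T, nodec_D] at e0 e1 e2 e3 e4 e5 e6 e7 e8 e9
    funext i
    fin_cases i <;> simp [xiN, w3, nodec_snoc]
    exacts [by linear_combination e0, by linear_combination -e1, by linear_combination e2,
      by linear_combination -e3, by linear_combination e4, by linear_combination -e5,
      by linear_combination e6, by linear_combination e7, by linear_combination -e8,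
      by linear_combination e9]
  · funext i
    fin_cases i <;> simp [wN, w3, nodec_snoc, pw, sub_eq_add_neg]

/-- A singular point with `b ≠ 0` gives the decomposable vector of `ann_dec` for
`ξ = (q + qᵀ) *ᵥ pw u v + (a / b) • h`; the case `b = 0` is `pfaff`. -/
theorem nodec_smooth {h : Fin 10 → ℂ} {q : M10 ℂ} (hk : kap1 h ≠ 0) (hn : NoDec h q) :
    SmoothN h q := by
  intro u v hli hh hq a b hab
  have hp := pw_ne.1 hli
  by_cases hb : b = 0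
  · refine ⟨by_contra fun ha => hp (pfaff hk fun u' v' => ?_), hb⟩
    have := hab u' v'
    rw [hb, zero_mul, add_zero] at this
    exact (mul_eq_zero.1 this).resolve_left ha
  · exfalso
    obtain ⟨x, h1, h2⟩ := ann_dec (ξ := (q + qᵀ) *ᵥ pw u v + (a / b) • h) hp fun u' v' => by
      have := hab u' v'
      generalize pw u' v + pw u v' = p at this
      rw [add_dotProduct, smul_dotProduct, add_mulVec, add_dotProduct, mulVec_transpose,
        ← dotProduct_mulVec, dotProduct_comm (q *ᵥ _), smul_eq_mul]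
      rw [bs, bq, bq] at this
      field_simp
      linear_combination this
    have h3 := hn (Fin.snoc u 0) (Fin.snoc v 0) (Fin.snoc x 1)
      ⟨fun i j k => ⟨by simp only [w3]; ring, by simp only [w3]; ring⟩, by rw [h2, hh],
        a / b, by rw [h2, ← h1]⟩
    refine hp ?_
    rw [← h2, h3]
    funext i
    fin_cases i <;> rfl

end Pool.Agent.GM34
end

-- merged part: Pool.Agent.Work.MP_274aea_ag_D34.NoDec2
section
set_option autoImplicit false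

open MvPolynomial Matrix Pool.Agent.GM16

namespace Pool.Agent.GM34

/-- The first five coordinates. -/
def nodec2_r (u : Fin 6 → ℂ) : Fin 5 → ℂ := ![u 0, u 1, u 2, u 3, u 4]

/-- A vector of the span. -/
def nodec2_sp (u v w : Fin 6 → ℂ) (a b c : ℂ) : Fin 5 → ℂ :=
  a • nodec2_r u + b • nodec2_r v + c • nodec2_r w

/-- The product of a bivector and a vector. -/
def nodec2_wd (p : Fin 10 → ℂ) (z : Fin 5 → ℂ) : Fin 10 → ℂ :=
  ![p 7 * z 4 - p 8 * z 3 + p 9 * z 2, -(p 5 * z 4 - p 6 * z 3 + p 9 * z 1),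
    p 4 * z 4 - p 6 * z 2 + p 8 * z 1, -(p 4 * z 3 - p 5 * z 2 + p 7 * z 1),
    p 2 * z 4 - p 3 * z 3 + p 9 * z 0, -(p 1 * z 4 - p 3 * z 2 + p 8 * z 0),
    p 1 * z 3 - p 2 * z 2 + p 7 * z 0, p 0 * z 4 - p 3 * z 1 + p 6 * z 0,
    -(p 0 * z 3 - p 2 * z 1 + p 5 * z 0), p 0 * z 2 - p 1 * z 1 + p 4 * z 0]

theorem nodec2_wd0 (z : Fin 5 → ℂ) : nodec2_wd 0 z = 0 := by
  funext i
  fin_cases i <;> simp [nodec2_wd]

theorem nodec2_wd1 (u v w : Fin 6 → ℂ) (a c : ℂ) :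
    nodec2_wd (pw (nodec2_sp u v w a 0 c) (nodec2_sp u v w 0 1 0)) (nodec2_sp u v w 1 0 0) =
        -c • xiN (w3 u v w) ∧
      nodec2_wd (pw (nodec2_sp u v w a 0 c) (nodec2_sp u v w 0 1 0)) (nodec2_sp u v w 0 0 1) =
        a • xiN (w3 u v w) := by
  constructor <;> funext i <;> fin_cases i <;>
    simp [nodec2_wd, pw, nodec2_sp, nodec2_r, xiN, w3] <;> ring

theorem nodec2_xi1 (u v w : Fin 6 → ℂ) (a b c : ℂ) (x : Fin 5 → ℂ) :
    xiN (w3 u v w) ⬝ᵥ pw x (nodec2_sp u v w a b c) = 0 := by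
  simp [dotProduct, Fin.sum_univ_succ, pw, nodec2_sp, nodec2_r, xiN, w3]
  ring

theorem nodec2_xi2 (u v w : Fin 6 → ℂ) (a b c : ℂ) (x : Fin 5 → ℂ) :
    xiN (w3 u v w) ⬝ᵥ pw (nodec2_sp u v w a b c) x = 0 := by
  simp [dotProduct, Fin.sum_univ_succ, pw, nodec2_sp, nodec2_r, xiN, w3]
  ring

theorem nodec2_w (u v w : Fin 6 → ℂ) :
    pw (nodec2_sp u v w (-v 5) (u 5) 0) (nodec2_sp u v w (-w 5) 0 (u 5)) = u 5 • wN (w3 u v w) ∧
    pw (nodec2_sp u v w (v 5) (-u 5) 0) (nodec2_sp u v w 0 (w 5) (-v 5)) = v 5 • wN (w3 u v w) ∧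
    pw (nodec2_sp u v w (w 5) 0 (-u 5)) (nodec2_sp u v w 0 (w 5) (-v 5)) =
      w 5 • wN (w3 u v w) := by
  refine ⟨?_, ?_, ?_⟩ <;> funext i <;> fin_cases i <;>
    simp [pw, nodec2_sp, nodec2_r, wN, w3] <;> ring

theorem nodec2_w0 {u v w : Fin 6 → ℂ} (hu : u 5 = 0) (hv : v 5 = 0) (hw : w 5 = 0) :
    wN (w3 u v w) = 0 := by
  funext i
  fin_cases i <;> simp [wN, w3, hu, hv, hw]

theorem nodec2_bs (q : M10 ℂ) (p p' : Fin 10 → ℂ) : bs q p p' = ((q + qᵀ) *ᵥ p) ⬝ᵥ p' := by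
  rw [bs, bq, bq, add_mulVec, add_dotProduct, mulVec_transpose, ← dotProduct_mulVec,
    dotProduct_comm p', add_comm]

theorem nodec2_lin (u v w : Fin 6 → ℂ) (s : ℂ) (y : Fin 5 → ℂ) :
    pw (nodec2_sp u v w 1 0 s) y =
      pw (nodec2_sp u v w 1 0 0) y + s • pw (nodec2_sp u v w 0 0 1) y := by
  funext i
  fin_cases i <;> simp [pw, nodec2_sp, nodec2_r] <;> ring

theorem nodec2_root (q : M10 ℂ) (p p' : Fin 10 → ℂ) (h : bq q p' p' ≠ 0) :
    ∃ s : ℂ, bq q (p + s • p') (p + s • p') = 0 := by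
  obtain ⟨s, hs⟩ := exists_quadratic_eq_zero (b := bs q p p') (c := bq q p p) h
    (IsAlgClosed.exists_eq_mul_self _)
  refine ⟨s, ?_⟩
  rw [← hs]
  simp only [bs, bq, mulVec_add, mulVec_smul, add_dotProduct, dotProduct_add, smul_dotProduct,
    dotProduct_smul, smul_eq_mul]
  ring

theorem nodec2_zero {a : Fin 6 → Fin 6 → Fin 6 → ℂ}
    (alt : ∀ i j k, a j i k = -a i j k ∧ a i k j = -a i j k) (hw : wN a = 0) (hx : xiN a = 0) :
    a = 0 := by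
  have s1 : ∀ i j k, a i j k = 0 → a j i k = 0 := fun i j k h => by
    rw [(alt i j k).1, h, neg_zero]
  have s2 : ∀ i j k, a i j k = 0 → a i k j = 0 := fun i j k h => by
    rw [(alt i j k).2, h, neg_zero]
  have s3 : ∀ i j k, a k i j = 0 → a i j k = 0 := fun i j k h => s2 _ _ _ (s1 _ _ _ h)
  have d : ∀ i k, a i i k = 0 := fun i k => by linear_combination (1 / 2 : ℂ) * (alt i i k).1
  have L : ∀ i j k : Fin 6, i < j → j < k → (i, j, k) ∈ [(0, 1, 5), (0, 2, 5), (0, 3, 5),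
      (0, 4, 5), (1, 2, 5), (1, 3, 5), (1, 4, 5), (2, 3, 5), (2, 4, 5), (3, 4, 5), (2, 3, 4),
      (1, 3, 4), (1, 2, 4), (1, 2, 3), (0, 3, 4), (0, 2, 4), (0, 2, 3), (0, 1, 4), (0, 1, 3),
      ((0 : Fin 6), (1 : Fin 6), (2 : Fin 6))] := by decide
  have S : ∀ i j k, i < j → j < k → a i j k = 0 := by
    intro i j k ij jk
    have := L i j k ij jk
    simp only [List.mem_cons, Prod.mk.injEq, List.not_mem_nil, or_false] at this
    rcases this with h | h | h | h | h | h | h | h | h | h | h | h | h | h | h | h | h | h | h |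
      h <;> obtain ⟨rfl, rfl, rfl⟩ := h
    exacts [s3 _ _ _ (congrFun hw 0), s3 _ _ _ (congrFun hw 1), s3 _ _ _ (congrFun hw 2),
      s3 _ _ _ (congrFun hw 3), s3 _ _ _ (congrFun hw 4), s3 _ _ _ (congrFun hw 5),
      s3 _ _ _ (congrFun hw 6), s3 _ _ _ (congrFun hw 7), s3 _ _ _ (congrFun hw 8),
      s3 _ _ _ (congrFun hw 9), congrFun hx 0, neg_eq_zero.1 (congrFun hx 1), congrFun hx 2,
      neg_eq_zero.1 (congrFun hx 3), congrFun hx 4, neg_eq_zero.1 (congrFun hx 5), congrFun hx 6,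
      congrFun hx 7, neg_eq_zero.1 (congrFun hx 8), congrFun hx 9]
  have T : ∀ i j k, i < j → a i j k = 0 := by
    intro i j k ij
    rcases lt_trichotomy j k with h | rfl | h
    · exact S _ _ _ ij h
    · exact s1 _ _ _ (s2 _ _ _ (d _ _))
    · rcases lt_trichotomy i k with g | rfl | g
      · exact s2 _ _ _ (S _ _ _ g h)
      · exact s2 _ _ _ (d _ _)
      · exact s3 _ _ _ (S _ _ _ g ij)
  funext i j k
  rcases lt_trichotomy i j with h | rfl | h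
  · exact T _ _ _ h
  · exact d _ _
  · exact s1 _ _ _ (T _ _ _ h)

theorem nodec2_one {h : Fin 10 → ℂ} {q : M10 ℂ} (hs : SmoothN h q) {u v w : Fin 6 → ℂ}
    (hL : InLagN h q (w3 u v w)) {a b c a' b' c' t : ℂ} (ht : t ≠ 0)
    (e : pw (nodec2_sp u v w a b c) (nodec2_sp u v w a' b' c') = t • wN (w3 u v w)) :
    wN (w3 u v w) = 0 := by
  by_contra hne
  obtain ⟨-, h0, μ, hμ⟩ := hL
  have h1 : h ⬝ᵥ pw (nodec2_sp u v w a b c) (nodec2_sp u v w a' b' c') = 0 := by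
    rw [e, dotProduct_smul, h0, smul_zero]
  have h2 : ∀ p', bs q (pw (nodec2_sp u v w a b c) (nodec2_sp u v w a' b' c')) p' =
      t * (xiN (w3 u v w) ⬝ᵥ p' - μ * h ⬝ᵥ p') := fun p' => by
    rw [nodec2_bs, e, mulVec_smul, smul_dotProduct, hμ, add_dotProduct, smul_dotProduct]
    simp
  have h3 := h2 (pw (nodec2_sp u v w a b c) (nodec2_sp u v w a' b' c'))
  rw [nodec2_xi1, h1, bs] at h3
  refine one_ne_zero (hs _ _ (pw_ne.2 (by rw [e]; exact smul_ne_zero ht hne)) h1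
    (by linear_combination (1 / 2 : ℂ) * h3) (t * μ) 1 fun u' v' => ?_).2
  rw [h2, dotProduct_add (xiN _), nodec2_xi1, nodec2_xi2]
  ring

theorem nodec2_two {h : Fin 10 → ℂ} {q : M10 ℂ} (hs : SmoothN h q) {u v w : Fin 6 → ℂ} {μ : ℂ}
    (hμ : xiN (w3 u v w) = μ • h) {a c : ℂ} (hac : a ≠ 0 ∨ c ≠ 0)
    (e : bq q (pw (nodec2_sp u v w a 0 c) (nodec2_sp u v w 0 1 0))
      (pw (nodec2_sp u v w a 0 c) (nodec2_sp u v w 0 1 0)) = 0) : xiN (w3 u v w) = 0 := by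
  by_contra hne
  have m0 : μ ≠ 0 := by
    rintro rfl
    exact hne (by rw [hμ, zero_smul])
  have h1 : ∀ p, xiN (w3 u v w) ⬝ᵥ p = 0 → h ⬝ᵥ p = 0 := fun p hp => by
    rw [hμ, smul_dotProduct, smul_eq_mul] at hp
    exact (mul_eq_zero.1 hp).resolve_left m0
  have h2 : pw (nodec2_sp u v w a 0 c) (nodec2_sp u v w 0 1 0) ≠ 0 := by
    intro h0
    obtain ⟨e1, e2⟩ := nodec2_wd1 u v w a c
    rw [h0, nodec2_wd0] at e1 e2
    rcases hac with g | g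
    · exact smul_ne_zero g hne e2.symm
    · exact smul_ne_zero (neg_ne_zero.2 g) hne e1.symm
  refine one_ne_zero (hs _ _ (pw_ne.2 h2) (h1 _ (nodec2_xi1 ..)) e 1 0 fun u' v' => ?_).1
  rw [h1 _ (by rw [dotProduct_add, nodec2_xi1, nodec2_xi2, add_zero])]
  ring

/-- Let `w3 u v w ≠ 0` lie in the Lagrangian. If one of `u 5, v 5, w 5` is not zero, change the
basis of the span so that `u 5 = v 5 = 0`, `w 5 = 1` (this scales the trivector); then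
`wN = pw u v ≠ 0` is a singular point: `xiN` kills `pw u v` and all `pw u' v + pw u v'`; take
`(a, b) = (μ, 1)`. Otherwise `wN = 0`, `xiN = μ • h ≠ 0`; the ternary quadratic form `q` on the
bivectors of the span of `u, v, w` has a nonzero isotropic vector of the form
`pw (u + s • w) v` or `pw w v`; there `h` kills the tangent space; take `(a, b) = (1, 0)`. -/
theorem smooth_nodec {h : Fin 10 → ℂ} {q : M10 ℂ} (hs : SmoothN h q) : NoDec h q := by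
  intro u v w hL
  have hw : wN (w3 u v w) = 0 := by
    obtain ⟨e1, e2, e3⟩ := nodec2_w u v w
    by_cases h1 : u 5 = 0
    · by_cases h2 : v 5 = 0
      · by_cases h3 : w 5 = 0
        · exact nodec2_w0 h1 h2 h3
        · exact nodec2_one hs hL h3 e3
      · exact nodec2_one hs hL h2 e2
    · exact nodec2_one hs hL h1 e1
  obtain ⟨alt, -, μ, hμ⟩ := hL
  rw [hw, mulVec_zero, zero_add] at hμ
  refine nodec2_zero alt hw ?_
  by_cases hC : bq q (pw (nodec2_sp u v w 0 0 1) (nodec2_sp u v w 0 1 0))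
    (pw (nodec2_sp u v w 0 0 1) (nodec2_sp u v w 0 1 0)) = 0
  · exact nodec2_two hs hμ (Or.inr one_ne_zero) hC
  · obtain ⟨s, e⟩ := nodec2_root q (pw (nodec2_sp u v w 1 0 0) (nodec2_sp u v w 0 1 0)) _ hC
    rw [← nodec2_lin] at e
    exact nodec2_two hs hμ (Or.inl one_ne_zero) e


end Pool.Agent.GM34
end

-- merged part: Pool.Agent.Work.MP_274aea_ag_D34.Ext
section
set_option autoImplicit false

open MvPolynomial Matrix Pool.Agent.GM16 Filter Topology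

namespace Pool.Agent.GM34

theorem ev_dn {ι : Type} (x v : ι → ℂ) :
    ((aeval (dn x v) : MvPolynomial ι ℂ →ₐ[ℂ] DualNumber ℂ) : MvPolynomial ι ℂ →+* DualNumber ℂ) ∘
      (X : ι → MvPolynomial ι ℂ) = dn x v := funext fun i => aeval_X _ i

theorem ift2 : ∀ᶠ x in 𝓝 (x2 : Par ⊕ Aux → ℂ), ∀ U ∈ 𝓝 x, ∀ᶠ y in 𝓝 x, ∃ z ∈ U,
    (∀ s, s ≠ s0 → z (Sum.inl s) = y (Sum.inl s)) ∧ F2 z = F2 x := by
  have e : ∀ (x : Par ⊕ Aux → ℂ) (k : Eq2), eval x (F2 X k) = F2 x k := fun x k => by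
    rw [map_F2, ev_X]
  have h := ift (fun k => F2 X k) {i | ∀ s, i = Sum.inl s → s = s0} (x2 : Par ⊕ Aux → ℂ)
    fun r => by
      obtain ⟨v, h1, h2⟩ := cert2 r
      refine ⟨v, fun i hi => ?_, fun k => ?_⟩
      · simp only [Set.mem_ofPred_eq, not_forall] at hi
        obtain ⟨s, rfl, hs⟩ := hi
        exact h1 s hs
      · have h3 := map_F2 ((aeval (dn x2 v) : MvPolynomial _ ℂ →ₐ[ℂ] DualNumber ℂ) :
          MvPolynomial (Par ⊕ Aux) ℂ →+* DualNumber ℂ) X k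
        rw [ev_dn] at h3
        rw [← h2 k, ← h3]
        rfl
  refine h.mono fun x hx U hU => (hx U hU).mono fun y ⟨z, hz, h1, h2⟩ => ⟨z, hz, fun s hs => ?_,
    funext fun k => by rw [← e, ← e, h2]⟩
  exact h1 _ fun h => hs (h s rfl)

theorem ift1 (U : Set (Par ⊕ Aux1 → ℂ)) (hU : U ∈ 𝓝 x1) : ∀ᶠ y in 𝓝 (x1 : Par ⊕ Aux1 → ℂ),
    ∃ z ∈ U, z ∘ Sum.inl = y ∘ Sum.inl ∧ HasPlane (bJ z) (hv (z ∘ Sum.inl)) (zq z) := by
  have e : ∀ (x : Par ⊕ Aux1 → ℂ) (k : Eq1), eval x (F1x X k) = F1x x k := fun x k => by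
    rw [map_F1x, ev_X]
  have h := ift (fun k => F1x X k) (Set.range Sum.inr) (x1 : Par ⊕ Aux1 → ℂ) fun r => by
    obtain ⟨v, h1, h2⟩ := cert1 r
    refine ⟨v, fun i hi => ?_, fun k => ?_⟩
    · rcases i with s | s
      · exact h1 s
      · exact absurd ⟨s, rfl⟩ hi
    · have h3 := map_F1x ((aeval (dn x1 v) : MvPolynomial _ ℂ →ₐ[ℂ] DualNumber ℂ) :
        MvPolynomial (Par ⊕ Aux1) ℂ →+* DualNumber ℂ) X k
      rw [ev_dn] at h3
      rw [← h2 k, ← h3]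
      rfl
  refine (h.self_of_nhds U hU).mono fun y ⟨z, hz, h1, h2⟩ => ⟨z, hz,
    funext fun s => h1 _ (by simp), (F1_iff _ _ _).1 ?_⟩
  have h0 : F1x (x1 : Par ⊕ Aux1 → ℂ) = 0 := by
    change F1 (hv (x1 ∘ Sum.inl)) (zq x1) (bJ x1) = 0
    rw [x1_h, x1_q, x1_J, F1_iff]
    exact num_plane
  change F1x z = 0
  rw [← h0]
  exact funext fun k => by rw [← e, ← e, h2]

theorem det_ne {A B : M3 ℂ} (h : A * B = 1) : A.det ≠ 0 :=
  (isUnit_det_of_right_inverse h).ne_zero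

/-- Solutions of the large system with a smooth Legendre transform accumulate at the witness. -/
theorem step1 (V : Set (Par ⊕ Aux → ℂ)) (hV : V ∈ 𝓝 x2) : ∃ x ∈ V, F2 x = 0 ∧
    (xL x).det ≠ 0 ∧ SmoothN (hv (xT x (xL x)⁻¹)) (qm (xT x (xL x)⁻¹)) := by
  have hd : (zL (x1 : Par ⊕ Aux1 → ℂ)).det ≠ 0 := by
    rw [x1_L]
    exact det_ne num_inv
  have h1 : Th x1 (zL (x1 : Par ⊕ Aux1 → ℂ))⁻¹ = x2 := by
    rw [x1_L, inv_eq_right_inv num_inv, Th_x1]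
  have h2 : {z : Par ⊕ Aux1 → ℂ | Th z (zL z)⁻¹ ∈ V} ∈ 𝓝 x1 := by
    rw [← h1] at hV
    exact cont_Th hd hV
  have h3 : {z : Par ⊕ Aux1 → ℂ | (zL z).det ≠ 0} ∈ 𝓝 x1 :=
    (cont_zL.matrix_det.continuousAt).eventually_ne hd
  have h4 := ift1 _ (inter_mem h2 h3)
  obtain ⟨g, ⟨t1, ht1, hg1⟩, hg⟩ := smooth_open num_B num_oct.1 num_kap
  let γ : ℂ → Par ⊕ Aux1 → ℂ := fun a =>
    x1 + a • Sum.elim (t1 - mkP H0 Q0) (0 : Aux1 → ℂ)
  have hγ : Continuous γ := by fun_prop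
  have h5 : γ 0 = x1 := by simp [γ]
  obtain ⟨a, ⟨z, ⟨hz1, hz2⟩, hz3, hz4⟩, ha⟩ := line_near g (mkP H0 Q0) t1 hg1
    (hγ.continuousAt (h5 ▸ h4))
  have h6 : z ∘ Sum.inl = mkP H0 Q0 + a • (t1 - mkP H0 Q0) := hz3
  have ho : OctN m0 (hv (z ∘ Sum.inl)) (qm (z ∘ Sum.inl)) := by
    rw [h6]
    refine octN_line ?_ ht1 a
    rw [hv_mkP, qm_mkP]
    exact num_oct
  have hs := smoothN_P0 (hg _ ho (h6 ▸ ha)) (bC z)
  have hN : zL z * (zL z)⁻¹ = 1 := mul_nonsing_inv _ (Ne.isUnit hz2)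
  have hN' : (zL z)⁻¹ * zL z = 1 := nonsing_inv_mul _ (Ne.isUnit hz2)
  obtain ⟨l1, l2⟩ := leg_leg hz4 hN
  refine ⟨Th z (zL z)⁻¹, hz1, ?_, ?_, ?_⟩
  · rw [F2_eq, Th_h, Th_q, Th_J, F2core_iff (N := zL z) (by rw [LL_leg, hN'])]
    refine ⟨leg_plane _ _ _ _, rfl, ?_⟩
    change OctN m0 (legH _ (LL _ _) _ _) (legQ _ (LL _ _) _)
    rw [l1]
    exact octN_congr l2.symm (octN_P0 ho (bC z))
  · rw [Th_L]
    exact det_ne hN'
  · rw [Th_L, inv_eq_right_inv hN', xT, hv_mkP, qm_mkP, Th_h, Th_q, Th_J]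
    change SmoothN (legH _ (LL _ _) _ _) (legQ _ (LL _ _) _)
    rw [l1]
    exact smoothN_congr l2.symm hs

theorem step2 {x : Par ⊕ Aux → ℂ} (h0 : F2 x = 0) (hd : (xL x).det ≠ 0)
    (hc : cond3 x (xL x)⁻¹ ≠ 0) (hs : SmoothN (hv (xT x (xL x)⁻¹)) (qm (xT x (xL x)⁻¹))) :
    Anticanonical (aM (x ∘ Sum.inr)) ∧ ContainsOctic (aM (x ∘ Sum.inr)) (xT x (xL x)⁻¹) ∧
      IsSmoothGM (xT x (xL x)⁻¹) ∧ Partner (xT x (xL x)⁻¹) (x ∘ Sum.inl) ∧
      IsSmoothGM (x ∘ Sum.inl) ∧ RationalChart (x ∘ Sum.inl) := by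
  have hN : LL (xJ x) (xq x) * (xL x)⁻¹ = 1 := mul_nonsing_inv _ (Ne.isUnit hd)
  rw [F2_eq, F2core_iff hN] at h0
  obtain ⟨hp, -, ho⟩ := h0
  have c1 := left_ne_zero_of_mul (left_ne_zero_of_mul hc)
  have c2 := right_ne_zero_of_mul (left_ne_zero_of_mul hc)
  have c3 := right_ne_zero_of_mul hc
  obtain ⟨B, hB⟩ := good_B c1
  have hP : PartnerN (hv (xT x (xL x)⁻¹)) (qm (xT x (xL x)⁻¹)) (hv (x ∘ Sum.inl))
      (qm (x ∘ Sum.inl)) := by
    rw [xT, hv_mkP, qm_mkP]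
    exact partner_trans (partner_leg hp hN) (partner_G _ _ _ _)
  refine ⟨anti_of hB, (oct_iff _ _).2 ?_, (smooth_iff _).2 hs, partner_of hP, (smooth_iff _).2
    (nodec_smooth (kap1_ne c2) (partner_nodec hP (smooth_nodec hs))),
    chart_of (rat2 c1 hp hN ho c2 c3)⟩
  rwa [xT, hv_mkP, qm_mkP]

theorem main2 : ∃ (s : Par) (U : Set (Par → ℂ)), IsOpen U ∧ U.Nonempty ∧ ∀ y ∈ U,
    ∃ m t t', Anticanonical m ∧ ContainsOctic m t ∧ IsSmoothGM t ∧ Partner t t' ∧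
      (∀ s', s' ≠ s → t' s' = y s') ∧ IsSmoothGM t' ∧ RationalChart t' := by
  have hi : (Nh0 : M3 ℂ) * L0 = 1 := mul_eq_one_comm.1 num_inv
  have hd : (xL (x2 : Par ⊕ Aux → ℂ)).det ≠ 0 := by
    rw [x2_L]
    exact det_ne hi
  have h1 : ∀ᶠ x in 𝓝 (x2 : Par ⊕ Aux → ℂ), cond3 x (xL x)⁻¹ ≠ 0 :=
    (cont_cond3 hd).eventually_ne (by
      rw [x2_L, inv_eq_right_inv hi]
      exact num_cond3)
  obtain ⟨x, ⟨hx1, hx2⟩, h0, hxd, hsm⟩ := step1 _ (h1.eventually_nhds.and ift2)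
  have h2 : ∀ᶠ y in 𝓝 x, (xL y).det ≠ 0 := (cont_xL.matrix_det.continuousAt).eventually_ne hxd
  have h3 : ∀ᶠ y in 𝓝 x, SmoothN (hv (xT y (xL y)⁻¹)) (qm (xT y (xL y)⁻¹)) := by
    have c : Continuous fun t : Par → ℂ => (hv t, qm t) :=
      (continuous_pi fun i => continuous_apply _).prodMk
        (continuous_matrix fun i j => continuous_apply _)
    exact (c.continuousAt.comp (cont_xT hxd)).eventually (isOpen_smooth.mem_nhds hsm)
  have h4 := hx2 _ (hx1.and (h2.and h3))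
  have c : Continuous fun y : Par → ℂ => Sum.elim y (x ∘ Sum.inr) :=
    continuous_pi fun i => by
      rcases i with i | i
      · exact continuous_apply i
      · exact continuous_const
  rw [← Sum.elim_comp_inl_inr x] at h4
  obtain ⟨U, hU, ho, hx⟩ := eventually_nhds_iff.1 ((c.tendsto (x ∘ Sum.inl)).eventually h4)
  refine ⟨s0, U, ho, ⟨_, hx⟩, fun y hy => ?_⟩
  obtain ⟨z, ⟨z1, z2, z3⟩, hz, hF⟩ := hU y hy
  rw [Sum.elim_comp_inl_inr x] at hF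
  obtain ⟨a1, a2, a3, a4, a5, a6⟩ := step2 (hF.trans h0) z2 z1 z3
  exact ⟨_, _, _, a1, a2, a3, a4, hz, a5, a6⟩

end Pool.Agent.GM34
end
end
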