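import Pool.Agent.Work.MP_274aea_ag.Stmt

set_option autoImplicit false

open MvPolynomial Matrix Pool.Agent.GM16

namespace Pool.Agent.GM34

/-- Index set of the entries of five `3 × 3` matrices whose entry `(2,0)` is zero. -/
abbrev Mi := Fin 5 × Fin 8

/-- The matrix number `k`. -/
def mat {R : Type*} [CommRing R] (m : Mi → R) (k : Fin 5) : Matrix (Fin 3) (Fin 3) R :=
  !![m (k, 0), m (k, 1), m (k, 2); m (k, 3), m (k, 4), m (k, 5); 0, m (k, 6), m (k, 7)]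

/-- Pluecker coordinates of the plane of `ℂ⁵` spanned by `(y · M_k x)_k` and `(y' · M_k x)_k`,
where `x = y × y'`. They are the cubic forms `det (x, M_k x, M_l x)`, which vanish at `(1,0,0)`. -/
noncomputable def octic (m : Mi → ℂ) (y y' : Fin 3 → ℂ) : Idx → ℂ :=
  pl (fun k => y ⬝ᵥ mat m k *ᵥ (y ⨯₃ y')) (fun k => y' ⬝ᵥ mat m k *ᵥ (y ⨯₃ y'))

/-- The hyperplane and the quadric contain the surface. -/
def ContainsOctic (m : Mi → ℂ) (t : Par → ℂ) : Prop :=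
  ∀ y y' : Fin 3 → ℂ, Hf t (octic m y y') = 0 ∧ Qf t (octic m y y') (octic m y y') = 0

/-- The nine cubic monomials that vanish at `(1,0,0)`. -/
def cubics {R : Type*} [CommRing R] (x : Fin 3 → R) : Fin 9 → R :=
  ![x 0 ^ 2 * x 1, x 0 ^ 2 * x 2, x 0 * x 1 ^ 2, x 0 * x 1 * x 2, x 0 * x 2 ^ 2, x 1 ^ 3,
    x 1 ^ 2 * x 2, x 1 * x 2 ^ 2, x 2 ^ 3]

/-- The ten cubic forms span all cubics through `(1,0,0)`: the surface is the plane blown up at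
one point in its anticanonical embedding of degree eight. -/
def Anticanonical (m : Mi → ℂ) : Prop :=
  ∃ B : Matrix (Fin 9) Idx ℂ, ∀ y y' : Fin 3 → ℂ, B *ᵥ octic m y y' = cubics (y ⨯₃ y')

/-- The conclusion of the frozen statement for the parameter `t`. -/
def RationalChart (t : Par → ℂ) : Prop :=
  ∀ A : Matrix (Fin 2) (Fin 5) (MvPolynomial (Fin 6) ℂ),
    A = !![(1 : MvPolynomial (Fin 6) ℂ), 0, X 0, X 1, X 2; 0, 1, X 3, X 4, X 5] →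
  ∀ J : Ideal (MvPolynomial (Fin 6) ℂ),
    J = Ideal.span
      {∑ s : Idx, C (t (Sum.inl s)) * (A 0 s.1.1 * A 1 s.1.2 - A 0 s.1.2 * A 1 s.1.1),
       ∑ s : Idx, ∑ s' : Idx, C (t (Sum.inr (s, s'))) *
          (A 0 s.1.1 * A 1 s.1.2 - A 0 s.1.2 * A 1 s.1.1) *
          (A 0 s'.1.1 * A 1 s'.1.2 - A 0 s'.1.2 * A 1 s'.1.1)} →
    J.IsPrime ∧ Nonempty (FractionRing (MvPolynomial (Fin 6) ℂ ⧸ J) ≃ₐ[ℂ]
      FractionRing (MvPolynomial (Fin 4) ℂ))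

/-- Write a trivector `a` of `ℂ⁶ = ℂ⁵ ⊕ ℂ e₅` as `ξ + e₅ ∧ w`. This is the bivector `w`. -/
def wpart (a : Fin 6 → Fin 6 → Fin 6 → ℂ) (s : Idx) : ℂ := a 5 s.1.1.castSucc s.1.2.castSucc

/-- The coefficient of `e₀ ∧ e₁ ∧ e₂ ∧ e₃ ∧ e₄` in `ξ ∧ u ∧ v`. -/
def xiWedge (a : Fin 6 → Fin 6 → Fin 6 → ℂ) (u v : Fin 5 → ℂ) : ℂ :=
  a 2 3 4 * (u 0 * v 1 - u 1 * v 0) - a 1 3 4 * (u 0 * v 2 - u 2 * v 0) +
  a 1 2 4 * (u 0 * v 3 - u 3 * v 0) - a 1 2 3 * (u 0 * v 4 - u 4 * v 0) +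
  a 0 3 4 * (u 1 * v 2 - u 2 * v 1) - a 0 2 4 * (u 1 * v 3 - u 3 * v 1) +
  a 0 2 3 * (u 1 * v 4 - u 4 * v 1) + a 0 1 4 * (u 2 * v 3 - u 3 * v 2) -
  a 0 1 3 * (u 2 * v 4 - u 4 * v 2) + a 0 1 2 * (u 3 * v 4 - u 4 * v 3)

/-- The Lagrangian subspace `A ⊂ Λ³ ℂ⁶` of the pair `(H, Q)`: alternating `a = ξ + e₅ ∧ w` with
`H w = 0` and `ξ ∧ ·` equal to the polar form of `Q` at `w` modulo `H`. -/
def InLag (t : Par → ℂ) (a : Fin 6 → Fin 6 → Fin 6 → ℂ) : Prop :=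
  (∀ i j k, a j i k = -a i j k ∧ a i k j = -a i j k) ∧ Hf t (wpart a) = 0 ∧
    ∃ μ : ℂ, ∀ u v : Fin 5 → ℂ,
      xiWedge a u v = Qf t (wpart a) (pl u v) + Qf t (pl u v) (wpart a) + μ * Hf t (pl u v)

/-- The action of a matrix on trivectors. -/
noncomputable def act (g : Matrix (Fin 6) (Fin 6) ℂ) (a : Fin 6 → Fin 6 → Fin 6 → ℂ)
    (i j k : Fin 6) : ℂ :=
  ∑ i', ∑ j', ∑ k', g i i' * g j j' * g k k' * a i' j' k'

/-- Period partners: the two Lagrangian subspaces differ by an element of `GL₆`. -/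
def Partner (t t' : Par → ℂ) : Prop :=
  ∃ g : Matrix (Fin 6) (Fin 6) ℂ, g.det ≠ 0 ∧ ∀ a, InLag t a ↔ InLag t' (act g a)

end Pool.Agent.GM34
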